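import Pool.Agent.Lib.H16A.N11

/-!
# SL (M): the lower bound for the Selmer group over `K = ℚ(√D)` for a general `D < 0`

The same proofs as `Cub.mem_selSub` (S3) and `Split.sel_lower` (N11), where `D = -∏ T`; only `D < 0`, and `p ∥ D` for `p ∈ T`, is used:
S3 uses `mem_imSub_complex` (`D < 0`), `mem_imSub_bad`, `loc_ramified` (C5: `p ∥ D`), `mem_imSub_good`.  Copy and adapt.
-/

open Polynomial IsDedekindDomain NumberField H16A

namespace H16B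

theorem mem_selSub' (E : Cub) (hd : E.disc ≠ 0) (K : Type*) [Field K] [NumberField K] (δ : K)
    (T : Finset ℕ) (D : ℤ) (hD : D < 0) (hδ : δ ^ 2 = (D : K))
    (hTD : ∀ p ∈ T, (p : ℤ) ∣ D ∧ ¬ (p : ℤ) ^ 2 ∣ D)
    (hT : ∀ p ∈ T, p.Prime ∧ ¬ (p : ℤ) ∣ 2 * E.disc ∧ E.RootsMod p) (h : (E.Alg ℚ)ˣ)
    (hN : IsSquare (Algebra.norm ℚ (h : E.Alg ℚ))) (hg : E.GoodAway T h) (h1 : E.OneAt h) :
    E.uMap (algebraMap ℚ K) h ∈ E.selSub K := by
  have hcomp : ∀ {L : Type _} [Field L] [CharZero L] (ψ : K →+* L) (χ : ℚ →+* L),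
      E.uMap ψ (E.uMap (algebraMap ℚ K) h) = E.uMap χ h := by
    intro L _ _ ψ χ
    apply Units.ext
    change E.algMap ψ (E.algMap (algebraMap ℚ K) (h : E.Alg ℚ)) = E.algMap χ (h : E.Alg ℚ)
    rw [E.algMap_comp, Subsingleton.elim (ψ.comp (algebraMap ℚ K)) χ]
  rw [Cub.selSub, Subgroup.mem_inf, Subgroup.mem_inf]
  refine ⟨?_, ?_, ?_⟩
  · change IsSquare (Algebra.norm K (E.algMap (algebraMap ℚ K) (h : E.Alg ℚ)))
    rw [E.norm_algMap]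
    exact hN.map (algebraMap ℚ K)
  · rw [Subgroup.mem_iInf]
    intro v
    rw [Subgroup.mem_comap]
    have hcv : CharZero (v.adicCompletion K) :=
      charZero_of_injective_algebraMap (algebraMap K (v.adicCompletion K)).injective
    have key : ∀ χ : ℚ →+* v.adicCompletion K, E.uMap χ h ∈ E.imSub (v.adicCompletion K) →
        E.uMap (algebraMap K (v.adicCompletion K)) (E.uMap (algebraMap ℚ K) h) ∈
          E.imSub (v.adicCompletion K) := by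
      intro χ hχ
      rw [hcomp (algebraMap K (v.adicCompletion K)) χ]
      exact hχ
    obtain ⟨p, hp, hv⟩ := exists_prime_mem v
    by_cases hbad : (p : ℤ) ∣ 2 * E.disc
    · exact key _ (E.mem_imSub_bad v hp hv hbad h h1)
    · by_cases hpT : p ∈ T
      · exact key _ (E.loc_ramified v δ _ hδ hp hv (hTD p hpT).1 (hTD p hpT).2 hbad
          (hT p hpT).2.2 h hN)
      · exact key _ (E.mem_imSub_good v hp hv hbad h hN (hg p hp hbad hpT))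
  · rw [Subgroup.mem_iInf]
    intro v
    rw [Subgroup.mem_comap]
    exact E.mem_imSub_complex K v (Cub.isComplex_of_neg K δ _ hD hδ v) hd _

theorem sel_lower' {E : Cub} {F : Type} [Field F] [NumberField F] (S : Split E F)
    (hd : E.disc ≠ 0) : ∃ K₅ : ℕ, 0 < K₅ ∧
    ∀ (T : Finset ℕ) (w : ℕ → HeightOneSpectrum (𝓞 F)), (∀ p ∈ T, S.SplP p (w p)) →
    ∀ D : ℤ, D < 0 → (∀ p ∈ T, (p : ℤ) ∣ D ∧ ¬ (p : ℤ) ^ 2 ∣ D) →
    ∀ (K : Type) [Field K] [NumberField K], Module.finrank ℚ K = 2 →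
    ∀ δ : K, δ ^ 2 = (D : K) →
    ∃ Ψ : Finset (E.Alg K)ˣ, 4 ^ T.card ≤ K₅ * Ψ.card ∧ (∀ u ∈ Ψ, u ∈ E.selSub K) ∧
      ∀ u ∈ Ψ, ∀ v ∈ Ψ, u / v ∈ sqSub (E.Alg K) → u = v := by
  classical
  obtain ⟨K₄, hK₄, hcl⟩ := S.exists_classes hd
  refine ⟨8 * K₄, by positivity, ?_⟩
  intro T w hT D hDneg hTD0 K _ _ hfin δ hδD
  obtain ⟨Ψ₀, hcard, hprop, hsep⟩ := hcl T w hT
  have hTD : ∀ p ∈ T, S.SplP p (w p) ∧ (p : ℤ) ∣ D ∧ ¬ (p : ℤ) ^ 2 ∣ D :=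
    fun p hpT => ⟨hT p hpT, (hTD0 p hpT).1, (hTD0 p hpT).2⟩
  have hev : ∀ (i : Fin 3) (h : (E.Alg ℚ)ˣ), S.ev i (h : E.Alg ℚ) ≠ 0 := by
    intro i h h0
    have h1 := congrArg (S.ev i) (h.mul_inv)
    rw [map_mul, h0, zero_mul, map_one] at h1
    exact zero_ne_one h1
  have hev_div : ∀ (i : Fin 3) (h h₀ : (E.Alg ℚ)ˣ) (v : HeightOneSpectrum (𝓞 F)),
      ord v (S.ev i ((h / h₀ : (E.Alg ℚ)ˣ) : E.Alg ℚ)) =
        ord v (S.ev i (h : E.Alg ℚ)) - ord v (S.ev i (h₀ : E.Alg ℚ)) := by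
    intro i h h₀ v
    have h1 : S.ev i ((h / h₀ : (E.Alg ℚ)ˣ) : E.Alg ℚ) =
        S.ev i (h : E.Alg ℚ) / S.ev i (h₀ : E.Alg ℚ) := by
      rw [eq_div_iff (hev i h₀), ← map_mul, ← Units.val_mul, div_mul_cancel]
    rw [h1, ord_div v (hev i h) (hev i h₀)]
  obtain ⟨R, hRcard, hRmem, hRinj⟩ := Split.n11_transversal (sqSub (E.Alg K)) Ψ₀
    (fun h => E.uMap (algebraMap ℚ K) h) (by
      intro h₀ hh₀
      have hex : ∀ h : (E.Alg ℚ)ˣ, ∃ ρ : Fin 3 → Fin 2,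
          E.uMap (algebraMap ℚ K) h / E.uMap (algebraMap ℚ K) h₀ ∈ sqSub (E.Alg K) →
          ∀ p ∈ T, ∀ i, Even (ord (w p) (S.ev i ((h / h₀ : (E.Alg ℚ)ˣ) : E.Alg ℚ)) -
            (ρ i : ℕ)) := by
        intro h
        by_cases hm : E.uMap (algebraMap ℚ K) h / E.uMap (algebraMap ℚ K) h₀ ∈ sqSub (E.Alg K)
        · rw [← _root_.map_div] at hm
          obtain ⟨ρ, hρ⟩ := S.parity_const K hfin δ D hδD T w hTD (h / h₀) hm
          exact ⟨ρ, fun _ => hρ⟩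
        · exact ⟨fun _ => 0, fun h => absurd h hm⟩
      choose ρ hρ using hex
      refine ⟨ρ, fun h hh h' hh' hN hN' heq => hsep h hh h' hh' ?_⟩
      intro p hp i
      have e1 := hρ h hN p hp i
      have e2 := hρ h' hN' p hp i
      rw [← heq] at e2
      rw [hev_div] at e1 e2
      have e3 := e1.sub e2
      have e4 : ord (w p) (S.ev i (h : E.Alg ℚ)) - ord (w p) (S.ev i (h' : E.Alg ℚ)) =
          (ord (w p) (S.ev i (h : E.Alg ℚ)) - ord (w p) (S.ev i (h₀ : E.Alg ℚ)) - (ρ h i : ℕ)) -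
          (ord (w p) (S.ev i (h' : E.Alg ℚ)) - ord (w p) (S.ev i (h₀ : E.Alg ℚ)) - (ρ h i : ℕ)) := by
        ring
      rw [e4]
      exact e3)
  refine ⟨R, ?_, ?_, hRinj⟩
  · calc 4 ^ T.card ≤ K₄ * Ψ₀.card := hcard
      _ ≤ K₄ * (8 * R.card) := Nat.mul_le_mul_left _ hRcard
      _ = 8 * K₄ * R.card := by ring
  · intro u hu
    obtain ⟨h, hh, rfl⟩ := hRmem u hu
    obtain ⟨hN, hg, h1⟩ := hprop h hh
    exact mem_selSub' E hd K δ T D hDneg hδD hTD0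
      (fun p hp => ⟨(hT p hp).prime, (hT p hp).good, (hT p hp).rootsMod⟩) h hN hg h1

end H16B
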