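import Pool.Agent.Lib.H16B.R8
import Pool.Agent.Lib.H16A.U4

/-!
# Y2 (L): the group `G_D` in terms of the good elements

`D` in the family with `m`; `R` = the primes dividing `m`.  `D` is squarefree and not `0`; a prime `p` divides `D` iff `v_p(q_T m)` is odd; so
`p ∈ T`, `p ∤ m` implies `p ∥ D`, and every prime dividing `D` is in `T ∪ R`; the primes in `R` do not divide `2 disc` (`m ≡ 1 mod 8 disc`).
`Z` = the set of all `b ∈ closure (Gen S T)` with `lam3 (lam p) b ∈ LL (gg S (lam p)) (s p)` for all `p ∈ T`, finite with at most `K` elements.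
* `G' = {b ∈ G_D : for all r ∈ R, for one (fixed) prime w_r above r (w_r = w r if r ∈ T) all par_{w_r} b_i = 1, and lam3 (lam r) b = 1 if r ∈ T}`.
  It is the kernel of a homomorphism of `G_D` to a product over `R` of groups in which only the elements of product one occur, at
  most `16` values for each `r` (`r ∈ T`: `lam3 (lam r) b`, `16` triples of product one in `LG`; `r ∉ T`: the parities, `4` triples).  So
  `[G_D : G'] ≤ 16^|R|` and `#G_D ≤ 16^|R| #G'`.
* `b ∈ G'`: `b ∈ Hs (T ∪ R)` (`G_le_Hs`), unramified above the `r ∈ R` (`par_of_galois`), so `b ∈ Hs T`.  `b = β_D(P)` (`mem_G_iff`).  If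
  `P = 0` then `b = 1`; if `P = (x, y)` with `y ≠ 0` then `b ∈ Gen S T`, and `lam3 (lam p) b ∈ LL _ (s p)` for `p ∈ T`: for `p ∤ m` by `beta_mem_LL`
  (`(lam p (cls D)).2 = s p`), for `p ∣ m` since it is `1`; so `b ∈ Z`.  If `y = 0` then `x = D e_i` for some `i`: at most `3` such points, at most
  `3` classes `b`.  So `#G' ≤ K + 3` (`1 ∈ Z`).
-/

open Polynomial IsDedekindDomain NumberField H16A

namespace H16B

variable {E : Cub} {F : Type} [Field F] [NumberField F]

/-- the primes dividing an element of the family -/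
theorem fam_dvd {T : Finset ℕ} {D : ℤ} {m : ℕ} (hF : Fam E T D m) (hT : ∀ p ∈ T, p.Prime)
    {p : ℕ} (hp : p.Prime) : ((p : ℤ) ∣ D → p ∈ T ∨ p ∣ m) ∧ (p ∈ T → ¬ p ∣ m → (p : ℤ) ∣ D) ∧
      ¬ (p : ℤ) ^ 2 ∣ D := by
  have hpZ : Prime (p : ℤ) := Nat.prime_iff_prime_int.1 hp
  have h3 : ¬ (p : ℤ) ^ 2 ∣ D := by
    intro h
    rw [pow_two] at h
    exact hpZ.not_isUnit (hF.sqf _ h)
  obtain ⟨k, hk⟩ : IsSquare (D * (-(∏ q ∈ T, (q : ℤ)) * m)) := by
    rw [← Rat.isSquare_intCast_iff]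
    have h := hF.sq
    push_cast
    exact h
  have hpk : (p : ℤ) ∣ D * (-(∏ q ∈ T, (q : ℤ)) * m) → (p : ℤ) ^ 2 ∣ D * ((∏ q ∈ T, (q : ℤ)) * m) := by
    intro h
    rw [hk] at h
    have h1 : (p : ℤ) ∣ k := (hpZ.dvd_mul.1 h).elim id id
    have h2 : (p : ℤ) ^ 2 ∣ k * k := by
      rw [pow_two]
      exact mul_dvd_mul h1 h1
    rw [← hk] at h2
    have h4 : D * (-(∏ q ∈ T, (q : ℤ)) * m) = -(D * ((∏ q ∈ T, (q : ℤ)) * m)) := by ring
    rw [h4, dvd_neg] at h2
    exact h2
  have hprod : ∀ U ⊆ T, (p : ℤ) ∣ ∏ q ∈ U, (q : ℤ) → p ∈ U := by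
    intro U hU h
    obtain ⟨q, hq, hpq⟩ := (hpZ.dvd_finsetProd_iff _).1 h
    have h2 : p ∣ q := by exact_mod_cast hpq
    rw [(Nat.prime_dvd_prime_iff_eq hp (hT q (hU hq))).1 h2]
    exact hq
  refine ⟨fun h => ?_, fun h1 h2 => ?_, h3⟩
  · by_contra hn
    rw [not_or] at hn
    have h4 := hpk (Dvd.dvd.mul_right h _)
    have h5 : IsCoprime ((p : ℤ) ^ 2) ((∏ q ∈ T, (q : ℤ)) * m) := by
      apply IsCoprime.pow_left
      rw [hpZ.coprime_iff_not_dvd]
      intro h6
      rcases hpZ.dvd_mul.1 h6 with h6 | h6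
      · exact hn.1 (hprod T (Finset.Subset.refl _) h6)
      · exact hn.2 (by exact_mod_cast h6)
    exact h3 (h5.dvd_of_dvd_mul_right h4)
  · by_contra hn
    have h4 := hpk (Dvd.dvd.mul_left (Dvd.dvd.mul_right ((dvd_neg).2 (Finset.dvd_prod_of_mem _ h1)) _) _)
    have h5 : IsCoprime ((p : ℤ) ^ 2) D := by
      apply IsCoprime.pow_left
      rw [hpZ.coprime_iff_not_dvd]
      exact hn
    have h6 := h5.dvd_of_dvd_mul_left h4
    have h7 : IsCoprime ((p : ℤ) ^ 2) (m : ℤ) := by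
      apply IsCoprime.pow_left
      rw [hpZ.coprime_iff_not_dvd]
      intro h
      exact h2 (by exact_mod_cast h)
    have h8 := h7.dvd_of_dvd_mul_right h6
    rw [← Finset.mul_prod_erase T _ h1, pow_two] at h8
    have h9 : (p : ℤ) ∣ ∏ q ∈ T.erase p, (q : ℤ) :=
      (mul_dvd_mul_iff_left hpZ.ne_zero).1 h8
    exact Finset.notMem_erase p T (hprod _ (Finset.erase_subset _ _) h9)

/-- the two first components of the local data at `r` -/
noncomputable def y2_f (T : Finset ℕ) (lam : ℕ → SqC F →* LG) (wr : ℕ → HeightOneSpectrum (𝓞 F))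
    (r : ℕ) : SqC F →* LG := if r ∈ T then lam r else (H16A.par (wr r)).prod 1

theorem y2_f_T {T : Finset ℕ} {lam : ℕ → SqC F →* LG} {wr : ℕ → HeightOneSpectrum (𝓞 F)}
    {r : ℕ} (hr : r ∈ T) : y2_f T lam wr r = lam r := if_pos hr

theorem y2_f_not {T : Finset ℕ} {lam : ℕ → SqC F →* LG} {wr : ℕ → HeightOneSpectrum (𝓞 F)}
    {r : ℕ} (hr : r ∉ T) (x : SqC F) (h : y2_f T lam wr r x = 1) : H16A.par (wr r) x = 1 := by
  unfold y2_f at h
  rw [if_neg hr] at h
  exact congrArg Prod.fst h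

theorem y2_three {A B : Type*} [CommGroup A] [CommGroup B] (f : A →* B) {b : Fin 3 → A}
    (hb : ∏ i, b i = 1) (h0 : f (b 0) = 1) (h1 : f (b 1) = 1) (i : Fin 3) : f (b i) = 1 := by
  have h2 : f (b 2) = 1 := by
    have h := congrArg f hb
    rw [Fin.prod_univ_three, map_mul, map_mul, h0, h1, one_mul, one_mul, map_one] at h
    exact h
  fin_cases i
  · exact h0
  · exact h1
  · exact h2

theorem card_G_le (S : Split E F) (T : Finset ℕ) (w : ℕ → HeightOneSpectrum (𝓞 F))
    (hT : ∀ p ∈ T, S.SplP p (w p)) (lam : ℕ → SqC F →* LG)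
    (hlam : ∀ p ∈ T, LamP p (w p) (lam p)) (s : ℕ → ℤˣ) (K : ℕ)
    (hfin : Finite {b : Fin 3 → SqC F // b ∈ Subgroup.closure (Gen S T) ∧
        ∀ p ∈ T, Split.lam3 (lam p) b ∈ LL (gg S (lam p)) (s p)})
    (hcard : Nat.card {b : Fin 3 → SqC F // b ∈ Subgroup.closure (Gen S T) ∧
        ∀ p ∈ T, Split.lam3 (lam p) b ∈ LL (gg S (lam p)) (s p)} ≤ K)
    {D : ℤ} {m : ℕ} (hF : Fam E T D m)
    (hs : ∀ p ∈ T, ¬ p ∣ m → (lam p (cls (D : F))).2 = s p) :
    Finite (S.G D) ∧ Nat.card (S.G D) ≤ (K + 3) * 16 ^ m.primeFactors.card := by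
  classical
  have hTp : ∀ p ∈ T, p.Prime := fun p hp => (hT p hp).prime
  have hD : D ≠ 0 := hF.sqf.ne_zero
  have hDF : (D : F) ≠ 0 := Int.cast_ne_zero.2 hD
  have hgood : ∀ r : ℕ, r.Prime → r ∣ m → ¬ (r : ℤ) ∣ 2 * E.disc := by
    intro r hr hrm h
    have h1 : r ∣ 8 * E.disc.natAbs := by
      have h2 : r ∣ (2 * E.disc).natAbs := Int.natCast_dvd.1 h
      rw [Int.natAbs_mul] at h2
      have h3 : (2 : ℤ).natAbs * E.disc.natAbs ∣ 8 * E.disc.natAbs :=
        mul_dvd_mul_right (by decide) _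
      exact h2.trans h3
    have h2 : m ≡ 1 [MOD r] := hF.mod.of_dvd h1
    have h3 : r ∣ 1 := (h2.dvd_iff dvd_rfl).1 hrm
    exact hr.one_lt.ne' (Nat.dvd_one.1 h3)
  -- a prime above every prime
  have habove : ∀ r : ℕ, ∃ v : HeightOneSpectrum (𝓞 F), r.Prime → (r : 𝓞 F) ∈ v.asIdeal := by
    intro r
    by_cases hr : r.Prime
    · obtain ⟨v, hv⟩ := u4_exists_above F hr
      exact ⟨v, fun _ => hv⟩
    · obtain ⟨v, -⟩ := u4_exists_above F Nat.prime_two
      exact ⟨v, fun h => absurd h hr⟩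
  choose wr hwr using habove
  let R := m.primeFactors
  let f : ℕ → SqC F →* LG := y2_f T lam wr
  let φ : S.G D →* (R → LG × LG) :=
    { toFun := fun b r => (f r (b.1 0), f r (b.1 1))
      map_one' := by
        funext r
        show (f r 1, f r 1) = 1
        rw [map_one]
        rfl
      map_mul' := by
        intro b c
        funext r
        show (f r (b.1 0 * c.1 0), f r (b.1 1 * c.1 1)) = (f r (b.1 0), f r (b.1 1)) * (f r (c.1 0), f r (c.1 1))
        rw [map_mul, map_mul]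
        rfl }
  have hφ : ∀ b : S.G D, φ b = 1 → ∀ r : ℕ, r.Prime → r ∣ m → ∀ i, f r (b.1 i) = 1 := by
    intro b hb r hr hrm i
    have hrR : r ∈ R := Nat.mem_primeFactors.2 ⟨hr, hrm, hF.pos.ne'⟩
    have h1 := congrFun hb ⟨r, hrR⟩
    have h2 : f r (b.1 0) = 1 := congrArg Prod.fst h1
    have h3 : f r (b.1 1) = 1 := congrArg Prod.snd h1
    obtain ⟨P, hP⟩ := (S.mem_G_iff hD b.1).1 b.2
    exact y2_three (f r) (by rw [← hP]; exact S.beta_prod hD P) h2 h3 i
  let Z := {b : Fin 3 → SqC F // b ∈ Subgroup.closure (Gen S T) ∧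
        ∀ p ∈ T, Split.lam3 (lam p) b ∈ LL (gg S (lam p)) (s p)}
  -- the alternative
  let Q : (Fin 3 → SqC F) → Fin 3 → Prop := fun b i => ∃ (x : ℚ)
    (h : (WeierstrassCurve.Affine.baseChange (E.twist D).W ℚ).Nonsingular x 0),
    b = S.beta D (WeierstrassCurve.Affine.Point.some x 0 h) ∧ algebraMap ℚ F x = (D : F) * S.e i
  have hQ : ∀ b b' i, Q b i → Q b' i → b = b' := by
    rintro b b' i ⟨x, h, rfl, hx⟩ ⟨x', h', rfl, hx'⟩
    have : x = x' := (algebraMap ℚ F).injective (hx.trans hx'.symm)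
    subst this
    rfl
  have key : ∀ b : S.G D, φ b = 1 → (b.1 ∈ Subgroup.closure (Gen S T) ∧
        ∀ p ∈ T, Split.lam3 (lam p) b.1 ∈ LL (gg S (lam p)) (s p)) ∨ ∃ i, Q b.1 i := by
    intro b hb
    have hb1 := hφ b hb
    obtain ⟨P, hP⟩ := (S.mem_G_iff hD b.1).1 b.2
    have hprod : ∏ i, b.1 i = 1 := by rw [← hP]; exact S.beta_prod hD P
    have hgal : ∀ (σ : F ≃ₐ[ℚ] F) (i : Fin 3), sqMap (σ : F →+* F) (b.1 i) = b.1 (S.perm σ i) := by
      intro σ i
      rw [← hP]
      exact S.beta_galois hD P σ i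
    have hHs : b.1 ∈ S.Hs T := by
      refine ⟨hprod, hgal, fun v hv i => ?_⟩
      obtain ⟨p, hp, hpv⟩ := exists_prime_mem v
      obtain ⟨h1, h2⟩ := hv p hp hpv
      by_cases hpD : (p : ℤ) ∣ D
      · rcases (fam_dvd hF hTp hp).1 hpD with h3 | h3
        · exact absurd h3 h2
        · refine S.par_of_galois hp (w := wr p) (hwr p hp) hpv hgal (fun j => ?_) i
          exact y2_f_not h2 _ (hb1 p hp h3 j)
      · rw [← hP]
        exact S.par_beta hD P hp h1 hpD hpv i
    have hLL : ∀ p ∈ T, Split.lam3 (lam p) b.1 ∈ LL (gg S (lam p)) (s p) := by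
      intro p hp
      by_cases hpm : p ∣ m
      · have h1 : Split.lam3 (lam p) b.1 = 1 := by
          funext i
          have h2 := hb1 p (hTp p hp) hpm i
          have h3 : f p = lam p := y2_f_T hp
          rw [h3] at h2
          exact h2
        rw [h1]
        exact one_mem _
      · obtain ⟨-, h2, h3⟩ := fam_dvd hF hTp (hTp p hp)
        rw [← hs p hp hpm]
        exact beta_mem_LL S (hT p hp) (hlam p hp) (h2 hp hpm) h3 b.2
    rcases P with _ | ⟨x, y, h⟩
    · left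
      have h1 : b.1 = 1 := by
        rw [← hP]
        exact S.beta_zero D
      exact ⟨by rw [h1]; exact one_mem _, hLL⟩
    · by_cases hy : y = 0
      · right
        subst hy
        have h1 := u1_eqn (E.twist D) h
        have h2 : (E.twist D).val (algebraMap ℚ F x) = 0 := by
          have h3 : (E.twist D).val x = 0 := by rw [← h1]; ring
          have h4 := congrArg (algebraMap ℚ F) h3
          rw [map_zero] at h4
          rw [← h4]
          simp [Cub.val]
        rw [u1_val (E.twist D) (S.twist_poly D)] at h2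
        rcases mul_eq_zero.1 h2 with h2 | h2
        · rcases mul_eq_zero.1 h2 with h2 | h2
          · exact ⟨0, x, h, hP.symm, sub_eq_zero.1 h2⟩
          · exact ⟨1, x, h, hP.symm, sub_eq_zero.1 h2⟩
        · exact ⟨2, x, h, hP.symm, sub_eq_zero.1 h2⟩
      · left
        refine ⟨Subgroup.subset_closure ?_, hLL⟩
        exact ⟨D, m, hF, x, y, h, hy, hP.symm, hHs⟩
  have hZfin : Finite Z := hfin
  let g : S.G D → Z ⊕ Fin 3 := fun b =>
    if h : b.1 ∈ Subgroup.closure (Gen S T) ∧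
        ∀ p ∈ T, Split.lam3 (lam p) b.1 ∈ LL (gg S (lam p)) (s p) then Sum.inl ⟨b.1, h⟩
    else if h : ∃ i, Q b.1 i then Sum.inr h.choose else Sum.inr 0
  have h := u4_card φ g (by
    intro a a' ha ha' hg
    by_cases h1 : a.1 ∈ Subgroup.closure (Gen S T) ∧
        ∀ p ∈ T, Split.lam3 (lam p) a.1 ∈ LL (gg S (lam p)) (s p)
    · have e1 : g a = Sum.inl ⟨a.1, h1⟩ := dif_pos h1
      by_cases h2 : a'.1 ∈ Subgroup.closure (Gen S T) ∧
          ∀ p ∈ T, Split.lam3 (lam p) a'.1 ∈ LL (gg S (lam p)) (s p)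
      · have e2 : g a' = Sum.inl ⟨a'.1, h2⟩ := dif_pos h2
        rw [e1, e2] at hg
        have h3 := Sum.inl.inj hg
        exact Subtype.ext (congrArg (fun z : Z => z.1) h3)
      · have h3 : ∃ i, Q a'.1 i := (key a' ha').resolve_left h2
        have e2 : g a' = Sum.inr h3.choose := by
          show (if h : _ then _ else _) = _
          rw [dif_neg h2, dif_pos h3]
        rw [e1, e2] at hg
        cases hg
    · have h3 : ∃ i, Q a.1 i := (key a ha).resolve_left h1
      have e1 : g a = Sum.inr h3.choose := by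
        show (if h : _ then _ else _) = _
        rw [dif_neg h1, dif_pos h3]
      by_cases h2 : a'.1 ∈ Subgroup.closure (Gen S T) ∧
          ∀ p ∈ T, Split.lam3 (lam p) a'.1 ∈ LL (gg S (lam p)) (s p)
      · have e2 : g a' = Sum.inl ⟨a'.1, h2⟩ := dif_pos h2
        rw [e1, e2] at hg
        cases hg
      · have h4 : ∃ i, Q a'.1 i := (key a' ha').resolve_left h2
        have e2 : g a' = Sum.inr h4.choose := by
          show (if h : _ then _ else _) = _
          rw [dif_neg h2, dif_pos h4]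
        rw [e1, e2] at hg
        have h5 := Sum.inr.inj hg
        have h6 := h3.choose_spec
        have h7 := h4.choose_spec
        rw [h5] at h6
        exact Subtype.ext (hQ _ _ _ h6 h7))
  refine ⟨h.1, h.2.trans ?_⟩
  have c1 : Nat.card (R → LG × LG) = 16 ^ m.primeFactors.card := by
    rw [Nat.card_fun, Nat.card_prod]
    have c2 : Nat.card LG = 4 := by
      rw [Nat.card_eq_fintype_card]
      decide
    rw [c2]
    have c3 : Nat.card R = m.primeFactors.card := by
      rw [Nat.card_eq_fintype_card, Fintype.card_coe]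
    rw [c3]
  have c4 : Nat.card (Z ⊕ Fin 3) ≤ K + 3 := by
    rw [Nat.card_sum, Nat.card_eq_fintype_card (α := Fin 3), Fintype.card_fin]
    exact Nat.add_le_add_right hcard 3
  rw [c1, mul_comm]
  exact Nat.mul_le_mul_right _ c4

end H16B
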