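import Pool.Agent.Lib.H16B.Y1
import Pool.Agent.Lib.H16B.Y2

/-!
# Y3 (M): good signs

`lam p` from `exists_lam` (W2), `s` from `exists_s`, `η p = s_p · (lam p (cls (-q_T))).2`.  If `(m/p) = η p` for `p ∈ T`, `p ∤ m`, and `D` is in the
family with `m` then `(lam p (cls D)).2 = (lam p (cls (-q_T))).2 (lam p (cls m)).2 = (lam p (cls (-q_T))).2 (m/p) = s p` (`cls D = cls (-q_T m)`, the
sign of an integer prime to `p` is its Legendre symbol by `LamP.unit`; `jacobiSym m p = legendreSym p m`), and Y2 applies with `K + 3`.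
-/

open Polynomial IsDedekindDomain NumberField H16A

namespace H16B

/-- the sign of an integer prime to `p` -/
theorem y3_sign {F : Type} [Field F] [NumberField F] {p : ℕ} (hp : p.Prime)
    {w : HeightOneSpectrum (𝓞 F)} {lam : SqC F →* LG} (hl : LamP p w lam) {m : ℕ} (hm : ¬ p ∣ m)
    {u : ℤˣ} (h : jacobiSym (m : ℤ) p = ((u : ℤˣ) : ℤ)) : (lam (cls (m : F))).2 = u := by
  haveI : Fact p.Prime := ⟨hp⟩
  have hm' : ¬ (p : ℤ) ∣ (m : ℤ) := by
    intro h1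
    exact hm (by exact_mod_cast h1)
  have h0 : ((m : ℤ) : ZMod p) ≠ 0 := by
    rw [Ne, ZMod.intCast_zmod_eq_zero_iff_dvd]
    exact hm'
  have h1 := hl.unit (m : ℤ) hm'
  rw [Int.cast_natCast] at h1
  have h2 := legendreSym.eq_one_iff p h0
  rw [jacobiSym.legendreSym.to_jacobiSym] at h2
  rcases Int.units_eq_one_or u with rfl | rfl
  · exact h1.2 (h2.1 (by rw [h]; rfl))
  · rcases Int.units_eq_one_or (lam (cls (m : F))).2 with h3 | h3
    · have h4 := h2.2 (h1.1 h3)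
      rw [h4] at h
      exact absurd h (by decide)
    · exact h3

theorem good_signs {E : Cub} {F : Type} [Field F] [NumberField F] (S : Split E F) :
    ∃ K : ℕ, 0 < K ∧ ∀ (T : Finset ℕ) (w : ℕ → HeightOneSpectrum (𝓞 F)),
      (∀ p ∈ T, S.SplP p (w p)) → ∃ η : ℕ → ℤˣ, ∀ (m : ℕ) (D : ℤ), Fam E T D m →
        (∀ p ∈ T, ¬ p ∣ m → jacobiSym (m : ℤ) p = ((η p : ℤˣ) : ℤ)) →
        Finite (S.G D) ∧ Nat.card (S.G D) ≤ K * 16 ^ m.primeFactors.card := by
  classical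
  obtain ⟨K, hK⟩ := exists_s S
  refine ⟨K + 3, by omega, fun T w hT => ?_⟩
  have hl : ∀ p : ℕ, ∃ lam : SqC F →* LG, p ∈ T → LamP p (w p) lam := by
    intro p
    by_cases hp : p ∈ T
    · obtain ⟨lam, h1, h2, h3⟩ := S.exists_lam (hT p hp)
      exact ⟨lam, fun _ => ⟨h1, h2, h3⟩⟩
    · exact ⟨1, fun h => absurd h hp⟩
  choose lam hlam using hl
  obtain ⟨s, hs1, hs2⟩ := hK T w hT lam hlam
  have hq0 : (-(∏ q ∈ T, (q : F)) : F) ≠ 0 :=
    neg_ne_zero.2 (Finset.prod_ne_zero_iff.2 fun q hq => Nat.cast_ne_zero.2 (hT q hq).prime.ne_zero)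
  refine ⟨fun p => s p * (lam p (cls (-(∏ q ∈ T, (q : F)) : F))).2, fun m D hF hη => ?_⟩
  refine card_G_le S T w hT lam hlam s K hs1 hs2 hF (fun p hp hpm => ?_)
  have hm0 : (m : F) ≠ 0 := Nat.cast_ne_zero.2 hF.pos.ne'
  have hD0 : (D : F) ≠ 0 := Int.cast_ne_zero.2 hF.sqf.ne_zero
  have h1 := y3_sign (hT p hp).prime (hlam p hp) hpm (hη p hp hpm)
  have h2 : cls (D : F) = cls (-(∏ q ∈ T, (q : F)) : F) * cls (m : F) := by
    rw [← cls_mul hq0 hm0]
    have h3 : cls ((D : F) * (-(∏ q ∈ T, (q : F)) * (m : F))) = 1 := by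
      rw [cls_eq_one_iff (mul_ne_zero hD0 (mul_ne_zero hq0 hm0))]
      obtain ⟨k, hk⟩ := hF.sq
      refine ⟨algebraMap ℚ F k, ?_⟩
      rw [← map_mul, ← hk]
      simp
    rw [cls_mul hD0 (mul_ne_zero hq0 hm0)] at h3
    have h4 := sqC_mul_self (cls (-(∏ q ∈ T, (q : F)) * (m : F)))
    exact mul_right_cancel (h3.trans h4.symm)
  rw [h2, map_mul, Prod.snd_mul, h1]
  show _ * (s p * _) = _
  rw [mul_comm (s p), ← mul_assoc, Int.units_mul_self, one_mul]

end H16B
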