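import Pool.Agent.Lib.H16B.KK
import Pool.Agent.Lib.H16B.Y3
import Pool.Agent.Lib.H16B.SL
import Pool.Agent.Lib.H16A.FIN3
import Pool.Agent.Lib.H16A.X7

/-!
# F1 (L): the core

`κ' < 2`, `δ₀ > 0`; choose `0 < δ ≤ δ₀` with `2 - 24 δ > κ'`.  `Q = 8 |disc|`.  `T` a set of split primes in `(√x, x]`, `n = |T| ≥ x^(4/5)`, `x` large; `w` from
`fin3_choice` (FIN3).  `η` from `good_signs` (Y3), `m` from `exists_signs` (KK) with `s = η`: `m ≡ 1 mod Q`, `0 < m ≤ Q x^(δ n)`, `(m/p) = η p` for `p ∈ T`, `p ∤ m`.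
`D` = the squarefree part of `- q_T m` (`D < 0`, `-q_T m = D k²`, `Nat.sq_mul_squarefree`): `Fam E T D m`.  `ω = ω(m) ≤ 2 log m/loglog m ≤ 4 δ n`
(`omega_le` of X7, if `m` is large; monotonicity of `t/log t`; `log m ≤ δ n log x + log Q`, `loglog m`...; or simply: `ω! ≤ m` (`X7_factorial_le`), so
`ω (log ω - 1) ≤ δ n log x + log Q`; if `ω > 4 δ n` then `log ω ≥ log (4δ) + (4/5) log x`, so `ω (log ω - 1) ≥ 4 δ n ((4/5) log x + log (4δ) - 1) > δ n log x + log Q`).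
`K = ℚ(√D)` (`exists_imag_quadratic`, D3): `|disc K| ≤ 4|D| ≤ 4 q_T m ≤ 4 Q x^((1+δ) n)`.  `T' = {p ∈ T : p ∤ m}`, `|T'| ≥ n - ω`, `p ∥ D` for `p ∈ T'` (`fam_dvd`):
`#Sel ≥ 4^(n - ω)/K₅` (SL); `G_D ≤ K 16^ω` (Y3), so, as in `sha_core` (FIN3: `index_le`, `index_quadratic`, `relIndex_eq`, `fin1_count`)
`#s ≥ 4^(n-ω)/(K₅ I₀² K₇ K 16^ω) = 2^(2n - 6ω)/C' ≥ 2^((2 - 24 δ) n)/C'`.
-/

open Polynomial IsDedekindDomain NumberField H16A

namespace H16B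

/-- the number of prime divisors of a small `m` -/
theorem F1_omega {δ : ℝ} (hδ : 0 < δ) {Q : ℝ} (hQ : 1 ≤ Q) : ∃ x₁ : ℕ, ∀ x : ℕ, x₁ ≤ x →
    ∀ n : ℕ, (x : ℝ) ^ ((4 : ℝ) / 5) ≤ (n : ℝ) → ∀ m : ℕ, 0 < m →
      (m : ℝ) ≤ Q * (x : ℝ) ^ (δ * (n : ℝ)) → (m.primeFactors.card : ℝ) ≤ 4 * δ * n := by
  have h1 : Filter.Tendsto (fun x : ℕ => Real.log (x : ℝ)) Filter.atTop Filter.atTop :=
    Real.tendsto_log_atTop.comp tendsto_natCast_atTop_atTop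
  have h2 : Filter.Tendsto (fun x : ℕ => (x : ℝ) ^ ((4 : ℝ) / 5)) Filter.atTop Filter.atTop :=
    (tendsto_rpow_atTop (by norm_num)).comp tendsto_natCast_atTop_atTop
  have h3 := (h1.eventually_ge_atTop (Real.log Q + 5 + |4 * Real.log (4 * δ)|)).and
    ((h2.eventually_ge_atTop (1 / δ)).and (Filter.eventually_ge_atTop 1))
  obtain ⟨x₁, hx₁⟩ := Filter.eventually_atTop.1 h3
  refine ⟨x₁, fun x hx n hn m hm hmQ => ?_⟩
  obtain ⟨g1, g2, g3⟩ := hx₁ x hx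
  have hx0 : (0 : ℝ) < x := by
    have : 0 < x := g3
    exact_mod_cast this
  by_contra hcon
  push Not at hcon
  set k : ℝ := (m.primeFactors.card : ℝ) with hk
  have hlog := X7_log_ge m hm.ne'
  rw [← hk] at hlog
  have hn0 : (0 : ℝ) < n := lt_of_lt_of_le (by positivity) hn
  have hδn : 1 ≤ δ * n := by
    have e1 : 1 / δ ≤ (n : ℝ) := g2.trans hn
    rw [div_le_iff₀ hδ] at e1
    linarith
  have hk0 : 0 < k := lt_trans (by positivity) hcon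
  -- upper bound for log m
  have e1 : Real.log m ≤ Real.log Q + δ * n * Real.log x := by
    have e2 := Real.log_le_log (by exact_mod_cast hm) hmQ
    rw [Real.log_mul (by positivity) (by positivity), Real.log_rpow hx0] at e2
    exact e2
  -- lower bound for log k
  have e3 : Real.log (4 * δ) + 4 / 5 * Real.log x ≤ Real.log k := by
    have e4 : 4 * δ * (x : ℝ) ^ ((4 : ℝ) / 5) ≤ k :=
      (mul_le_mul_of_nonneg_left hn (by positivity)).trans hcon.le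
    have e5 := Real.log_le_log (by positivity) e4
    rw [Real.log_mul (by positivity) (by positivity), Real.log_rpow hx0] at e5
    exact e5
  have hQ0 : 0 ≤ Real.log Q := Real.log_nonneg hQ
  have habs := neg_abs_le (4 * Real.log (4 * δ))
  have habs0 := abs_nonneg (4 * Real.log (4 * δ))
  set L := Real.log x with hL
  set A := Real.log (4 * δ) with hA
  have e6 : 0 < 4 / 5 * L + A - 1 := by linarith
  have e7 : 4 * δ * n * (4 / 5 * L + A - 1) < k * (Real.log k - 1) := by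
    calc 4 * δ * n * (4 / 5 * L + A - 1) < k * (4 / 5 * L + A - 1) :=
          mul_lt_mul_of_pos_right hcon e6
      _ ≤ k * (Real.log k - 1) := mul_le_mul_of_nonneg_left (by linarith) hk0.le
  have e8 : Real.log Q + δ * n * L ≤ 4 * δ * n * (4 / 5 * L + A - 1) := by
    have e9 : Real.log Q ≤ 11 / 5 * L + 4 * A - 4 := by linarith
    have e10 : 11 / 5 * L + 4 * A - 4 ≤ δ * n * (11 / 5 * L + 4 * A - 4) := by
      have e11 : 0 ≤ 11 / 5 * L + 4 * A - 4 := hQ0.trans e9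
      calc 11 / 5 * L + 4 * A - 4 = 1 * (11 / 5 * L + 4 * A - 4) := by ring
        _ ≤ δ * n * (11 / 5 * L + 4 * A - 4) := mul_le_mul_of_nonneg_right hδn e11
    calc Real.log Q + δ * n * L ≤ δ * n * (11 / 5 * L + 4 * A - 4) + δ * n * L := by linarith
      _ = 4 * δ * n * (4 / 5 * L + A - 1) := by ring
  linarith

/-- the squarefree part -/
theorem F1_sqf {E : Cub} (T : Finset ℕ) (hT : ∀ p ∈ T, p.Prime) (m : ℕ) (hm : 0 < m)
    (hmod : m ≡ 1 [MOD 8 * E.disc.natAbs]) : ∃ D : ℤ, D < 0 ∧ Squarefree D ∧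
      |D| ≤ ((∏ p ∈ T, p) * m : ℕ) ∧ Fam E T D m := by
  obtain ⟨a, b, hab, hsq⟩ := Nat.sq_mul_squarefree ((∏ p ∈ T, p) * m)
  have hq : 0 < ∏ p ∈ T, p := Finset.prod_pos fun p hp => (hT p hp).pos
  have hN : 0 < (∏ p ∈ T, p) * m := Nat.mul_pos hq hm
  have hb0 : b ≠ 0 := by
    rintro rfl
    rw [← hab] at hN
    simp at hN
  have ha0 : 0 < a := by
    rcases Nat.eq_zero_or_pos a with h | h
    · rw [← hab, h] at hN
      simp at hN
    · exact h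
  have hsqf : Squarefree (-(a : ℤ)) := by
    rw [← Int.squarefree_natAbs, Int.natAbs_neg, Int.natAbs_natCast]
    exact hsq
  refine ⟨-(a : ℤ), by omega, hsqf, ?_, ⟨hsqf, hm, hmod, ?_⟩⟩
  · rw [abs_neg, Nat.abs_cast]
    have : a ≤ (∏ p ∈ T, p) * m := by
      rw [← hab]
      exact Nat.le_mul_of_pos_left _ (pow_pos (Nat.pos_of_ne_zero hb0) 2)
    exact_mod_cast this
  · refine ⟨(a : ℚ) * b, ?_⟩
    have h1 : ((∏ p ∈ T, (p : ℚ)) * m : ℚ) = (b : ℚ) ^ 2 * a := by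
      have e1 : ((b ^ 2 * a : ℕ) : ℚ) = (((∏ p ∈ T, p) * m : ℕ) : ℚ) := by rw [hab]
      rw [Nat.cast_mul, Nat.cast_mul, Nat.cast_pow, Nat.cast_prod] at e1
      exact e1.symm
    have h2 : (((-(a : ℤ) : ℤ)) : ℚ) = -(a : ℚ) := by push_cast; ring
    rw [h2]
    calc -(a : ℚ) * (-(∏ p ∈ T, (p : ℚ)) * m) = a * ((∏ p ∈ T, (p : ℚ)) * m) := by ring
      _ = a * ((b : ℚ) ^ 2 * a) := by rw [h1]
      _ = (a : ℚ) * b * (a * b) := by ring

theorem sha_core2 {E : Cub} {F : Type} [Field F] [NumberField F] (S : Split E F)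
    (hd : E.disc ≠ 0) {κ' : ℝ} (hκ'0 : 0 < κ') (h2 : κ' < 2) {δ₀ : ℝ} (hδ₀ : 0 < δ₀) :
    ∃ (C : ℝ) (x₂ : ℕ), 0 < C ∧
      ∀ x : ℕ, x₂ ≤ x → ∀ T : Finset ℕ, (∀ p ∈ T, x < p ^ 2 ∧ p ≤ x ∧ ∃ w, S.SplP p w) →
        (x : ℝ) ^ ((4 : ℝ) / 5) ≤ (T.card : ℝ) →
        ∃ (K : Type) (_ : Field K) (_ : NumberField K), Module.finrank ℚ K = 2 ∧ discr K < 0 ∧
          |(discr K : ℝ)| ≤ C * (x : ℝ) ^ ((1 + δ₀) * (T.card : ℝ)) ∧
          ∃ s : Finset (E.Sha2 K), (2 : ℝ) ^ (κ' * (T.card : ℝ)) ≤ C * (s.card : ℝ) := by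
  classical
  -- the constants
  obtain ⟨δ, hδdef⟩ : ∃ δ : ℝ, δ = min δ₀ ((2 - κ') / 24) := ⟨_, rfl⟩
  have hδ : 0 < δ := by
    rw [hδdef]
    exact lt_min hδ₀ (by linarith)
  have hδle : δ ≤ δ₀ := by rw [hδdef]; exact min_le_left _ _
  have hδκ : 24 * δ ≤ 2 - κ' := by
    have : δ ≤ (2 - κ') / 24 := by rw [hδdef]; exact min_le_right _ _
    linarith
  obtain ⟨Q, hQdef⟩ : ∃ Q : ℕ, Q = 8 * E.disc.natAbs := ⟨_, rfl⟩
  have hQ : 0 < Q := by
    have := Int.natAbs_pos.2 hd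
    omega
  have hQ1 : (1 : ℝ) ≤ Q := by exact_mod_cast hQ
  obtain ⟨K₅, hK₅, hsel⟩ := sel_lower' S hd
  obtain ⟨K₆, hK₆, hHs⟩ := S.card_Hs
  obtain ⟨K₇, hK₇, hidx⟩ := S.index_le
  obtain ⟨K₈, hK₈, hgood⟩ := good_signs S
  obtain ⟨x₀, hx₀⟩ := exists_signs hδ Q hQ
  obtain ⟨x₁, hx₁⟩ := F1_omega hδ hQ1
  -- E(ℚ)/2E(ℚ) is finite
  have hI₀ : (twoG (E.Pt ℚ)).index ≠ 0 := by
    have hle : S.G 1 ≤ S.Hs ∅ := S.G_le_Hs one_ne_zero ∅ (fun p hp h1 _ => by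
      exfalso
      have := Int.natAbs_dvd_natAbs.2 h1
      simp only [Int.natAbs_natCast, Int.natAbs_one, Nat.dvd_one] at this
      exact hp.one_lt.ne' this)
    have hfin : Finite (S.Hs ∅) := (hHs ∅ (by simp)).1
    have hG : Finite (S.G 1) := Finite.of_injective (Subgroup.inclusion hle)
      (Subgroup.inclusion_injective hle)
    have := (hidx 1 one_ne_zero hG).1
    rwa [E.fin1_twist_one] at this
  set I₀ := (twoG (E.Pt ℚ)).index with hI₀def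
  obtain ⟨C, hC⟩ : ∃ C : ℝ, C = 4 * Q + K₅ * ((I₀ : ℝ) ^ 2 * (K₇ * K₈)) := ⟨_, rfl⟩
  have h5 : (0 : ℝ) < K₅ := by exact_mod_cast hK₅
  have h7 : (0 : ℝ) < K₇ := by exact_mod_cast hK₇
  have h8 : (0 : ℝ) < K₈ := by exact_mod_cast hK₈
  have hI : (0 : ℝ) < I₀ := by exact_mod_cast Nat.pos_of_ne_zero hI₀
  have hCpos : 0 < C := by
    rw [hC]
    positivity
  have hlarge : ∀ᶠ x : ℕ in Filter.atTop, (x₀ : ℝ) + 1 ≤ (x : ℝ) ^ ((4 : ℝ) / 5) :=
    ((tendsto_rpow_atTop (by norm_num)).comp tendsto_natCast_atTop_atTop).eventually_ge_atTop _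
  obtain ⟨x₃, hx₃⟩ := Filter.eventually_atTop.1 hlarge
  refine ⟨C, max (max x₀ x₁) (max x₃ 1), hCpos, fun x hx T hT hT45 => ?_⟩
  have a0 : x₀ ≤ x := (le_max_left _ _).trans ((le_max_left _ _).trans hx)
  have a1 : x₁ ≤ x := (le_max_right _ _).trans ((le_max_left _ _).trans hx)
  have a3 : x₃ ≤ x := (le_max_left _ _).trans ((le_max_right _ _).trans hx)
  have a4 : 1 ≤ x := (le_max_right _ _).trans ((le_max_right _ _).trans hx)
  have hx1 : (1 : ℝ) ≤ x := by exact_mod_cast a4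
  have hx0 : (0 : ℝ) < x := by linarith
  have hTcard : (x₀ : ℝ) + 1 ≤ T.card := (hx₃ x a3).trans hT45
  have hTcard0 : x₀ ≤ T.card := by
    have : (x₀ : ℝ) ≤ T.card := by linarith
    exact_mod_cast this
  have hTpos : 0 < T.card := by
    have h9 : (0 : ℝ) ≤ x₀ := Nat.cast_nonneg _
    have : (0 : ℝ) < T.card := by linarith
    exact_mod_cast this
  obtain ⟨w, hwT⟩ := S.fin3_choice T (fun p hp => (hT p hp).2.2) hTpos
  have hprime : ∀ p ∈ T, p.Prime := fun p hp => (hwT p hp).prime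
  obtain ⟨η, hη⟩ := hgood T w hwT
  obtain ⟨m, hm0, hmmod, hmle, hmjac⟩ := hx₀ x a0 T
    (fun p hp => ⟨hprime p hp, (hT p hp).1, (hT p hp).2.1⟩) hTcard0 η
  rw [hQdef] at hmmod
  obtain ⟨D, hDneg, hDsq, hDabs, hFam⟩ := F1_sqf (E := E) T hprime m hm0 hmmod
  obtain ⟨hGfin, hGcard⟩ := hη m D hFam hmjac
  have hω := hx₁ x a1 T.card hT45 m hm0 hmle
  set ω := m.primeFactors.card with hωdef
  set n := T.card with hn
  have hDne : D ≠ 0 := hDneg.ne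
  obtain ⟨K, _, _, δK, hK2, hδK, hδQ, hdneg, hdle, hdge⟩ := exists_imag_quadratic D hDneg hDsq
  -- the primes of `T` prime to `m`
  obtain ⟨T', hT'⟩ : ∃ T' : Finset ℕ, T' = T.filter (fun p => ¬ p ∣ m) := ⟨_, rfl⟩
  have hT'T : T' ⊆ T := by rw [hT']; exact Finset.filter_subset _ _
  have hT'm : ∀ p ∈ T', ¬ p ∣ m := by
    intro p hp
    rw [hT'] at hp
    exact (Finset.mem_filter.1 hp).2
  have hT'card : n ≤ T'.card + ω := by
    have e1 : T ⊆ T' ∪ m.primeFactors := by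
      intro p hp
      rw [Finset.mem_union]
      by_cases h : p ∣ m
      · right
        exact Nat.mem_primeFactors.2 ⟨hprime p hp, h, hm0.ne'⟩
      · left
        rw [hT']
        exact Finset.mem_filter.2 ⟨hp, h⟩
    exact (Finset.card_le_card e1).trans (Finset.card_union_le _ _)
  have hT'D : ∀ p ∈ T', (p : ℤ) ∣ D ∧ ¬ (p : ℤ) ^ 2 ∣ D := by
    intro p hp
    obtain ⟨-, e2, e3⟩ := fam_dvd hFam hprime (hprime p (hT'T hp))
    exact ⟨e2 (hT'T hp) (hT'm p hp), e3⟩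
  -- index of 2 E(K)
  obtain ⟨hiD, hiDle⟩ := hidx D hDne hGfin
  obtain ⟨hiK, hiKle⟩ := E.index_quadratic hK2 δK D hDne hδK hδQ hI₀ hiD
  have h2K : (2 : K) ≠ 0 := two_ne_zero
  have hdK : ((E.disc : ℤ) : K) ≠ 0 := by exact_mod_cast hd
  have hrel := E.relIndex_eq (L := K) h2K hdK
  have hrel0 : (sqSub (E.Alg K)).relIndex (E.imSub K) ≠ 0 := by rw [hrel]; exact hiK
  -- the elements of the Selmer group
  obtain ⟨Ψ, hΨcard, hΨsel, hΨsep⟩ := hsel T' w (fun p hp => hwT p (hT'T hp)) D hDneg hT'D K hK2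
    δK hδK
  obtain ⟨s, hs⟩ := fin1_count (E.selSub K) (E.imSub K) (sqSub (E.Alg K)) hrel0 Ψ hΨsel hΨsep
  refine ⟨K, inferInstance, inferInstance, hK2, hdneg, ?_, s, ?_⟩
  · -- the discriminant
    have habs : |(discr K : ℝ)| = ((|discr K| : ℤ) : ℝ) := by rw [Int.cast_abs]
    rw [habs]
    have e1 : ((|discr K| : ℤ) : ℝ) ≤ 4 * ((|D| : ℤ) : ℝ) := by exact_mod_cast hdle
    have e2 : ((|D| : ℤ) : ℝ) ≤ ((∏ p ∈ T, (p : ℝ)) * m) := by
      have e2' : ((|D| : ℤ) : ℝ) ≤ ((((∏ p ∈ T, p) * m : ℕ) : ℤ) : ℝ) := by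
        exact_mod_cast hDabs
      rw [Int.cast_natCast, Nat.cast_mul, Nat.cast_prod] at e2'
      exact e2'
    have e3 : (∏ p ∈ T, (p : ℝ)) ≤ (x : ℝ) ^ n := by
      rw [hn, ← Finset.prod_const]
      exact Finset.prod_le_prod (fun _ _ => by positivity) fun p hp => by
        exact_mod_cast (hT p hp).2.1
    have e4 : (∏ p ∈ T, (p : ℝ)) * m ≤ (x : ℝ) ^ n * (Q * (x : ℝ) ^ (δ * (n : ℝ))) :=
      mul_le_mul e3 hmle (by positivity) (by positivity)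
    have e5 : (x : ℝ) ^ n * (Q * (x : ℝ) ^ (δ * (n : ℝ))) = Q * (x : ℝ) ^ ((1 + δ) * (n : ℝ)) := by
      rw [add_mul, one_mul, Real.rpow_add hx0, Real.rpow_natCast]
      ring
    have e6 : (x : ℝ) ^ ((1 + δ) * (n : ℝ)) ≤ (x : ℝ) ^ ((1 + δ₀) * (n : ℝ)) := by
      apply Real.rpow_le_rpow_of_exponent_le hx1
      exact mul_le_mul_of_nonneg_right (by linarith) (Nat.cast_nonneg _)
    calc ((|discr K| : ℤ) : ℝ) ≤ 4 * (Q * (x : ℝ) ^ ((1 + δ) * (n : ℝ))) := by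
          rw [← e5]
          linarith
      _ = 4 * Q * (x : ℝ) ^ ((1 + δ) * (n : ℝ)) := by ring
      _ ≤ 4 * Q * (x : ℝ) ^ ((1 + δ₀) * (n : ℝ)) :=
          mul_le_mul_of_nonneg_left e6 (by positivity)
      _ ≤ C * (x : ℝ) ^ ((1 + δ₀) * (n : ℝ)) := by
          apply mul_le_mul_of_nonneg_right _ (by positivity)
          rw [hC]
          have : 0 < (K₅ : ℝ) * ((I₀ : ℝ) ^ 2 * (K₇ * K₈)) := by positivity
          linarith
  · -- the lower bound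
    have hR : ((sqSub (E.Alg K)).relIndex (E.imSub K) : ℝ)
        ≤ (I₀ : ℝ) ^ 2 * (K₇ * (K₈ * (16 : ℝ) ^ ω)) := by
      have g1 : (sqSub (E.Alg K)).relIndex (E.imSub K) ≤ I₀ ^ 2 * (K₇ * Nat.card (S.G D)) := by
        rw [hrel]
        exact hiKle.trans (Nat.mul_le_mul_left _ hiDle)
      have g2 : (sqSub (E.Alg K)).relIndex (E.imSub K) ≤ I₀ ^ 2 * (K₇ * (K₈ * 16 ^ ω)) :=
        g1.trans (Nat.mul_le_mul_left _ (Nat.mul_le_mul_left _ hGcard))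
      exact_mod_cast g2
    have h4 : (4 : ℝ) ^ T'.card ≤
        K₅ * ((I₀ : ℝ) ^ 2 * (K₇ * (K₈ * (16 : ℝ) ^ ω)) * s.card) := by
      have g6 : (4 : ℝ) ^ T'.card ≤ K₅ * (Ψ.card : ℝ) := by exact_mod_cast hΨcard
      have g7 : (Ψ.card : ℝ) ≤ ((sqSub (E.Alg K)).relIndex (E.imSub K) : ℝ) * s.card := by
        exact_mod_cast hs
      refine g6.trans (mul_le_mul_of_nonneg_left (g7.trans ?_) (by positivity))
      exact mul_le_mul_of_nonneg_right hR (by positivity)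
    have h10 : (2 : ℝ) ^ (κ' * (n : ℝ)) * (16 : ℝ) ^ ω ≤ (4 : ℝ) ^ T'.card := by
      have e1 : (16 : ℝ) ^ ω = (2 : ℝ) ^ (4 * (ω : ℝ)) := by
        rw [Real.rpow_mul (by norm_num), Real.rpow_natCast]
        norm_num
      have e2 : (4 : ℝ) ^ T'.card = (2 : ℝ) ^ (2 * (T'.card : ℝ)) := by
        rw [Real.rpow_mul (by norm_num), Real.rpow_natCast]
        norm_num
      rw [e1, e2, ← Real.rpow_add (by norm_num)]
      apply Real.rpow_le_rpow_of_exponent_le (by norm_num)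
      have e3 : (n : ℝ) ≤ T'.card + ω := by exact_mod_cast hT'card
      have e4 : 24 * δ * (n : ℝ) ≤ (2 - κ') * n :=
        mul_le_mul_of_nonneg_right hδκ (Nat.cast_nonneg _)
      nlinarith
    have h11 : (2 : ℝ) ^ (κ' * (n : ℝ)) ≤ K₅ * ((I₀ : ℝ) ^ 2 * (K₇ * K₈)) * s.card := by
      have hq : 0 < (16 : ℝ) ^ ω := by positivity
      refine le_of_mul_le_mul_right ?_ hq
      refine (h10.trans h4).trans (le_of_eq ?_)
      ring
    refine h11.trans (mul_le_mul_of_nonneg_right ?_ (Nat.cast_nonneg _))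
    rw [hC]
    have : (0 : ℝ) < 4 * Q := by positivity
    linarith

end H16B
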