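import Pool.Agent.Lib.H16A.FIN4

/-!
# F2 (M): split primes in `(√x, x]`, and the numbers

* `supply_top`: from `supply_all` (N12) with `(1 + η)/2` (`η ≥ 1/2` w.l.o.g.) remove the at most `√x` primes `p ≤ √x`: `x^((1+η)/2) - √x - 1 ≥ x^η`.
* `real_top`: `0 < κ < κ'`.  `δ₀ > 0` with `κ₂ = κ (1 + 2 δ₀) < κ'`.  Given `C > 0` let `C' = max C 1` and apply `fin4_real` (FIN4) to `κ₂ < κ'`, `C'`, at
  `X' = (X/C')^(1/(1+δ₀))`: `4 x^n ≤ X'` gives `C' x^((1+δ₀) n) ≤ X`, and for large `X`: `log X' = (log X - log C')/(1+δ₀) ≥ log X/(1 + 2δ₀)`,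
  `loglog X' ≤ loglog X`, so `κ₂ log X'/loglog X' ≥ κ log X/loglog X`.
-/

open Polynomial IsDedekindDomain NumberField H16A

namespace H16B

theorem supply_top {E : Cub} {F : Type} [Field F] [NumberField F] (S : Split E F)
    (hd : E.disc ≠ 0) {η : ℝ} (h0 : 0 < η) (h1 : η < 1) :
    ∃ x₀ : ℕ, ∀ x : ℕ, x₀ ≤ x → ∃ T : Finset ℕ,
      (∀ p ∈ T, x < p ^ 2 ∧ p ≤ x ∧ ∃ w, S.SplP p w) ∧ (x : ℝ) ^ η ≤ (T.card : ℝ) := by
  obtain ⟨x₁, hx₁⟩ := Split.supply_all S hd (η := (1 + η) / 2) (by linarith) (by linarith)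
  -- eventually `x^η + √x + 1 ≤ x^η'`
  have hev : ∀ᶠ x : ℝ in Filter.atTop, x ^ η + x ^ ((1 : ℝ) / 2) + 1 ≤ x ^ ((1 + η) / 2) := by
    have ht : ∀ a : ℝ, a < (1 + η) / 2 → ∀ᶠ x : ℝ in Filter.atTop,
        x ^ a ≤ (1 / 3) * x ^ ((1 + η) / 2) := by
      intro a ha
      have h := tendsto_rpow_neg_atTop (y := (1 + η) / 2 - a) (by linarith)
      have h2 := h.eventually_le_const (u := 1 / 3) (by norm_num)
      filter_upwards [h2, Filter.eventually_gt_atTop (0 : ℝ)] with x hx hx0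
      have h3 : x ^ a = x ^ (-((1 + η) / 2 - a)) * x ^ ((1 + η) / 2) := by
        rw [← Real.rpow_add hx0]
        congr 1
        ring
      rw [h3]
      exact mul_le_mul_of_nonneg_right hx (Real.rpow_nonneg hx0.le _)
    filter_upwards [ht η (by linarith), ht (1 / 2) (by linarith), ht 0 (by linarith)] with x h1 h2 h3
    rw [Real.rpow_zero] at h3
    linarith
  obtain ⟨X, hX⟩ := Filter.eventually_atTop.mp hev
  refine ⟨max x₁ ⌈X⌉₊, ?_⟩
  intro x hx
  have hxx₁ : x₁ ≤ x := (le_max_left _ _).trans hx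
  have hxX : X ≤ (x : ℝ) := (Nat.le_ceil X).trans (by exact_mod_cast (le_max_right _ _).trans hx)
  obtain ⟨T, hT, hTc⟩ := hx₁ x hxx₁
  refine ⟨T.filter (fun p => x < p ^ 2), ?_, ?_⟩
  · intro p hp
    rw [Finset.mem_filter] at hp
    exact ⟨hp.2, (hT p hp.1).1, (hT p hp.1).2⟩
  · have h2 : (T.filter (fun p => ¬ x < p ^ 2)).card ≤ Nat.sqrt x + 1 := by
      rw [← Finset.card_range (Nat.sqrt x + 1)]
      apply Finset.card_le_card
      intro p hp
      rw [Finset.mem_filter, not_lt] at hp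
      rw [Finset.mem_range, Nat.lt_succ_iff, Nat.le_sqrt']
      exact hp.2
    have h3 := Finset.card_filter_add_card_filter_not (s := T) (fun p => x < p ^ 2)
    have h4 : (T.card : ℝ) ≤ ((T.filter (fun p => x < p ^ 2)).card : ℝ) + (Nat.sqrt x + 1) := by
      have : T.card ≤ (T.filter (fun p => x < p ^ 2)).card + (Nat.sqrt x + 1) := by omega
      exact_mod_cast this
    have h5 : ((Nat.sqrt x : ℕ) : ℝ) ≤ (x : ℝ) ^ ((1 : ℝ) / 2) := by
      rw [← Real.sqrt_eq_rpow]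
      exact Real.nat_sqrt_le_real_sqrt
    have h6 := hX x hxX
    linarith

theorem real_top {κ κ' : ℝ} (h0 : 0 < κ) (h1 : κ < κ') : ∃ δ₀ : ℝ, 0 < δ₀ ∧
    ∀ C : ℝ, 0 < C → ∃ η : ℝ, 0 < η ∧ η < 1 ∧ ∀ y : ℕ, ∃ X₀ : ℝ, ∀ X : ℝ, X₀ ≤ X →
      ∃ x n : ℕ, y ≤ x ∧ 0 < n ∧ (n : ℝ) ≤ (x : ℝ) ^ η ∧ (x : ℝ) ^ ((4 : ℝ) / 5) ≤ (n : ℝ) ∧
        C * (x : ℝ) ^ ((1 + δ₀) * (n : ℝ)) ≤ X ∧
        C * (2 : ℝ) ^ (κ * (Real.log X / Real.log (Real.log X))) ≤ (2 : ℝ) ^ (κ' * (n : ℝ)) := by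
  obtain ⟨δ₀, hδ, hδκ⟩ : ∃ δ₀ : ℝ, 0 < δ₀ ∧ κ * (1 + 2 * δ₀) < κ' := by
    refine ⟨(κ' - κ) / (4 * κ), div_pos (by linarith) (by linarith), ?_⟩
    have : κ * (1 + 2 * ((κ' - κ) / (4 * κ))) = κ + (κ' - κ) / 2 := by
      field_simp
      ring
    rw [this]
    linarith
  refine ⟨δ₀, hδ, ?_⟩
  intro C hC
  obtain ⟨C', hC'⟩ : ∃ C' : ℝ, C' = max C 1 := ⟨_, rfl⟩
  have hCC' : C ≤ C' := by rw [hC']; exact le_max_left _ _
  have hC'1 : 1 ≤ C' := by rw [hC']; exact le_max_right _ _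
  have hκ₂ : 0 < κ * (1 + 2 * δ₀) := by positivity
  obtain ⟨η, hη0, hη1, hη⟩ := fin4_real hκ₂ hδκ C' (by linarith)
  refine ⟨η, hη0, hη1, ?_⟩
  intro y
  obtain ⟨X₀', hX₀'⟩ := hη y
  have hδ1 : (0 : ℝ) < 1 / (1 + δ₀) := by positivity
  have htend : Filter.Tendsto (fun X : ℝ => (X / C') ^ (1 / (1 + δ₀))) Filter.atTop Filter.atTop :=
    (tendsto_rpow_atTop hδ1).comp (Filter.Tendsto.atTop_div_const (by linarith) Filter.tendsto_id)
  obtain ⟨X₀, hX₀⟩ := Filter.eventually_atTop.mp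
    ((htend.eventually_ge_atTop (max X₀' (Real.exp 2))).and
      ((Real.tendsto_log_atTop.eventually_ge_atTop ((1 + 2 * δ₀) / δ₀ * Real.log C')).and
        (Filter.eventually_ge_atTop (Real.exp 2))))
  refine ⟨X₀, ?_⟩
  intro X hX
  obtain ⟨hX1, hX2, hX3⟩ := hX₀ X hX
  set X' : ℝ := (X / C') ^ (1 / (1 + δ₀)) with hX'
  have hXpos : 0 < X := (Real.exp_pos 2).trans_le hX3
  have hXC : 0 < X / C' := by positivity
  obtain ⟨x, n, hyx, hn, hnx, hxn, h4, hfin⟩ := hX₀' X' ((le_max_left _ _).trans hX1)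
  refine ⟨x, n, hyx, hn, hnx, hxn, ?_, ?_⟩
  · have h5 : (x : ℝ) ^ n ≤ X' := by
      have : (0 : ℝ) ≤ (x : ℝ) ^ n := by positivity
      linarith
    have h6 : ((x : ℝ) ^ n) ^ (1 + δ₀) ≤ X' ^ (1 + δ₀) :=
      Real.rpow_le_rpow (by positivity) h5 (by positivity)
    have h7 : X' ^ (1 + δ₀) = X / C' := by
      rw [hX', ← Real.rpow_mul hXC.le]
      have : 1 / (1 + δ₀) * (1 + δ₀) = 1 := by field_simp
      rw [this, Real.rpow_one]
    have h8 : ((x : ℝ) ^ n) ^ (1 + δ₀) = (x : ℝ) ^ ((1 + δ₀) * (n : ℝ)) := by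
      rw [← Real.rpow_natCast, ← Real.rpow_mul (Nat.cast_nonneg _)]
      congr 1
      ring
    rw [h7, h8] at h6
    calc C * (x : ℝ) ^ ((1 + δ₀) * (n : ℝ)) ≤ C' * (X / C') :=
          mul_le_mul hCC' h6 (Real.rpow_nonneg (Nat.cast_nonneg _) _) (by linarith)
      _ = X := by field_simp
  · have hlogX' : Real.log X' = (Real.log X - Real.log C') / (1 + δ₀) := by
      rw [hX', Real.log_rpow hXC, Real.log_div hXpos.ne' (by linarith)]
      ring
    have hX'2 : Real.exp 2 ≤ X' := (le_max_right _ _).trans hX1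
    have hX'pos : 0 < X' := (Real.exp_pos 2).trans_le hX'2
    have hl1 : 2 ≤ Real.log X' := by
      rw [Real.le_log_iff_exp_le hX'pos]
      exact hX'2
    have hC'log : 0 ≤ Real.log C' := Real.log_nonneg hC'1
    have hlX : 2 ≤ Real.log X := by
      rw [Real.le_log_iff_exp_le hXpos]
      exact hX3
    have hle : Real.log X' ≤ Real.log X := by
      rw [hlogX', div_le_iff₀ (by positivity)]
      nlinarith
    have hge : Real.log X / (1 + 2 * δ₀) ≤ Real.log X' := by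
      rw [hlogX', div_le_div_iff₀ (by positivity) (by positivity)]
      have h9 : (1 + 2 * δ₀) * Real.log C' ≤ δ₀ * Real.log X := by
        have := mul_le_mul_of_nonneg_left hX2 hδ.le
        have h10 : δ₀ * ((1 + 2 * δ₀) / δ₀ * Real.log C') = (1 + 2 * δ₀) * Real.log C' := by
          field_simp
        rw [h10] at this
        exact this
      nlinarith
    have hll1 : 0 < Real.log (Real.log X') := Real.log_pos (by linarith)
    have hll2 : Real.log (Real.log X') ≤ Real.log (Real.log X) :=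
      Real.log_le_log (by linarith) hle
    have hll3 : 0 < Real.log (Real.log X) := hll1.trans_le hll2
    have hmain : κ * (Real.log X / Real.log (Real.log X)) ≤
        κ * (1 + 2 * δ₀) * (Real.log X' / Real.log (Real.log X')) := by
      have h11 : Real.log X / (1 + 2 * δ₀) / Real.log (Real.log X) ≤
          Real.log X' / Real.log (Real.log X') :=
        div_le_div₀ (by linarith) hge hll1 hll2
      have h12 := mul_le_mul_of_nonneg_left h11 hκ₂.le
      have h13 : κ * (1 + 2 * δ₀) * (Real.log X / (1 + 2 * δ₀) / Real.log (Real.log X)) =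
          κ * (Real.log X / Real.log (Real.log X)) := by
        field_simp
      rw [h13] at h12
      exact h12
    have h14 : (2 : ℝ) ^ (κ * (Real.log X / Real.log (Real.log X))) ≤
        (2 : ℝ) ^ (κ * (1 + 2 * δ₀) * (Real.log X' / Real.log (Real.log X'))) :=
      Real.rpow_le_rpow_of_exponent_le (by norm_num) hmain
    refine le_trans ?_ hfin
    exact mul_le_mul hCC' h14 (by positivity) (by linarith)

end H16B
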