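import Pool.Agent.Lib.H16B.R2

/-!
# G1 (M): the greedy choice of the signs

Induction on a finite set `T₁ ⊆ T` (`Finset.induction_on`): there are signs `s_p` (`p ∈ T₁`) such that
`#{y : (∀ p ∈ T₁, lam_p y ∈ LL g_p s_p) ∧ (∀ p ∈ T \ T₁, lam_p y ∈ LU)} ≤ #{y : ∀ p ∈ T, lam_p y ∈ LU}`.
Step `T₁ → T₁ ∪ {p}`: `R = {y : (∀ q ∈ T₁, lam_q y ∈ LL g_q s_q) ∧ (∀ q ∈ T \ T₁, q ≠ p → lam_q y ∈ LU)}`, a subgroup of `Y`,
`Λ = lam_p(R)`.  For `y, z ∈ R` all the factors of `∏_{q ∈ T} pr (c q) (lam_q y) (lam_q z) = 1` with `q ≠ p` are `1` (`pr_LL`, `pr_LU`), so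
`pr (c p) (lam_p y) (lam_p z) = 1`: `Λ` is isotropic.  `local_lemma` gives the sign `s_p`, and for every subgroup `B` of
`Fin 3 → LG`: `#{y ∈ R : lam_p y ∈ B} = #(R ∩ ker lam_p) · #(Λ ∩ B)`.
-/

open Polynomial IsDedekindDomain NumberField H16A

namespace H16B

theorem g1_card_split {Y G : Type*} [Group Y] [Group G] (H : Subgroup Y) (f : Y →* G) :
    Nat.card (f.ker ⊓ H : Subgroup Y) * Nat.card (H.map f) = Nat.card H := by
  have h := Subgroup.relIndex_inf_mul_relIndex (⊥ : Subgroup Y) f.ker H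
  rw [bot_inf_eq, Subgroup.relIndex_bot_left, Subgroup.relIndex_ker, Subgroup.relIndex_bot_left] at h
  exact h

theorem g1_card_inf {Y G : Type*} [Group Y] [Group G] (R : Subgroup Y) (f : Y →* G)
    (B : Subgroup G) :
    Nat.card (R ⊓ B.comap f : Subgroup Y) =
      Nat.card (f.ker ⊓ R : Subgroup Y) * Nat.card (R.map f ⊓ B : Subgroup G) := by
  rw [← g1_card_split (R ⊓ B.comap f) f]
  have h1 : f.ker ⊓ (R ⊓ B.comap f) = f.ker ⊓ R := by
    ext y
    simp only [Subgroup.mem_inf, Subgroup.mem_comap, MonoidHom.mem_ker]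
    constructor
    · rintro ⟨h1, h2, -⟩
      exact ⟨h1, h2⟩
    · rintro ⟨h1, h2⟩
      refine ⟨h1, h2, ?_⟩
      rw [h1]
      exact B.one_mem
  have h2 : (R ⊓ B.comap f).map f = R.map f ⊓ B := by
    ext x
    simp only [Subgroup.mem_inf, Subgroup.mem_comap, Subgroup.mem_map]
    constructor
    · rintro ⟨y, ⟨h1, h2⟩, rfl⟩
      exact ⟨⟨y, h1, rfl⟩, h2⟩
    · rintro ⟨⟨y, h1, rfl⟩, h2⟩
      exact ⟨y, ⟨h1, h2⟩, rfl⟩
  rw [h1, h2]

/-- the subgroup given by local conditions -/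
def gS {Y : Type*} [CommGroup Y] (T : Finset ℕ) (lam : ℕ → Y →* (Fin 3 → LG))
    (t : ℕ → Subgroup (Fin 3 → LG)) : Subgroup Y where
  carrier := {y | ∀ q ∈ T, lam q y ∈ t q}
  one_mem' := by
    intro q _
    rw [map_one]
    exact (t q).one_mem
  mul_mem' := by
    intro a b ha hb q hq
    rw [map_mul]
    exact (t q).mul_mem (ha q hq) (hb q hq)
  inv_mem' := by
    intro a ha q hq
    rw [map_inv]
    exact (t q).inv_mem (ha q hq)

theorem mem_gS {Y : Type*} [CommGroup Y] {T : Finset ℕ} {lam : ℕ → Y →* (Fin 3 → LG)}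
    {t : ℕ → Subgroup (Fin 3 → LG)} {y : Y} : y ∈ gS T lam t ↔ ∀ q ∈ T, lam q y ∈ t q := Iff.rfl

theorem g1_step {Y : Type*} [CommGroup Y] (T : Finset ℕ) (c : ℕ → ℤˣ)
    (g : ℕ → Fin 3 → Fin 3 → ℤˣ) (hg : ∀ p ∈ T, ∀ i j, i ≠ j → g p j i = c p * g p i j)
    (lam : ℕ → Y →* (Fin 3 → LG))
    (hiso : ∀ y z, ∏ p ∈ T, pr (c p) (lam p y) (lam p z) = 1)
    (t : ℕ → Subgroup (Fin 3 → LG)) (p : ℕ) (hp : p ∈ T)
    (ht : ∀ q ∈ T, q ≠ p → ∀ x ∈ t q, ∀ y ∈ t q, pr (c q) x y = 1) :
    ∃ s : ℤˣ, Nat.card (gS T lam (Function.update t p (LL (g p) s))) ≤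
      Nat.card (gS T lam (Function.update t p LU)) := by
  set R : Subgroup Y := gS (T.erase p) lam t with hR
  have hsplit : ∀ B : Subgroup (Fin 3 → LG),
      gS T lam (Function.update t p B) = R ⊓ B.comap (lam p) := by
    intro B
    ext y
    rw [Subgroup.mem_inf, Subgroup.mem_comap, hR, mem_gS, mem_gS]
    constructor
    · intro h
      refine ⟨?_, ?_⟩
      · intro q hq
        rw [Finset.mem_erase] at hq
        have := h q hq.2
        rwa [Function.update_of_ne hq.1] at this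
      · have := h p hp
        rwa [Function.update_self] at this
    · rintro ⟨h1, h2⟩ q hq
      by_cases hqp : q = p
      · subst hqp
        rw [Function.update_self]
        exact h2
      · rw [Function.update_of_ne hqp]
        exact h1 q (Finset.mem_erase.mpr ⟨hqp, hq⟩)
  have hisoΛ : ∀ x ∈ R.map (lam p), ∀ y ∈ R.map (lam p), pr (c p) x y = 1 := by
    rintro _ ⟨y, hy, rfl⟩ _ ⟨z, hz, rfl⟩
    have h1 := hiso y z
    rw [← Finset.mul_prod_erase T _ hp] at h1
    have h2 : ∏ q ∈ T.erase p, pr (c q) (lam q y) (lam q z) = 1 := by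
      apply Finset.prod_eq_one
      intro q hq
      have hq' := Finset.mem_erase.mp hq
      exact ht q hq'.2 hq'.1 _ (hy q hq) _ (hz q hq)
    rw [h2, mul_one] at h1
    exact h1
  obtain ⟨s, hs⟩ := local_lemma (hg p hp) (R.map (lam p)) hisoΛ
  refine ⟨s, ?_⟩
  rw [hsplit, hsplit, g1_card_inf, g1_card_inf]
  exact Nat.mul_le_mul_left _ hs

theorem greedy {Y : Type*} [CommGroup Y] [Finite Y] (T : Finset ℕ) (c : ℕ → ℤˣ)
    (g : ℕ → Fin 3 → Fin 3 → ℤˣ) (hg : ∀ p ∈ T, ∀ i j, i ≠ j → g p j i = c p * g p i j)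
    (lam : ℕ → Y →* (Fin 3 → LG))
    (hiso : ∀ y z, ∏ p ∈ T, pr (c p) (lam p y) (lam p z) = 1) :
    ∃ s : ℕ → ℤˣ, Nat.card {y : Y // ∀ p ∈ T, lam p y ∈ LL (g p) (s p)} ≤
      Nat.card {y : Y // ∀ p ∈ T, lam p y ∈ LU} := by
  classical
  have key : ∀ T₁ ⊆ T, ∃ s : ℕ → ℤˣ,
      Nat.card (gS T lam (fun q => if q ∈ T₁ then LL (g q) (s q) else LU)) ≤
        Nat.card (gS T lam (fun _ => LU)) := by
    intro T₁
    induction T₁ using Finset.induction_on with
    | empty =>
      intro _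
      refine ⟨fun _ => 1, ?_⟩
      simp
    | insert p T₁ hpT₁ ih =>
      intro hsub
      obtain ⟨s, hs⟩ := ih fun q hq => hsub (Finset.mem_insert_of_mem hq)
      have hp : p ∈ T := hsub (Finset.mem_insert_self _ _)
      set t : ℕ → Subgroup (Fin 3 → LG) := fun q => if q ∈ T₁ then LL (g q) (s q) else LU with ht
      have htiso : ∀ q ∈ T, q ≠ p → ∀ x ∈ t q, ∀ y ∈ t q, pr (c q) x y = 1 := by
        intro q hq _ x hx y hy
        rw [ht] at hx hy
        by_cases hqT : q ∈ T₁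
        · simp only [hqT, if_true] at hx hy
          exact pr_LL (hg q hq) _ hx hy
        · simp only [hqT, if_false] at hx hy
          exact pr_LU _ _ _ hx hy
      obtain ⟨sp, hsp⟩ := g1_step T c g hg lam hiso t p hp htiso
      refine ⟨Function.update s p sp, ?_⟩
      have h1 : Function.update t p (LL (g p) sp) =
          fun q => if q ∈ insert p T₁ then LL (g q) (Function.update s p sp q) else LU := by
        funext q
        by_cases hqp : q = p
        · subst hqp
          rw [Function.update_self, if_pos (Finset.mem_insert_self _ _), Function.update_self]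
        · rw [Function.update_of_ne hqp, Function.update_of_ne hqp, ht]
          simp only [Finset.mem_insert, hqp, false_or]
      have h2 : Function.update t p LU = t := by
        rw [Function.update_eq_self_iff, ht]
        simp only [hpT₁, if_false]
      rw [h1, h2] at hsp
      exact hsp.trans hs
  obtain ⟨s, hs⟩ := key T (Finset.Subset.refl T)
  refine ⟨s, ?_⟩
  have e1 : {y : Y // ∀ p ∈ T, lam p y ∈ LL (g p) (s p)} ≃
      gS T lam (fun q => if q ∈ T then LL (g q) (s q) else LU) :=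
    Equiv.subtypeEquivRight fun y => by
      rw [mem_gS]
      constructor
      · intro h q hq
        simp only [hq, if_true]
        exact h q hq
      · intro h q hq
        have := h q hq
        simp only [hq, if_true] at this
        exact this
  have e2 : {y : Y // ∀ p ∈ T, lam p y ∈ LU} ≃ gS T lam (fun _ => LU) :=
    Equiv.subtypeEquivRight fun y => Iff.rfl
  rw [Nat.card_congr e1, Nat.card_congr e2]
  exact hs

end H16B
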