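import Mathlib

/-!
# KA (M): Stepanov's method, non-vanishing of the auxiliary polynomial

`p` odd, `m = deg f ≥ 1`, `f` squarefree, `f(0) ≠ 0`, `g = f^((p-1)/2)`, `deg r_j, deg s_j < A`, `2A + m ≤ p`.
CLAIM: if some `r_j` or `s_j` is not zero then `∑_j (r_j + s_j g) X^(jp) ≠ 0`.
Proof: suppose the sum is zero, `k` the smallest index with `(r_k, s_k) ≠ (0, 0)`.  Divide by `X^(kp)`:
`X^p ∣ r_k + s_k g`.  Multiply by `(r_k - s_k g) f`: `X^p ∣ r_k² f - s_k² g² f = r_k² f - s_k² f^p`, and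
`f^p ≡ f(0) mod X^p` (`f^p = f(X^p)` in characteristic `p`: `Polynomial.expand`, coefficients in `ZMod p`, or:
`f = f(0) + X h`, `f^p = f(0)^p + X^p h^p`, `add_pow_char`).  So `X^p ∣ r_k² f - C (f 0) s_k²`, of degree
`≤ max (2(A-1) + m, 2(A-1)) < p`: it is zero, `r_k² f = C (f 0) s_k²`.  If `s_k = 0` then `r_k = 0`,
contradiction.  Otherwise take an irreducible factor `π` of `f` (`deg f ≥ 1`): the multiplicity of `π` is odd on the
left (`f` squarefree) and even on the right (`emultiplicity`, or `UniqueFactorizationMonoid.normalizedFactors` counts).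
-/

open Polynomial

namespace H16B

theorem KA_parity {p : ℕ} [Fact p.Prime] (f r s : (ZMod p)[X]) (c : ZMod p) (hc : c ≠ 0)
    (hf : Squarefree f) (h1 : 1 ≤ f.natDegree) (hr : r ≠ 0) (hs : s ≠ 0)
    (h : r ^ 2 * f = s ^ 2 * C c) : False := by
  have hf0 : f ≠ 0 := by
    rintro rfl
    rw [natDegree_zero] at h1
    omega
  have hnu : ¬ IsUnit f := by
    intro hu
    have := natDegree_eq_zero_of_isUnit hu
    omega
  obtain ⟨q, hq, hqf⟩ := WfDvdMonoid.exists_irreducible_factor hnu hf0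
  have hqp : Prime q := hq.prime
  have hfm : ∀ a : (ZMod p)[X], a ≠ 0 → FiniteMultiplicity q a := fun a ha =>
    FiniteMultiplicity.of_not_isUnit hqp.not_isUnit ha
  have m1 : multiplicity q f = 1 := by
    apply multiplicity_eq_of_dvd_of_not_dvd
    · rw [pow_one]; exact hqf
    · intro h2
      rw [pow_two] at h2
      exact hqp.not_isUnit (hf q h2)
  have m2 : multiplicity q (r ^ 2 * f) = 2 * multiplicity q r + 1 := by
    rw [multiplicity_mul hqp (hfm _ (mul_ne_zero (pow_ne_zero 2 hr) hf0)),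
      FiniteMultiplicity.multiplicity_pow hqp (hfm r hr), m1]
  have m3 : multiplicity q (s ^ 2 * C c) = 2 * multiplicity q s := by
    have ha : Associated (s ^ 2 * C c) (s ^ 2) := by
      symm
      exact ⟨(Polynomial.isUnit_C.mpr hc.isUnit).unit, rfl⟩
    rw [multiplicity_eq_of_associated_right ha, FiniteMultiplicity.multiplicity_pow hqp (hfm s hs)]
  rw [h, m3] at m2
  omega

theorem KA_nd {p : ℕ} [Fact p.Prime] {r : (ZMod p)[X]} {A : ℕ} (hr : r.degree < A) :
    r.natDegree ≤ A - 1 := by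
  by_cases h : r = 0
  · rw [h, natDegree_zero]; exact Nat.zero_le _
  · have := (natDegree_lt_iff_degree_lt h).mpr hr
    omega

theorem step_nonzero {p : ℕ} [Fact p.Prime] (hp : p ≠ 2) (f : (ZMod p)[X]) (hf : Squarefree f)
    (h1 : 1 ≤ f.natDegree) (h0 : f.eval 0 ≠ 0) (A J : ℕ) (hA : 2 * A + f.natDegree ≤ p)
    (r s : ℕ → (ZMod p)[X]) (hr : ∀ j, (r j).degree < A) (hs : ∀ j, (s j).degree < A)
    (hne : ∃ j < J, r j ≠ 0 ∨ s j ≠ 0) :
    ∑ j ∈ Finset.range J, (r j + s j * f ^ ((p - 1) / 2)) * X ^ (j * p) ≠ 0 := by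
  classical
  intro hS
  have hpp : p.Prime := Fact.out
  obtain ⟨j0, hj0, hj0'⟩ := hne
  have hex : ∃ j, r j ≠ 0 ∨ s j ≠ 0 := ⟨j0, hj0'⟩
  set k := Nat.find hex with hk
  have hk1 : r k ≠ 0 ∨ s k ≠ 0 := Nat.find_spec hex
  have hkJ : k < J := lt_of_le_of_lt (Nat.find_min' hex hj0') hj0
  have hmin : ∀ j < k, r j = 0 ∧ s j = 0 := by
    intro j hj
    have h2 := Nat.find_min hex hj
    push Not at h2
    exact h2
  set g := f ^ ((p - 1) / 2) with hg
  have hA1 : 1 ≤ A := by
    by_contra h2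
    have hA0 : A = 0 := by omega
    subst hA0
    have h3 : ∀ q : (ZMod p)[X], q.degree < ((0 : ℕ) : WithBot ℕ) → q = 0 := by
      intro q hq
      by_contra h4
      rw [degree_eq_natDegree h4, Nat.cast_lt] at hq
      omega
    rcases hk1 with h | h
    · exact h (h3 _ (hr k))
    · exact h (h3 _ (hs k))
  have d1 : (X : (ZMod p)[X]) ^ p ∣ r k + s k * g := by
    have h2 := Finset.add_sum_erase (Finset.range J) (fun j => (r j + s j * g) * X ^ (j * p))
      (Finset.mem_range.mpr hkJ)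
    rw [hS] at h2
    have h3 : (X : (ZMod p)[X]) ^ (k * p) * X ^ p ∣
        ∑ j ∈ (Finset.range J).erase k, (r j + s j * g) * X ^ (j * p) := by
      apply Finset.dvd_sum
      intro j hj
      rw [Finset.mem_erase] at hj
      rcases lt_or_gt_of_ne hj.1 with h4 | h4
      · rw [(hmin j h4).1, (hmin j h4).2, zero_mul, add_zero, zero_mul]
        exact dvd_zero _
      · apply Dvd.dvd.mul_left
        rw [← pow_add]
        apply pow_dvd_pow
        nlinarith
    have h4 : (X : (ZMod p)[X]) ^ (k * p) * X ^ p ∣ (r k + s k * g) * X ^ (k * p) := by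
      have h5 : (r k + s k * g) * X ^ (k * p) =
          -∑ j ∈ (Finset.range J).erase k, (r j + s j * g) * X ^ (j * p) := by
        linear_combination h2
      rw [h5]
      exact (dvd_neg).mpr h3
    rw [mul_comm (r k + s k * g)] at h4
    exact (mul_dvd_mul_iff_left (pow_ne_zero _ X_ne_zero)).mp h4
  have hgf : g ^ 2 * f = f ^ p := by
    rw [hg, ← pow_mul, ← pow_succ]
    congr 1
    have h2 := hpp.eq_two_or_odd
    omega
  have d2 : (X : (ZMod p)[X]) ^ p ∣ f ^ p - C (f.eval 0) := by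
    have h2 : (X : (ZMod p)[X]) ∣ f - C (f.eval 0) := by
      rw [X_dvd_iff, coeff_sub, coeff_C_zero, coeff_zero_eq_eval_zero, sub_self]
    obtain ⟨h, hh⟩ := h2
    have h3 := congrArg (expand (ZMod p) p) hh
    rw [map_sub, expand_C, map_mul, expand_X, ZMod.expand_card] at h3
    exact ⟨_, h3⟩
  have d3 : (X : (ZMod p)[X]) ^ p ∣ r k ^ 2 * f - s k ^ 2 * C (f.eval 0) := by
    have h2 : r k ^ 2 * f - s k ^ 2 * C (f.eval 0) =
        (r k + s k * g) * ((r k - s k * g) * f) + s k ^ 2 * (f ^ p - C (f.eval 0)) := by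
      rw [← hgf]
      ring
    rw [h2]
    exact dvd_add (Dvd.dvd.mul_right d1 _) (Dvd.dvd.mul_left d2 _)
  have hrd := KA_nd (hr k)
  have hsd := KA_nd (hs k)
  have hdeg : (r k ^ 2 * f - s k ^ 2 * C (f.eval 0)).natDegree < (X ^ p : (ZMod p)[X]).natDegree := by
    rw [natDegree_X_pow]
    have e1 : (r k ^ 2 * f).natDegree ≤ 2 * (A - 1) + f.natDegree := by
      refine natDegree_mul_le.trans ?_
      have := natDegree_pow_le (p := r k) (n := 2)
      omega
    have e2 : (s k ^ 2 * C (f.eval 0)).natDegree ≤ 2 * (A - 1) := by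
      refine natDegree_mul_le.trans ?_
      have := natDegree_pow_le (p := s k) (n := 2)
      rw [natDegree_C]
      omega
    have e3 := natDegree_sub_le (r k ^ 2 * f) (s k ^ 2 * C (f.eval 0))
    have e4 : max (r k ^ 2 * f).natDegree (s k ^ 2 * C (f.eval 0)).natDegree ≤
        2 * (A - 1) + f.natDegree := max_le e1 (e2.trans (Nat.le_add_right _ _))
    omega
  have hz := eq_zero_of_dvd_of_natDegree_lt d3 hdeg
  have heq : r k ^ 2 * f = s k ^ 2 * C (f.eval 0) := by linear_combination hz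
  have hf0 : f ≠ 0 := by
    rintro rfl
    rw [natDegree_zero] at h1
    omega
  by_cases hsk : s k = 0
  · rw [hsk] at heq
    have h2 : r k ^ 2 * f = 0 := by rw [heq]; ring
    rcases mul_eq_zero.mp h2 with h | h
    · rcases hk1 with h' | h'
      · exact h' (pow_eq_zero_iff two_ne_zero |>.mp h)
      · exact h' hsk
    · exact hf0 h
  · by_cases hrk : r k = 0
    · rw [hrk] at heq
      have h2 : s k ^ 2 * C (f.eval 0) = 0 := by rw [← heq]; ring
      rcases mul_eq_zero.mp h2 with h | h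
      · exact hsk (pow_eq_zero_iff two_ne_zero |>.mp h)
      · exact h0 (C_eq_zero.mp h)
    · exact KA_parity f (r k) (s k) _ h0 hf h1 hrk hsk heq

end H16B
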