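import Mathlib
import Pool.Agent.Lib.H16B.KA

/-!
# KB (L): Stepanov's method, construction of the auxiliary polynomial

`m = deg f`, `g = f^e`, `e = (p-1)/2`, `R = f^l ∑_{j<J} (r_j + s_j g) X^(jp)`, `deg r_j, deg s_j < A`.
`step_nonzero` (KA): `R ≠ 0` if `(r, s) ≠ 0`.
* Derivatives.  Put `Dop c h = c f' h + f h'` (`c ∈ ZMod p`).  `(f^(k+1) h)' = f^k Dop(k+1)(h)` and
  `(f^(k+1) h g)' = f^k g Dop(k+1+e)(h)`, and `(P X^(jp))' = P' X^(jp)`.  So for `i ≤ l` the `i`-th derivative of
  `f^l h X^(jp)` is `f^(l-i) h_i X^(jp)` and that of `f^l h g X^(jp)` is `f^(l-i) g h~_i X^(jp)`, where `h ↦ h_i, h~_i` are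
  linear and `deg h_i, deg h~_i < A + i (m-1)` (as elements of `degreeLT`).
* At a point `x` with `g(x) = a` (and `x^p = x`): `R^(i)(x) = f(x)^(l-i) σ_i(x)`, `σ_i = ∑_j (r_{j,i} + a s~_{j,i}) X^j`, of degree
  `< A + i (m-1) + J`.
* The linear map `(r, s) ↦ (σ_i)_{i<l}` from a space of dimension `2 J A` to a space of dimension
  `≤ ∑_{i<l} (A + i(m-1) + J) ≤ l (A + J) + m l²` has a nonzero kernel (`LinearMap.ker_ne_bot_of_finrank_lt`,
  `finrank (degreeLT F n) = n`).
-/

open Polynomial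

namespace H16B

section
variable {p : ℕ} [Fact p.Prime]

/-- `h ↦ c f' h + f h'`. -/
noncomputable def kb_D (f : (ZMod p)[X]) (c : ZMod p) : (ZMod p)[X] →ₗ[ZMod p] (ZMod p)[X] :=
  LinearMap.mulLeft (ZMod p) (C c * derivative f) + (LinearMap.mulLeft (ZMod p) f) ∘ₗ derivative

lemma kb_D_apply (f : (ZMod p)[X]) (c : ZMod p) (h : (ZMod p)[X]) :
    kb_D f c h = C c * derivative f * h + f * derivative h := by
  simp [kb_D, mul_assoc]

/-- the iterated operator. -/
noncomputable def kb_T (f : (ZMod p)[X]) (n : ℕ) : ℕ → ((ZMod p)[X] →ₗ[ZMod p] (ZMod p)[X])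
  | 0 => LinearMap.id
  | i + 1 => (kb_D f (((n - i : ℕ) : ZMod p))) ∘ₗ (kb_T f n i)

lemma kb_T_succ (f : (ZMod p)[X]) (n i : ℕ) (h : (ZMod p)[X]) :
    kb_T f n (i + 1) h = kb_D f (((n - i : ℕ) : ZMod p)) (kb_T f n i h) := rfl

lemma kb_deriv (f h : (ZMod p)[X]) (k : ℕ) :
    derivative (f ^ (k + 1) * h) = f ^ k * kb_D f (((k + 1 : ℕ) : ZMod p)) h := by
  rw [kb_D_apply, derivative_mul, derivative_pow]
  simp only [Nat.add_sub_cancel]
  rw [pow_succ]
  ring

lemma kb_iter (f h : (ZMod p)[X]) (n : ℕ) : ∀ i, i ≤ n →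
    derivative^[i] (f ^ n * h) = f ^ (n - i) * kb_T f n i h := by
  intro i
  induction i with
  | zero => intro _; simp [kb_T]
  | succ i ih =>
    intro hi
    rw [Function.iterate_succ_apply', ih (by omega), kb_T_succ]
    obtain ⟨k, hk⟩ : ∃ k, n - i = k + 1 := ⟨n - i - 1, by omega⟩
    have h2 : n - (i + 1) = k := by omega
    rw [hk, h2, kb_deriv]

lemma kb_deriv_X (Q : (ZMod p)[X]) (j : ℕ) :
    derivative (Q * X ^ (j * p)) = derivative Q * X ^ (j * p) := by
  rw [derivative_mul, derivative_X_pow]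
  simp

lemma kb_iter_X (Q : (ZMod p)[X]) (j i : ℕ) :
    derivative^[i] (Q * X ^ (j * p)) = derivative^[i] Q * X ^ (j * p) := by
  induction i with
  | zero => simp
  | succ i ih => rw [Function.iterate_succ_apply', ih, kb_deriv_X, Function.iterate_succ_apply']

lemma kb_D_deg (f h : (ZMod p)[X]) (c : ZMod p) (B : ℕ) (h1 : 1 ≤ f.natDegree)
    (hh : h ∈ degreeLT (ZMod p) B) : kb_D f c h ∈ degreeLT (ZMod p) (B + (f.natDegree - 1)) := by
  rw [mem_degreeLT] at hh ⊢
  by_cases h0 : h = 0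
  · subst h0
    rw [map_zero, degree_zero]
    exact WithBot.bot_lt_coe _
  have hB : h.natDegree < B := by
    rwa [← natDegree_lt_iff_degree_lt h0] at hh
  rw [kb_D_apply]
  refine lt_of_le_of_lt (degree_add_le _ _) (max_lt ?_ ?_)
  · refine lt_of_le_of_lt degree_le_natDegree ?_
    norm_cast
    have h3 := natDegree_derivative_le f
    calc (C c * derivative f * h).natDegree ≤ (C c * derivative f).natDegree + h.natDegree :=
          natDegree_mul_le
      _ ≤ (derivative f).natDegree + h.natDegree :=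
          Nat.add_le_add_right (natDegree_C_mul_le _ _) _
      _ < B + (f.natDegree - 1) := by omega
  · by_cases h4 : derivative h = 0
    · rw [h4, mul_zero, degree_zero]
      exact WithBot.bot_lt_coe _
    refine lt_of_le_of_lt degree_le_natDegree ?_
    norm_cast
    have h5 : h.natDegree ≠ 0 := by
      intro h6
      apply h4
      rw [natDegree_eq_zero] at h6
      obtain ⟨y, hy⟩ := h6
      rw [← hy, derivative_C]
    have h3 := natDegree_derivative_le h
    calc (f * derivative h).natDegree ≤ f.natDegree + (derivative h).natDegree := natDegree_mul_le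
      _ < B + (f.natDegree - 1) := by omega

lemma kb_T_deg (f h : (ZMod p)[X]) (n A : ℕ) (h1 : 1 ≤ f.natDegree)
    (hh : h ∈ degreeLT (ZMod p) A) : ∀ i,
    kb_T f n i h ∈ degreeLT (ZMod p) (A + i * (f.natDegree - 1)) := by
  intro i
  induction i with
  | zero => simpa [kb_T] using hh
  | succ i ih =>
    rw [kb_T_succ]
    have := kb_D_deg f _ (((n - i : ℕ) : ZMod p)) _ h1 ih
    have h2 : A + (i + 1) * (f.natDegree - 1) = A + i * (f.natDegree - 1) + (f.natDegree - 1) := by
      ring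
    rw [h2]
    exact this

/-- `(r, s) ↦ σ_i`. -/
noncomputable def kb_sig (f : (ZMod p)[X]) (a : ZMod p) (A J l e i : ℕ) :
    ((Fin J → degreeLT (ZMod p) A) × (Fin J → degreeLT (ZMod p) A)) →ₗ[ZMod p] (ZMod p)[X] :=
  ∑ j : Fin J, ((LinearMap.mulRight (ZMod p) (X ^ (j : ℕ))) ∘ₗ
    ((kb_T f l i) ∘ₗ (degreeLT (ZMod p) A).subtype ∘ₗ (LinearMap.proj j) ∘ₗ (LinearMap.fst _ _ _) +
      a • ((kb_T f (l + e) i) ∘ₗ (degreeLT (ZMod p) A).subtype ∘ₗ (LinearMap.proj j) ∘ₗ
        (LinearMap.snd _ _ _))))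

lemma kb_sig_apply (f : (ZMod p)[X]) (a : ZMod p) (A J l e i : ℕ)
    (w : (Fin J → degreeLT (ZMod p) A) × (Fin J → degreeLT (ZMod p) A)) :
    kb_sig f a A J l e i w = ∑ j : Fin J, (kb_T f l i (w.1 j : (ZMod p)[X]) +
      a • kb_T f (l + e) i (w.2 j : (ZMod p)[X])) * X ^ (j : ℕ) := by
  simp [kb_sig, LinearMap.sum_apply]

lemma kb_sig_deg (f : (ZMod p)[X]) (a : ZMod p) (A J l e i : ℕ) (h1 : 1 ≤ f.natDegree)
    (w : (Fin J → degreeLT (ZMod p) A) × (Fin J → degreeLT (ZMod p) A)) :
    kb_sig f a A J l e i w ∈ degreeLT (ZMod p) (A + i * (f.natDegree - 1) + J) := by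
  rw [kb_sig_apply]
  refine Submodule.sum_mem _ fun j _ => ?_
  have h2 : kb_T f l i (w.1 j : (ZMod p)[X]) + a • kb_T f (l + e) i (w.2 j : (ZMod p)[X]) ∈
      degreeLT (ZMod p) (A + i * (f.natDegree - 1)) :=
    Submodule.add_mem _ (kb_T_deg f _ l A h1 (w.1 j).2 i)
      (Submodule.smul_mem _ _ (kb_T_deg f _ (l + e) A h1 (w.2 j).2 i))
  set Q := kb_T f l i (w.1 j : (ZMod p)[X]) + a • kb_T f (l + e) i (w.2 j : (ZMod p)[X]) with hQ
  rw [mem_degreeLT] at h2 ⊢
  rw [degree_mul, degree_X_pow]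
  by_cases h0 : Q = 0
  · rw [h0, degree_zero, WithBot.bot_add]
    exact WithBot.bot_lt_coe _
  · rw [← natDegree_lt_iff_degree_lt h0] at h2
    rw [degree_eq_natDegree h0]
    have := j.2
    norm_cast
    omega

end

theorem step_aux {p : ℕ} [Fact p.Prime] (hp : p ≠ 2) (f : (ZMod p)[X]) (hf : Squarefree f)
    (h1 : 1 ≤ f.natDegree) (h0 : f.eval 0 ≠ 0) (a : ZMod p) (A J l : ℕ) (hl : l < p)
    (hA : 2 * A + f.natDegree ≤ p) (hc : l * (A + J) + f.natDegree * l ^ 2 < 2 * J * A) :
    ∃ R : (ZMod p)[X], R ≠ 0 ∧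
      R.natDegree ≤ l * f.natDegree + A + f.natDegree * ((p - 1) / 2) + (J - 1) * p ∧
      ∀ x : ZMod p, (f.eval x) ^ ((p - 1) / 2) = a →
        ∀ i < l, (derivative^[i] R).eval x = 0 := by
  set m := f.natDegree with hm
  set e := (p - 1) / 2 with he
  have hf0 : f ≠ 0 := by
    intro h
    rw [h, eval_zero] at h0
    exact h0 rfl
  -- the linear map
  let Φ : ((Fin J → degreeLT (ZMod p) A) × (Fin J → degreeLT (ZMod p) A)) →ₗ[ZMod p]
      ((i : Fin l) → degreeLT (ZMod p) (A + (i : ℕ) * (m - 1) + J)) :=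
    LinearMap.pi fun i => LinearMap.codRestrict _ (kb_sig f a A J l e i)
      (fun w => kb_sig_deg f a A J l e i h1 w)
  have hfr : ∀ n : ℕ, Module.finrank (ZMod p) (degreeLT (ZMod p) n) = n := by
    intro n
    rw [LinearEquiv.finrank_eq (degreeLTEquiv (ZMod p) n)]
    simp
  have hfd : ∀ n : ℕ, Module.Finite (ZMod p) (degreeLT (ZMod p) n) := by
    intro n
    exact Module.Finite.equiv (degreeLTEquiv (ZMod p) n).symm
  have hker : LinearMap.ker Φ ≠ ⊥ := by
    apply LinearMap.ker_ne_bot_of_finrank_lt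
    rw [Module.finrank_prod, Module.finrank_pi_fintype, Module.finrank_pi_fintype]
    simp only [hfr]
    rw [Finset.sum_const, Finset.card_univ, Fintype.card_fin, smul_eq_mul]
    have h3 : ∑ i : Fin l, (A + (i : ℕ) * (m - 1) + J) ≤ ∑ _i : Fin l, (A + J + m * l) := by
      apply Finset.sum_le_sum
      intro i _
      have h4 : (i : ℕ) * (m - 1) ≤ l * m := Nat.mul_le_mul i.2.le (by omega)
      nlinarith
    rw [Finset.sum_const, Finset.card_univ, Fintype.card_fin, smul_eq_mul] at h3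
    nlinarith
  obtain ⟨w, hw, hw0⟩ := Submodule.exists_mem_ne_zero_of_ne_bot hker
  have hsig : ∀ i, i < l → kb_sig f a A J l e i w = 0 := by
    intro i hi
    have h5 : Φ w = 0 := hw
    have h6 := congrFun h5 ⟨i, hi⟩
    have h7 := congrArg Subtype.val h6
    simpa [Φ] using h7
  -- the polynomial
  let r : ℕ → (ZMod p)[X] := fun j => if h : j < J then (w.1 ⟨j, h⟩ : (ZMod p)[X]) else 0
  let s : ℕ → (ZMod p)[X] := fun j => if h : j < J then (w.2 ⟨j, h⟩ : (ZMod p)[X]) else 0
  have hr : ∀ j, (r j).degree < A := by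
    intro j
    by_cases h : j < J
    · simp only [r, h, dif_pos]
      exact mem_degreeLT.1 (w.1 ⟨j, h⟩).2
    · simp only [r, h, dif_neg, not_false_iff, degree_zero]
      exact WithBot.bot_lt_coe _
  have hs : ∀ j, (s j).degree < A := by
    intro j
    by_cases h : j < J
    · simp only [s, h, dif_pos]
      exact mem_degreeLT.1 (w.2 ⟨j, h⟩).2
    · simp only [s, h, dif_neg, not_false_iff, degree_zero]
      exact WithBot.bot_lt_coe _
  have hne : ∃ j < J, r j ≠ 0 ∨ s j ≠ 0 := by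
    by_contra hcon
    push Not at hcon
    apply hw0
    refine Prod.ext ?_ ?_
    · funext j
      have := (hcon j j.2).1
      simp only [r, j.2, dif_pos] at this
      exact Subtype.ext this
    · funext j
      have := (hcon j j.2).2
      simp only [s, j.2, dif_pos] at this
      exact Subtype.ext this
  have hnz := step_nonzero hp f hf h1 h0 A J hA r s hr hs hne
  refine ⟨f ^ l * ∑ j ∈ Finset.range J, (r j + s j * f ^ e) * X ^ (j * p),
    mul_ne_zero (pow_ne_zero _ hf0) hnz, ?_, ?_⟩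
  · refine le_trans natDegree_mul_le ?_
    rw [natDegree_pow]
    have h8 : (∑ j ∈ Finset.range J, (r j + s j * f ^ e) * X ^ (j * p)).natDegree ≤
        A + m * e + (J - 1) * p := by
      apply natDegree_sum_le_of_forall_le
      intro j hj
      rw [Finset.mem_range] at hj
      refine le_trans natDegree_mul_le ?_
      rw [natDegree_X_pow]
      have h9 : (r j + s j * f ^ e).natDegree ≤ A + m * e := by
        refine le_trans (natDegree_add_le _ _) (max_le ?_ ?_)
        · have h11 : (r j).natDegree ≤ A := natDegree_le_of_degree_le (hr j).le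
          exact le_trans h11 (Nat.le_add_right _ _)
        · refine le_trans natDegree_mul_le ?_
          rw [natDegree_pow]
          have h11 : (s j).natDegree ≤ A := natDegree_le_of_degree_le (hs j).le
          have h12 : e * f.natDegree = m * e := by rw [← hm]; ring
          rw [h12]
          exact Nat.add_le_add_right h11 _
      have h10 : j * p ≤ (J - 1) * p := Nat.mul_le_mul_right _ (by omega)
      omega
    have : l * f.natDegree = l * m := rfl
    omega
  · intro x hx i hi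
    have hR : f ^ l * ∑ j ∈ Finset.range J, (r j + s j * f ^ e) * X ^ (j * p) =
        ∑ j : Fin J, (f ^ l * (w.1 j : (ZMod p)[X]) + f ^ (l + e) * (w.2 j : (ZMod p)[X])) *
          X ^ ((j : ℕ) * p) := by
      rw [Finset.sum_range, Finset.mul_sum]
      refine Finset.sum_congr rfl fun j _ => ?_
      have e1 : r (j : ℕ) = (w.1 j : (ZMod p)[X]) := by simp [r]
      have e2 : s (j : ℕ) = (w.2 j : (ZMod p)[X]) := by simp [s]
      rw [e1, e2, pow_add]
      ring
    rw [hR, iterate_derivative_sum, eval_finsetSum]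
    have key : ∀ j : Fin J, (derivative^[i] ((f ^ l * (w.1 j : (ZMod p)[X]) +
        f ^ (l + e) * (w.2 j : (ZMod p)[X])) * X ^ ((j : ℕ) * p))).eval x =
        (f.eval x) ^ (l - i) * ((kb_T f l i (w.1 j : (ZMod p)[X]) +
          a • kb_T f (l + e) i (w.2 j : (ZMod p)[X])) * X ^ (j : ℕ)).eval x := by
      intro j
      rw [kb_iter_X, iterate_map_add, kb_iter f _ l i hi.le, kb_iter f _ (l + e) i (by omega)]
      have e3 : l + e - i = (l - i) + e := by omega
      rw [e3, pow_add]
      simp only [eval_mul, eval_add, eval_pow, eval_X, eval_smul, smul_eq_mul]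
      rw [hx]
      have e4 : x ^ ((j : ℕ) * p) = x ^ (j : ℕ) := by
        rw [pow_mul, ZMod.pow_card]
      rw [e4]
      ring
    rw [Finset.sum_congr rfl fun j _ => key j, ← Finset.mul_sum, ← eval_finsetSum, ← kb_sig_apply,
      hsig i hi, eval_zero, mul_zero]

end H16B
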