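import Mathlib
import Pool.Agent.Lib.H16B.KB

/-!
# KC (L): the elementary Weil bound for quadratic characters, with exponent `2/3`

`m = deg f ≤ d`, `p` large.  WLOG `f(0) ≠ 0`: replace `f` by `f(X + t)` (`Polynomial.comp`, there is such a `t`, as `f` has at
most `m < p` roots; the sum does not change, squarefree and degree neither).
`a = ± 1`: `N_a = #{x : f(x)^((p-1)/2) = a}`.  By KB with `l = ⌊p^(1/3)⌋` (any `l` with `l ≤ p^(1/3) < l + 1`), `A = (p - m)/2`,
`J = l/2 + 2`: `2JA ≥ (l + 3) A`, and `(l+3) A > l (A + J) + m l²` as `3A ≥ 3(p - m - 1)/2 > l (l/2 + 2) + m l²` for large `p`.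
`R ≠ 0` has a zero of multiplicity `≥ l` at each `x` with `g(x) = a` (`l < p`:
`Polynomial.lt_rootMultiplicity_of_isRoot_iterate_derivative_of_mem_nonZeroDivisors` or a similar lemma of Mathlib),
so `l N_a ≤ deg R` (`Polynomial.card_roots'`, or the product of `(X - x)^l` divides `R`) and
`N_a ≤ (l m + A + m p/2 + (l/2 + 1) p)/l ≤ p/2 + (m + 2) p/l + m`.  Since `N_1 + N_{-1} ≥ p - m`
(`ZMod.pow_div_two_eq_neg_one_or_one`), also `N_a ≥ p/2 - (m+2)p/l - 2m`, and
`|∑ χ(f(x))| = |N_1 - N_{-1}| ≤ 2 (m + 2) p/l + 3m ≤ C p^(2/3)`.  (`quadraticChar (ZMod p) y = y^((p-1)/2)`: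
`quadraticChar_eq_pow_of_char_ne_two'`.)  For `p < p₀(d)` the trivial bound `p ≤ C p^(2/3)` suffices.
-/

open Polynomial

namespace H16B

lemma KC_arith (l m p A J : ℕ) (hlp : l ^ 3 ≤ p) (hl : 2 * m + 6 ≤ l) (hA : p ≤ 2 * A + m + 1)
    (hJ1 : l + 3 ≤ 2 * J) (hJ2 : 2 * J ≤ l + 4) : l * (A + J) + m * l ^ 2 < 2 * J * A := by
  have h1 : (l + 3) * A ≤ 2 * J * A := Nat.mul_le_mul_right _ hJ1
  have h2 : l * (2 * J) ≤ l * (l + 4) := Nat.mul_le_mul_left _ hJ2
  have h3 : (2 * m + 6) * l ^ 2 ≤ l * l ^ 2 := Nat.mul_le_mul_right _ hl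
  have h4 : l * l ^ 2 = l ^ 3 := by ring
  have h5 : l ≤ l ^ 2 := by nlinarith
  have h6 : m ≤ m * l ^ 2 := by nlinarith
  nlinarith

lemma KC_count {p : ℕ} [Fact p.Prime] (hp : p ≠ 2) (f : (ZMod p)[X]) (hf : Squarefree f)
    (h1 : 1 ≤ f.natDegree) (h0 : f.eval 0 ≠ 0) (a : ZMod p) (l : ℕ)
    (hl : 2 * f.natDegree + 6 ≤ l) (hlp : l ^ 3 ≤ p)
    (S : Finset (ZMod p)) (hS : ∀ x ∈ S, (f.eval x) ^ ((p - 1) / 2) = a) :
    (l : ℝ) * S.card ≤ l * f.natDegree + (l : ℝ) * p / 2 + p * ((f.natDegree : ℝ) + 3) / 2 := by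
  classical
  set m := f.natDegree with hm
  have hll : l < l ^ 3 := by
    have h2 : 6 ≤ l := by omega
    calc l = l * 1 := by ring
      _ < l * l ^ 2 := by
        apply Nat.mul_lt_mul_of_pos_left
        · nlinarith
        · omega
      _ = l ^ 3 := by ring
  have hlp' : l < p := lt_of_lt_of_le hll hlp
  have hmp : m < p := by omega
  obtain ⟨R, hR0, hRd, hR⟩ := step_aux hp f hf h1 h0 a ((p - m) / 2) (l / 2 + 2) l hlp' (by omega)
    (KC_arith l m p _ _ hlp hl (by omega) (by omega) (by omega))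
  have hfac : (((l - 1).factorial : ℕ) : ZMod p) ∈ nonZeroDivisors (ZMod p) := by
    apply mem_nonZeroDivisors_of_ne_zero
    intro h
    rw [ZMod.natCast_eq_zero_iff, (Fact.out : p.Prime).dvd_factorial] at h
    omega
  have hmult : ∀ x ∈ S, l ≤ R.roots.count x := by
    intro x hx
    rw [count_roots]
    have := lt_rootMultiplicity_of_isRoot_iterate_derivative_of_mem_nonZeroDivisors (n := l - 1)
      hR0 (fun i hi => hR x (hS x hx) i (by omega)) hfac
    omega
  have h2 : l * S.card ≤ R.natDegree := by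
    calc l * S.card = ∑ x ∈ S, l := by rw [Finset.sum_const, smul_eq_mul, mul_comm]
      _ ≤ ∑ x ∈ S, R.roots.count x := Finset.sum_le_sum hmult
      _ ≤ ∑ x, R.roots.count x := Finset.sum_le_sum_of_subset (Finset.subset_univ _)
      _ = R.roots.card := Multiset.sum_count_eq_card fun _ _ => Finset.mem_univ _
      _ ≤ R.natDegree := card_roots' R
  have h3 : l * S.card ≤ l * m + (p - m) / 2 + m * ((p - 1) / 2) + (l / 2 + 2 - 1) * p := h2.trans hRd
  have h4 : (((p - m) / 2 : ℕ) : ℝ) ≤ p / 2 := by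
    refine Nat.cast_div_le.trans ?_
    have h5 : ((p - m : ℕ) : ℝ) ≤ p := by exact_mod_cast Nat.sub_le _ _
    push_cast
    linarith
  have h5 : (((p - 1) / 2 : ℕ) : ℝ) ≤ p / 2 := by
    refine Nat.cast_div_le.trans ?_
    have h5 : ((p - 1 : ℕ) : ℝ) ≤ p := by exact_mod_cast Nat.sub_le _ _
    push_cast at h5 ⊢
    linarith
  have h6 : ((l / 2 + 2 - 1 : ℕ) : ℝ) ≤ l / 2 + 1 := by
    have h7 : l / 2 + 2 - 1 = l / 2 + 1 := by omega
    rw [h7]
    push_cast
    have := Nat.cast_div_le (α := ℝ) (m := l) (n := 2)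
    push_cast at this
    linarith
  have h7 : (l : ℝ) * S.card ≤ l * m + ((p - m) / 2 : ℕ) + m * ((p - 1) / 2 : ℕ) +
      ((l / 2 + 2 - 1 : ℕ) : ℝ) * p := by exact_mod_cast h3
  have h8 : (m : ℝ) * ((p - 1) / 2 : ℕ) ≤ m * (p / 2) := mul_le_mul_of_nonneg_left h5 (Nat.cast_nonneg _)
  have h9 : ((l / 2 + 2 - 1 : ℕ) : ℝ) * p ≤ (l / 2 + 1) * p := mul_le_mul_of_nonneg_right h6 (Nat.cast_nonneg _)
  calc (l : ℝ) * S.card ≤ l * m + p / 2 + m * (p / 2) + (l / 2 + 1) * p := by linarith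
    _ = _ := by ring

lemma KC_char {p : ℕ} [Fact p.Prime] (hp : p ≠ 2) (y : ZMod p) :
    ((quadraticChar (ZMod p) y : ℤ) : ZMod p) = y ^ ((p - 1) / 2) := by
  rw [quadraticChar_eq_pow_of_char_ne_two', ZMod.card]
  · congr 1
    have := (Fact.out : p.Prime).eq_two_or_odd
    omega
  · rw [ZMod.ringChar_zmod_n]
    exact hp

/-- The bound when f(0) is not zero. -/
lemma KC_main {p : ℕ} [Fact p.Prime] (hp : p ≠ 2) (f : (ZMod p)[X]) (hf : Squarefree f)
    (h1 : 1 ≤ f.natDegree) (h0 : f.eval 0 ≠ 0) (l : ℕ)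
    (hl : 2 * f.natDegree + 6 ≤ l) (hlp : l ^ 3 ≤ p) :
    |∑ x : ZMod p, ((quadraticChar (ZMod p) (f.eval x) : ℤ) : ℝ)| ≤
      3 * f.natDegree + ((f.natDegree : ℝ) + 3) * (p / l) := by
  classical
  set m := f.natDegree with hm
  have hl0 : (0 : ℝ) < l := by
    have : 0 < l := by omega
    exact_mod_cast this
  have hf0 : f ≠ 0 := by
    rintro rfl
    rw [hm, natDegree_zero] at h1; omega
  have key : ∀ a : ℤ, ((Finset.univ.filter fun x : ZMod p => quadraticChar (ZMod p) (f.eval x) = a).card : ℝ) ≤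
      m + (p : ℝ) / 2 + ((m : ℝ) + 3) * (p / l) / 2 := by
    intro a
    have h2 := KC_count hp f hf h1 h0 (a : ZMod p) l hl hlp
      (Finset.univ.filter fun x : ZMod p => quadraticChar (ZMod p) (f.eval x) = a) (by
        intro x hx
        rw [Finset.mem_filter] at hx
        rw [← KC_char hp, hx.2])
    have h3 : (l : ℝ) * (m + (p : ℝ) / 2 + ((m : ℝ) + 3) * (p / l) / 2) =
        l * m + (l : ℝ) * p / 2 + p * ((m : ℝ) + 3) / 2 := by
      field_simp
    rw [← h3] at h2
    exact le_of_mul_le_mul_left h2 hl0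
  set P := Finset.univ.filter fun x : ZMod p => quadraticChar (ZMod p) (f.eval x) = 1 with hP
  set N := Finset.univ.filter fun x : ZMod p => quadraticChar (ZMod p) (f.eval x) = -1 with hN
  set Z := Finset.univ.filter fun x : ZMod p => f.eval x = 0 with hZ
  have hZc : Z.card ≤ m := by
    have h2 : Z ⊆ f.roots.toFinset := by
      intro x hx
      rw [Multiset.mem_toFinset, mem_roots hf0]
      exact (Finset.mem_filter.1 hx).2
    exact (Finset.card_le_card h2).trans ((Multiset.toFinset_card_le _).trans (card_roots' f))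
  have hsum : ∑ x : ZMod p, ((quadraticChar (ZMod p) (f.eval x) : ℤ) : ℝ) = P.card - N.card := by
    rw [Finset.card_eq_sum_ones, Finset.card_eq_sum_ones, hP, hN, Finset.sum_filter, Finset.sum_filter]
    push_cast
    rw [← Finset.sum_sub_distrib]
    apply Finset.sum_congr rfl
    intro x _
    by_cases hx : f.eval x = 0
    · rw [hx, quadraticChar_zero]
      norm_num
    · rcases quadraticChar_dichotomy hx with h | h <;> rw [h] <;> norm_num
  have htot : (p : ℝ) = P.card + N.card + Z.card := by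
    have h2 : (p : ℝ) = ∑ x : ZMod p, (1 : ℝ) := by
      rw [Finset.sum_const, Finset.card_univ, ZMod.card]
      simp
    rw [h2, Finset.card_eq_sum_ones, Finset.card_eq_sum_ones, Finset.card_eq_sum_ones, hP, hN, hZ,
      Finset.sum_filter, Finset.sum_filter, Finset.sum_filter]
    push_cast
    rw [← Finset.sum_add_distrib, ← Finset.sum_add_distrib]
    apply Finset.sum_congr rfl
    intro x _
    by_cases hx : f.eval x = 0
    · rw [hx, quadraticChar_zero]
      norm_num
    · rcases quadraticChar_dichotomy hx with h | h <;> rw [h, if_neg hx] <;> norm_num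
  have hZ' : (Z.card : ℝ) ≤ m := by exact_mod_cast hZc
  have k1 := key 1
  have k2 := key (-1)
  rw [hsum, abs_le]
  constructor <;> linarith

lemma KC_sqf {p : ℕ} [Fact p.Prime] (f : (ZMod p)[X]) (hf : Squarefree f) (t : ZMod p) :
    Squarefree (f.comp (X + C t)) := by
  intro y hy
  have h1 : (y.comp (X - C t)) * (y.comp (X - C t)) ∣ f := by
    obtain ⟨z, hz⟩ := hy
    refine ⟨z.comp (X - C t), ?_⟩
    rw [← mul_comp, ← mul_comp, ← hz, comp_assoc]
    simp
  have h2 := hf _ h1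
  rw [isUnit_iff] at h2 ⊢
  obtain ⟨r, hr, hr'⟩ := h2
  refine ⟨r, hr, ?_⟩
  have h3 : (y.comp (X - C t)).comp (X + C t) = y := by
    rw [comp_assoc]
    simp
  rw [← h3, ← hr']
  simp

theorem weil_weak (d : ℕ) : ∃ C : ℝ, 0 < C ∧ ∀ (p : ℕ) [Fact p.Prime], p ≠ 2 →
    ∀ f : (ZMod p)[X], Squarefree f → 1 ≤ f.natDegree → f.natDegree ≤ d →
      |∑ x : ZMod p, ((quadraticChar (ZMod p) (f.eval x) : ℤ) : ℝ)| ≤
        C * (p : ℝ) ^ ((2 : ℝ) / 3) := by
  refine ⟨5 * d + 7, by positivity, ?_⟩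
  intro p hpp hp2 f hf h1 hd
  have hp1 : (1 : ℝ) ≤ p := by
    have := hpp.out.one_lt.le
    exact_mod_cast this
  have hp0 : (0 : ℝ) < p := by linarith
  have hd0 : (0 : ℝ) ≤ d := Nat.cast_nonneg _
  set c := (p : ℝ) ^ ((1 : ℝ) / 3) with hc
  have hc2 : (p : ℝ) ^ ((2 : ℝ) / 3) = c ^ 2 := by
    rw [hc, ← Real.rpow_natCast, ← Real.rpow_mul hp0.le]
    norm_num
  have hc3 : c ^ 3 = p := by
    rw [hc, ← Real.rpow_natCast, ← Real.rpow_mul hp0.le]
    norm_num
  have hc1 : 1 ≤ c := Real.one_le_rpow hp1 (by norm_num)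
  rw [hc2]
  rcases lt_or_ge c (2 * d + 7) with hlt | hge
  · have h2 : |∑ x : ZMod p, ((quadraticChar (ZMod p) (f.eval x) : ℤ) : ℝ)| ≤ p := by
      refine (Finset.abs_sum_le_sum_abs _ _).trans ?_
      have h3 : ∀ x ∈ (Finset.univ : Finset (ZMod p)),
          |((quadraticChar (ZMod p) (f.eval x) : ℤ) : ℝ)| ≤ 1 := by
        intro x _
        by_cases hx : f.eval x = 0
        · rw [hx, quadraticChar_zero]
          norm_num
        · rcases quadraticChar_dichotomy hx with h | h <;> rw [h] <;> norm_num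
      refine (Finset.sum_le_sum h3).trans ?_
      rw [Finset.sum_const, Finset.card_univ, ZMod.card]
      simp
    refine h2.trans ?_
    rw [← hc3]
    have h4 : 0 ≤ c ^ 2 := by positivity
    nlinarith
  · set l := ⌊c⌋₊ with hl
    have hlc : (l : ℝ) ≤ c := Nat.floor_le (by linarith)
    have hlc' : c < l + 1 := Nat.lt_floor_add_one c
    have hdl : 2 * d + 7 ≤ l := by
      apply Nat.le_floor
      push_cast
      exact hge
    have hl3 : l ^ 3 ≤ p := by
      have h2 : (l : ℝ) ^ 3 ≤ c ^ 3 := pow_le_pow_left₀ (Nat.cast_nonneg _) hlc 3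
      rw [hc3] at h2
      exact_mod_cast h2
    have hlp : l ≤ p := by
      have h2 : l ≤ l ^ 3 := Nat.le_self_pow (by norm_num) l
      omega
    -- a shift with f(t) nonzero
    have hf0 : f ≠ 0 := by
      rintro rfl
      simp at h1
    obtain ⟨t, ht⟩ : ∃ t : ZMod p, f.eval t ≠ 0 := by
      by_contra hcon
      push Not at hcon
      have h2 : (Finset.univ : Finset (ZMod p)) ⊆ f.roots.toFinset := by
        intro x _
        rw [Multiset.mem_toFinset, mem_roots hf0]
        exact hcon x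
      have h3 := (Finset.card_le_card h2).trans ((Multiset.toFinset_card_le _).trans (card_roots' f))
      rw [Finset.card_univ, ZMod.card] at h3
      omega
    have hdeg : (f.comp (X + C t)).natDegree = f.natDegree := by
      rw [natDegree_comp, natDegree_X_add_C, mul_one]
    have h2 := KC_main hp2 (f.comp (X + C t)) (KC_sqf f hf t) (by rw [hdeg]; exact h1)
      (by simpa using ht) l (by rw [hdeg]; omega) hl3
    rw [hdeg] at h2
    have h3 : ∑ x : ZMod p, ((quadraticChar (ZMod p) ((f.comp (X + C t)).eval x) : ℤ) : ℝ) =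
        ∑ x : ZMod p, ((quadraticChar (ZMod p) (f.eval x) : ℤ) : ℝ) := by
      apply Fintype.sum_equiv (Equiv.addRight t)
      intro x
      simp
    rw [h3] at h2
    refine h2.trans ?_
    have hm : (f.natDegree : ℝ) ≤ d := by exact_mod_cast hd
    have hm0 : (0 : ℝ) ≤ f.natDegree := Nat.cast_nonneg _
    have hl0 : (0 : ℝ) < l := by
      have : 0 < l := by omega
      exact_mod_cast this
    have h4 : (p : ℝ) / l ≤ 2 * c ^ 2 := by
      rw [div_le_iff₀ hl0, ← hc3]
      have h5 : c ≤ 2 * l := by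
        have : (1 : ℝ) ≤ l := by
          have : 1 ≤ l := by omega
          exact_mod_cast this
        linarith
      have h6 : 0 ≤ c ^ 2 := by positivity
      nlinarith
    have h5 : ((f.natDegree : ℝ) + 3) * (p / l) ≤ (d + 3) * (2 * c ^ 2) := by
      apply mul_le_mul (by linarith) h4 (by positivity) (by linarith)
    have h6 : 1 ≤ c ^ 2 := by nlinarith
    have h7 : 3 * (f.natDegree : ℝ) ≤ 3 * d * c ^ 2 := by nlinarith
    nlinarith

end H16B
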