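import Mathlib

/-!
# H16B, part K: definitions (character sums to smooth moduli)
-/

namespace H16B

/-- The product of a finite set (of primes). -/
def qq (U : Finset ℕ) : ℕ := ∏ p ∈ U, p

/-- `S(U; l; M) = Σ_{k < M} ∏_{a ∈ l} ((k + a) / q_U)`, `q_U` the product of `U` (Jacobi symbols). -/
def csum (U : Finset ℕ) (l : List ℤ) (M : ℕ) : ℝ :=
  ∑ k ∈ Finset.range M, (((l.map fun a => jacobiSym ((k : ℤ) + a) (qq U)).prod : ℤ) : ℝ)

/-- The list of all `a + t` and all `a + t'`, `a ∈ l`. -/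
def dbl (l : List ℤ) (t t' : ℤ) : List ℤ := l.map (· + t) ++ l.map (· + t')

/-- Some residue modulo `p` occurs an odd number of times in the list `l`. -/
def OddAt (p : ℕ) (l : List ℤ) : Prop :=
  ∃ z : ZMod p, Odd ((l.map (fun a : ℤ => (a : ZMod p))).count z)

/-- Iterated average: for `rs = [r₁, ..., r_J]` the average of `Φ(l')` over all
`h_j, h_j' < H`, where `l'` is obtained from `l` by the steps `l ↦ dbl l (h_j r_j) (h_j' r_j)`. -/
noncomputable def avg (H : ℕ) (Φ : List ℤ → ℝ) : List ℕ → List ℤ → ℝ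
  | [], l => Φ l
  | r :: rs, l => (∑ h ∈ Finset.range H, ∑ h' ∈ Finset.range H,
      avg H Φ rs (dbl l ((h : ℤ) * r) ((h' : ℤ) * r))) / (H : ℝ) ^ 2

/-- The union of `V` and of the sets of the list. -/
def un (Bs : List (Finset ℕ)) (V : Finset ℕ) : Finset ℕ := Bs.foldr (fun B W => B ∪ W) V

end H16B
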