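import Pool.Agent.Lib.H16B.KC
import Pool.Agent.Lib.H16B.KDefs

/-!
# KD (M): complete sums for one prime

`csum_prime`: `l` a list of at most `d` integers with some residue of odd multiplicity modulo `p`.
`O` = the (nonempty) set of the residues `z ∈ ZMod p` of odd multiplicity in `l mod p`.  For `k ∈ ZMod p` outside `-l`:
`∏_{a ∈ l} χ(k + a) = ∏_{z ∈ O} χ(k + z) = χ(f(k))`, `f = ∏_{z ∈ O} (X + z)` squarefree of degree `|O| ≤ d`; for the at most `d`
other `k` both are at most `1`.  So `|csum {p} l p - ∑ χ(f(k))| ≤ 2d` and KC applies.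
(`jacobiSym a p = legendreSym p a = quadraticChar (ZMod p) a`; the sum over `k < p` is the sum over `ZMod p`.)
`csum_single`: one shift: the complete sum is zero (`quadraticChar_sum_zero`).
-/

open Polynomial

namespace H16B

theorem kd_sum {p : ℕ} [Fact p.Prime] (F : ZMod p → ℝ) :
    ∑ k ∈ Finset.range p, F (k : ZMod p) = ∑ x : ZMod p, F x := by
  refine Finset.sum_nbij' (fun k => (k : ZMod p)) (fun x => x.val) ?_ ?_ ?_ ?_ ?_
  · intro k _
    exact Finset.mem_univ _
  · intro x _
    exact Finset.mem_range.2 (ZMod.val_lt x)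
  · intro k hk
    exact ZMod.val_natCast_of_lt (Finset.mem_range.1 hk)
  · intro x _
    exact ZMod.natCast_zmod_val x
  · intro k _
    rfl

theorem kd_jac {p : ℕ} [Fact p.Prime] (a : ℤ) :
    jacobiSym a (qq {p}) = quadraticChar (ZMod p) (a : ZMod p) := by
  have h1 : qq {p} = p := by
    unfold qq
    exact Finset.prod_singleton _ _
  rw [h1, ← jacobiSym.legendreSym.to_jacobiSym]
  rfl

theorem kd_csum {p : ℕ} [Fact p.Prime] (l : List ℤ) :
    csum {p} l p = ∑ x : ZMod p,
      (((l.map (fun a : ℤ => quadraticChar (ZMod p) (x + (a : ZMod p)))).prod : ℤ) : ℝ) := by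
  rw [← kd_sum (fun x : ZMod p =>
    (((l.map (fun a : ℤ => quadraticChar (ZMod p) (x + (a : ZMod p)))).prod : ℤ) : ℝ))]
  unfold csum
  refine Finset.sum_congr rfl fun k _ => ?_
  congr 3
  funext a
  rw [kd_jac]
  push_cast
  rfl

theorem kd_abs {p : ℕ} [Fact p.Prime] (y : ZMod p) :
    |((quadraticChar (ZMod p) y : ℤ) : ℝ)| ≤ 1 := by
  by_cases hy : y = 0
  · rw [hy, MulChar.map_zero]
    simp
  · rcases quadraticChar_dichotomy hy with h | h <;> rw [h] <;> simp

/-- the product over the list for a general `x` -/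
theorem kd_prod {p : ℕ} [Fact p.Prime] (l : List ℤ) (x : ZMod p)
    (hx : ∀ a ∈ l, x + (a : ZMod p) ≠ 0) :
    (l.map (fun a : ℤ => quadraticChar (ZMod p) (x + (a : ZMod p)))).prod =
      quadraticChar (ZMod p) (∏ z ∈ Finset.univ.filter
        (fun z : ZMod p => Odd ((l.map (fun a : ℤ => (a : ZMod p))).count z)), (x + z)) := by
  have h1 : (l.map (fun a : ℤ => quadraticChar (ZMod p) (x + (a : ZMod p)))) =
      ((l.map (fun a : ℤ => (a : ZMod p))).map (fun z => quadraticChar (ZMod p) (x + z))) := by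
    rw [List.map_map]
    rfl
  rw [h1, Finset.prod_list_map_count, map_prod, Finset.prod_filter]
  have h2 : ∏ z ∈ (l.map (fun a : ℤ => (a : ZMod p))).toFinset,
      quadraticChar (ZMod p) (x + z) ^ ((l.map (fun a : ℤ => (a : ZMod p))).count z) =
      ∏ z : ZMod p, quadraticChar (ZMod p) (x + z) ^
        ((l.map (fun a : ℤ => (a : ZMod p))).count z) := by
    refine Finset.prod_subset (Finset.subset_univ _) fun z _ hz => ?_
    rw [List.mem_toFinset] at hz
    rw [List.count_eq_zero_of_not_mem hz, pow_zero]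
  rw [h2]
  refine Finset.prod_congr rfl fun z _ => ?_
  by_cases hz : z ∈ l.map (fun a : ℤ => (a : ZMod p))
  · obtain ⟨a, ha, rfl⟩ := List.mem_map.1 hz
    have h3 : quadraticChar (ZMod p) (x + (a : ZMod p)) ^ 2 = 1 :=
      quadraticChar_sq_one (hx a ha)
    by_cases ho : Odd ((l.map (fun a : ℤ => (a : ZMod p))).count (a : ZMod p))
    · rw [if_pos ho]
      obtain ⟨r, hr⟩ := ho
      rw [hr, pow_succ, pow_mul, h3, one_pow, one_mul]
    · rw [if_neg ho]
      rw [Nat.not_odd_iff_even] at ho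
      obtain ⟨r, hr⟩ := ho
      rw [hr, ← two_mul, pow_mul, h3, one_pow]
  · have h4 := List.count_eq_zero_of_not_mem hz
    rw [h4, pow_zero, if_neg (by decide)]

theorem csum_prime (d : ℕ) : ∃ C : ℝ, 0 < C ∧ ∀ p : ℕ, p.Prime → p ≠ 2 →
    ∀ l : List ℤ, l.length ≤ d → OddAt p l → |csum {p} l p| ≤ C * (p : ℝ) ^ ((2 : ℝ) / 3) := by
  obtain ⟨K, hK, hw⟩ := weil_weak d
  refine ⟨K + d, by positivity, ?_⟩
  intro p hp h2 l hl hodd
  have : Fact p.Prime := ⟨hp⟩
  set m := l.map (fun a : ℤ => (a : ZMod p)) with hm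
  set Od : Finset (ZMod p) := Finset.univ.filter (fun z : ZMod p => Odd (m.count z)) with hOd
  -- the polynomial
  have hsub : Od ⊆ m.toFinset := by
    intro z hz
    rw [hOd, Finset.mem_filter] at hz
    rw [List.mem_toFinset]
    by_contra hcon
    have h3 := hz.2
    rw [List.count_eq_zero_of_not_mem hcon] at h3
    exact absurd h3 (by decide)
  have hmlen : m.toFinset.card ≤ d := by
    refine le_trans (List.toFinset_card_le m) ?_
    rw [hm, List.length_map]
    exact hl
  have hcard : Od.card ≤ d := le_trans (Finset.card_le_card hsub) hmlen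
  have hcard1 : 1 ≤ Od.card := by
    obtain ⟨z, hz⟩ := hodd
    exact Finset.card_pos.2 ⟨z, Finset.mem_filter.2 ⟨Finset.mem_univ _, hz⟩⟩
  have hsq : Squarefree (∏ z ∈ Od, (X - C (-z)) : (ZMod p)[X]) := by
    apply Separable.squarefree
    refine (separable_prod_X_sub_C_iff' (f := fun z : ZMod p => -z) (s := Od)).2 ?_
    intro x _ y _ h
    exact neg_injective h
  have hdeg : (∏ z ∈ Od, (X - Polynomial.C (-z)) : (ZMod p)[X]).natDegree = Od.card :=
    natDegree_finsetProd_X_sub_C_eq_card Od (fun z => -z)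
  have heval : ∀ x : ZMod p, (∏ z ∈ Od, (X - Polynomial.C (-z)) : (ZMod p)[X]).eval x =
      ∏ z ∈ Od, (x + z) := by
    intro x
    rw [eval_prod]
    refine Finset.prod_congr rfl fun z _ => ?_
    rw [eval_sub, eval_X, eval_C, sub_neg_eq_add]
  have hweil := hw p h2 (∏ z ∈ Od, (X - Polynomial.C (-z))) hsq (by rw [hdeg]; exact hcard1)
    (by rw [hdeg]; exact hcard)
  simp only [heval] at hweil
  -- comparison
  have hdiff : |csum {p} l p -
      ∑ x : ZMod p, ((quadraticChar (ZMod p) (∏ z ∈ Od, (x + z)) : ℤ) : ℝ)| ≤ d := by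
    rw [kd_csum, ← Finset.sum_sub_distrib]
    refine le_trans (Finset.abs_sum_le_sum_abs _ _) ?_
    have hterm : ∀ x : ZMod p,
        |(((l.map (fun a : ℤ => quadraticChar (ZMod p) (x + (a : ZMod p)))).prod : ℤ) : ℝ) -
          ((quadraticChar (ZMod p) (∏ z ∈ Od, (x + z)) : ℤ) : ℝ)| ≤
          if -x ∈ m.toFinset then 1 else 0 := by
      intro x
      by_cases hx : -x ∈ m.toFinset
      · rw [if_pos hx]
        rw [List.mem_toFinset, hm] at hx
        obtain ⟨a, ha, hax⟩ := List.mem_map.1 hx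
        have h0 : (l.map (fun a : ℤ => quadraticChar (ZMod p) (x + (a : ZMod p)))).prod = 0 := by
          apply List.prod_eq_zero
          refine List.mem_map.2 ⟨a, ha, ?_⟩
          rw [hax, add_neg_cancel]
          exact MulChar.map_zero _
        rw [h0]
        simp only [Int.cast_zero, zero_sub, abs_neg]
        exact kd_abs _
      · rw [if_neg hx]
        have h0 : ∀ a ∈ l, x + (a : ZMod p) ≠ 0 := by
          intro a ha h
          apply hx
          rw [List.mem_toFinset, hm]
          exact List.mem_map.2 ⟨a, ha, (neg_eq_of_add_eq_zero_right h).symm⟩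
        rw [kd_prod l x h0, sub_self, abs_zero]
    refine le_trans (Finset.sum_le_sum fun x _ => hterm x) ?_
    rw [← Finset.sum_filter, Finset.sum_const, nsmul_eq_mul, mul_one]
    have hc : (Finset.univ.filter (fun x : ZMod p => -x ∈ m.toFinset)).card ≤ m.toFinset.card := by
      refine Finset.card_le_card_of_injOn (fun x => -x) ?_ ?_
      · intro x hx
        have hx' := Finset.mem_coe.1 hx
        rw [Finset.mem_filter] at hx'
        exact Finset.mem_coe.2 hx'.2
      · intro x _ y _ h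
        exact neg_injective h
    exact_mod_cast le_trans hc hmlen
  have hp1 : (1 : ℝ) ≤ (p : ℝ) ^ ((2 : ℝ) / 3) :=
    Real.one_le_rpow (by exact_mod_cast hp.one_lt.le) (by norm_num)
  have h5 : |csum {p} l p| ≤ |csum {p} l p -
      ∑ x : ZMod p, ((quadraticChar (ZMod p) (∏ z ∈ Od, (x + z)) : ℤ) : ℝ)| +
      |∑ x : ZMod p, ((quadraticChar (ZMod p) (∏ z ∈ Od, (x + z)) : ℤ) : ℝ)| := by
    have := abs_add_le (csum {p} l p -
      ∑ x : ZMod p, ((quadraticChar (ZMod p) (∏ z ∈ Od, (x + z)) : ℤ) : ℝ))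
      (∑ x : ZMod p, ((quadraticChar (ZMod p) (∏ z ∈ Od, (x + z)) : ℤ) : ℝ))
    rwa [sub_add_cancel] at this
  have h6 : (d : ℝ) ≤ d * (p : ℝ) ^ ((2 : ℝ) / 3) :=
    le_mul_of_one_le_right (by positivity) hp1
  linarith

theorem csum_single {p : ℕ} (hp : p.Prime) (h2 : p ≠ 2) (a : ℤ) : csum {p} [a] p = 0 := by
  have : Fact p.Prime := ⟨hp⟩
  rw [kd_csum]
  simp only [List.map_cons, List.map_nil, List.prod_singleton]
  rw [← Int.cast_sum]
  have h1 : ∑ x : ZMod p, quadraticChar (ZMod p) (x + (a : ZMod p)) =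
      ∑ x : ZMod p, quadraticChar (ZMod p) x :=
    Equiv.sum_comp (Equiv.addRight (a : ZMod p)) (fun x => quadraticChar (ZMod p) x)
  rw [h1, quadraticChar_sum_zero (by rw [ZMod.ringChar_zmod_n]; exact h2), Int.cast_zero]

end H16B
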