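import Pool.Agent.Lib.H16B.KDefs

/-!
# KE (M): parity of multiplicities under `dbl`

The multiplicity of `z` in `dbl l t t'` modulo `p` is `cnt(z - t) + cnt(z - t')`, `cnt` the multiplicity in `l`.
* If all `cnt` are even, so are the sums (`not_oddAt_dbl`).
* `t ≡ t' mod p`: the sums are `2 cnt(z - t)`, even (`not_oddAt_dbl_of_dvd`).
* `t - t' = u ≢ 0 mod p`: suppose all sums are even.  Then `cnt(z) ≡ cnt(z + u)` for all `z`, so by induction
  `cnt(z₀ + j u)` is odd for all `j`, for all residues (`u` generates `ZMod p`), so that `l.length = ∑ cnt ≥ p`,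
  contradiction (`oddAt_dbl`).
-/

namespace H16B

theorem length_dbl (l : List ℤ) (t t' : ℤ) : (dbl l t t').length = l.length * 2 := by
  unfold dbl
  rw [List.length_append, List.length_map, List.length_map]
  ring

theorem KE_count_shift {p : ℕ} (l : List ℤ) (t : ℤ) (z : ZMod p) :
    ((l.map (· + t)).map (fun a : ℤ => (a : ZMod p))).count z =
      (l.map (fun a : ℤ => (a : ZMod p))).count (z - (t : ZMod p)) := by
  have h1 : (l.map (· + t)).map (fun a : ℤ => (a : ZMod p)) =
      (l.map (fun a : ℤ => (a : ZMod p))).map (· + (t : ZMod p)) := by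
    rw [List.map_map, List.map_map]
    apply List.map_congr_left
    intro a _
    simp only [Function.comp_apply]
    push_cast
    ring
  have h2 : z = (fun x : ZMod p => x + (t : ZMod p)) (z - (t : ZMod p)) := by
    simp only [sub_add_cancel]
  rw [h1]
  conv_lhs => rw [h2]
  exact List.count_map_of_injective _ _ (add_left_injective (t : ZMod p)) _

theorem KE_count_dbl {p : ℕ} (l : List ℤ) (t t' : ℤ) (z : ZMod p) :
    ((dbl l t t').map (fun a : ℤ => (a : ZMod p))).count z =
      (l.map (fun a : ℤ => (a : ZMod p))).count (z - (t : ZMod p)) +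
      (l.map (fun a : ℤ => (a : ZMod p))).count (z - (t' : ZMod p)) := by
  unfold dbl
  rw [List.map_append, List.count_append, KE_count_shift, KE_count_shift]

theorem not_oddAt_dbl {p : ℕ} {l : List ℤ} (h : ¬ OddAt p l) (t t' : ℤ) :
    ¬ OddAt p (dbl l t t') := by
  rintro ⟨z, hz⟩
  apply h
  rw [KE_count_dbl] at hz
  rw [Nat.odd_add] at hz
  by_cases h1 : Odd ((l.map (fun a : ℤ => (a : ZMod p))).count (z - (t : ZMod p)))
  · exact ⟨_, h1⟩
  · have h2 : ¬ Even ((l.map (fun a : ℤ => (a : ZMod p))).count (z - (t' : ZMod p))) :=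
      fun h3 => h1 (hz.mpr h3)
    exact ⟨_, Nat.not_even_iff_odd.mp h2⟩

theorem oddAt_dbl {p : ℕ} (hp : p.Prime) {l : List ℤ} (hl : l.length < p) (h : OddAt p l)
    {t t' : ℤ} (ht : ¬ (p : ℤ) ∣ t - t') : OddAt p (dbl l t t') := by
  have : Fact p.Prime := ⟨hp⟩
  by_contra hc
  obtain ⟨z₀, hz₀⟩ := h
  set c : ZMod p → ℕ := fun z => (l.map (fun a : ℤ => (a : ZMod p))).count z with hcdef
  set u : ZMod p := (t : ZMod p) - (t' : ZMod p) with hu
  have hu0 : u ≠ 0 := by
    intro h0
    apply ht
    rw [← ZMod.intCast_zmod_eq_zero_iff_dvd]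
    push_cast
    exact h0
  have hstep : ∀ z, Odd (c z) → Odd (c (z + u)) := by
    intro z hz
    have h1 : ¬ Odd (((dbl l t t').map (fun a : ℤ => (a : ZMod p))).count (z + (t : ZMod p))) :=
      fun h2 => hc ⟨_, h2⟩
    rw [KE_count_dbl, add_sub_cancel_right, Nat.odd_add] at h1
    have h3 : z + (t : ZMod p) - (t' : ZMod p) = z + u := by
      rw [hu]
      ring
    rw [h3] at h1
    by_contra h4
    exact h1 ⟨fun _ => Nat.not_odd_iff_even.mp h4, fun _ => hz⟩
  have hall : ∀ j : ℕ, Odd (c (z₀ + (j : ZMod p) * u)) := by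
    intro j
    induction j with
    | zero => simpa using hz₀
    | succ j ih =>
      have := hstep _ ih
      have e : z₀ + (j : ZMod p) * u + u = z₀ + ((j + 1 : ℕ) : ZMod p) * u := by
        push_cast
        ring
      rwa [e] at this
  have hodd : ∀ z, Odd (c z) := by
    intro z
    have := hall ((z - z₀) / u).val
    rw [ZMod.natCast_zmod_val, div_mul_cancel₀ _ hu0, add_sub_cancel] at this
    exact this
  have hsub : (Finset.univ : Finset (ZMod p)) ⊆ (l.map (fun a : ℤ => (a : ZMod p))).toFinset := by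
    intro z _
    rw [List.mem_toFinset]
    exact List.count_pos_iff.mp (hodd z).pos
  have h5 := Finset.card_le_card hsub
  rw [Finset.card_univ, ZMod.card] at h5
  have h6 := List.toFinset_card_le (l.map (fun a : ℤ => (a : ZMod p)))
  rw [List.length_map] at h6
  omega

end H16B
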