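import Pool.Agent.Lib.H16B.KDefs

/-!
# KF (M): reduction to complete sums

* `csum_le`: trivial bound.
* `qq U` is a product of distinct odd primes, `jacobiSym a (qq U) = ∏_{p ∈ U} jacobiSym a p` (`jacobiSym.mul_right`,
  induction), periodic modulo `qq U`; by the Chinese remainder theorem the sum over a full period is
  `csum U l (qq U) = ∏_{p ∈ U} csum {p} l p` (induction on `U`, `ZMod.chineseRemainder`).
* `csum_interval`: an interval of length `M` consists of `⌊M/q⌋` full periods and a rest of length `< q`.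
* `csum_congr`: the values depend on the shifts only modulo `qq U`, so
  `csum U (l.map (· + h r)) M` for `r` = the product of the block `B ⊆ U`... (not needed here, see KG).
-/

namespace H16B

/-- The summand of `csum`, with an arbitrary modulus. -/
def kfF (n : ℕ) (l : List ℤ) (k : ℕ) : ℤ := (l.map fun a => jacobiSym ((k : ℤ) + a) n).prod

theorem kf_abs (n : ℕ) (l : List ℤ) (k : ℕ) : |kfF n l k| ≤ 1 := by
  induction l with
  | nil => simp [kfF]
  | cons a l ih =>
    have h1 : kfF n (a :: l) k = jacobiSym ((k : ℤ) + a) n * kfF n l k := by simp [kfF]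
    rw [h1, abs_mul]
    have h2 : |jacobiSym ((k : ℤ) + a) n| ≤ 1 := by
      rcases jacobiSym.trichotomy ((k : ℤ) + a) n with h | h | h <;> simp [h]
    calc |jacobiSym ((k : ℤ) + a) n| * |kfF n l k| ≤ 1 * 1 :=
          mul_le_mul h2 ih (abs_nonneg _) (by norm_num)
      _ = 1 := by norm_num

theorem kf_mul (m n : ℕ) (hm : m ≠ 0) (hn : n ≠ 0) (l : List ℤ) (k : ℕ) :
    kfF (m * n) l k = kfF m l k * kfF n l k := by
  haveI : NeZero m := ⟨hm⟩
  haveI : NeZero n := ⟨hn⟩
  induction l with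
  | nil => simp [kfF]
  | cons a l ih =>
    have h1 : ∀ n : ℕ, kfF n (a :: l) k = jacobiSym ((k : ℤ) + a) n * kfF n l k := by
      intro n; simp [kfF]
    rw [h1, h1, h1, ih, jacobiSym.mul_right]
    ring

theorem kf_mod (n : ℕ) (l : List ℤ) (k : ℕ) : kfF n l (k % n) = kfF n l k := by
  induction l with
  | nil => simp [kfF]
  | cons a l ih =>
    have h1 : ∀ k : ℕ, kfF n (a :: l) k = jacobiSym ((k : ℤ) + a) n * kfF n l k := by
      intro n; simp [kfF]
    rw [h1, h1, ih]
    congr 1
    apply jacobiSym.mod_left'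
    push_cast
    rw [Int.add_emod, Int.emod_emod_of_dvd _ (dvd_refl _), ← Int.add_emod]

theorem csum_eq_kf (U : Finset ℕ) (l : List ℤ) (M : ℕ) :
    csum U l M = ∑ k ∈ Finset.range M, ((kfF (qq U) l k : ℤ) : ℝ) := rfl

theorem csum_le (U : Finset ℕ) (l : List ℤ) (M : ℕ) : |csum U l M| ≤ M := by
  rw [csum_eq_kf]
  refine (Finset.abs_sum_le_sum_abs _ _).trans ?_
  calc ∑ k ∈ Finset.range M, |((kfF (qq U) l k : ℤ) : ℝ)| ≤ ∑ k ∈ Finset.range M, (1 : ℝ) := by
        apply Finset.sum_le_sum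
        intro k _
        have := kf_abs (qq U) l k
        exact_mod_cast this
    _ = M := by simp

theorem kf_crt (m n : ℕ) (hm : m ≠ 0) (hn : n ≠ 0) (h : Nat.Coprime m n) (f g : ℕ → ℝ) :
    ∑ k ∈ Finset.range (m * n), f (k % m) * g (k % n) =
      (∑ i ∈ Finset.range m, f i) * ∑ j ∈ Finset.range n, g j := by
  rw [Finset.sum_mul_sum, ← Finset.sum_product']
  refine Finset.sum_bij' (fun k _ => (k % m, k % n))
    (fun p _ => (Nat.chineseRemainder h p.1 p.2 : ℕ)) ?_ ?_ ?_ ?_ ?_
  · intro k _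
    simp only [Finset.mem_product, Finset.mem_range]
    exact ⟨Nat.mod_lt _ (Nat.pos_of_ne_zero hm), Nat.mod_lt _ (Nat.pos_of_ne_zero hn)⟩
  · intro p _
    simp only [Finset.mem_range]
    exact Nat.chineseRemainder_lt_mul h p.1 p.2 hm hn
  · intro k hk
    have hk' := Finset.mem_range.mp hk
    have h1 := (Nat.chineseRemainder h (k % m) (k % n)).2
    have h2 := Nat.chineseRemainder_lt_mul h (k % m) (k % n) hm hn
    have h3 : (Nat.chineseRemainder h (k % m) (k % n) : ℕ) ≡ k [MOD m * n] := by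
      rw [← Nat.modEq_and_modEq_iff_modEq_mul h]
      exact ⟨h1.1.trans (Nat.mod_modEq _ _), h1.2.trans (Nat.mod_modEq _ _)⟩
    exact Nat.ModEq.eq_of_lt_of_lt h3 h2 hk'
  · rintro ⟨i, j⟩ hp
    simp only [Finset.mem_product, Finset.mem_range] at hp
    have h1 := (Nat.chineseRemainder h i j).2
    ext
    · have := h1.1
      simp only
      unfold Nat.ModEq at this
      rw [this, Nat.mod_eq_of_lt hp.1]
    · have := h1.2
      simp only
      unfold Nat.ModEq at this
      rw [this, Nat.mod_eq_of_lt hp.2]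
  · intro k _
    rfl

theorem qq_ne_zero {U : Finset ℕ} (hU : ∀ p ∈ U, p.Prime ∧ p ≠ 2) : qq U ≠ 0 := by
  unfold qq
  rw [Finset.prod_ne_zero_iff]
  intro p hp
  exact (hU p hp).1.ne_zero

theorem csum_period (U : Finset ℕ) (hU : ∀ p ∈ U, p.Prime ∧ p ≠ 2) (l : List ℤ) :
    csum U l (qq U) = ∏ p ∈ U, csum {p} l p := by
  induction U using Finset.induction_on with
  | empty =>
    have h1 : ∀ l : List ℤ, kfF 1 l 0 = 1 := by
      intro l
      induction l with
      | nil => simp [kfF]
      | cons a l ih =>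
        have h1 : kfF 1 (a :: l) 0 = jacobiSym (((0 : ℕ) : ℤ) + a) 1 * kfF 1 l 0 := by simp [kfF]
        rw [h1, ih]
        simp
    rw [csum_eq_kf]
    have h2 : qq ∅ = 1 := by simp [qq]
    rw [h2]
    simp [h1]
  | insert p U hp ih =>
    have hU' : ∀ p ∈ U, p.Prime ∧ p ≠ 2 := fun r hr => hU r (Finset.mem_insert_of_mem hr)
    have ih' := ih hU'
    rw [Finset.prod_insert hp, ← ih']
    have hq : qq (insert p U) = p * qq U := by
      unfold qq; rw [Finset.prod_insert hp]
    have hpp : p.Prime := (hU p (Finset.mem_insert_self _ _)).1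
    have hcop : Nat.Coprime p (qq U) := by
      unfold qq
      apply Nat.Coprime.prod_right
      intro r hr
      rw [Nat.coprime_primes hpp (hU' r hr).1]
      rintro rfl
      exact hp hr
    have hqp : qq {p} = p := by simp [qq]
    rw [csum_eq_kf, csum_eq_kf, csum_eq_kf, hq, hqp, ← kf_crt p (qq U) hpp.ne_zero (qq_ne_zero hU') hcop]
    apply Finset.sum_congr rfl
    intro k _
    rw [kf_mul _ _ hpp.ne_zero (qq_ne_zero hU'), kf_mod, kf_mod]
    push_cast
    ring

theorem kf_sum_periodic (q : ℕ) (f : ℕ → ℝ) (hf : ∀ k, f (k % q) = f k) (t r : ℕ) :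
    ∑ k ∈ Finset.range (q * t + r), f k =
      t * ∑ k ∈ Finset.range q, f k + ∑ k ∈ Finset.range r, f k := by
  induction t with
  | zero => simp
  | succ t ih =>
    have h1 : q * (t + 1) + r = q + (q * t + r) := by ring
    rw [h1, Finset.sum_range_add]
    have h2 : ∑ x ∈ Finset.range (q * t + r), f (q + x) = ∑ x ∈ Finset.range (q * t + r), f x := by
      apply Finset.sum_congr rfl
      intro x _
      rw [← hf (q + x), Nat.add_mod_left, hf]
    rw [h2, ih]
    push_cast
    ring

theorem csum_interval (U : Finset ℕ) (hU : ∀ p ∈ U, p.Prime ∧ p ≠ 2) (l : List ℤ) (M : ℕ) :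
    |csum U l M| ≤ M * ∏ p ∈ U, (|csum {p} l p| / p) + qq U := by
  have hq0 := qq_ne_zero hU
  have hqpos : (0 : ℝ) < (qq U : ℝ) := by
    have := Nat.pos_of_ne_zero hq0
    exact_mod_cast this
  have h1 : csum U l M = (M / qq U : ℕ) * csum U l (qq U) + csum U l (M % qq U) := by
    rw [csum_eq_kf, csum_eq_kf, csum_eq_kf]
    have h2 := kf_sum_periodic (qq U) (fun k => ((kfF (qq U) l k : ℤ) : ℝ))
      (fun k => by simp only [kf_mod]) (M / qq U) (M % qq U)
    rw [Nat.div_add_mod] at h2
    exact h2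
  have h3 : ∏ p ∈ U, (|csum {p} l p| / (p : ℝ)) = |csum U l (qq U)| / (qq U : ℝ) := by
    rw [Finset.prod_div_distrib, csum_period U hU l, Finset.abs_prod]
    congr 1
    unfold qq
    push_cast
    rfl
  rw [h3, h1]
  have h4 : |csum U l (M % qq U)| ≤ (qq U : ℝ) := by
    refine (csum_le U l _).trans ?_
    exact_mod_cast (Nat.mod_lt _ (Nat.pos_of_ne_zero hq0)).le
  have h5 : ((M / qq U : ℕ) : ℝ) ≤ (M : ℝ) / (qq U : ℝ) := Nat.cast_div_le
  calc |((M / qq U : ℕ) : ℝ) * csum U l (qq U) + csum U l (M % qq U)|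
      ≤ |((M / qq U : ℕ) : ℝ) * csum U l (qq U)| + |csum U l (M % qq U)| := abs_add_le _ _
    _ ≤ ((M / qq U : ℕ) : ℝ) * |csum U l (qq U)| + qq U := by
        rw [abs_mul, abs_of_nonneg (Nat.cast_nonneg _)]
        linarith
    _ ≤ (M : ℝ) / (qq U : ℝ) * |csum U l (qq U)| + qq U := by
        have := mul_le_mul_of_nonneg_right h5 (abs_nonneg (csum U l (qq U)))
        linarith
    _ = M * (|csum U l (qq U)| / (qq U : ℝ)) + qq U := by
        congr 1
        ring

end H16B
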