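import Pool.Agent.Lib.H16B.KDefs

/-!
# KG (M): one step of the q-analogue of van der Corput's inequality

`F(k) = ∏_{a ∈ l} ((k+a)/q_B)` (period `r = qq B`), `G(k) = ∏_{a ∈ l} ((k+a)/q_V)`, `S = ∑_{k<M} F(k) G(k)` (`q_{B ∪ V} = q_B q_V`,
`jacobiSym.mul_right`).  For `0 ≤ h < H`: `|S - ∑_{k<M} F(k + h r) G(k + h r)| ≤ 2 h r ≤ 2 H r` (`|F G| ≤ 1`, the intervals `[0, M)`
and `[h r, M + h r)` differ in at most `2 h r` points), and `F(k + h r) = F(k)`.  Average over `h`: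
`|S| ≤ (1/H) ∑_{k<M} |∑_h G(k + h r)| + 2 H r`, and by Cauchy-Schwarz
`(∑_k |∑_h G(k + h r)|)² ≤ M ∑_k ∑_{h,h'} G(k + h r) G(k + h' r) = M ∑_{h,h'} csum V (dbl l (h r) (h' r)) M`.
With `(a + b)² ≤ 2a² + 2b²` and division by `M²` this is the claim.
-/

namespace H16B

/-- The product of the Jacobi symbols of the shifts. -/
def KG_f (n : ℕ) (l : List ℤ) (k : ℤ) : ℝ := (((l.map fun a => jacobiSym (k + a) n).prod : ℤ) : ℝ)

lemma KG_abs (n : ℕ) (l : List ℤ) (k : ℤ) : |KG_f n l k| ≤ 1 := by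
  unfold KG_f
  induction l with
  | nil => simp
  | cons a l ih =>
    rw [List.map_cons, List.prod_cons, Int.cast_mul, abs_mul]
    have h1 : |((jacobiSym (k + a) n : ℤ) : ℝ)| ≤ 1 := by
      rcases jacobiSym.trichotomy (k + a) n with h | h | h <;> rw [h] <;> simp
    exact mul_le_one₀ h1 (abs_nonneg _) ih

lemma KG_per (n : ℕ) (l : List ℤ) (k h : ℤ) : KG_f n l (k + h * n) = KG_f n l k := by
  unfold KG_f
  congr 3
  funext a
  apply jacobiSym.mod_left'
  have : k + h * (n : ℤ) + a = k + a + h * n := by ring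
  rw [this, Int.add_mul_emod_self_right]

lemma KG_mul (m n : ℕ) (hm : m ≠ 0) (hn : n ≠ 0) (l : List ℤ) (k : ℤ) :
    KG_f (m * n) l k = KG_f m l k * KG_f n l k := by
  have : NeZero m := ⟨hm⟩
  have : NeZero n := ⟨hn⟩
  unfold KG_f
  induction l with
  | nil => simp
  | cons a l ih =>
    simp only [List.map_cons, List.prod_cons, Int.cast_mul] at ih ⊢
    rw [ih, jacobiSym.mul_right, Int.cast_mul]
    ring

lemma KG_dbl (n : ℕ) (l : List ℤ) (k t t' : ℤ) :
    KG_f n (dbl l t t') k = KG_f n l (k + t) * KG_f n l (k + t') := by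
  unfold KG_f dbl
  rw [List.map_append, List.prod_append, Int.cast_mul, List.map_map, List.map_map]
  have h : ∀ t : ℤ, ((fun a => jacobiSym (k + a) n) ∘ fun x => x + t) = fun a => jacobiSym (k + t + a) n := by
    intro t
    funext a
    show jacobiSym (k + (a + t)) n = jacobiSym (k + t + a) n
    congr 1
    ring
  rw [h, h]

lemma KG_shift (f : ℤ → ℝ) (hf : ∀ k, |f k| ≤ 1) (M n : ℕ) :
    |∑ k ∈ Finset.range M, f k - ∑ k ∈ Finset.range M, f (k + n)| ≤ 2 * n := by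
  induction n with
  | zero => simp
  | succ n ih =>
    have h1 : ∑ k ∈ Finset.range M, f ((k : ℤ) + ((n + 1 : ℕ) : ℤ)) =
        ∑ k ∈ Finset.range M, f ((k : ℤ) + n) + f ((M : ℤ) + n) - f n := by
      have h2 := Finset.sum_range_succ (fun k : ℕ => f ((k : ℤ) + n)) M
      have h3 := Finset.sum_range_succ' (fun k : ℕ => f ((k : ℤ) + n)) M
      rw [h3] at h2
      have h4 : ∑ k ∈ Finset.range M, f (((k + 1 : ℕ) : ℤ) + n) =
          ∑ k ∈ Finset.range M, f ((k : ℤ) + ((n + 1 : ℕ) : ℤ)) := by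
        apply Finset.sum_congr rfl
        intro k _
        congr 1
        push_cast
        ring
      rw [h4] at h2
      simp only [Nat.cast_zero, zero_add] at h2
      linarith
    have h5 := hf ((M : ℤ) + n)
    have h6 := hf (n : ℤ)
    rw [h1]
    rw [abs_le] at *
    push_cast
    constructor <;> linarith [ih.1, ih.2, h5.1, h5.2, h6.1, h6.2]

theorem vdc (B V : Finset ℕ) (hBV : Disjoint B V) (hp : ∀ p ∈ B ∪ V, p.Prime ∧ p ≠ 2)
    (l : List ℤ) (M H : ℕ) (hM : 0 < M) (hH : 0 < H) :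
    (|csum (B ∪ V) l M| / M) ^ 2 ≤
      2 * ((∑ h ∈ Finset.range H, ∑ h' ∈ Finset.range H,
        |csum V (dbl l ((h : ℤ) * (qq B : ℕ)) ((h' : ℤ) * (qq B : ℕ))) M| / M) / (H : ℝ) ^ 2) +
      8 * ((H : ℝ) * (qq B : ℝ) / M) ^ 2 := by
  have hB0 : qq B ≠ 0 := by
    unfold qq
    rw [Finset.prod_ne_zero_iff]
    intro p hpB
    exact (hp p (Finset.mem_union_left _ hpB)).1.ne_zero
  have hV0 : qq V ≠ 0 := by
    unfold qq
    rw [Finset.prod_ne_zero_iff]
    intro p hpV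
    exact (hp p (Finset.mem_union_right _ hpV)).1.ne_zero
  have hqq : qq (B ∪ V) = qq B * qq V := by
    unfold qq
    exact Finset.prod_union hBV
  set r := qq B with hr
  have hS : csum (B ∪ V) l M = ∑ k ∈ Finset.range M, KG_f r l k * KG_f (qq V) l k := by
    unfold csum
    apply Finset.sum_congr rfl
    intro k _
    rw [hqq, ← KG_mul _ _ hB0 hV0]
    rfl
  have hD : ∀ t t' : ℤ, csum V (dbl l t t') M =
      ∑ k ∈ Finset.range M, KG_f (qq V) l (k + t) * KG_f (qq V) l (k + t') := by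
    intro t t'
    unfold csum
    apply Finset.sum_congr rfl
    intro k _
    rw [← KG_dbl]
    rfl
  set S := csum (B ∪ V) l M with hSdef
  set G := KG_f (qq V) l with hG
  have hM' : (0 : ℝ) < M := by exact_mod_cast hM
  have hH' : (0 : ℝ) < H := by exact_mod_cast hH
  have hG1 : ∀ k, |G k| ≤ 1 := KG_abs _ _
  -- one shift
  have h1 : ∀ h ∈ Finset.range H, |S - ∑ k ∈ Finset.range M, KG_f r l k * G (k + (h : ℤ) * r)| ≤
      2 * ((H : ℝ) * r) := by
    intro h hh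
    have h2 := KG_shift (fun k => KG_f r l k * G k) (fun k => by
      rw [abs_mul]
      exact mul_le_one₀ (KG_abs _ _ _) (abs_nonneg _) (hG1 k)) M (h * r)
    have h3 : ∑ k ∈ Finset.range M, KG_f r l ((k : ℤ) + ((h * r : ℕ) : ℤ)) * G ((k : ℤ) + ((h * r : ℕ) : ℤ)) =
        ∑ k ∈ Finset.range M, KG_f r l k * G (k + (h : ℤ) * r) := by
      apply Finset.sum_congr rfl
      intro k _
      rw [Nat.cast_mul, KG_per]
    rw [h3, ← hS] at h2
    refine h2.trans ?_
    have h4 : (h : ℝ) ≤ H := by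
      have := (Finset.mem_range.1 hh).le
      exact_mod_cast this
    push_cast
    have h5 : (0 : ℝ) ≤ r := Nat.cast_nonneg _
    nlinarith
  set W : ℕ → ℝ := fun k => ∑ h ∈ Finset.range H, G (k + (h : ℤ) * r) with hW
  have h2 : |(H : ℝ) * S| ≤ ∑ k ∈ Finset.range M, |W k| + (H : ℝ) * (2 * ((H : ℝ) * r)) := by
    have e1 : (H : ℝ) * S = ∑ k ∈ Finset.range M, KG_f r l k * W k +
        ∑ h ∈ Finset.range H, (S - ∑ k ∈ Finset.range M, KG_f r l k * G (k + (h : ℤ) * r)) := by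
      rw [Finset.sum_sub_distrib, Finset.sum_const, Finset.card_range, nsmul_eq_mul, Finset.sum_comm]
      simp only [hW, Finset.mul_sum]
      ring
    rw [e1]
    refine (abs_add_le _ _).trans (add_le_add ?_ ?_)
    · refine (Finset.abs_sum_le_sum_abs _ _).trans (Finset.sum_le_sum ?_)
      intro k _
      rw [abs_mul]
      exact mul_le_of_le_one_left (abs_nonneg _) (KG_abs _ _ _)
    · refine (Finset.abs_sum_le_sum_abs _ _).trans ((Finset.sum_le_sum h1).trans ?_)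
      rw [Finset.sum_const, Finset.card_range, nsmul_eq_mul]
  have h3 : (∑ k ∈ Finset.range M, |W k|) ^ 2 ≤ M * ∑ h ∈ Finset.range H, ∑ h' ∈ Finset.range H,
      |csum V (dbl l ((h : ℤ) * r) ((h' : ℤ) * r)) M| := by
    have h4 : (∑ k ∈ Finset.range M, |W k|) ^ 2 ≤ M * ∑ k ∈ Finset.range M, |W k| ^ 2 := by
      have := sq_sum_le_card_mul_sum_sq (s := Finset.range M) (f := fun k => |W k|)
      rw [Finset.card_range] at this
      exact this
    refine h4.trans (mul_le_mul_of_nonneg_left ?_ hM'.le)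
    have h5 : ∑ k ∈ Finset.range M, |W k| ^ 2 = ∑ h ∈ Finset.range H, ∑ h' ∈ Finset.range H,
      csum V (dbl l ((h : ℤ) * r) ((h' : ℤ) * r)) M := by
      have h51 : ∀ k ∈ Finset.range M, |W k| ^ 2 = ∑ h ∈ Finset.range H, ∑ h' ∈ Finset.range H,
          G (k + (h : ℤ) * r) * G (k + (h' : ℤ) * r) := by
        intro k _
        rw [sq_abs, sq, hW]
        exact Finset.sum_mul_sum _ _ _ _
      rw [Finset.sum_congr rfl h51, Finset.sum_comm]
      apply Finset.sum_congr rfl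
      intro h _
      rw [Finset.sum_comm]
      apply Finset.sum_congr rfl
      intro h' _
      rw [hD]
    rw [h5]
    apply Finset.sum_le_sum
    intro h _
    apply Finset.sum_le_sum
    intro h' _
    exact le_abs_self _
  set T := ∑ h ∈ Finset.range H, ∑ h' ∈ Finset.range H,
      |csum V (dbl l ((h : ℤ) * r) ((h' : ℤ) * r)) M| with hT
  have h6 : ∑ h ∈ Finset.range H, ∑ h' ∈ Finset.range H,
      |csum V (dbl l ((h : ℤ) * r) ((h' : ℤ) * r)) M| / M = T / M := by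
    rw [hT, Finset.sum_div]
    apply Finset.sum_congr rfl
    intro h _
    rw [Finset.sum_div]
  rw [h6]
  set Y := ∑ k ∈ Finset.range M, |W k| with hY
  rw [abs_mul, abs_of_pos hH'] at h2
  have hY0 : 0 ≤ Y := Finset.sum_nonneg fun _ _ => abs_nonneg _
  have h7 : |S| ^ 2 * (H : ℝ) ^ 2 ≤ 2 * Y ^ 2 + 2 * ((H : ℝ) * (2 * ((H : ℝ) * r))) ^ 2 := by
    have h8 : ((H : ℝ) * |S|) ^ 2 ≤ (Y + (H : ℝ) * (2 * ((H : ℝ) * r))) ^ 2 := by
      apply pow_le_pow_left₀ _ h2
      positivity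
    nlinarith [sq_nonneg (Y - (H : ℝ) * (2 * ((H : ℝ) * r)))]
  have h9 : (|S| / M) ^ 2 = (|S| ^ 2 * (H : ℝ) ^ 2) / ((H : ℝ) ^ 2 * (M : ℝ) ^ 2) := by
    field_simp
  have h10 : 2 * (T / M / (H : ℝ) ^ 2) + 8 * ((H : ℝ) * r / M) ^ 2 =
      (2 * (M * T) + 2 * ((H : ℝ) * (2 * ((H : ℝ) * r))) ^ 2) / ((H : ℝ) ^ 2 * (M : ℝ) ^ 2) := by
    field_simp
    ring
  rw [h9, h10]
  apply div_le_div_of_nonneg_right _ (by positivity)
  linarith

end H16B
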