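import Pool.Agent.Lib.H16B.KG

/-!
# KH (M): iteration of KG

`σ(U, l) = |csum U l M| / M ∈ [0, 1]`.  Induction on `Bs`, `J = Bs.length`, `c_J = 9^(2^J)`.
`Bs = []`: `avg = σ(V, l)`.
Step `Bs = B :: Bs'`, `U' = un Bs' V`, disjoint from `B`: by KG and `8 ρ² ≤ ρ`: `σ(U, l)² ≤ 2 E σ(U', l') + ρ`, `E` the average over
`h, h'` of `l' = dbl l (h r) (h' r)`.  So, with `N = 2^(J-1)`,
`σ^(2^J) = (σ²)^N ≤ (2 E σ' + ρ)^N ≤ 3^N max(E σ', ρ)^N ≤ 3^N ((E σ')^N + ρ) ≤ 3^N (E (σ'^N) + ρ)` (`ρ ≤ 1`, `N ≥ 1`; convexity: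
`inner_le_nnorm_mul_nnorm`/`Finset.inner..`, or `inner` power means `Real.pow_arith_mean_le_arith_mean_pow`)
`≤ 3^N (c_{J-1} (E avg + ρ) + ρ) ≤ c_J (avg + ρ)`, as `3^N (c_{J-1} + 1) ≤ 9^(2N)`.
-/

namespace H16B

theorem KH_avg_nonneg (H : ℕ) (Φ : List ℤ → ℝ) (hΦ : ∀ l, 0 ≤ Φ l) (rs : List ℕ) (l : List ℤ) :
    0 ≤ avg H Φ rs l := by
  induction rs generalizing l with
  | nil => exact hΦ l
  | cons r rs ih =>
    rw [avg]
    exact div_nonneg (Finset.sum_nonneg fun h _ => Finset.sum_nonneg fun h' _ => ih _) (by positivity)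

theorem KH_disjoint_un (B V : Finset ℕ) (Bs : List (Finset ℕ)) (h1 : ∀ B' ∈ Bs, Disjoint B B')
    (h2 : Disjoint B V) : Disjoint B (un Bs V) := by
  induction Bs with
  | nil => exact h2
  | cons C Cs ih =>
    have h3 : un (C :: Cs) V = C ∪ un Cs V := rfl
    rw [h3, Finset.disjoint_union_right]
    exact ⟨h1 C (by simp), ih fun B' hB' => h1 B' (by simp [hB'])⟩

theorem KH_mean_pow (H : ℕ) (hH : 0 < H) (f : ℕ → ℕ → ℝ) (hf : ∀ h h', 0 ≤ f h h') (N : ℕ) :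
    ((∑ h ∈ Finset.range H, ∑ h' ∈ Finset.range H, f h h') / (H : ℝ) ^ 2) ^ N ≤
      (∑ h ∈ Finset.range H, ∑ h' ∈ Finset.range H, f h h' ^ N) / (H : ℝ) ^ 2 := by
  have hH' : (0 : ℝ) < (H : ℝ) ^ 2 := by positivity
  have key := Real.pow_arith_mean_le_arith_mean_pow (Finset.range H ×ˢ Finset.range H)
    (fun _ => 1 / (H : ℝ) ^ 2) (fun x : ℕ × ℕ => f x.1 x.2) (fun _ _ => by positivity)
    (by
      rw [Finset.sum_const, Finset.card_product, Finset.card_range, nsmul_eq_mul]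
      push_cast
      field_simp) (fun _ _ => hf _ _) N
  rw [← Finset.mul_sum, ← Finset.mul_sum, Finset.sum_product, Finset.sum_product] at key
  calc ((∑ h ∈ Finset.range H, ∑ h' ∈ Finset.range H, f h h') / (H : ℝ) ^ 2) ^ N
      = (1 / (H : ℝ) ^ 2 * ∑ h ∈ Finset.range H, ∑ h' ∈ Finset.range H, f h h') ^ N := by
        congr 1; ring
    _ ≤ 1 / (H : ℝ) ^ 2 * ∑ h ∈ Finset.range H, ∑ h' ∈ Finset.range H, f h h' ^ N := key
    _ = _ := by ring

theorem KH_real (N : ℕ) (hN : 1 ≤ N) (s E A ρ : ℝ) (hE : 0 ≤ E) (hA : 0 ≤ A) (hρ0 : 0 ≤ ρ)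
    (hρ : ρ ≤ 1 / 8) (h1 : s ^ 2 ≤ 2 * E + ρ) (h2 : E ^ N ≤ 9 ^ N * (A + ρ)) :
    s ^ (2 * N) ≤ 9 ^ (2 * N) * (A + ρ) := by
  have h3 : s ^ (2 * N) ≤ (2 * E + ρ) ^ N := by
    rw [pow_mul]
    exact pow_le_pow_left₀ (by positivity) h1 N
  have h4 : (2 * E + ρ) ^ N ≤ (3 * max E ρ) ^ N := by
    apply pow_le_pow_left₀ (by positivity)
    nlinarith [le_max_left E ρ, le_max_right E ρ]
  have h5 : (max E ρ) ^ N ≤ E ^ N + ρ := by
    rcases le_total E ρ with h | h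
    · rw [max_eq_right h]
      have h6 : ρ ^ N ≤ ρ := by
        calc ρ ^ N ≤ ρ ^ 1 := pow_le_pow_of_le_one hρ0 (by linarith) hN
          _ = ρ := pow_one _
      have h7 : 0 ≤ E ^ N := by positivity
      linarith
    · rw [max_eq_left h]
      linarith
  have h8 : (1 : ℝ) ≤ 9 ^ N := one_le_pow₀ (by norm_num)
  have h9 : (2 : ℝ) * 3 ^ N ≤ 9 ^ N := by
    have h10 : (9 : ℝ) ^ N = 3 ^ N * 3 ^ N := by
      rw [← mul_pow]; norm_num
    have h11 : (3 : ℝ) ≤ 3 ^ N := by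
      calc (3 : ℝ) = 3 ^ 1 := by norm_num
        _ ≤ 3 ^ N := pow_le_pow_right₀ (by norm_num) hN
    rw [h10]
    nlinarith
  calc s ^ (2 * N) ≤ (3 * max E ρ) ^ N := h3.trans h4
    _ = 3 ^ N * (max E ρ) ^ N := by rw [mul_pow]
    _ ≤ 3 ^ N * (E ^ N + ρ) := by gcongr
    _ ≤ 3 ^ N * (9 ^ N * (A + ρ) + ρ) := by gcongr
    _ ≤ 3 ^ N * (9 ^ N * (A + ρ) + 9 ^ N * (A + ρ)) := by
        gcongr
        nlinarith [mul_nonneg (sub_nonneg.2 h8) (add_nonneg hA hρ0)]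
    _ = (2 * 3 ^ N) * (9 ^ N * (A + ρ)) := by ring
    _ ≤ 9 ^ N * (9 ^ N * (A + ρ)) := by gcongr
    _ = 9 ^ (2 * N) * (A + ρ) := by rw [two_mul N, pow_add]; ring

theorem vdc_iter (M H : ℕ) (hM : 0 < M) (hH : 0 < H) (ρ : ℝ) (hρ0 : 0 ≤ ρ) (hρ : ρ ≤ 1 / 8)
    (V : Finset ℕ) (Bs : List (Finset ℕ)) (hdis : Bs.Pairwise Disjoint)
    (hV : ∀ B ∈ Bs, Disjoint B V) (hB : ∀ B ∈ Bs, (H : ℝ) * (qq B : ℝ) ≤ ρ * M)
    (hp : ∀ p ∈ un Bs V, p.Prime ∧ p ≠ 2) (l : List ℤ) :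
    (|csum (un Bs V) l M| / M) ^ (2 ^ Bs.length) ≤
      9 ^ (2 ^ Bs.length) *
        (avg H (fun l' => |csum V l' M| / M) (Bs.map qq) l + ρ) := by
  have hM' : (0 : ℝ) < M := by exact_mod_cast hM
  have hH' : (0 : ℝ) < H := by exact_mod_cast hH
  induction Bs generalizing l with
  | nil =>
    have h1 : un [] V = V := rfl
    have h2 : 0 ≤ |csum V l M| / M := by positivity
    rw [h1]
    simp only [List.length_nil, pow_zero, pow_one, List.map_nil, avg]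
    linarith
  | cons B Bs ih =>
    have h0 : un (B :: Bs) V = B ∪ un Bs V := rfl
    rw [h0] at hp ⊢
    rw [List.pairwise_cons] at hdis
    have hdB : Disjoint B (un Bs V) := KH_disjoint_un B V Bs hdis.1 (hV B (by simp))
    have IH := ih hdis.2 (fun C hC => hV C (by simp [hC])) (fun C hC => hB C (by simp [hC]))
      (fun p hpp => hp p (Finset.mem_union_right _ hpp))
    have h1 := vdc B (un Bs V) hdB hp l M H hM hH
    set N := 2 ^ Bs.length with hN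
    have hN1 : 1 ≤ N := Nat.one_le_two_pow
    have hlen : 2 ^ (B :: Bs).length = 2 * N := by
      rw [List.length_cons, pow_succ, mul_comm]
    rw [hlen]
    set σ : ℕ → ℕ → ℝ := fun h h' =>
      |csum (un Bs V) (dbl l ((h : ℤ) * (qq B : ℕ)) ((h' : ℤ) * (qq B : ℕ))) M| / M with hσ
    have hσ0 : ∀ h h', 0 ≤ σ h h' := fun h h' => by positivity
    set A : ℝ := avg H (fun l' => |csum V l' M| / M) ((B :: Bs).map qq) l with hA
    have hA0 : 0 ≤ A := KH_avg_nonneg _ _ (fun l' => by positivity) _ _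
    have hAe : A = (∑ h ∈ Finset.range H, ∑ h' ∈ Finset.range H,
        avg H (fun l' => |csum V l' M| / M) (Bs.map qq)
          (dbl l ((h : ℤ) * (qq B : ℕ)) ((h' : ℤ) * (qq B : ℕ)))) / (H : ℝ) ^ 2 := rfl
    refine KH_real N hN1 _ ((∑ h ∈ Finset.range H, ∑ h' ∈ Finset.range H, σ h h') / (H : ℝ) ^ 2) A ρ
      ?_ hA0 hρ0 hρ ?_ ?_
    · exact div_nonneg (Finset.sum_nonneg fun h _ => Finset.sum_nonneg fun h' _ => hσ0 _ _)
        (by positivity)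
    · refine h1.trans ?_
      have h2 : (H : ℝ) * (qq B : ℝ) / M ≤ ρ := by
        rw [div_le_iff₀ hM']
        exact hB B (by simp)
      have h3 : 0 ≤ (H : ℝ) * (qq B : ℝ) / M := by positivity
      have h4 : 8 * ((H : ℝ) * (qq B : ℝ) / M) ^ 2 ≤ ρ := by nlinarith
      linarith
    · refine (KH_mean_pow H hH σ hσ0 N).trans ?_
      rw [div_le_iff₀ (by positivity)]
      calc ∑ h ∈ Finset.range H, ∑ h' ∈ Finset.range H, σ h h' ^ N
          ≤ ∑ h ∈ Finset.range H, ∑ h' ∈ Finset.range H, 9 ^ N *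
            (avg H (fun l' => |csum V l' M| / M) (Bs.map qq)
              (dbl l ((h : ℤ) * (qq B : ℕ)) ((h' : ℤ) * (qq B : ℕ))) + ρ) := by
            refine Finset.sum_le_sum fun h _ => Finset.sum_le_sum fun h' _ => ?_
            exact IH _
        _ = 9 ^ N * (A + ρ) * (H : ℝ) ^ 2 := by
            rw [hAe]
            simp only [← Finset.mul_sum, Finset.sum_add_distrib, Finset.sum_const,
              Finset.card_range, nsmul_eq_mul]
            field_simp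

end H16B
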