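import Pool.Agent.Lib.H16B.KE

/-!
# KI (M/L): the average of the products over the degenerate primes

`avg_mono`: monotonicity (only lists of length `l.length * 2^|rs|` occur, `length_dbl`).
`avg_bound`: induction on `rs`.  `rs = []`: equality.  Step `r :: rs'`, `J = |rs'| + 1`: by induction the average over the
last steps, for given `h, h'`, is at most `2^(J-1) ∏_{p ∈ V} (if OddAt p l' then κ_p + (J-1)/p else 1)`, `l' = dbl l (h r) (h' r)`.
* `p` with `¬ OddAt p l`: `¬ OddAt p l'` (`not_oddAt_dbl`), the factor is `1`.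
* `p` with `OddAt p l`: if `p ∤ h - h'` then `p ∤ (h - h') r` and `OddAt p l'` (`oddAt_dbl`); so the factor is at most
  `κ_p + (J-1)/p + [p ∣ h - h']` in both cases (for `p ∣ h - h'` the factor is `κ_p + (J-1)/p` or `1`, each at most
  `κ_p + (J-1)/p + 1`).
Expand the product (`Finset.prod_add`) over the subsets `D` of `V_odd = {p ∈ V : OddAt p l}`:
`∑_D ∏_{p ∈ V_odd \ D} (κ_p + (J-1)/p) · [q_D ∣ h - h']`, and the average over `h, h' < H` of `[q_D ∣ h - h']` is at most
`H (H/q_D + 1)/H² ≤ 2/q_D` (`q_D ≤ qq V ≤ H`).  So the total is at most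
`2^(J-1) · 2 · ∏_{p ∈ V_odd} (κ_p + (J-1)/p + 1/p)`.
-/

namespace H16B

theorem avg_mono (H : ℕ) (Φ Φ' : List ℤ → ℝ) (rs : List ℕ) (l : List ℤ)
    (h : ∀ l' : List ℤ, l'.length = l.length * 2 ^ rs.length → Φ l' ≤ Φ' l') :
    avg H Φ rs l ≤ avg H Φ' rs l := by
  induction rs generalizing l with
  | nil => exact h l (by simp)
  | cons r rs ih =>
    unfold avg
    refine div_le_div_of_nonneg_right ?_ (by positivity)
    refine Finset.sum_le_sum fun a _ => Finset.sum_le_sum fun b _ => ih _ fun l' hl' => h l' ?_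
    rw [hl', length_dbl, List.length_cons, pow_succ]
    ring

theorem avg_add_const (H : ℕ) (hH : 0 < H) (Φ : List ℤ → ℝ) (c : ℝ) (rs : List ℕ) (l : List ℤ) :
    avg H (fun l' => Φ l' + c) rs l = avg H Φ rs l + c := by
  induction rs generalizing l with
  | nil => rfl
  | cons r rs ih =>
    unfold avg
    have hH' : (H : ℝ) ≠ 0 := by
      exact_mod_cast hH.ne'
    simp only [ih, Finset.sum_add_distrib, Finset.sum_const, Finset.card_range, nsmul_eq_mul]
    field_simp

/-- the indicator of `p ∣ h - h'` -/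
noncomputable def KI_ind (p h h' : ℕ) : ℝ := if (p : ℤ) ∣ (h : ℤ) - h' then 1 else 0

theorem KI_ind_nonneg (p h h' : ℕ) : 0 ≤ KI_ind p h h' := by
  unfold KI_ind
  split_ifs <;> norm_num

theorem KI_card (q H h : ℕ) (hq : 0 < q) :
    ((Finset.range H).filter fun h' : ℕ => (q : ℤ) ∣ (h : ℤ) - h').card ≤ H / q + 1 := by
  have h1 : ((Finset.range H).filter fun h' : ℕ => (q : ℤ) ∣ (h : ℤ) - h').card ≤
      (Finset.range (H / q + 1)).card := by
    refine Finset.card_le_card_of_injOn (fun h' => h' / q) ?_ ?_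
    · intro a ha
      have ha' := (Finset.mem_filter.1 (Finset.mem_coe.1 ha)).1
      rw [Finset.coe_range, Set.mem_Iio]
      have h2 : a ≤ H := (Finset.mem_range.1 ha').le
      exact Nat.lt_succ_of_le (Nat.div_le_div_right h2)
    · intro a ha b hb hab
      have ha' := (Finset.mem_filter.1 (Finset.mem_coe.1 ha)).2
      have hb' := (Finset.mem_filter.1 (Finset.mem_coe.1 hb)).2
      have h3 : (q : ℤ) ∣ (b : ℤ) - a := by
        have := dvd_sub ha' hb'
        have e : (h : ℤ) - a - ((h : ℤ) - b) = (b : ℤ) - a := by ring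
        rwa [e] at this
      have h4 : a % q = b % q := by
        have := (Nat.modEq_iff_dvd (n := q) (a := a) (b := b)).2 h3
        exact this
      have h5 := Nat.div_add_mod a q
      have h6 := Nat.div_add_mod b q
      dsimp only at hab
      rw [hab, h4] at h5
      exact h5.symm.trans h6
  rwa [Finset.card_range] at h1

theorem KI_prod (t : Finset ℕ) (h h' : ℕ) (ht : ∀ p ∈ t, p.Prime) :
    (∏ p ∈ t, KI_ind p h h') ≤ if (qq t : ℤ) ∣ (h : ℤ) - h' then 1 else 0 := by
  split_ifs with hd
  · refine Finset.prod_le_one (fun p _ => KI_ind_nonneg p h h') fun p _ => ?_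
    unfold KI_ind
    split_ifs <;> norm_num
  · have h1 : ∃ p ∈ t, ¬ (p : ℤ) ∣ (h : ℤ) - h' := by
      by_contra hcon
      push_neg at hcon
      refine hd ?_
      have h2 : qq t ∣ ((h : ℤ) - h').natAbs := by
        refine Finset.prod_primes_dvd _ (fun p hp => (ht p hp).prime) fun p hp => ?_
        exact Int.natCast_dvd.1 (hcon p hp)
      exact Int.natCast_dvd.2 h2
    obtain ⟨p, hp, hnd⟩ := h1
    have h2 : KI_ind p h h' = 0 := by
      unfold KI_ind
      rw [if_neg hnd]
    rw [Finset.prod_eq_zero hp h2]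

theorem KI_sum (t : Finset ℕ) (H : ℕ) (ht : ∀ p ∈ t, p.Prime) (hH : qq t ≤ H) :
    (∑ h ∈ Finset.range H, ∑ h' ∈ Finset.range H, ∏ p ∈ t, KI_ind p h h') ≤
      2 * (H : ℝ) ^ 2 * ∏ p ∈ t, (1 / (p : ℝ)) := by
  have hq : 0 < qq t := Finset.prod_pos fun p hp => (ht p hp).pos
  have hqr : (0 : ℝ) < (qq t : ℝ) := by
    exact_mod_cast hq
  have hHr : (qq t : ℝ) ≤ (H : ℝ) := by
    exact_mod_cast hH
  have e1 : (∏ p ∈ t, (1 / (p : ℝ))) = 1 / (qq t : ℝ) := by
    unfold qq
    rw [Nat.cast_prod, Finset.prod_div_distrib, Finset.prod_const_one]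
  have h1 : ∀ h ∈ Finset.range H, (∑ h' ∈ Finset.range H, ∏ p ∈ t, KI_ind p h h') ≤
      2 * (H : ℝ) / (qq t : ℝ) := by
    intro h _
    calc (∑ h' ∈ Finset.range H, ∏ p ∈ t, KI_ind p h h')
        ≤ ∑ h' ∈ Finset.range H, (if (qq t : ℤ) ∣ (h : ℤ) - h' then (1 : ℝ) else 0) :=
          Finset.sum_le_sum fun h' _ => KI_prod t h h' ht
      _ = (((Finset.range H).filter fun h' : ℕ => (qq t : ℤ) ∣ (h : ℤ) - h').card : ℝ) := by
          rw [Finset.sum_ite, Finset.sum_const_zero, add_zero, Finset.sum_const, nsmul_eq_mul,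
            mul_one]
      _ ≤ ((H / qq t + 1 : ℕ) : ℝ) := by
          exact_mod_cast KI_card (qq t) H h hq
      _ ≤ (H : ℝ) / (qq t : ℝ) + 1 := by
          push_cast
          have := Nat.cast_div_le (α := ℝ) (m := H) (n := qq t)
          linarith
      _ ≤ 2 * (H : ℝ) / (qq t : ℝ) := by
          have : 1 ≤ (H : ℝ) / (qq t : ℝ) := by
            rw [le_div_iff₀ hqr, one_mul]
            exact hHr
          have e : 2 * (H : ℝ) / (qq t : ℝ) = (H : ℝ) / (qq t : ℝ) + (H : ℝ) / (qq t : ℝ) := by
            ring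
          rw [e]
          linarith
  calc (∑ h ∈ Finset.range H, ∑ h' ∈ Finset.range H, ∏ p ∈ t, KI_ind p h h')
      ≤ ∑ _h ∈ Finset.range H, 2 * (H : ℝ) / (qq t : ℝ) := Finset.sum_le_sum h1
    _ = 2 * (H : ℝ) ^ 2 * ∏ p ∈ t, (1 / (p : ℝ)) := by
        rw [e1, Finset.sum_const, Finset.card_range, nsmul_eq_mul]
        ring

open Classical in
theorem avg_bound (κ : ℕ → ℝ) (hκ : ∀ p, 0 ≤ κ p) (H : ℕ) (hH : 0 < H) (V : Finset ℕ)
    (hV : ∀ p ∈ V, p.Prime) (hqH : qq V ≤ H) (rs : List ℕ) (l : List ℤ)
    (hr : ∀ p ∈ V, ∀ r ∈ rs, ¬ p ∣ r) (hl : ∀ p ∈ V, l.length * 2 ^ rs.length < p) :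
    avg H (fun l' => ∏ p ∈ V, if OddAt p l' then κ p else 1) rs l ≤
      2 ^ rs.length * ∏ p ∈ V, if OddAt p l then κ p + (rs.length : ℝ) / p else 1 := by
  induction rs generalizing l with
  | nil =>
    unfold avg
    simp
  | cons r rs ih =>
    have hHr : (0 : ℝ) < (H : ℝ) := by
      exact_mod_cast hH
    have hx : ∀ p : ℕ, 0 ≤ κ p + (rs.length : ℝ) / p := fun p =>
      add_nonneg (hκ p) (by positivity)
    set W := V.filter fun p => OddAt p l with hW
    have hWV : W ⊆ V := Finset.filter_subset _ _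
    have step : ∀ h h' : ℕ, avg H (fun l' => ∏ p ∈ V, if OddAt p l' then κ p else 1) rs
        (dbl l ((h : ℤ) * r) ((h' : ℤ) * r)) ≤
        2 ^ rs.length * ∏ p ∈ W, (KI_ind p h h' + (κ p + (rs.length : ℝ) / p)) := by
      intro h h'
      refine (ih (dbl l ((h : ℤ) * r) ((h' : ℤ) * r))
        (fun p hp s hs => hr p hp s (List.mem_cons_of_mem _ hs)) ?_).trans ?_
      · intro p hp
        have h1 := hl p hp
        rw [List.length_cons, pow_succ] at h1
        rw [length_dbl]
        calc l.length * 2 * 2 ^ rs.length = l.length * (2 ^ rs.length * 2) := by ring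
          _ < p := h1
      · refine mul_le_mul_of_nonneg_left ?_ (by positivity)
        rw [hW, Finset.prod_filter]
        refine Finset.prod_le_prod (fun p _ => ?_) fun p hp => ?_
        · split_ifs
          · exact hx p
          · norm_num
        · by_cases h1 : OddAt p l
          · rw [if_pos h1]
            by_cases h2 : (p : ℤ) ∣ (h : ℤ) - h'
            · have h3 : KI_ind p h h' = 1 := by
                unfold KI_ind
                rw [if_pos h2]
              rw [h3]
              split_ifs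
              · linarith
              · linarith [hx p]
            · have h4 : OddAt p (dbl l ((h : ℤ) * r) ((h' : ℤ) * r)) := by
                refine oddAt_dbl (hV p hp) ?_ h1 ?_
                · have h5 := hl p hp
                  refine lt_of_le_of_lt ?_ h5
                  exact Nat.le_mul_of_pos_right _ (by positivity)
                · rw [← sub_mul]
                  intro h5
                  rcases (Nat.prime_iff_prime_int.1 (hV p hp)).dvd_or_dvd h5 with h6 | h6
                  · exact h2 h6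
                  · exact hr p hp r List.mem_cons_self (Int.natCast_dvd_natCast.1 h6)
              rw [if_pos h4]
              linarith [KI_ind_nonneg p h h']
          · rw [if_neg h1, if_neg (not_oddAt_dbl h1 _ _)]
    unfold avg
    rw [div_le_iff₀ (by positivity)]
    calc (∑ h ∈ Finset.range H, ∑ h' ∈ Finset.range H,
          avg H (fun l' => ∏ p ∈ V, if OddAt p l' then κ p else 1) rs
            (dbl l ((h : ℤ) * r) ((h' : ℤ) * r)))
        ≤ ∑ h ∈ Finset.range H, ∑ h' ∈ Finset.range H,
          2 ^ rs.length * ∏ p ∈ W, (KI_ind p h h' + (κ p + (rs.length : ℝ) / p)) :=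
          Finset.sum_le_sum fun h _ => Finset.sum_le_sum fun h' _ => step h h'
      _ = 2 ^ rs.length * ∑ t ∈ W.powerset, (∏ p ∈ W \ t, (κ p + (rs.length : ℝ) / p)) *
          ∑ h ∈ Finset.range H, ∑ h' ∈ Finset.range H, ∏ p ∈ t, KI_ind p h h' := by
          have e1 : ∀ h h' : ℕ, (∏ p ∈ W, (KI_ind p h h' + (κ p + (rs.length : ℝ) / p))) =
              ∑ t ∈ W.powerset, (∏ p ∈ W \ t, (κ p + (rs.length : ℝ) / p)) *
                ∏ p ∈ t, KI_ind p h h' := by
            intro h h'
            rw [Finset.prod_add]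
            exact Finset.sum_congr rfl fun t _ => mul_comm _ _
          have e2 : (∑ h ∈ Finset.range H, ∑ h' ∈ Finset.range H,
              ∑ t ∈ W.powerset, (∏ p ∈ W \ t, (κ p + (rs.length : ℝ) / p)) *
                ∏ p ∈ t, KI_ind p h h') =
              ∑ t ∈ W.powerset, (∏ p ∈ W \ t, (κ p + (rs.length : ℝ) / p)) *
                ∑ h ∈ Finset.range H, ∑ h' ∈ Finset.range H, ∏ p ∈ t, KI_ind p h h' := by
            rw [Finset.sum_congr rfl fun h (_ : h ∈ Finset.range H) => Finset.sum_comm,
              Finset.sum_comm]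
            refine Finset.sum_congr rfl fun t _ => ?_
            rw [Finset.mul_sum]
            refine Finset.sum_congr rfl fun h _ => ?_
            rw [Finset.mul_sum]
          rw [← e2, Finset.mul_sum]
          refine Finset.sum_congr rfl fun h _ => ?_
          rw [Finset.mul_sum]
          refine Finset.sum_congr rfl fun h' _ => ?_
          rw [e1]
      _ ≤ 2 ^ rs.length * ∑ t ∈ W.powerset, (∏ p ∈ W \ t, (κ p + (rs.length : ℝ) / p)) *
          (2 * (H : ℝ) ^ 2 * ∏ p ∈ t, (1 / (p : ℝ))) := by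
          refine mul_le_mul_of_nonneg_left ?_ (by positivity)
          refine Finset.sum_le_sum fun t ht => ?_
          have htW := Finset.mem_powerset.1 ht
          refine mul_le_mul_of_nonneg_left ?_ (Finset.prod_nonneg fun p _ => hx p)
          refine KI_sum t H (fun p hp => hV p (hWV (htW hp))) ?_
          refine le_trans ?_ hqH
          exact Finset.prod_le_prod_of_subset_of_one_le' (htW.trans hWV)
            fun p hp _ => (hV p hp).one_le
      _ = 2 ^ rs.length * (2 * (H : ℝ) ^ 2 *
          ∏ p ∈ W, ((1 / (p : ℝ)) + (κ p + (rs.length : ℝ) / p))) := by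
          rw [Finset.prod_add, Finset.mul_sum (a := 2 * (H : ℝ) ^ 2)]
          congr 1
          refine Finset.sum_congr rfl fun t _ => ?_
          ring
      _ = 2 ^ (r :: rs).length * (∏ p ∈ V, if OddAt p l then
          κ p + ((r :: rs).length : ℝ) / p else 1) * (H : ℝ) ^ 2 := by
          rw [hW, Finset.prod_filter, List.length_cons, pow_succ]
          have e : ∀ p ∈ V, (if OddAt p l then (1 / (p : ℝ)) + (κ p + (rs.length : ℝ) / p) else 1) =
              if OddAt p l then κ p + ((rs.length + 1 : ℕ) : ℝ) / p else 1 := by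
            intro p _
            split_ifs
            · push_cast
              ring
            · rfl
          rw [Finset.prod_congr rfl e]
          ring

end H16B
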