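import Pool.Agent.Lib.H16B.KD
import Pool.Agent.Lib.H16B.KF
import Pool.Agent.Lib.H16B.KH
import Pool.Agent.Lib.H16B.KI

/-!
# KJ (L): character sums to smooth moduli (Graham-Ringrose type bound)

`T` a set of primes in `(√x, x]`, `n = |T|`, `N = ⌊δ n⌋`, `M = x^N`, `∅ ≠ U ⊆ T`.  `b = N/2` (integer division), `v = b/8`, `J = ⌈8/δ⌉`;
`x`, `n` large (if `b ≥ n` only the first case occurs).
* CASE `|U| ≤ b`: `csum_interval` and `csum_single` (the product is `0`): `|csum| ≤ q_U ≤ x^b ≤ M/2^(n+1)`.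
* CASE `|U| > b`: `V ⊆ U` with `|V| = b`, and `U \ V` = the disjoint union of `J` blocks `B_1, ..., B_J` of size `≤ b`, some of them may be
  empty (possible as `J b ≥ n`).  `V' ⊆ V` with `|V'| = v`, `H = x^v ≥ q_{V'}`, `ρ = x^(v + b)/M ≤ x^(-(b - v))`, `q_B ≤ x^b`.  KH:
  `σ^(2^J) ≤ 9^(2^J) (avg + ρ)`.  All lists in `avg` have length `2^J`; by `csum_interval` and `csum_prime` (`d = 2^J`):
  `|csum V l' M|/M ≤ ∏_{p ∈ V'} (if OddAt p l' then C p^(-1/3) else 1) + x^b/M` (drop the `p ∈ V \ V'`, the factors are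
  `≤ 1`).  KI (`OddAt p [a]` is clear): `avg ≤ 2^J ∏_{p ∈ V'} (C p^(-1/3) + J/p) + x^b/M ≤ 2^J x^(-v/7) + x^(-b)`, as
  `p > √x` and `x` is large.  So `σ^(2^J) ≤ 9^(2^J) (2^J + 2) x^(-v/7) ≤ 2^(-(n+1) 2^J)` for large `x`: `v/7 ≥ c n` with a constant
  `c = c(δ) > 0`, and `x^c ≥ (9 · 2^J · 4)^(2^J) · 2^(2 · 2^J)` or so.
-/

namespace H16B

theorem KJ_blocks (b : ℕ) : ∀ (J : ℕ) (W : Finset ℕ), W.card ≤ J * b →
    ∃ Bs : List (Finset ℕ), Bs.length = J ∧ Bs.Pairwise Disjoint ∧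
      (∀ B ∈ Bs, B ⊆ W ∧ B.card ≤ b) ∧ ∀ V, un Bs V = W ∪ V := by
  intro J
  induction J with
  | zero =>
    intro W hW
    rw [Nat.zero_mul, Nat.le_zero, Finset.card_eq_zero] at hW
    subst hW
    exact ⟨[], rfl, List.Pairwise.nil, by simp, fun V => by simp [un]⟩
  | succ J ih =>
    intro W hW
    obtain ⟨B, hBW, hBc⟩ := Finset.exists_subset_card_eq (s := W) (n := min b W.card)
      (min_le_right _ _)
    have h1 : (W \ B).card ≤ J * b := by
      rw [Finset.card_sdiff_of_subset hBW, hBc]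
      have : (J + 1) * b = J * b + b := by ring
      rcases le_total b W.card with h | h
      · rw [min_eq_left h]; omega
      · rw [min_eq_right h]; omega
    obtain ⟨Bs, hlen, hpw, hsub, hun⟩ := ih (W \ B) h1
    refine ⟨B :: Bs, by rw [List.length_cons, hlen], ?_, ?_, ?_⟩
    · rw [List.pairwise_cons]
      refine ⟨fun B' hB' => ?_, hpw⟩
      exact Finset.disjoint_of_subset_right (hsub B' hB').1 Finset.disjoint_sdiff
    · intro B' hB'
      rcases List.mem_cons.1 hB' with rfl | h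
      · exact ⟨hBW, by rw [hBc]; exact min_le_left _ _⟩
      · exact ⟨(hsub B' h).1.trans Finset.sdiff_subset, (hsub B' h).2⟩
    · intro V
      have : un (B :: Bs) V = B ∪ un Bs V := rfl
      rw [this, hun V, ← Finset.union_assoc, Finset.union_sdiff_of_subset hBW]

theorem KJ_qq_le (U : Finset ℕ) (x : ℕ) (h : ∀ p ∈ U, p ≤ x) : qq U ≤ x ^ U.card := by
  unfold qq
  exact Finset.prod_le_pow_card _ _ _ h

theorem KJ_oddAt (p : ℕ) (a : ℤ) : OddAt p [a] := by
  refine ⟨(a : ZMod p), ?_⟩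
  simp

theorem KJ_not_dvd {p : ℕ} (hp : p.Prime) (B : Finset ℕ) (hB : ∀ r ∈ B, r.Prime) (hpB : p ∉ B) :
    ¬ p ∣ qq B := by
  unfold qq
  intro h
  obtain ⟨r, hr, hpr⟩ := (hp.prime.dvd_finsetProd_iff _).1 h
  exact hpB (by rwa [(Nat.prime_dvd_prime_iff_eq hp (hB r hr)).1 hpr])

/-- existence of large `x` -/
theorem KJ_large (s : ℝ) (hs : 0 < s) (A : ℝ) : ∃ x₀ : ℕ, ∀ x : ℕ, x₀ ≤ x → A ≤ (x : ℝ) ^ s := by
  have h := ((tendsto_rpow_atTop hs).comp tendsto_natCast_atTop_atTop).eventually_ge_atTop A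
  exact Filter.eventually_atTop.1 h

open Classical in
/-- the bound for one list -/
theorem KJ_term (C : ℝ) (hC : 0 < C) (d : ℕ) (hd : ∀ p : ℕ, p.Prime → p ≠ 2 →
    ∀ l : List ℤ, l.length ≤ d → OddAt p l → |csum {p} l p| ≤ C * (p : ℝ) ^ ((2 : ℝ) / 3))
    (V V' : Finset ℕ) (hVV : V' ⊆ V) (hV : ∀ p ∈ V, p.Prime ∧ p ≠ 2) (M : ℕ) (hM : 0 < M)
    (Q : ℝ) (hQ : (qq V : ℝ) ≤ Q) (l : List ℤ) (hl : l.length ≤ d) :
    |csum V l M| / M ≤ (∏ p ∈ V', if OddAt p l then C * (p : ℝ) ^ (-(1 : ℝ) / 3) else 1) + Q / M := by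
  have hM' : (0 : ℝ) < M := by exact_mod_cast hM
  have h1 := csum_interval V hV l M
  have h2 : |csum V l M| / M ≤ ∏ p ∈ V, (|csum {p} l p| / p) + Q / M := by
    rw [div_le_iff₀ hM', add_mul, div_mul_cancel₀ _ hM'.ne', mul_comm (∏ p ∈ V, _) (M : ℝ)]
    linarith
  refine h2.trans (add_le_add_left ?_ _)
  have hnn : ∀ p ∈ V, 0 ≤ |csum {p} l p| / (p : ℝ) := fun p _ => by positivity
  have hle1 : ∀ p ∈ V, |csum {p} l p| / (p : ℝ) ≤ 1 := by
    intro p hp
    have hp0 : (0 : ℝ) < p := by exact_mod_cast (hV p hp).1.pos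
    rw [div_le_one hp0]
    exact csum_le _ _ _
  calc ∏ p ∈ V, (|csum {p} l p| / (p : ℝ)) ≤ ∏ p ∈ V', (|csum {p} l p| / (p : ℝ)) := by
        rw [← Finset.prod_sdiff hVV]
        refine mul_le_of_le_one_left (Finset.prod_nonneg fun p hp => hnn p (hVV hp)) ?_
        exact Finset.prod_le_one (fun p hp => hnn p (Finset.sdiff_subset hp))
          (fun p hp => hle1 p (Finset.sdiff_subset hp))
    _ ≤ _ := by
        refine Finset.prod_le_prod (fun p hp => hnn p (hVV hp)) fun p hp => ?_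
        split_ifs with ho
        · have hpp := hV p (hVV hp)
          have hp0 : (0 : ℝ) < p := by exact_mod_cast hpp.1.pos
          rw [div_le_iff₀ hp0]
          refine (hd p hpp.1 hpp.2 l hl ho).trans (le_of_eq ?_)
          rw [mul_assoc]
          congr 1
          nth_rewrite 3 [← Real.rpow_one (p : ℝ)]
          rw [← Real.rpow_add hp0]
          norm_num
        · exact hle1 p (hVV hp)

theorem gr {δ : ℝ} (hδ : 0 < δ) : ∃ x₀ : ℕ, ∀ x : ℕ, x₀ ≤ x → ∀ T : Finset ℕ,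
    (∀ p ∈ T, p.Prime ∧ x < p ^ 2 ∧ p ≤ x) → x₀ ≤ T.card →
    ∀ U ⊆ T, U.Nonempty → ∀ a : ℤ,
      |csum U [a] (x ^ ⌊δ * T.card⌋₊)| ≤ (x : ℝ) ^ ⌊δ * T.card⌋₊ / 2 ^ (T.card + 1) := by
  classical
  set J : ℕ := ⌈8 / δ⌉₊ with hJ
  have hJ1 : 8 / δ ≤ (J : ℝ) := Nat.le_ceil _
  obtain ⟨C, hC, hCd⟩ := csum_prime (2 ^ J)
  set A : ℝ := 9 ^ (2 ^ J) * (2 ^ J + 2) * 4 ^ (2 ^ J) with hA
  obtain ⟨x₁, hx₁⟩ := KJ_large (δ / 448) (by positivity) A
  obtain ⟨x₂, hx₂⟩ := KJ_large (1 / 42) (by norm_num) (C + J)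
  refine ⟨max (max x₁ x₂) (max (max 8 (2 ^ (2 * J))) ⌈64 / δ⌉₊), ?_⟩
  intro x hx T hT hn U hU hUne a
  simp only [max_le_iff] at hx hn
  obtain ⟨⟨hxx1, hxx2⟩, ⟨hx8, hxJ⟩, -⟩ := hx
  obtain ⟨-, ⟨hn8, -⟩, hn64⟩ := hn
  set n : ℕ := T.card with hnn
  set N : ℕ := ⌊δ * n⌋₊ with hN
  have hX8 : (8 : ℝ) ≤ x := by exact_mod_cast hx8
  have hX0 : (0 : ℝ) < x := by linarith
  have hX1 : (1 : ℝ) ≤ x := by linarith
  have hAX := hx₁ x hxx1
  have hCJX := hx₂ x hxx2
  have hn64' : 64 ≤ δ * n := by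
    have h1 : 64 / δ ≤ (n : ℝ) := (Nat.le_ceil _).trans (by exact_mod_cast hn64)
    rw [div_le_iff₀ hδ] at h1
    linarith
  have hδn0 : 0 ≤ δ * n := by linarith
  have hN1 : (N : ℝ) ≤ δ * n := Nat.floor_le hδn0
  have hN2 : δ * n < N + 1 := Nat.lt_floor_add_one _
  set b : ℕ := N / 2 with hb
  set v : ℕ := b / 8 with hv
  have hb1 : 2 * b ≤ N := by omega
  have hb2 : N ≤ 2 * b + 1 := by omega
  have hv1 : 8 * v ≤ b := by omega
  have hv2 : b ≤ 8 * v + 7 := by omega
  have hbR : δ * n / 4 ≤ (b : ℝ) := by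
    have : (N : ℝ) ≤ 2 * b + 1 := by exact_mod_cast hb2
    linarith
  have hvR : δ * n / 64 ≤ (v : ℝ) := by
    have h1 : (N : ℝ) ≤ 2 * b + 1 := by exact_mod_cast hb2
    have h2 : (b : ℝ) ≤ 8 * v + 7 := by exact_mod_cast hv2
    linarith
  have hb16 : 1 ≤ b := by
    have : (1 : ℝ) ≤ b := by linarith
    exact_mod_cast this
  have hn1 : 1 ≤ n := by omega
  have hA4 : 4 ≤ A := by
    have h1 : (1 : ℝ) ≤ 9 ^ (2 ^ J) := one_le_pow₀ (by norm_num)
    have h2 : (1 : ℝ) ≤ 2 ^ J + 2 := by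
      have : (0 : ℝ) ≤ 2 ^ J := by positivity
      linarith
    have h3 : (4 : ℝ) ≤ 4 ^ (2 ^ J) := by
      calc (4 : ℝ) = 4 ^ 1 := by norm_num
        _ ≤ 4 ^ (2 ^ J) := pow_le_pow_right₀ (by norm_num) (Nat.one_le_two_pow)
    calc (4 : ℝ) ≤ 4 ^ (2 ^ J) := h3
      _ = 1 * 4 ^ (2 ^ J) := by ring
      _ ≤ A := by
          rw [hA]
          refine mul_le_mul_of_nonneg_right ?_ (by positivity)
          nlinarith
  have hA0 : 0 < A := by linarith
  have key : ∀ s : ℝ, δ * n / 448 ≤ s → A ^ n ≤ (x : ℝ) ^ s := by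
    intro s hs
    calc A ^ n ≤ ((x : ℝ) ^ (δ / 448)) ^ n := pow_le_pow_left₀ hA0.le hAX n
      _ = (x : ℝ) ^ (δ * n / 448) := by
          rw [← Real.rpow_natCast, ← Real.rpow_mul hX0.le]
          congr 1
          ring
      _ ≤ (x : ℝ) ^ s := Real.rpow_le_rpow_of_exponent_le hX1 hs
  have h42 : (2 : ℝ) ^ (n + 1) ≤ 4 ^ n := by
    calc (2 : ℝ) ^ (n + 1) ≤ 2 ^ (2 * n) := pow_le_pow_right₀ (by norm_num) (by omega)
      _ = 4 ^ n := by rw [pow_mul]; norm_num
  have hprime : ∀ p ∈ T, p.Prime ∧ p ≠ 2 := by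
    intro p hp
    refine ⟨(hT p hp).1, ?_⟩
    rintro rfl
    have := (hT 2 hp).2.1
    omega
  have hMpos : 0 < x ^ N := by positivity
  rcases le_or_gt U.card b with hUb | hUb
  · -- few primes
    have h1 := csum_interval U (fun p hp => hprime p (hU hp)) [a] (x ^ N)
    have h2 : ∏ p ∈ U, (|csum {p} [a] p| / (p : ℝ)) = 0 := by
      obtain ⟨p, hp⟩ := hUne
      refine Finset.prod_eq_zero hp ?_
      rw [csum_single (hprime p (hU hp)).1 (hprime p (hU hp)).2, abs_zero, zero_div]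
    rw [h2, mul_zero, zero_add] at h1
    have h3 : (qq U : ℝ) ≤ (x : ℝ) ^ b := by
      have h4 : qq U ≤ x ^ b := (KJ_qq_le U x fun p hp => (hT p (hU hp)).2.2).trans
        (Nat.pow_le_pow_right (by omega) hUb)
      exact_mod_cast h4
    refine h1.trans (h3.trans ?_)
    rw [le_div_iff₀ (by positivity)]
    have h5 : (2 : ℝ) ^ (n + 1) ≤ (x : ℝ) ^ (N - b) := by
      calc (2 : ℝ) ^ (n + 1) ≤ 4 ^ n := h42
        _ ≤ A ^ n := pow_le_pow_left₀ (by norm_num) hA4 n
        _ ≤ (x : ℝ) ^ ((N - b : ℕ) : ℝ) := by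
            apply key
            rw [Nat.cast_sub (by omega)]
            have : (2 : ℝ) * b ≤ N := by exact_mod_cast hb1
            linarith
        _ = _ := Real.rpow_natCast _ _
    calc (x : ℝ) ^ b * 2 ^ (n + 1) ≤ (x : ℝ) ^ b * (x : ℝ) ^ (N - b) :=
          mul_le_mul_of_nonneg_left h5 (by positivity)
      _ = (x : ℝ) ^ N := by rw [← pow_add]; congr 1; omega
  · -- many primes
    obtain ⟨V, hVU, hVc⟩ := Finset.exists_subset_card_eq (s := U) (n := b) hUb.le
    obtain ⟨V', hVV, hVc'⟩ := Finset.exists_subset_card_eq (s := V) (n := v) (by omega)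
    have hJb : (U \ V).card ≤ J * b := by
      have h1 : (n : ℝ) ≤ J * b := by
        have h2 : (8 / δ) * (δ * n / 4) ≤ J * b :=
          mul_le_mul hJ1 hbR (by positivity) (by positivity)
        have h3 : (8 / δ) * (δ * n / 4) = 2 * n := by
          field_simp
          ring
        have h4 : (0 : ℝ) ≤ n := Nat.cast_nonneg _
        linarith
      have h5 : n ≤ J * b := by exact_mod_cast h1
      refine (Finset.card_le_card Finset.sdiff_subset).trans ((Finset.card_le_card hU).trans h5)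
    obtain ⟨Bs, hlen, hpw, hsub, hun⟩ := KJ_blocks b J (U \ V) hJb
    have hunU : un Bs V = U := by
      rw [hun V, Finset.sdiff_union_of_subset hVU]
    have hBV : ∀ B ∈ Bs, Disjoint B V := fun B hB =>
      Finset.disjoint_of_subset_left (hsub B hB).1 Finset.sdiff_disjoint
    have hBT : ∀ B ∈ Bs, B ⊆ T := fun B hB =>
      ((hsub B hB).1.trans Finset.sdiff_subset).trans hU
    have hVT : V ⊆ T := hVU.trans hU
    set M : ℕ := x ^ N with hM
    have hMR : (M : ℝ) = (x : ℝ) ^ N := by rw [hM]; push_cast; rfl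
    have hM0 : (0 : ℝ) < M := by exact_mod_cast hMpos
    set H : ℕ := x ^ v with hH
    have hHpos : 0 < H := by positivity
    set ρ : ℝ := (x : ℝ) ^ (v + b) / M with hρ
    have hρ0 : 0 ≤ ρ := by positivity
    have hρ1 : ρ ≤ 1 / 8 := by
      rw [hρ, hMR, div_le_div_iff₀ (by positivity) (by norm_num), one_mul]
      calc (x : ℝ) ^ (v + b) * 8 ≤ (x : ℝ) ^ (v + b) * x :=
            mul_le_mul_of_nonneg_left hX8 (by positivity)
        _ = (x : ℝ) ^ (v + b + 1) := (pow_succ _ _).symm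
        _ ≤ (x : ℝ) ^ N := pow_le_pow_right₀ hX1 (by omega)
    have hqB : ∀ B ∈ Bs, (H : ℝ) * (qq B : ℝ) ≤ ρ * M := by
      intro B hB
      have h1 : qq B ≤ x ^ b := (KJ_qq_le B x fun p hp => (hT p (hBT B hB hp)).2.2).trans
        (Nat.pow_le_pow_right (by omega) (hsub B hB).2)
      have h2 : (qq B : ℝ) ≤ (x : ℝ) ^ b := by exact_mod_cast h1
      rw [hρ, div_mul_cancel₀ _ hM0.ne', pow_add, hH]
      push_cast
      exact mul_le_mul_of_nonneg_left h2 (by positivity)
    have hKH := vdc_iter M H hMpos hHpos ρ hρ0 hρ1 V Bs hpw hBV hqB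
      (by rw [hunU]; exact fun p hp => hprime p (hU hp)) [a]
    rw [hunU, hlen] at hKH
    -- the average
    have hqV : (qq V : ℝ) ≤ (x : ℝ) ^ b := by
      have h4 : qq V ≤ x ^ V.card := KJ_qq_le V x fun p hp => (hT p (hVT hp)).2.2
      rw [hVc] at h4
      exact_mod_cast h4
    set κ : ℕ → ℝ := fun p => C * (p : ℝ) ^ (-(1 : ℝ) / 3) with hκ
    have hκ0 : ∀ p, 0 ≤ κ p := fun p => by rw [hκ]; positivity
    set w : ℝ := (x : ℝ) ^ (-(v : ℝ) / 7) with hw
    have hw0 : 0 < w := by positivity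
    have hlenmap : (Bs.map qq).length = J := by rw [List.length_map, hlen]
    have havg : avg H (fun l' => |csum V l' M| / M) (Bs.map qq) [a] ≤ 2 ^ J * w + w := by
      have h1 : avg H (fun l' => |csum V l' M| / M) (Bs.map qq) [a] ≤
          avg H (fun l' => (∏ p ∈ V', if OddAt p l' then κ p else 1) + (x : ℝ) ^ b / M)
            (Bs.map qq) [a] := by
        apply avg_mono
        intro l' hl'
        refine KJ_term C hC (2 ^ J) hCd V V' hVV (fun p hp => hprime p (hVT hp)) M hMpos _ hqV l' ?_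
        rw [hl', hlenmap]
        simp
      have h2 := avg_add_const H hHpos (fun l' => ∏ p ∈ V', if OddAt p l' then κ p else 1)
        ((x : ℝ) ^ b / M) (Bs.map qq) [a]
      have h3 := avg_bound κ hκ0 H hHpos V' (fun p hp => (hprime p (hVT (hVV hp))).1) (by
          have h4 := KJ_qq_le V' x fun p hp => (hT p (hVT (hVV hp))).2.2
          rw [hVc'] at h4
          exact h4) (Bs.map qq) [a] (by
          intro p hp r hr
          obtain ⟨B, hB, rfl⟩ := List.mem_map.1 hr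
          refine KJ_not_dvd (hprime p (hVT (hVV hp))).1 B (fun r hr => (hprime r (hBT B hB hr)).1) ?_
          exact fun h => (Finset.disjoint_left.1 (hBV B hB) h) (hVV hp)) (by
          intro p hp
          rw [hlenmap]
          have h5 := (hT p (hVT (hVV hp))).2.1
          have h6 : (2 ^ J) ^ 2 < p ^ 2 := by
            rw [← pow_mul, mul_comm J 2]
            exact lt_of_le_of_lt hxJ h5
          simpa using lt_of_pow_lt_pow_left₀ 2 (Nat.zero_le _) h6)
      rw [hlenmap] at h3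
      have h7 : ∏ p ∈ V', (if OddAt p [a] then κ p + (J : ℝ) / p else 1) ≤ w := by
        calc ∏ p ∈ V', (if OddAt p [a] then κ p + (J : ℝ) / p else 1)
            ≤ ∏ _p ∈ V', (x : ℝ) ^ (-(1 : ℝ) / 7) := by
              refine Finset.prod_le_prod (fun p hp => ?_) fun p hp => ?_
              · rw [if_pos (KJ_oddAt p a)]
                have := hκ0 p
                positivity
              · rw [if_pos (KJ_oddAt p a)]
                have hpp := hT p (hVT (hVV hp))
                have hp1 : (1 : ℝ) ≤ p := by exact_mod_cast hpp.1.one_lt.le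
                have hp0 : (0 : ℝ) < p := by linarith
                have hpx : (x : ℝ) ^ ((1 : ℝ) / 6) ≤ (p : ℝ) ^ ((1 : ℝ) / 3) := by
                  have h8 : (x : ℝ) ≤ (p : ℝ) ^ (2 : ℕ) := by exact_mod_cast hpp.2.1.le
                  calc (x : ℝ) ^ ((1 : ℝ) / 6) ≤ ((p : ℝ) ^ (2 : ℕ)) ^ ((1 : ℝ) / 6) :=
                        Real.rpow_le_rpow hX0.le h8 (by norm_num)
                    _ = (p : ℝ) ^ ((1 : ℝ) / 3) := by
                        rw [← Real.rpow_natCast, ← Real.rpow_mul hp0.le]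
                        norm_num
                have h9 : (p : ℝ) ^ (-(1 : ℝ) / 3) ≤ (x : ℝ) ^ (-(1 : ℝ) / 6) := by
                  rw [neg_div, neg_div, Real.rpow_neg hp0.le, Real.rpow_neg hX0.le]
                  exact inv_anti₀ (by positivity) hpx
                have h10 : (J : ℝ) / p ≤ J * (p : ℝ) ^ (-(1 : ℝ) / 3) := by
                  rw [div_eq_mul_inv]
                  refine mul_le_mul_of_nonneg_left ?_ (Nat.cast_nonneg _)
                  rw [← Real.rpow_neg_one]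
                  exact Real.rpow_le_rpow_of_exponent_le hp1 (by norm_num)
                calc κ p + (J : ℝ) / p ≤ (C + J) * (p : ℝ) ^ (-(1 : ℝ) / 3) := by
                      rw [hκ, add_mul]
                      linarith
                  _ ≤ (x : ℝ) ^ ((1 : ℝ) / 42) * (x : ℝ) ^ (-(1 : ℝ) / 6) :=
                      mul_le_mul hCJX h9 (by positivity) (by positivity)
                  _ = (x : ℝ) ^ (-(1 : ℝ) / 7) := by
                      rw [← Real.rpow_add hX0]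
                      norm_num
          _ = w := by
              rw [Finset.prod_const, hVc', ← Real.rpow_natCast, ← Real.rpow_mul hX0.le, hw]
              congr 1
              ring
      have h8 : (x : ℝ) ^ b / M ≤ w := by
        rw [div_le_iff₀ hM0, hMR, hw, ← Real.rpow_natCast, ← Real.rpow_natCast,
          ← Real.rpow_add hX0]
        refine Real.rpow_le_rpow_of_exponent_le hX1 ?_
        have h9 : (2 : ℝ) * b ≤ N := by exact_mod_cast hb1
        have h10 : (8 : ℝ) * v ≤ b := by exact_mod_cast hv1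
        have h11 : (0 : ℝ) ≤ v := Nat.cast_nonneg _
        linarith
      calc avg H (fun l' => |csum V l' M| / M) (Bs.map qq) [a] ≤ _ := h1
        _ = avg H (fun l' => ∏ p ∈ V', if OddAt p l' then κ p else 1) (Bs.map qq) [a] +
            (x : ℝ) ^ b / M := h2
        _ ≤ 2 ^ J * ∏ p ∈ V', (if OddAt p [a] then κ p + (J : ℝ) / p else 1) + w :=
            add_le_add h3 h8
        _ ≤ 2 ^ J * w + w := by
            have := mul_le_mul_of_nonneg_left h7 (by positivity : (0 : ℝ) ≤ 2 ^ J)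
            linarith
    have hρw : ρ ≤ w := by
      rw [hρ, div_le_iff₀ hM0, hMR, hw, ← Real.rpow_natCast, ← Real.rpow_natCast,
        ← Real.rpow_add hX0]
      refine Real.rpow_le_rpow_of_exponent_le hX1 ?_
      have h9 : (2 : ℝ) * b ≤ N := by exact_mod_cast hb1
      have h10 : (8 : ℝ) * v ≤ b := by exact_mod_cast hv1
      have h11 : (0 : ℝ) ≤ v := Nat.cast_nonneg _
      push_cast
      linarith
    set σ : ℝ := |csum U [a] M| / M with hσ
    have hσ0 : 0 ≤ σ := by positivity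
    have h1 : σ ^ (2 ^ J) ≤ 9 ^ (2 ^ J) * (2 ^ J + 2) * w := by
      refine hKH.trans ?_
      rw [mul_assoc]
      refine mul_le_mul_of_nonneg_left ?_ (by positivity)
      linarith
    have h2 : w ≤ 1 / A ^ n := by
      have h3 := key ((v : ℝ) / 7) (by linarith)
      have h4 : w = 1 / (x : ℝ) ^ ((v : ℝ) / 7) := by
        rw [hw, neg_div, Real.rpow_neg hX0.le, one_div]
      rw [h4]
      exact one_div_le_one_div_of_le (by positivity) h3
    have h3 : 9 ^ (2 ^ J) * (2 ^ J + 2) * w ≤ (1 / 4 ^ n) ^ (2 ^ J) := by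
      set B : ℝ := 9 ^ (2 ^ J) * (2 ^ J + 2) with hB
      have hB1 : 1 ≤ B := by
        have h1 : (1 : ℝ) ≤ 9 ^ (2 ^ J) := one_le_pow₀ (by norm_num)
        have h2 : (1 : ℝ) ≤ 2 ^ J + 2 := by
          have : (0 : ℝ) ≤ 2 ^ J := by positivity
          linarith
        rw [hB]
        nlinarith
      have h4 : A ^ n = B ^ n * (4 ^ n) ^ (2 ^ J) := by
        rw [hA, mul_pow, ← pow_mul, ← pow_mul, mul_comm (2 ^ J) n]
      have h5 : B ≤ B ^ n := le_self_pow₀ hB1 (by omega)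
      calc B * w ≤ B * (1 / A ^ n) := mul_le_mul_of_nonneg_left h2 (by linarith)
        _ ≤ B ^ n * (1 / A ^ n) := mul_le_mul_of_nonneg_right h5 (by positivity)
        _ = (1 / 4 ^ n) ^ (2 ^ J) := by
            rw [h4, one_div_pow]
            have hBn : B ^ n ≠ 0 := by positivity
            field_simp
    have h4 : σ ≤ 1 / 4 ^ n := by
      refine le_of_pow_le_pow_left₀ (n := 2 ^ J) (by positivity) (by positivity) (h1.trans h3)
    have h5 : |csum U [a] M| ≤ (1 / 4 ^ n) * M := by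
      rw [hσ, div_le_iff₀ hM0] at h4
      exact h4
    calc |csum U [a] M| ≤ (1 / 4 ^ n) * M := h5
      _ ≤ (1 / 2 ^ (n + 1)) * M :=
          mul_le_mul_of_nonneg_right (one_div_le_one_div_of_le (by positivity) h42) hM0.le
      _ = (x : ℝ) ^ N / 2 ^ (n + 1) := by rw [hMR]; ring

end H16B
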