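import Pool.Agent.Lib.H16B.KJ

/-!
# KK (M): integers with prescribed Legendre symbols at all the primes of `T`

`M = x^⌊δ n⌋`, `m_k = 1 + Q k`, `k < M`.  `∏_{p ∈ T} (1 + s_p (m_k/p)) ≥ 0`, and it is `> 0` only if `(m_k/p) ≠ - s_p` for all `p ∈ T`, i.e.
`(m_k/p) = s_p` for all `p ∈ T` not dividing `m_k`.  `∑_{k<M} ∏_{p ∈ T} (1 + s_p (m_k/p)) = ∑_{U ⊆ T} (∏_{p ∈ U} s_p) ∑_k (m_k/q_U)` (`Finset.prod_one_add`,
`jacobiSym.mul_right`); `U = ∅` gives `M`; for `U ≠ ∅` let `a` be an integer with `Q a ≡ 1 mod q_U` (`p > √x ≥ Q`, so `Q` is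
prime to `q_U`): `1 + Q k ≡ Q (k + a)`, `∑_k (m_k/q_U) = (Q/q_U) csum U [a] M`, at most `M/2^(n+1)` in absolute value (KJ).  So the
total is `≥ M - (2^n - 1) M/2^(n+1) > 0`, and some `k` works: `0 < m_k ≤ Q M ≤ Q x^(δ n)`.
-/

namespace H16B

theorem kk_prod (m : ℤ) (U : Finset ℕ) (hU : ∀ p ∈ U, p.Prime) :
    ∏ p ∈ U, jacobiSym m p = jacobiSym m (qq U) := by
  induction U using Finset.induction_on with
  | empty => simp [qq]
  | insert p U hp ih =>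
    have hU' : ∀ p ∈ U, p.Prime := fun r hr => hU r (Finset.mem_insert_of_mem hr)
    have hq : qq (insert p U) = p * qq U := by
      unfold qq; rw [Finset.prod_insert hp]
    have hq0 : qq U ≠ 0 := by
      unfold qq
      rw [Finset.prod_ne_zero_iff]
      intro r hr
      exact (hU' r hr).ne_zero
    have : NeZero (qq U) := ⟨hq0⟩
    have : NeZero p := ⟨(hU p (Finset.mem_insert_self _ _)).ne_zero⟩
    rw [Finset.prod_insert hp, ih hU', hq, jacobiSym.mul_right]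

theorem kk_sum (Q : ℕ) (U : Finset ℕ) (a : ℤ) (ha : (Q : ℤ) * a ≡ 1 [ZMOD (qq U : ℤ)]) (M : ℕ) :
    |∑ k ∈ Finset.range M, ((jacobiSym (1 + (Q : ℤ) * k) (qq U) : ℤ) : ℝ)| ≤ |csum U [a] M| := by
  have h1 : ∀ k : ℕ, jacobiSym (1 + (Q : ℤ) * k) (qq U) =
      jacobiSym (Q : ℤ) (qq U) * jacobiSym ((k : ℤ) + a) (qq U) := by
    intro k
    rw [← jacobiSym.mul_left]
    apply jacobiSym.mod_left'
    have h2 : 1 + (Q : ℤ) * k ≡ (Q : ℤ) * ((k : ℤ) + a) [ZMOD (qq U : ℤ)] := by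
      have h3 : (Q : ℤ) * ((k : ℤ) + a) = (Q : ℤ) * a + (Q : ℤ) * k := by ring
      rw [h3]
      exact (Int.ModEq.add_right _ ha).symm
    exact h2
  have h2 : ∑ k ∈ Finset.range M, ((jacobiSym (1 + (Q : ℤ) * k) (qq U) : ℤ) : ℝ) =
      ((jacobiSym (Q : ℤ) (qq U) : ℤ) : ℝ) * csum U [a] M := by
    unfold csum
    rw [Finset.mul_sum]
    apply Finset.sum_congr rfl
    intro k _
    rw [h1]
    push_cast
    simp
  rw [h2, abs_mul]
  have h3 : |((jacobiSym (Q : ℤ) (qq U) : ℤ) : ℝ)| ≤ 1 := by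
    rcases jacobiSym.trichotomy (Q : ℤ) (qq U) with h | h | h <;> simp [h]
  calc |((jacobiSym (Q : ℤ) (qq U) : ℤ) : ℝ)| * |csum U [a] M| ≤ 1 * |csum U [a] M| :=
        mul_le_mul_of_nonneg_right h3 (abs_nonneg _)
    _ = |csum U [a] M| := one_mul _

theorem exists_signs {δ : ℝ} (hδ : 0 < δ) (Q : ℕ) (hQ : 0 < Q) : ∃ x₀ : ℕ, ∀ x : ℕ, x₀ ≤ x →
    ∀ T : Finset ℕ, (∀ p ∈ T, p.Prime ∧ x < p ^ 2 ∧ p ≤ x) → x₀ ≤ T.card →
    ∀ s : ℕ → ℤˣ, ∃ m : ℕ, 0 < m ∧ m ≡ 1 [MOD Q] ∧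
      (m : ℝ) ≤ Q * (x : ℝ) ^ (δ * T.card) ∧
      ∀ p ∈ T, ¬ p ∣ m → jacobiSym (m : ℤ) p = ((s p : ℤˣ) : ℤ) := by
  obtain ⟨x₁, hx₁⟩ := gr hδ
  refine ⟨max x₁ (Q ^ 2 + 1), ?_⟩
  intro x hx T hT hTc s
  have hxx₁ : x₁ ≤ x := (le_max_left _ _).trans hx
  have hxQ : Q ^ 2 + 1 ≤ x := (le_max_right _ _).trans hx
  have hTx₁ : x₁ ≤ T.card := (le_max_left _ _).trans hTc
  have hgr := hx₁ x hxx₁ T hT hTx₁
  set N := ⌊δ * T.card⌋₊ with hN
  set M : ℕ := x ^ N with hM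
  have hx1 : 1 ≤ x := by omega
  have hMpos : 0 < M := Nat.pow_pos (by omega)
  have hMR : (0 : ℝ) < M := by exact_mod_cast hMpos
  have hMcast : (M : ℝ) = (x : ℝ) ^ N := by rw [hM]; push_cast; rfl
  -- coprimality
  have hcop : ∀ p ∈ T, Nat.Coprime Q p := by
    intro p hp
    obtain ⟨hpp, hxp, hpx⟩ := hT p hp
    rw [Nat.coprime_comm, Nat.Prime.coprime_iff_not_dvd hpp]
    intro hdvd
    have h1 := Nat.le_of_dvd hQ hdvd
    have h2 : p ^ 2 ≤ Q ^ 2 := Nat.pow_le_pow_left h1 2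
    omega
  -- bound of the individual sums
  have hbound : ∀ U ⊆ T, U.Nonempty →
      |∑ k ∈ Finset.range M, ∏ p ∈ U, ((jacobiSym (1 + (Q : ℤ) * k) p : ℤ) : ℝ)| ≤
        M / 2 ^ (T.card + 1) := by
    intro U hU hUne
    have hUp : ∀ p ∈ U, p.Prime := fun p hp => (hT p (hU hp)).1
    have hcU : Nat.Coprime Q (qq U) := by
      unfold qq
      exact Nat.Coprime.prod_right fun p hp => hcop p (hU hp)
    obtain ⟨a, ha⟩ : ∃ a : ℤ, (Q : ℤ) * a ≡ 1 [ZMOD (qq U : ℤ)] := by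
      have h1 : Int.gcd (Q : ℤ) (qq U : ℤ) = 1 := by
        rw [Int.gcd_natCast_natCast]; exact hcU
      have h2 := Int.gcd_eq_gcd_ab (Q : ℤ) (qq U : ℤ)
      rw [h1] at h2
      refine ⟨Int.gcdA (Q : ℤ) (qq U : ℤ), ?_⟩
      rw [Int.modEq_iff_dvd]
      refine ⟨Int.gcdB (Q : ℤ) (qq U : ℤ), ?_⟩
      push_cast at h2
      linarith
    have h3 := kk_sum Q U a ha M
    have h4 := hgr U hU hUne a
    have h5 : ∑ k ∈ Finset.range M, ∏ p ∈ U, ((jacobiSym (1 + (Q : ℤ) * k) p : ℤ) : ℝ) =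
        ∑ k ∈ Finset.range M, ((jacobiSym (1 + (Q : ℤ) * k) (qq U) : ℤ) : ℝ) := by
      apply Finset.sum_congr rfl
      intro k _
      rw [← kk_prod _ U hUp]
      push_cast
      rfl
    rw [h5, hMcast]
    exact h3.trans h4
  -- the total
  have htotal : 0 < ∑ k ∈ Finset.range M,
      ∏ p ∈ T, (1 + (((s p : ℤˣ) : ℤ) : ℝ) * ((jacobiSym (1 + (Q : ℤ) * k) p : ℤ) : ℝ)) := by
    have h1 : ∑ k ∈ Finset.range M,
        ∏ p ∈ T, (1 + (((s p : ℤˣ) : ℤ) : ℝ) * ((jacobiSym (1 + (Q : ℤ) * k) p : ℤ) : ℝ)) =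
        ∑ U ∈ T.powerset, (∏ p ∈ U, (((s p : ℤˣ) : ℤ) : ℝ)) *
          ∑ k ∈ Finset.range M, ∏ p ∈ U, ((jacobiSym (1 + (Q : ℤ) * k) p : ℤ) : ℝ) := by
      simp_rw [Finset.prod_one_add, Finset.prod_mul_distrib, Finset.mul_sum]
      rw [Finset.sum_comm]
    have h2 : ∀ U ∈ T.powerset.erase ∅, -((M : ℝ) / 2 ^ (T.card + 1)) ≤
        (∏ p ∈ U, (((s p : ℤˣ) : ℤ) : ℝ)) *
          ∑ k ∈ Finset.range M, ∏ p ∈ U, ((jacobiSym (1 + (Q : ℤ) * k) p : ℤ) : ℝ) := by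
      intro U hU
      rw [Finset.mem_erase, Finset.mem_powerset] at hU
      have h3 := hbound U hU.2 (Finset.nonempty_iff_ne_empty.mpr hU.1)
      have h4 : |∏ p ∈ U, (((s p : ℤˣ) : ℤ) : ℝ)| = 1 := by
        rw [Finset.abs_prod]
        apply Finset.prod_eq_one
        intro p _
        rcases Int.units_eq_one_or (s p) with h | h <;> simp [h]
      have h5 : |(∏ p ∈ U, (((s p : ℤˣ) : ℤ) : ℝ)) *
          ∑ k ∈ Finset.range M, ∏ p ∈ U, ((jacobiSym (1 + (Q : ℤ) * k) p : ℤ) : ℝ)| ≤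
          (M : ℝ) / 2 ^ (T.card + 1) := by
        rw [abs_mul, h4, one_mul]
        exact h3
      exact (abs_le.mp h5).1
    have h0 : (∅ : Finset ℕ) ∈ T.powerset := Finset.empty_mem_powerset T
    rw [h1, ← Finset.add_sum_erase _ _ h0]
    have h3 := Finset.sum_le_sum h2
    rw [Finset.sum_const, Finset.card_erase_of_mem h0, Finset.card_powerset, nsmul_eq_mul] at h3
    have h4 : (2 : ℝ) ^ (T.card + 1) = 2 * 2 ^ T.card := by ring
    have h5 : ((2 ^ T.card - 1 : ℕ) : ℝ) ≤ 2 ^ T.card := by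
      have : (2 ^ T.card - 1 : ℕ) ≤ 2 ^ T.card := Nat.sub_le _ _
      exact_mod_cast this
    have h6 : (0 : ℝ) < 2 ^ T.card := by positivity
    have h7 : ((2 ^ T.card - 1 : ℕ) : ℝ) * ((M : ℝ) / 2 ^ (T.card + 1)) ≤ (M : ℝ) / 2 := by
      calc ((2 ^ T.card - 1 : ℕ) : ℝ) * ((M : ℝ) / 2 ^ (T.card + 1))
          ≤ 2 ^ T.card * ((M : ℝ) / 2 ^ (T.card + 1)) :=
            mul_le_mul_of_nonneg_right h5 (by positivity)
        _ = (M : ℝ) / 2 := by rw [h4]; field_simp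
    have h8 : (∏ p ∈ (∅ : Finset ℕ), (((s p : ℤˣ) : ℤ) : ℝ)) *
          ∑ k ∈ Finset.range M, ∏ p ∈ (∅ : Finset ℕ),
            ((jacobiSym (1 + (Q : ℤ) * k) p : ℤ) : ℝ) = M := by
      simp
    rw [h8]
    nlinarith [h3, h7, hMR]
  -- extraction of `k`
  obtain ⟨k, hk, hkpos⟩ : ∃ k ∈ Finset.range M,
      0 < ∏ p ∈ T, (1 + (((s p : ℤˣ) : ℤ) : ℝ) * ((jacobiSym (1 + (Q : ℤ) * k) p : ℤ) : ℝ)) := by
    by_contra hcon
    push Not at hcon
    exact absurd htotal (not_lt.mpr (Finset.sum_nonpos hcon))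
  rw [Finset.mem_range] at hk
  refine ⟨1 + Q * k, by omega, ?_, ?_, ?_⟩
  · unfold Nat.ModEq
    rw [Nat.add_mul_mod_self_left]
  · have h1 : 1 + Q * k ≤ Q * M := by
      have : Q * (k + 1) ≤ Q * M := Nat.mul_le_mul_left _ hk
      nlinarith
    have h2 : ((1 + Q * k : ℕ) : ℝ) ≤ (Q : ℝ) * M := by exact_mod_cast h1
    refine h2.trans ?_
    apply mul_le_mul_of_nonneg_left _ (Nat.cast_nonneg _)
    rw [hMcast, ← Real.rpow_natCast]
    apply Real.rpow_le_rpow_of_exponent_le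
    · exact_mod_cast hx1
    · rw [hN]
      exact Nat.floor_le (by positivity)
  · intro p hp hpm
    have hpp := (hT p hp).1
    have hne : (1 + (((s p : ℤˣ) : ℤ) : ℝ) * ((jacobiSym (1 + (Q : ℤ) * k) p : ℤ) : ℝ)) ≠ 0 := by
      have := (Finset.prod_ne_zero_iff.mp hkpos.ne') p hp
      exact this
    have hcast : ((1 + Q * k : ℕ) : ℤ) = 1 + (Q : ℤ) * k := by push_cast; ring
    rw [hcast]
    have hJ0 : jacobiSym (1 + (Q : ℤ) * k) p ≠ 0 := by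
      apply jacobiSym.ne_zero
      rw [← hcast, Int.gcd_natCast_natCast]
      have := (Nat.Prime.coprime_iff_not_dvd hpp).mpr hpm
      exact (Nat.coprime_comm.mp this)
    rcases jacobiSym.trichotomy (1 + (Q : ℤ) * k) p with h | h | h
    · exact absurd h hJ0
    · rcases Int.units_eq_one_or (s p) with hs | hs
      · rw [h, hs]; simp
      · exfalso; apply hne; rw [h, hs]; simp
    · rcases Int.units_eq_one_or (s p) with hs | hs
      · exfalso; apply hne; rw [h, hs]; simp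
      · rw [h, hs]; simp

end H16B
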