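import Pool.Agent.Lib.H16B.RDefs

/-!
# R1 (M): the tame symbol

`x = (α, s)`, `y = (β, t)`, `α, β ∈ {0, 1}`: `sym c x y = c^(αβ) s^β t^α`.  Everything is a finite check
(`decide` after case distinctions, `Int.units_eq_one_or`); `pr` is the product over the three components.
`pr_self`: `sym c x x = c^α`, and the number of odd parities of a triple of product one is even.
-/

open Polynomial IsDedekindDomain NumberField H16A

namespace H16B

theorem sym_mul_left (c : ℤˣ) (x x' y : LG) : sym c (x * x') y = sym c x y * sym c x' y := by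
  revert c x x' y
  decide

theorem sym_mul_right (c : ℤˣ) (x y y' : LG) : sym c x (y * y') = sym c x y * sym c x y' := by
  revert c x y y'
  decide

theorem sym_comm (c : ℤˣ) (x y : LG) : sym c x y = sym c y x := by
  revert c x y
  decide

theorem sym_one_left (c : ℤˣ) (y : LG) : sym c 1 y = 1 := by
  revert c y
  decide

theorem sym_one_right (c : ℤˣ) (x : LG) : sym c x 1 = 1 := by
  revert c x
  decide

/-- `(t, -t) = 1` -/
theorem sym_neg (c : ℤˣ) (x : LG) : sym c x (x * (1, c)) = 1 := by
  revert c x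
  decide

/-- units -/
theorem sym_unit (c : ℤˣ) (x y : LG) (hx : x.1 = 1) (hy : y.1 = 1) : sym c x y = 1 := by
  revert c x y
  decide

theorem pr_mul_left (c : ℤˣ) (x x' y : Fin 3 → LG) : pr c (x * x') y = pr c x y * pr c x' y := by
  unfold pr
  rw [← Finset.prod_mul_distrib]
  exact Finset.prod_congr rfl fun i _ => sym_mul_left c (x i) (x' i) (y i)

theorem pr_mul_right (c : ℤˣ) (x y y' : Fin 3 → LG) : pr c x (y * y') = pr c x y * pr c x y' := by
  unfold pr
  rw [← Finset.prod_mul_distrib]
  exact Finset.prod_congr rfl fun i _ => sym_mul_right c (x i) (y i) (y' i)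

theorem pr_comm (c : ℤˣ) (x y : Fin 3 → LG) : pr c x y = pr c y x :=
  Finset.prod_congr rfl fun i _ => sym_comm c (x i) (y i)

theorem pr_one_left (c : ℤˣ) (y : Fin 3 → LG) : pr c 1 y = 1 :=
  Finset.prod_eq_one fun i _ => sym_one_left c (y i)

theorem r1_self : ∀ (c : ℤˣ) (x y z : LG), x * y * z = 1 →
    sym c x x * sym c y y * sym c z z = 1 := by
  decide

theorem pr_self (c : ℤˣ) (x : Fin 3 → LG) (hx : ∏ i, x i = 1) : pr c x x = 1 := by
  unfold pr
  rw [Fin.prod_univ_three] at hx ⊢
  exact r1_self c (x 0) (x 1) (x 2) hx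

theorem pr_LU (c : ℤˣ) (x y : Fin 3 → LG) (hx : x ∈ LU) (hy : y ∈ LU) : pr c x y = 1 :=
  Finset.prod_eq_one fun i _ => sym_unit c (x i) (y i) (hx i) (hy i)

end H16B
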