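import Pool.Agent.Lib.H16B.R1

/-!
# R2 (M): the local images

`g j i = c g i j` for `i ≠ j`.
* `mem_LL_iff`: `vv g s 0 * vv g s 1 = vv g s 2` and the analogous identities, so `{1, vv g s 0, vv g s 1, vv g s 2}` is a subgroup (all
  elements of `LG` have order at most two).  E.g. the component `2` of `v_0 v_1` is `(1, s g₀₂) (1, s g₁₂) = (0, g₀₂ g₁₂)` (additive parity), that of
  `v_2` is `(0, g₂₀ g₂₁)`, `g₂₀ g₂₁ = c² g₀₂ g₁₂`; the component `0` of `v_0 v_1` is `(0, g₀₁ g₀₂) (1, s g₁₀) = (1, s c g₀₂) = (1, s g₂₀)`.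
* `pr_vv_ne`: for `i ≠ j`, `pr c (v_i^s) (v_j^s') = s s'`: with `k` the third index the components are
  `(0, g_ij g_ik), (1, s' g_ji)`: symbol `g_ij g_ik`; `(1, s g_ij), (0, g_ji g_jk)`: `g_ji g_jk`; `(1, s g_ik), (1, s' g_jk)`: `c s s' g_ik g_jk`;
  the product is `c g_ij g_ji s s' = s s'`.
* `pr_vv_self`: `pr c (v_i^s) (v_i^s') = (c s s')² = 1`.
* So `pr = 1` on `LL g s` (`pr_LL`), and elements of `LL g s` have product one.
* `local_lemma`: `Λ` isotropic.  If `Λ ∩ LL g 1` or `Λ ∩ LL g (-1)` is trivial take this sign.  Otherwise take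
  `1 ≠ a = v_i^1`, `1 ≠ b = v_j^{-1}` in `Λ`; `pr c a b = 1` forces `i = j`, and `a b ∈ LU` is not `1` (its components `≠ i` are `(0, -1)`), so
  `|Λ ∩ LU| ≥ 2`.  If `Λ` contained two different `v_i^1, v_{i'}^1`, then with the same `b` both `i = j` and `i' = j`, contradiction; so
  `|Λ ∩ LL g 1| ≤ 2`, take the sign `1`.  (`Fin 3 → LG` is finite.)
-/

open Polynomial IsDedekindDomain NumberField H16A

namespace H16B

/-- the normalised matrix of signs -/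
def r2_gm (c a b d : ℤˣ) : Fin 3 → Fin 3 → ℤˣ := ![![1, a, b], ![c * a, 1, d], ![c * b, c * d, 1]]

theorem r2_vv {c : ℤˣ} {g : Fin 3 → Fin 3 → ℤˣ} (hg : ∀ i j, i ≠ j → g j i = c * g i j)
    (s : ℤˣ) : vv g s = vv (r2_gm c (g 0 1) (g 0 2) (g 1 2)) s := by
  have h0 : (Finset.univ.erase (0 : Fin 3)) = {1, 2} := by decide
  have h1 : (Finset.univ.erase (1 : Fin 3)) = {0, 2} := by decide
  have h2 : (Finset.univ.erase (2 : Fin 3)) = {0, 1} := by decide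
  have e10 := hg 0 1 (by decide)
  have e20 := hg 0 2 (by decide)
  have e21 := hg 1 2 (by decide)
  funext i j
  fin_cases i <;> fin_cases j <;> simp [vv, r2_gm, h0, h1, h2, e10, e20, e21]

theorem r2_mul : ∀ (c a b d s : ℤˣ) (i j : Fin 3), i ≠ j →
    ∃ k, vv (r2_gm c a b d) s i * vv (r2_gm c a b d) s j = vv (r2_gm c a b d) s k := by
  decide

theorem r2_pr_ne : ∀ (c a b d s s' : ℤˣ) (i j : Fin 3), i ≠ j →
    pr c (vv (r2_gm c a b d) s i) (vv (r2_gm c a b d) s' j) = s * s' := by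
  decide

theorem r2_pr_self : ∀ (c a b d s s' : ℤˣ) (i : Fin 3),
    pr c (vv (r2_gm c a b d) s i) (vv (r2_gm c a b d) s' i) = 1 := by
  decide

theorem r2_LU : ∀ (c a b d : ℤˣ) (i : Fin 3),
    (∀ j, ((vv (r2_gm c a b d) 1 i * vv (r2_gm c a b d) (-1) i) j).1 = 1) ∧
      vv (r2_gm c a b d) 1 i * vv (r2_gm c a b d) (-1) i ≠ 1 := by
  decide

theorem r2_sq : ∀ x : LG, x * x = 1 := by decide

theorem mem_LL_iff {c : ℤˣ} {g : Fin 3 → Fin 3 → ℤˣ} (hg : ∀ i j, i ≠ j → g j i = c * g i j)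
    (s : ℤˣ) (x : Fin 3 → LG) : x ∈ LL g s ↔ x = 1 ∨ ∃ i, x = vv g s i := by
  constructor
  · intro h
    unfold LL at h
    induction h using Subgroup.closure_induction with
    | mem x hx =>
      obtain ⟨i, rfl⟩ := hx
      exact Or.inr ⟨i, rfl⟩
    | one => exact Or.inl rfl
    | mul x y _ _ hx hy =>
      rcases hx with rfl | ⟨i, rfl⟩
      · rw [one_mul]; exact hy
      · rcases hy with rfl | ⟨j, rfl⟩
        · rw [mul_one]; exact Or.inr ⟨i, rfl⟩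
        · by_cases hij : i = j
          · subst hij
            left
            funext k
            exact r2_sq _
          · right
            rw [r2_vv hg]
            exact r2_mul _ _ _ _ _ i j hij
    | inv x _ hx =>
      have hinv : x⁻¹ = x := by
        funext k
        exact inv_eq_of_mul_eq_one_left (r2_sq (x k))
      rw [hinv]
      exact hx
  · rintro (rfl | ⟨i, rfl⟩)
    · exact Subgroup.one_mem _
    · exact Subgroup.subset_closure ⟨i, rfl⟩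

theorem r2_pr_ne' {c : ℤˣ} {g : Fin 3 → Fin 3 → ℤˣ} (hg : ∀ i j, i ≠ j → g j i = c * g i j)
    (s s' : ℤˣ) (i j : Fin 3) (hij : i ≠ j) : pr c (vv g s i) (vv g s' j) = s * s' := by
  rw [r2_vv hg s, r2_vv hg s']
  exact r2_pr_ne _ _ _ _ _ _ i j hij

theorem pr_LL {c : ℤˣ} {g : Fin 3 → Fin 3 → ℤˣ} (hg : ∀ i j, i ≠ j → g j i = c * g i j)
    (s : ℤˣ) {x y : Fin 3 → LG} (hx : x ∈ LL g s) (hy : y ∈ LL g s) : pr c x y = 1 := by
  rw [mem_LL_iff hg] at hx hy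
  rcases hx with rfl | ⟨i, rfl⟩
  · exact pr_one_left c y
  · rcases hy with rfl | ⟨j, rfl⟩
    · rw [pr_comm]; exact pr_one_left c _
    · by_cases hij : i = j
      · subst hij
        rw [r2_vv hg]
        exact r2_pr_self _ _ _ _ _ _ i
      · rw [r2_pr_ne' hg s s i j hij]
        exact Int.units_mul_self s

theorem local_lemma {c : ℤˣ} {g : Fin 3 → Fin 3 → ℤˣ} (hg : ∀ i j, i ≠ j → g j i = c * g i j)
    (Λ : Subgroup (Fin 3 → LG)) (hiso : ∀ x ∈ Λ, ∀ y ∈ Λ, pr c x y = 1) :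
    ∃ s : ℤˣ, Nat.card (Λ ⊓ LL g s : Subgroup (Fin 3 → LG)) ≤
      Nat.card (Λ ⊓ LU : Subgroup (Fin 3 → LG)) := by
  have hpos : 1 ≤ Nat.card (Λ ⊓ LU : Subgroup (Fin 3 → LG)) := Nat.card_pos
  by_cases h1 : (Λ ⊓ LL g 1 : Subgroup (Fin 3 → LG)) = ⊥
  · refine ⟨1, ?_⟩
    rw [h1]
    simpa using hpos
  by_cases h2 : (Λ ⊓ LL g (-1) : Subgroup (Fin 3 → LG)) = ⊥
  · refine ⟨-1, ?_⟩
    rw [h2]
    simpa using hpos
  obtain ⟨⟨a, haΛ, haL⟩, ha1⟩ := Subgroup.ne_bot_iff_exists_ne_one.1 h1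
  obtain ⟨⟨b, hbΛ, hbL⟩, hb1⟩ := Subgroup.ne_bot_iff_exists_ne_one.1 h2
  have ha : a ≠ 1 := fun h => ha1 (Subtype.ext h)
  have hb : b ≠ 1 := fun h => hb1 (Subtype.ext h)
  have key : ∀ x ∈ Λ, x ∈ LL g 1 → x ≠ 1 → ∃ i, x = vv g 1 i ∧ b = vv g (-1) i := by
    intro x hxΛ hxL hx
    obtain ⟨i, hi⟩ := ((mem_LL_iff hg 1 x).1 hxL).resolve_left hx
    obtain ⟨j, hj⟩ := ((mem_LL_iff hg (-1) b).1 hbL).resolve_left hb
    refine ⟨i, hi, ?_⟩
    by_cases hij : i = j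
    · rw [hij]; exact hj
    · exfalso
      have h := hiso x hxΛ b hbΛ
      rw [hi, hj, r2_pr_ne' hg 1 (-1) i j hij] at h
      revert h
      decide
  have huniq : ∀ i j : Fin 3, vv g (-1) i = vv g (-1) j → i = j := by
    intro i j hij
    by_contra hne
    have e1 := r2_pr_ne' hg 1 (-1) i j hne
    rw [← hij, r2_vv hg 1, r2_vv hg (-1), r2_pr_self] at e1
    revert e1
    decide
  obtain ⟨i, hai, hbi⟩ := key a haΛ haL ha
  refine ⟨1, ?_⟩
  have hle : Nat.card (Λ ⊓ LL g 1 : Subgroup (Fin 3 → LG)) ≤ 2 := by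
    have hsub : ((Λ ⊓ LL g 1 : Subgroup (Fin 3 → LG)) : Set (Fin 3 → LG)) ⊆ {1, a} := by
      rintro x ⟨hxΛ, hxL⟩
      by_cases hx : x = 1
      · exact Or.inl hx
      · right
        obtain ⟨j, hj, hbj⟩ := key x hxΛ hxL hx
        have := huniq i j (hbi.symm.trans hbj)
        rw [Set.mem_singleton_iff, hj, ← this, hai]
    calc Nat.card (Λ ⊓ LL g 1 : Subgroup (Fin 3 → LG))
        = ((Λ ⊓ LL g 1 : Subgroup (Fin 3 → LG)) : Set (Fin 3 → LG)).ncard := rfl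
      _ ≤ ({1, a} : Set (Fin 3 → LG)).ncard := Set.ncard_le_ncard hsub (Set.toFinite _)
      _ ≤ 2 := by
        refine (Set.ncard_insert_le _ _).trans ?_
        rw [Set.ncard_singleton]
  have hab : a * b ∈ (Λ ⊓ LU : Subgroup (Fin 3 → LG)) := by
    refine ⟨Λ.mul_mem haΛ hbΛ, ?_⟩
    intro j
    have h := (r2_LU c (g 0 1) (g 0 2) (g 1 2) i).1 j
    rw [← r2_vv hg, ← r2_vv hg, ← hai, ← hbi] at h
    exact h
  have hab1 : a * b ≠ 1 := by
    have h := (r2_LU c (g 0 1) (g 0 2) (g 1 2) i).2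
    rw [← r2_vv hg, ← r2_vv hg, ← hai, ← hbi] at h
    exact h
  have hge : 2 ≤ Nat.card (Λ ⊓ LU : Subgroup (Fin 3 → LG)) := by
    have : Nontrivial (Λ ⊓ LU : Subgroup (Fin 3 → LG)) :=
      ⟨⟨a * b, hab⟩, 1, fun h => hab1 (congrArg Subtype.val h)⟩
    exact Finite.one_lt_card
  exact hle.trans hge

end H16B
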