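import Pool.Agent.Lib.H16A.V1
import Pool.Agent.Lib.H16B.R1

/-!
# R3 (M): the Steinberg relation, and the pairing of two points

`LamP p w lam`.  Put `c = (lam (cls (-1))).2`, `lam (cls (-1)) = (1, c)` (`ord w (-1) = 0`; `lamP_neg_one`), and `c = cm p` for an odd prime
`p` (`unit` with `q = -1`, `ZMod.exists_sq_eq_neg_one_iff`, values in `ℤˣ = {1, -1}`).
* `steinberg`: `x + y = 1`, `x, y ≠ 0`.  `ord x > 0`: `y = 1 - x`, `ord (y - 1) > 0`, `lam (cls y) = 1`.  `ord y > 0`: the same.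
  `ord x < 0`: `y = - x (1 - 1/x)`, `1/x ≠ 0` has positive order, so `lam (cls y) = lam (cls (-x)) = lam (cls x) (1, c)` and `sym_neg`.
  `ord y < 0`: then `ord x < 0`.  `ord x = ord y = 0`: `sym_unit`.
* `pair_formula`: `D' b_i - D c_i = z`, all nonzero, `∏ b_i`, `∏ c_i` squares.  `(D' b_i / z) + (- D c_i / z) = 1`, and
  `cls (D' b_i / z) = cls (D' z) cls b_i`, `cls (- D c_i / z) = cls (- D z) cls c_i`.  By `steinberg` and bimultiplicativity
  `1 = sym(D'z, -Dz) sym(D'z, c_i) sym(b_i, -Dz) sym(b_i, c_i)`; multiply over `i` (`∏ cls b_i = 1`, `∏ cls c_i = 1`, three times the first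
  factor): `∏ sym(b_i, c_i) = sym(D'z, -Dz)`, and `sym(D'z, -Dz) = sym(D'z, -Dz) sym(D'z, -D'z) = sym(D'z, D D' z²) = sym(D'z, D D')`
  (`sym_neg`).
-/

open Polynomial IsDedekindDomain NumberField H16A

namespace H16B

variable {F : Type} [Field F] [NumberField F]

theorem lamP_neg_one {p : ℕ} (hp : p.Prime) (hp2 : p ≠ 2) {w : HeightOneSpectrum (𝓞 F)}
    {lam : SqC F →* LG} (h : LamP p w lam) : lam (cls (-1 : F)) = (1, cm p) := by
  have : Fact p.Prime := ⟨hp⟩
  have h1 : (lam (cls (-1 : F))).1 = 1 := by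
    rw [h.par, par_cls_eq_one_iff w (neg_ne_zero.2 one_ne_zero), ord_neg, ord_one]
    exact ⟨0, by norm_num⟩
  have h2 : ¬ (p : ℤ) ∣ (-1 : ℤ) := by
    intro h3
    have h4 : (p : ℤ) ∣ 1 := (dvd_neg).1 h3
    have h5 := Int.le_of_dvd one_pos h4
    have h6 := hp.one_lt
    omega
  have h3 := h.unit (-1) h2
  have h4 : IsSquare (((-1 : ℤ) : ℤ) : ZMod p) ↔ p % 4 ≠ 3 := by
    rw [Int.cast_neg, Int.cast_one]
    exact ZMod.exists_sq_eq_neg_one_iff
  rw [h4, Int.cast_neg, Int.cast_one] at h3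
  have h5 : (lam (cls (-1 : F))).2 = cm p := by
    have hodd := hp.odd_of_ne_two hp2
    rw [Nat.odd_iff] at hodd
    unfold cm
    split_ifs with h6
    · exact h3.2 (by omega)
    · rcases Int.units_eq_one_or (lam (cls (-1 : F))).2 with h7 | h7
      · exact absurd (h3.1 h7) (by omega)
      · exact h7
  exact Prod.ext h1 h5

theorem R3_neg {p : ℕ} (hp : p.Prime) (hp2 : p ≠ 2) {w : HeightOneSpectrum (𝓞 F)}
    {lam : SqC F →* LG} (h : LamP p w lam) {x : F} (hx : x ≠ 0) :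
    lam (cls (-x)) = lam (cls x) * (1, cm p) := by
  rw [neg_eq_neg_one_mul, cls_mul (neg_ne_zero.2 one_ne_zero) hx, map_mul,
    lamP_neg_one hp hp2 h, mul_comm]

theorem R3_neg_case {p : ℕ} (hp : p.Prime) (hp2 : p ≠ 2) {w : HeightOneSpectrum (𝓞 F)}
    {lam : SqC F →* LG} (h : LamP p w lam) {x y : F} (hx : x ≠ 0) (hy : y ≠ 0)
    (hxy : x + y = 1) (ho : ord w x < 0) : sym (cm p) (lam (cls x)) (lam (cls y)) = 1 := by
  have h1 : y = -x * (1 - x⁻¹) := by
    have : -x * (1 - x⁻¹) = 1 - x := by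
      field_simp
      ring
    rw [this, ← hxy]
    ring
  have h2 : 1 - x⁻¹ ≠ 0 := by
    intro h0
    rw [h0, mul_zero] at h1
    exact hy h1
  have h3 : lam (cls (1 - x⁻¹)) = 1 := by
    refine h.one _ h2 (Or.inr ?_)
    have h4 : 1 - x⁻¹ - 1 = -x⁻¹ := by ring
    rw [h4, ord_neg, ord_inv]
    omega
  rw [h1, cls_mul (neg_ne_zero.2 hx) h2, map_mul, h3, mul_one, R3_neg hp hp2 h hx, sym_neg]

theorem steinberg {p : ℕ} (hp : p.Prime) (hp2 : p ≠ 2) {w : HeightOneSpectrum (𝓞 F)}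
    {lam : SqC F →* LG} (h : LamP p w lam) {x y : F} (hx : x ≠ 0) (hy : y ≠ 0)
    (hxy : x + y = 1) : sym (cm p) (lam (cls x)) (lam (cls y)) = 1 := by
  rcases lt_trichotomy (ord w x) 0 with h1 | h1 | h1
  · exact R3_neg_case hp hp2 h hx hy hxy h1
  · rcases lt_trichotomy (ord w y) 0 with h2 | h2 | h2
    · rw [sym_comm]
      exact R3_neg_case hp hp2 h hy hx (by rw [add_comm]; exact hxy) h2
    · apply sym_unit
      · rw [h.par, par_cls_eq_one_iff w hx, h1]
        exact ⟨0, by norm_num⟩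
      · rw [h.par, par_cls_eq_one_iff w hy, h2]
        exact ⟨0, by norm_num⟩
    · rw [h.one x hx (Or.inr (by
        have h3 : x - 1 = -y := by rw [← hxy]; ring
        rw [h3, ord_neg]
        exact h2)), sym_one_left]
  · rw [h.one y hy (Or.inr (by
      have h3 : y - 1 = -x := by rw [← hxy]; ring
      rw [h3, ord_neg]
      exact h1)), sym_one_right]

theorem R3_sym_prod_right (c : ℤˣ) (x : LG) (y : Fin 3 → LG) :
    ∏ i, sym c x (y i) = sym c x (∏ i, y i) := by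
  rw [Fin.prod_univ_three, Fin.prod_univ_three, sym_mul_right, sym_mul_right]

theorem R3_sym_prod_left (c : ℤˣ) (x : Fin 3 → LG) (y : LG) :
    ∏ i, sym c (x i) y = sym c (∏ i, x i) y := by
  rw [Fin.prod_univ_three, Fin.prod_univ_three, sym_mul_left, sym_mul_left]

omit [NumberField F] in
theorem R3_cls_prod (b : Fin 3 → F) (hb : ∀ i, b i ≠ 0) (hs : IsSquare (∏ i, b i)) :
    ∏ i, cls (b i) = (1 : SqC F) := by
  have h1 : (∏ i, cls (b i) : SqC F) = cls (∏ i, b i) := by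
    rw [Fin.prod_univ_three, Fin.prod_univ_three, cls_mul (mul_ne_zero (hb 0) (hb 1)) (hb 2),
      cls_mul (hb 0) (hb 1)]
  rw [h1, cls_eq_one_iff (Finset.prod_ne_zero_iff.2 fun i _ => hb i)]
  exact hs

theorem pair_formula {p : ℕ} (hp : p.Prime) (hp2 : p ≠ 2) {w : HeightOneSpectrum (𝓞 F)}
    {lam : SqC F →* LG} (h : LamP p w lam) {D D' z : F} (hD : D ≠ 0) (hD' : D' ≠ 0) (hz : z ≠ 0)
    (b c : Fin 3 → F) (hb : ∀ i, b i ≠ 0) (hc : ∀ i, c i ≠ 0)
    (hbc : ∀ i, D' * b i - D * c i = z) (hsb : IsSquare (∏ i, b i)) (hsc : IsSquare (∏ i, c i)) :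
    pr (cm p) (fun i => lam (cls (b i))) (fun i => lam (cls (c i))) =
      sym (cm p) (lam (cls (D' * z))) (lam (cls (D * D'))) := by
  set a : LG := lam (cls (D' * z)) with ha
  set a' : LG := lam (cls (-(D * z))) with ha'
  have hDz : -(D * z) ≠ 0 := neg_ne_zero.2 (mul_ne_zero hD hz)
  have hD'z : D' * z ≠ 0 := mul_ne_zero hD' hz
  -- the Steinberg relation
  have h1 : ∀ i, sym (cm p) (a * lam (cls (b i))) (a' * lam (cls (c i))) = 1 := by
    intro i
    have hx : D' * b i / z ≠ 0 := div_ne_zero (mul_ne_zero hD' (hb i)) hz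
    have hy : -(D * c i) / z ≠ 0 := div_ne_zero (neg_ne_zero.2 (mul_ne_zero hD (hc i))) hz
    have hxy : D' * b i / z + -(D * c i) / z = 1 := by
      rw [← add_div, ← sub_eq_add_neg, hbc i, div_self hz]
    have hs := steinberg hp hp2 h hx hy hxy
    have h2 : cls (D' * b i / z) = cls (D' * z) * cls (b i) := by
      rw [← cls_mul hD'z (hb i), cls_eq_cls_iff hx (mul_ne_zero hD'z (hb i))]
      exact ⟨D' * b i, by field_simp⟩
    have h3 : cls (-(D * c i) / z) = cls (-(D * z)) * cls (c i) := by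
      rw [← cls_mul hDz (hc i), cls_eq_cls_iff hy (mul_ne_zero hDz (hc i))]
      exact ⟨D * c i, by field_simp⟩
    rw [h2, h3, map_mul, map_mul] at hs
    exact hs
  have h2 : (∏ i, lam (cls (b i))) = 1 := by
    rw [← map_prod, R3_cls_prod b hb hsb, map_one]
  have h3 : (∏ i, lam (cls (c i))) = 1 := by
    rw [← map_prod, R3_cls_prod c hc hsc, map_one]
  have h4 : ∏ i : Fin 3, sym (cm p) (a * lam (cls (b i))) (a' * lam (cls (c i))) = 1 :=
    Finset.prod_eq_one fun i _ => h1 i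
  simp only [sym_mul_left, sym_mul_right, Finset.prod_mul_distrib] at h4
  rw [R3_sym_prod_right (cm p) a (fun i => lam (cls (c i))),
    R3_sym_prod_left (cm p) (fun i => lam (cls (b i))) a', h2, h3, sym_one_left, sym_one_right,
    one_mul, mul_one, Finset.prod_const, Finset.card_univ, Fintype.card_fin] at h4
  have h5 : sym (cm p) a a' ^ 3 = sym (cm p) a a' := by
    rcases Int.units_eq_one_or (sym (cm p) a a') with h6 | h6 <;> rw [h6] <;> decide
  rw [h5] at h4
  have h6 : pr (cm p) (fun i => lam (cls (b i))) (fun i => lam (cls (c i))) = sym (cm p) a a' := by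
    have h7 : sym (cm p) a a' * sym (cm p) a a' = 1 := Int.units_mul_self _
    have h8 : pr (cm p) (fun i => lam (cls (b i))) (fun i => lam (cls (c i))) =
      ∏ i : Fin 3, sym (cm p) (lam (cls (b i))) (lam (cls (c i))) := rfl
    rw [h8]
    exact mul_left_cancel (h4.trans h7.symm)
  rw [h6]
  have h7 : sym (cm p) a (a * (1, cm p)) = 1 := sym_neg _ _
  have h8 : sym (cm p) a a' = sym (cm p) a (a' * (a * (1, cm p))) := by
    rw [sym_mul_right, h7, mul_one]
  rw [h8]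
  congr 1
  rw [← lamP_neg_one hp hp2 h, ha, ha', ← map_mul, ← map_mul,
    ← cls_mul hD'z (neg_ne_zero.2 one_ne_zero), ← cls_mul hDz (mul_ne_zero hD'z
      (neg_ne_zero.2 one_ne_zero))]
  congr 1
  rw [cls_eq_cls_iff (mul_ne_zero hDz (mul_ne_zero hD'z (neg_ne_zero.2 one_ne_zero)))
    (mul_ne_zero hD hD')]
  exact ⟨D * D' * z, by ring⟩

end H16B
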