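import Pool.Agent.Lib.H16A.Defs

/-!
# H16B, parts R, G, Y: definitions

At a split prime `p` the class of an element of `Fˣ` in the completion `F_w = ℚ_p` modulo squares is an element
`(parity of the valuation, sign)` of the group `LG`; `sym c` is the tame symbol, `c = (-1/p)`.
-/

open Polynomial IsDedekindDomain NumberField H16A

namespace H16B

/-- The local group at a split prime: (parity, sign). -/
abbrev LG : Type := Multiplicative (ZMod 2) × ℤˣ

/-- The tame symbol; `c` is the Legendre symbol of `-1`. -/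
def sym (c : ℤˣ) (x y : LG) : ℤˣ :=
  c ^ ((Multiplicative.toAdd x.1).val * (Multiplicative.toAdd y.1).val) *
    x.2 ^ (Multiplicative.toAdd y.1).val * y.2 ^ (Multiplicative.toAdd x.1).val

/-- The pairing on triples. -/
def pr (c : ℤˣ) (x y : Fin 3 → LG) : ℤˣ := ∏ i, sym c (x i) (y i)

/-- The Legendre symbol `(-1/p)`. -/
def cm (p : ℕ) : ℤˣ := if p % 4 = 1 then 1 else -1

/-- The triples with trivial parities. -/
def LU : Subgroup (Fin 3 → LG) where
  carrier := {x | ∀ i, (x i).1 = 1}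
  one_mem' := by intro i; rfl
  mul_mem' := by
    intro x y hx hy i
    rw [Pi.mul_apply, Prod.fst_mul, hx i, hy i, mul_one]
  inv_mem' := by
    intro x hx i
    rw [Pi.inv_apply, Prod.fst_inv, hx i, inv_one]

/-- The class of a point of type `i` over `ℚ_p` of the twist by `D`, `p ∥ D`: its components are the
classes of `D (e_i - e_j)` (`j ≠ i`) and of `(e_i - e_j) (e_i - e_k)`; `s` is the sign of `D`, `g i j` the
sign of `e_i - e_j`. -/
def vv (g : Fin 3 → Fin 3 → ℤˣ) (s : ℤˣ) (i j : Fin 3) : LG :=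
  if j = i then (1, ∏ k ∈ Finset.univ.erase i, g i k) else (Multiplicative.ofAdd 1, s * g i j)

/-- The local image of the twist. -/
def LL (g : Fin 3 → Fin 3 → ℤˣ) (s : ℤˣ) : Subgroup (Fin 3 → LG) :=
  Subgroup.closure (Set.range (vv g s))

section F

variable {E : Cub} {F : Type} [Field F] [NumberField F]

/-- `lam` is the local class at the split prime `p`, `w ∣ p` (W2, `exists_lam`). -/
structure LamP (p : ℕ) (w : HeightOneSpectrum (𝓞 F)) (lam : SqC F →* LG) : Prop where
  par : ∀ x, (lam x).1 = H16A.par w x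
  one : ∀ t : F, t ≠ 0 → (t = 1 ∨ 0 < ord w (t - 1)) → lam (cls t) = 1
  unit : ∀ q : ℤ, ¬ (p : ℤ) ∣ q → ((lam (cls (q : F))).2 = 1 ↔ IsSquare ((q : ℤ) : ZMod p))

/-- the signs of `e_i - e_j` -/
noncomputable def gg (S : Split E F) (lam : SqC F →* LG) (i j : Fin 3) : ℤˣ :=
  (lam (cls (S.e i - S.e j))).2

/-- The local class at the prime `p` of a rational number. -/
structure LamQ (p : ℕ) (μ : SqC ℚ →* LG) : Prop where
  par : ∀ q : ℚ, q ≠ 0 → (μ (cls q)).1 = Multiplicative.ofAdd ((padicValRat p q : ℤ) : ZMod 2)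
  unit : ∀ k : ℤ, ¬ (p : ℤ) ∣ k → ((μ (cls (k : ℚ))).2 = 1 ↔ IsSquare ((k : ℤ) : ZMod p))

/-- `D` is squarefree, `D = - q_T m` modulo squares, `m > 0`, `m ≡ 1` modulo `8 |disc|`. -/
structure Fam (E : Cub) (T : Finset ℕ) (D : ℤ) (m : ℕ) : Prop where
  sqf : Squarefree D
  pos : 0 < m
  mod : m ≡ 1 [MOD 8 * E.disc.natAbs]
  sq : IsSquare ((D : ℚ) * (-(∏ p ∈ T, (p : ℚ)) * m))

/-- The classes of the points that are not `2`-torsion, unramified outside `T`, of the twists of
the family. -/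
def Gen (S : Split E F) (T : Finset ℕ) : Set (Fin 3 → SqC F) :=
  {b | ∃ (D : ℤ) (m : ℕ), Fam E T D m ∧ ∃ (x y : ℚ)
    (h : (WeierstrassCurve.Affine.baseChange (E.twist D).W ℚ).Nonsingular x y), y ≠ 0 ∧
      b = S.beta D (WeierstrassCurve.Affine.Point.some x y h) ∧ b ∈ S.Hs T}

end F

end H16B
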