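import Pool.Agent.Lib.H16A.W2
import Pool.Agent.Lib.H16B.RDefs

/-!
# R4 (M): local classes of rational numbers

* `exists_mu`: for every odd prime `p` there is `μ` with `LamQ p μ`: `q = p^k (a/b)`, `a, b` prime to `p`, `↦ (k mod 2, χ(a) χ(b))` (as in W2:
  `w2_lift`, `w2_psi`; a homomorphism of `ℚˣ` trivial on squares).
* `mu_unit`: by `unit`, for integers `a`, `b` prime to `p`: the sign of `a/b` is `1` iff `a b` is a square modulo `p`.
* `sym_compat`: `LamP p w lam` with `SplP` (`p` odd, `ord w p = 1`: `ord_rat` and `par`; the relation `(lam (cls q)).1` = parity of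
  `padicValRat p q` as `S.SplP p w` implies `ord w (p : F) = 1`, see W2/U2) and `LamQ p μ`: `q ↦ lam (cls (q : F))` and `μ` are two homomorphisms with
  the same parities and the same signs on the integers prime to `p`, so `lam (cls q) = μ (cls q) (1, e)^{v_p(q)}` with `e = ± 1` the quotient of the
  signs of `p`; and `sym c (x (1, e^α)) (y (1, e^β)) = sym c x y · e^{αβ} e^{αβ} = sym c x y`, `α`, `β` the parities of `x`, `y`.
-/

open Polynomial IsDedekindDomain NumberField H16A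

namespace H16B

section Rat4

variable {p : ℕ}

theorem r4_int (hp : p.Prime) {n : ℤ} (hn : n ≠ 0) :
    ∃ (k : ℕ) (m : ℤ), ¬ (p : ℤ) ∣ m ∧ n = (p : ℤ) ^ k * m := by
  have h1 : FiniteMultiplicity (p : ℤ) n := Int.finiteMultiplicity_iff.2
    ⟨by rw [Int.natAbs_natCast]; exact hp.ne_one, hn⟩
  obtain ⟨c, hc, hd⟩ := h1.exists_eq_pow_mul_and_not_dvd
  exact ⟨_, c, hd, hc⟩

theorem r4_ne {a : ℤ} (ha : ¬ (p : ℤ) ∣ a) : (a : ℚ) ≠ 0 := by
  intro h
  apply ha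
  rw [Int.cast_eq_zero.1 h]
  exact dvd_zero _

theorem r4_rep (hp : p.Prime) {q : ℚ} (hq : q ≠ 0) : ∃ (k : ℤ) (a b : ℤ), ¬ (p : ℤ) ∣ a ∧
    ¬ (p : ℤ) ∣ b ∧ q = (p : ℚ) ^ k * ((a : ℚ) / (b : ℚ)) := by
  obtain ⟨k, a, ha, hka⟩ := r4_int hp (Rat.num_ne_zero.2 hq)
  obtain ⟨l, b, hb, hlb⟩ := r4_int (n := (q.den : ℤ)) hp (Int.natCast_ne_zero.2 q.den_ne_zero)
  refine ⟨(k : ℤ) - l, a, b, ha, hb, ?_⟩
  have hp0 : (p : ℚ) ≠ 0 := Nat.cast_ne_zero.2 hp.ne_zero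
  have hb0 := r4_ne hb
  have h2 : (q.den : ℚ) = (p : ℚ) ^ l * b := by
    have := congrArg (fun z : ℤ => (z : ℚ)) hlb
    push_cast at this
    exact this
  have h3 : (q.num : ℚ) = (p : ℚ) ^ k * a := by
    have := congrArg (fun z : ℤ => (z : ℚ)) hka
    push_cast at this
    exact this
  conv_lhs => rw [← Rat.num_div_den q, h2, h3]
  rw [zpow_sub₀ hp0, zpow_natCast, zpow_natCast]
  field_simp

theorem r4_val (hp : p.Prime) {k a b : ℤ} (ha : ¬ (p : ℤ) ∣ a) (hb : ¬ (p : ℤ) ∣ b) :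
    padicValRat p ((p : ℚ) ^ k * ((a : ℚ) / (b : ℚ))) = k := by
  haveI : Fact p.Prime := ⟨hp⟩
  have hp0 : (p : ℚ) ≠ 0 := Nat.cast_ne_zero.2 hp.ne_zero
  have ha0 := r4_ne ha
  have hb0 := r4_ne hb
  rw [padicValRat.mul (zpow_ne_zero _ hp0) (div_ne_zero ha0 hb0), padicValRat.div ha0 hb0,
    padicValRat.of_int, padicValRat.of_int, padicValInt.eq_zero_of_not_dvd ha,
    padicValInt.eq_zero_of_not_dvd hb, padicValRat.zpow, padicValRat.self hp.one_lt]
  simp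

theorem r4_zmod [Fact p.Prime] {a : ℤ} (ha : ¬ (p : ℤ) ∣ a) : ((a : ℤ) : ZMod p) ≠ 0 := by
  rw [Ne, ZMod.intCast_zmod_eq_zero_iff_dvd]
  exact ha

theorem r4_welldef [Fact p.Prime] {k k' a b a' b' : ℤ} (ha : ¬ (p : ℤ) ∣ a) (hb : ¬ (p : ℤ) ∣ b)
    (ha' : ¬ (p : ℤ) ∣ a') (hb' : ¬ (p : ℤ) ∣ b')
    (h : (p : ℚ) ^ k * ((a : ℚ) / (b : ℚ)) = (p : ℚ) ^ k' * ((a' : ℚ) / (b' : ℚ))) :
    w2_psi ((a : ℤ) : ZMod p) * w2_psi ((b : ℤ) : ZMod p) =
      w2_psi ((a' : ℤ) : ZMod p) * w2_psi ((b' : ℤ) : ZMod p) := by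
  have hp : p.Prime := Fact.out
  have hp0 : (p : ℚ) ≠ 0 := Nat.cast_ne_zero.2 hp.ne_zero
  have hk := congrArg (padicValRat p) h
  rw [r4_val hp ha hb, r4_val hp ha' hb'] at hk
  subst hk
  have h1 := mul_left_cancel₀ (zpow_ne_zero _ hp0) h
  rw [div_eq_div_iff (r4_ne hb) (r4_ne hb')] at h1
  have h2 : a * b' = a' * b := by exact_mod_cast h1
  have h3 := congrArg (fun z : ℤ => (z : ZMod p)) h2
  simp only [Int.cast_mul] at h3
  have h4 := congrArg w2_psi h3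
  rw [w2_psi_mul (r4_zmod ha) (r4_zmod hb'), w2_psi_mul (r4_zmod ha') (r4_zmod hb)] at h4
  have h5 : ∀ x y z t : ℤˣ, x * t = z * y → x * y = z * t := by decide
  exact h5 _ _ _ _ h4

end Rat4

theorem exists_mu {p : ℕ} (hp : p.Prime) (hp2 : p ≠ 2) : ∃ μ : SqC ℚ →* LG, LamQ p μ := by
  classical
  haveI : Fact p.Prime := ⟨hp⟩
  have hp0 : (p : ℚ) ≠ 0 := Nat.cast_ne_zero.2 hp.ne_zero
  choose! k a b ha hb hab using fun (q : ℚ) (hq : q ≠ 0) => r4_rep hp hq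
  have hk : ∀ (q : ℚ), q ≠ 0 → k q = padicValRat p q := by
    intro q hq
    conv_rhs => rw [hab q hq]
    rw [r4_val hp (ha q hq) (hb q hq)]
  have hval : ∀ (x : ℚ) (hx : x ≠ 0) (l : ℤ) (c d : ℤ), ¬ (p : ℤ) ∣ c → ¬ (p : ℤ) ∣ d →
      x = (p : ℚ) ^ l * ((c : ℚ) / (d : ℚ)) →
      w2_psi ((a x : ℤ) : ZMod p) * w2_psi ((b x : ℤ) : ZMod p) =
        w2_psi ((c : ℤ) : ZMod p) * w2_psi ((d : ℤ) : ZMod p) := by
    intro x hx l c d hc hd hcd
    exact r4_welldef (ha x hx) (hb x hx) hc hd ((hab x hx).symm.trans hcd)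
  have hnd : ∀ {c d : ℤ}, ¬ (p : ℤ) ∣ c → ¬ (p : ℤ) ∣ d → ¬ (p : ℤ) ∣ c * d := by
    intro c d hc hd h
    rcases (Nat.prime_iff_prime_int.1 hp).dvd_or_dvd h with h1 | h1
    · exact hc h1
    · exact hd h1
  have hmul : ∀ (x y : ℚ) (hx : x ≠ 0) (hy : y ≠ 0),
      w2_psi ((a (x * y) : ℤ) : ZMod p) * w2_psi ((b (x * y) : ℤ) : ZMod p) =
      (w2_psi ((a x : ℤ) : ZMod p) * w2_psi ((b x : ℤ) : ZMod p)) *
        (w2_psi ((a y : ℤ) : ZMod p) * w2_psi ((b y : ℤ) : ZMod p)) := by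
    intro x y hx hy
    have hbx := r4_ne (hb x hx)
    have hby := r4_ne (hb y hy)
    rw [hval (x * y) (mul_ne_zero hx hy) (k x + k y) (a x * a y) (b x * b y)
      (hnd (ha x hx) (ha y hy)) (hnd (hb x hx) (hb y hy)) ?_, Int.cast_mul, Int.cast_mul,
      w2_psi_mul (r4_zmod (ha x hx)) (r4_zmod (ha y hy)),
      w2_psi_mul (r4_zmod (hb x hx)) (r4_zmod (hb y hy)), mul_mul_mul_comm]
    rw [zpow_add₀ hp0]
    conv_lhs => rw [hab x hx, hab y hy]
    push_cast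
    field_simp
  have hone : ¬ (p : ℤ) ∣ 1 := by
    intro h
    have := Int.natAbs_dvd_natAbs.2 h
    rw [Int.natAbs_natCast, Int.natAbs_one, Nat.dvd_one] at this
    exact hp.ne_one this
  let f : ℚˣ →* LG :=
    { toFun := fun u => (Multiplicative.ofAdd ((padicValRat p (u : ℚ) : ℤ) : ZMod 2),
        w2_psi ((a (u : ℚ) : ℤ) : ZMod p) * w2_psi ((b (u : ℚ) : ℤ) : ZMod p))
      map_one' := by
        refine Prod.ext ?_ ?_
        · change Multiplicative.ofAdd ((padicValRat p ((1 : ℚˣ) : ℚ) : ℤ) : ZMod 2) = 1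
          rw [Units.val_one, padicValRat.one, Int.cast_zero]
          rfl
        · change w2_psi ((a ((1 : ℚˣ) : ℚ) : ℤ) : ZMod p) * w2_psi ((b ((1 : ℚˣ) : ℚ) : ℤ) : ZMod p) = 1
          rw [hval _ (Units.ne_zero 1) 0 1 1 hone hone (by simp), Int.cast_one, w2_psi_one, mul_one]
      map_mul' := fun u v => by
        refine Prod.ext ?_ ?_
        · change Multiplicative.ofAdd ((padicValRat p ((u * v : ℚˣ) : ℚ) : ℤ) : ZMod 2) =
            Multiplicative.ofAdd ((padicValRat p (u : ℚ) : ℤ) : ZMod 2) *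
            Multiplicative.ofAdd ((padicValRat p (v : ℚ) : ℤ) : ZMod 2)
          rw [Units.val_mul, padicValRat.mul u.ne_zero v.ne_zero, Int.cast_add, ofAdd_add]
        · change w2_psi ((a ((u * v : ℚˣ) : ℚ) : ℤ) : ZMod p) *
            w2_psi ((b ((u * v : ℚˣ) : ℚ) : ℤ) : ZMod p) = _
          rw [Units.val_mul]
          exact hmul _ _ u.ne_zero v.ne_zero }
  have hq2 : ∀ u, f u ^ 2 = 1 := by
    intro u
    have h : ∀ x : LG, x ^ 2 = 1 := by decide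
    exact h _
  refine ⟨w2_lift f hq2, ?_, ?_⟩
  · intro q hq
    rw [w2_lift_cls f hq2 hq]
    rfl
  · intro c hc
    have hc0 : (c : ℚ) ≠ 0 := r4_ne hc
    rw [w2_lift_cls f hq2 hc0]
    change w2_psi ((a (c : ℚ) : ℤ) : ZMod p) * w2_psi ((b (c : ℚ) : ℤ) : ZMod p) = 1 ↔ _
    rw [hval (c : ℚ) hc0 0 c 1 hc hone (by simp), Int.cast_one, w2_psi_one, mul_one,
      w2_psi_eq_one_iff (r4_zmod hc)]

open Classical in
/-- the local class of an integer prime to `p` -/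
theorem mu_unit {p : ℕ} (hp : p.Prime) (hp2 : p ≠ 2) {μ : SqC ℚ →* LG} (h : LamQ p μ) {a : ℤ}
    (ha : ¬ (p : ℤ) ∣ a) : μ (cls (a : ℚ)) = (1, if IsSquare ((a : ℤ) : ZMod p) then 1 else -1) := by
  refine Prod.ext ?_ ?_
  · rw [h.par _ (r4_ne ha), padicValRat.of_int, padicValInt.eq_zero_of_not_dvd ha]
    rfl
  · have h1 := h.unit a ha
    change _ = if IsSquare ((a : ℤ) : ZMod p) then 1 else -1
    by_cases h2 : IsSquare ((a : ℤ) : ZMod p)
    · rw [if_pos h2]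
      exact h1.2 h2
    · rw [if_neg h2]
      rcases Int.units_eq_one_or (μ (cls (a : ℚ))).2 with h3 | h3
      · exact absurd (h1.1 h3) h2
      · exact h3

theorem r4_zpow (e : ℤˣ) (k : ℤ) : e ^ k = e ^ ((k : ZMod 2)).val := by
  rcases Int.even_or_odd k with hk | hk
  · have h1 : (k : ZMod 2) = 0 := ZMod.intCast_eq_zero_iff_even.2 hk
    rw [h1, ZMod.val_zero, pow_zero]
    obtain ⟨r, rfl⟩ := hk
    rw [zpow_add]
    exact Int.units_mul_self _
  · have h1 : (k : ZMod 2) = 1 := by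
      obtain ⟨r, rfl⟩ := hk
      push_cast
      have : (2 : ZMod 2) = 0 := by decide
      rw [this, zero_mul, zero_add]
    rw [h1, ZMod.val_one, pow_one]
    obtain ⟨r, rfl⟩ := hk
    rw [zpow_add, zpow_mul, zpow_one]
    have h2 : e ^ (2 : ℤ) = 1 := by
      rw [zpow_two]
      exact Int.units_mul_self _
    rw [h2, one_zpow, one_mul]

theorem r4_sym : ∀ (c e : ℤˣ) (x y : LG),
    sym c (x * (1, e ^ (Multiplicative.toAdd x.1).val)) (y * (1, e ^ (Multiplicative.toAdd y.1).val)) =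
      sym c x y := by
  decide

theorem sym_compat {E : Cub} {F : Type} [Field F] [NumberField F] (S : Split E F) {p : ℕ}
    {w : HeightOneSpectrum (𝓞 F)} (hw : S.SplP p w) {lam : SqC F →* LG} (hl : LamP p w lam)
    {μ : SqC ℚ →* LG} (hμ : LamQ p μ) {a b : ℚ} (ha : a ≠ 0) (hb : b ≠ 0) (c : ℤˣ) :
    sym c (lam (cls ((a : ℚ) : F))) (lam (cls ((b : ℚ) : F))) = sym c (μ (cls a)) (μ (cls b)) := by
  have hp := hw.prime
  have hordp := hw.ord_p
  have hpar : ∀ q : ℚ, q ≠ 0 → (lam (cls ((q : ℚ) : F))).1 = (μ (cls q)).1 := by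
    intro q hq
    rw [hl.par, par_cls w (Rat.cast_ne_zero.2 hq), hμ.par q hq, ord_rat w hp hw.mem, hordp, mul_one]
  let L : ℚˣ →* LG :=
    { toFun := fun u => lam (cls (((u : ℚ)) : F))
      map_one' := by
        rw [Units.val_one, Rat.cast_one, (cls_eq_one_iff one_ne_zero).2 (IsSquare.one), map_one]
      map_mul' := fun u v => by
        rw [Units.val_mul, Rat.cast_mul, cls_mul (Rat.cast_ne_zero.2 u.ne_zero)
          (Rat.cast_ne_zero.2 v.ne_zero), map_mul] }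
  let M : ℚˣ →* LG :=
    { toFun := fun u => μ (cls (u : ℚ))
      map_one' := by
        rw [Units.val_one, (cls_eq_one_iff one_ne_zero).2 (IsSquare.one), map_one]
      map_mul' := fun u v => by
        rw [Units.val_mul, cls_mul u.ne_zero v.ne_zero, map_mul] }
  have hLM : ∀ (n : ℤ) (hn : ¬ (p : ℤ) ∣ n), L (Units.mk0 (n : ℚ) (r4_ne hn)) =
      M (Units.mk0 (n : ℚ) (r4_ne hn)) := by
    intro n hn
    refine Prod.ext (hpar _ (r4_ne hn)) ?_
    change (lam (cls (((n : ℤ) : ℚ) : F))).2 = (μ (cls (n : ℚ))).2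
    have h1 := hl.unit n hn
    have h2 := hμ.unit n hn
    rw [← h2, ← Rat.cast_intCast (α := F) n] at h1
    rcases Int.units_eq_one_or (μ (cls (n : ℚ))).2 with h3 | h3
    · rw [h3]
      exact h1.2 h3
    · rcases Int.units_eq_one_or (lam (cls (((n : ℤ) : ℚ) : F))).2 with h4 | h4
      · rw [h1.1 h4, h4]
      · rw [h3, h4]
  have hp0 : (p : ℚ) ≠ 0 := Nat.cast_ne_zero.2 hp.ne_zero
  obtain ⟨e, he⟩ : ∃ e : ℤˣ, L (Units.mk0 (p : ℚ) hp0) = M (Units.mk0 (p : ℚ) hp0) * (1, e) := by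
    have h1 : (L (Units.mk0 (p : ℚ) hp0)).1 = (M (Units.mk0 (p : ℚ) hp0)).1 := hpar _ hp0
    generalize L (Units.mk0 (p : ℚ) hp0) = x at h1 ⊢
    generalize M (Units.mk0 (p : ℚ) hp0) = y at h1 ⊢
    revert x y
    decide
  have hfin : ∀ q : ℚ, q ≠ 0 → lam (cls ((q : ℚ) : F)) =
      μ (cls q) * (1, e ^ (Multiplicative.toAdd (μ (cls q)).1).val) := by
    intro q hq
    obtain ⟨k, n, d, hn, hd, hqe⟩ := r4_rep hp hq
    have h1 : Units.mk0 q hq = (Units.mk0 (p : ℚ) hp0) ^ k *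
        (Units.mk0 (n : ℚ) (r4_ne hn) / Units.mk0 (d : ℚ) (r4_ne hd)) := by
      apply Units.ext
      rw [Units.val_mul, Units.val_zpow_eq_zpow_val, Units.val_div_eq_div_val]
      exact hqe
    have h2 : L (Units.mk0 q hq) = M (Units.mk0 q hq) * (1, e) ^ k := by
      rw [h1, map_mul, map_mul, _root_.map_div, _root_.map_div, map_zpow, map_zpow, he, hLM n hn, hLM d hd,
        mul_zpow]
      rw [mul_assoc, mul_assoc, mul_comm ((1, e) ^ k : LG)]
    have h3 : (μ (cls q)).1 = Multiplicative.ofAdd ((k : ℤ) : ZMod 2) := by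
      haveI : Fact p.Prime := ⟨hp⟩
      rw [hμ.par q hq]
      conv_lhs => rw [hqe]
      rw [r4_val hp hn hd]
    rw [h3, toAdd_ofAdd, ← r4_zpow]
    have h4 : ((1, e ^ k) : LG) = (1, e) ^ k := by
      rw [Prod.pow_mk, one_zpow]
    rw [h4]
    exact h2
  rw [hfin a ha, hfin b hb, r4_sym]

end H16B
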