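import Pool.Agent.Lib.H16B.R1
import Pool.Agent.Lib.H16B.R4

/-!
# R5 (L): the product formula over `ℚ` (Jacobi reciprocity)

`B ≡ 1 mod 8` a positive integer, `A ∈ ℚˣ`, `W` a finite set of odd primes containing the odd primes that divide `B` or with
`v_p(A) ≠ 0`.  CLAIM `∏_{p ∈ W} sym (cm p) (μ_p A) (μ_p B) = 1`.
For `p` outside the support the factor is `1` (`sym_unit`), so `W` may be enlarged or shrunk; the formula is multiplicative in `A`
(`sym_mul_left`), so it suffices: `A = -1`, `A = 2`, `A = q` an odd prime (`ℚˣ` is generated by `-1` and the primes; for inverses use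
that `sym ∈ {1, -1}`).
* `A = -1`: `∏_{p ∣ B} (-1/p)^{v_p(B)} = (-1/B) = 1` (`jacobiSym.at_neg_one`, `B ≡ 1 mod 4`).
* `A = 2`: `(2/B) = 1` (`jacobiSym.at_two`, `B ≡ 1 mod 8`).
* `A = q`, `B = q^β b`, `q ∤ b`: at `p ∣ b` the factor is `(q/p)^{v_p(b)}`, product `(q/b)`; at `q` it is
  `cm(q)^β (b/q)` (`sym` with parities `1` and `β`; the sign of `B` at `q` is `(sign of q)^β (b/q)`, that of `A = q` is the sign of `q`, and
  `sym = cm^β · (sign q)^β · (sign q)^β (b/q)`).  Reciprocity `(q/b) (b/q) = (-1)^{(q-1)/2 · (b-1)/2}`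
  (`jacobiSym.quadratic_reciprocity`), and `q^β b ≡ 1 mod 4`: if `q ≡ 1 mod 4` all is `1`; if `q ≡ 3 mod 4` then `b ≡ (-1)^β mod 4` and the
  exponents are `β + β`.
-/

open Polynomial IsDedekindDomain NumberField H16A

namespace H16B

open scoped NumberTheorySymbols

/-- `b` as a product of prime powers over a set containing its prime divisors. -/
theorem R5_eq_prod {b : ℕ} (hb : b ≠ 0) (W : Finset ℕ)
    (h : ∀ p : ℕ, p.Prime → p ∣ b → p ∈ W) (hW : ∀ p ∈ W, p.Prime) :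
    b = ∏ p ∈ W, p ^ padicValNat p b := by
  have h1 : b = b.factorization.prod fun p k => p ^ k := (Nat.prod_factorization_pow_eq_self hb).symm
  have h2 : b.factorization.support ⊆ W := by
    intro p hp
    rw [Nat.support_factorization, Nat.mem_primeFactors] at hp
    exact h p hp.1 hp.2.1
  rw [Finsupp.prod_of_support_subset _ h2 _ (fun p _ => pow_zero p)] at h1
  calc b = ∏ p ∈ W, p ^ b.factorization p := h1
    _ = ∏ p ∈ W, p ^ padicValNat p b := by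
      refine Finset.prod_congr rfl fun p hp => ?_
      rw [Nat.factorization_def b (hW p hp)]

theorem R5_jacobi_finset (a : ℤ) (f : ℕ → ℕ) (W : Finset ℕ) (hW : ∀ p ∈ W, p ≠ 0) :
    J(a | ∏ p ∈ W, p ^ f p) = ∏ p ∈ W, J(a | p) ^ f p := by
  induction W using Finset.induction_on with
  | empty => simp
  | insert q W hq ih =>
    rw [Finset.prod_insert hq, Finset.prod_insert hq,
      jacobiSym.mul_right' a (pow_ne_zero _ (hW q (Finset.mem_insert_self _ _)))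
        (Finset.prod_ne_zero_iff.2 fun p hp => pow_ne_zero _ (hW p (Finset.mem_insert_of_mem hp))),
      ih fun p hp => hW p (Finset.mem_insert_of_mem hp), jacobiSym.pow_right]

theorem R5_jacobi_prod (a : ℤ) {b : ℕ} (hb : b ≠ 0) (W : Finset ℕ) (hW : ∀ p ∈ W, p.Prime)
    (h : ∀ p : ℕ, p.Prime → p ∣ b → p ∈ W) :
    J(a | b) = ∏ p ∈ W, J(a | p) ^ padicValNat p b := by
  conv_lhs => rw [R5_eq_prod hb W h hW]
  exact R5_jacobi_finset a _ W fun p hp => (hW p hp).ne_zero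

open Classical in
theorem R5_unit_val {p : ℕ} (hp : p.Prime) {a : ℤ} (ha : ¬ (p : ℤ) ∣ a) :
    (((if IsSquare ((a : ℤ) : ZMod p) then 1 else -1 : ℤˣ)) : ℤ) = J(a | p) := by
  have := Fact.mk hp
  have h0 : ((a : ℤ) : ZMod p) ≠ 0 := by
    rwa [Ne, ZMod.intCast_zmod_eq_zero_iff_dvd]
  rw [← jacobiSym.legendreSym.to_jacobiSym]
  by_cases h : IsSquare ((a : ℤ) : ZMod p)
  · rw [if_pos h, (legendreSym.eq_one_iff p h0).2 h]
    rfl
  · rw [if_neg h, (legendreSym.eq_neg_one_iff p).2 h]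
    rfl

theorem R5_sym_unit_left (c : ℤˣ) (t : ℤˣ) (y : LG) (v : ℕ)
    (hy : y.1 = Multiplicative.ofAdd ((v : ℕ) : ZMod 2)) : sym c (1, t) y = t ^ v := by
  have h1 : (Multiplicative.toAdd ((1 : Multiplicative (ZMod 2)))).val = 0 := rfl
  have h2 : (Multiplicative.toAdd y.1).val = v % 2 := by
    rw [hy, toAdd_ofAdd, ZMod.val_natCast]
  unfold sym
  rw [h1, h2, zero_mul, pow_zero, one_mul, pow_zero, mul_one, ← Int.units_pow_eq_pow_mod_two]

/-- the parity of the local class of a natural number -/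
theorem R5_par {p : ℕ} {μ : SqC ℚ →* LG} (h : LamQ p μ) {B : ℕ} (hB : B ≠ 0) :
    (μ (cls (B : ℚ))).1 = Multiplicative.ofAdd ((padicValNat p B : ℕ) : ZMod 2) := by
  rw [h.par _ (by exact_mod_cast hB), padicValRat.of_nat]
  norm_num

/-- the factor at a prime not dividing `a` -/
theorem R5_factor {p : ℕ} (hp : p.Prime) (hp2 : p ≠ 2) {μ : SqC ℚ →* LG} (h : LamQ p μ)
    {a : ℤ} (ha : ¬ (p : ℤ) ∣ a) {B : ℕ} (hB : B ≠ 0) :
    ((sym (cm p) (μ (cls (a : ℚ))) (μ (cls (B : ℚ))) : ℤˣ) : ℤ) = J(a | p) ^ padicValNat p B := by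
  classical
  rw [mu_unit hp hp2 h ha, R5_sym_unit_left _ _ _ _ (R5_par h hB), Units.val_pow_eq_pow_val,
    R5_unit_val hp ha]

theorem R5_cls_pow {μ : SqC ℚ →* LG} (q b β : ℕ) (hq : q ≠ 0) (hb : b ≠ 0) :
    μ (cls ((q ^ β * b : ℕ) : ℚ)) = μ (cls (q : ℚ)) ^ β * μ (cls (b : ℚ)) := by
  have hq' : (q : ℚ) ≠ 0 := by exact_mod_cast hq
  have hb' : (b : ℚ) ≠ 0 := by exact_mod_cast hb
  have h1 : ∀ n : ℕ, cls ((q : ℚ) ^ n) = cls (q : ℚ) ^ n := by
    intro n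
    induction n with
    | zero =>
      rw [pow_zero, pow_zero, cls_eq_one_iff one_ne_zero]
      exact ⟨1, by norm_num⟩
    | succ n ih => rw [pow_succ, pow_succ, cls_mul (pow_ne_zero n hq') hq', ih]
  push_cast
  rw [cls_mul (pow_ne_zero β hq') hb', h1, map_mul, map_pow]

theorem R5_LG_pow (s : ℤˣ) (β : ℕ) :
    ((Multiplicative.ofAdd (1 : ZMod 2), s) : LG) ^ β =
      (Multiplicative.ofAdd ((β : ℕ) : ZMod 2), s ^ β) := by
  rw [Prod.pow_mk]
  congr 1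
  rw [← ofAdd_nsmul, nsmul_eq_mul, mul_one]

/-- the factor at `q` -/
theorem R5_factor_self {q : ℕ} (hq : q.Prime) (hq2 : q ≠ 2) {μ : SqC ℚ →* LG} (h : LamQ q μ)
    {b β : ℕ} (hb : b ≠ 0) (hqb : ¬ q ∣ b) :
    ((sym (cm q) (μ (cls (q : ℚ))) (μ (cls ((q ^ β * b : ℕ) : ℚ))) : ℤˣ) : ℤ) =
      ((cm q : ℤˣ) : ℤ) ^ β * J((b : ℤ) | q) := by
  classical
  have := Fact.mk hq
  have h1 : (μ (cls (q : ℚ))).1 = Multiplicative.ofAdd (1 : ZMod 2) := by
    rw [R5_par h hq.ne_zero, padicValNat_self, Nat.cast_one]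
  have hqb' : ¬ (q : ℤ) ∣ (b : ℤ) := by
    rwa [Int.natCast_dvd_natCast]
  obtain ⟨x, s, hxs⟩ : ∃ (x : Multiplicative (ZMod 2)) (s : ℤˣ), μ (cls (q : ℚ)) = (x, s) :=
    ⟨_, _, rfl⟩
  rw [hxs] at h1
  have h1' : x = Multiplicative.ofAdd (1 : ZMod 2) := h1
  subst h1'
  obtain ⟨t, h2, ht⟩ : ∃ t : ℤˣ, μ (cls (b : ℚ)) = (1, t) ∧ (t : ℤ) = J((b : ℤ) | q) := by
    have h8 := mu_unit hq hq2 h hqb'
    rw [Int.cast_natCast] at h8
    exact ⟨_, h8, R5_unit_val hq hqb'⟩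
  rw [R5_cls_pow q b β hq.ne_zero hb, hxs, R5_LG_pow, h2, Prod.mk_mul_mk, mul_one, ← ht]
  have h3 : sym (cm q) (Multiplicative.ofAdd (1 : ZMod 2), s)
      (Multiplicative.ofAdd ((β : ℕ) : ZMod 2), s ^ β * t) = cm q ^ β * t := by
    have h4 : (1 : ZMod 2).val = 1 := rfl
    have h5 : ((β : ℕ) : ZMod 2).val = β % 2 := ZMod.val_natCast 2 β
    unfold sym
    simp only [toAdd_ofAdd]
    rw [h4, h5, one_mul, pow_one, ← Int.units_pow_eq_pow_mod_two, ← Int.units_pow_eq_pow_mod_two,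
      mul_assoc, ← mul_assoc (s ^ β), Int.units_mul_self, one_mul]
  rw [h3, Units.val_mul, Units.val_pow_eq_pow_val]

theorem R5_recip {q b β : ℕ} (hq : Odd q) (hb : Odd b) (hcop : Nat.Coprime q b)
    (h : (q ^ β * b) % 4 = 1) :
    ((cm q : ℤˣ) : ℤ) ^ β * J((b : ℤ) | q) * J((q : ℤ) | b) = 1 := by
  have h1 : J((q : ℤ) | b) = (-1) ^ (q / 2 * (b / 2)) * J((b : ℤ) | q) :=
    jacobiSym.quadratic_reciprocity hq hb
  have h2 : J((b : ℤ) | q) ^ 2 = 1 := by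
    apply jacobiSym.sq_one
    rw [Int.gcd_natCast_natCast]
    exact hcop.symm
  have h3 : ((cm q : ℤˣ) : ℤ) ^ β * (-1) ^ (q / 2 * (b / 2)) = 1 := by
    have hq4 : q % 4 = 1 ∨ q % 4 = 3 := by
      obtain ⟨k, hk⟩ := hq
      omega
    have hb4 : b % 4 = 1 ∨ b % 4 = 3 := by
      obtain ⟨k, hk⟩ := hb
      omega
    rcases hq4 with hq4 | hq4
    · have h5 : Even (q / 2 * (b / 2)) := by
        apply Even.mul_right
        rw [Nat.even_iff]
        omega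
      have h6 : cm q = 1 := if_pos hq4
      rw [h6, Even.neg_one_pow h5]
      simp
    · have h6 : cm q = -1 := if_neg (by omega)
      have hq2 : Odd (q / 2) := by
        rw [Nat.odd_iff]
        omega
      rw [h6, Units.val_neg, Units.val_one]
      have h7 : (q ^ β * b) % 4 = (3 ^ β % 4 * (b % 4)) % 4 := by
        rw [Nat.mul_mod, Nat.pow_mod, hq4]
      have h8 : (-1 : ℤ) ^ (q / 2 * (b / 2)) = (-1) ^ (b / 2) := by
        rw [pow_mul, Odd.neg_one_pow hq2]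
      rw [h8]
      rcases Nat.even_or_odd β with he | ho
      · obtain ⟨k, hk⟩ := he
        have h9 : 3 ^ β % 4 = 1 := by
          rw [hk, ← two_mul, pow_mul, Nat.pow_mod]
          norm_num
        rw [h9] at h7
        have h10 : b % 4 = 1 := by omega
        have h11 : Even (b / 2) := by
          rw [Nat.even_iff]
          omega
        rw [Even.neg_one_pow h11, hk, ← two_mul, pow_mul]
        norm_num
      · obtain ⟨k, hk⟩ := ho
        have h9 : 3 ^ β % 4 = 3 := by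
          rw [hk, pow_succ, pow_mul, Nat.mul_mod, Nat.pow_mod]
          norm_num
        rw [h9] at h7
        have h10 : b % 4 = 3 := by omega
        have h11 : Odd (b / 2) := by
          rw [Nat.odd_iff]
          omega
        rw [Odd.neg_one_pow h11, hk, pow_succ, pow_mul]
        norm_num
  calc ((cm q : ℤˣ) : ℤ) ^ β * J((b : ℤ) | q) * J((q : ℤ) | b)
      = (((cm q : ℤˣ) : ℤ) ^ β * (-1) ^ (q / 2 * (b / 2))) * J((b : ℤ) | q) ^ 2 := by
        rw [h1]; ring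
    _ = 1 := by rw [h3, h2, one_mul]

section Main

variable {μ : ℕ → SqC ℚ →* LG} (hμ : ∀ p : ℕ, p.Prime → p ≠ 2 → LamQ p (μ p))
variable {B : ℕ} (hB0 : 0 < B) (hB : B % 8 = 1)

include hμ hB0 hB

/-- the product for an integer prime to all elements of `W` dividing `B` -/
theorem R5_prod_unit (a : ℤ) (W : Finset ℕ) (hW : ∀ p ∈ W, p.Prime ∧ p ≠ 2)
    (hW' : ∀ p : ℕ, p.Prime → p ≠ 2 → p ∣ B → p ∈ W) (ha : ∀ p ∈ W, ¬ (p : ℤ) ∣ a) :
    ((∏ p ∈ W, sym (cm p) (μ p (cls (a : ℚ))) (μ p (cls (B : ℚ))) : ℤˣ) : ℤ) = J(a | B) := by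
  have hBodd : Odd B := by
    rw [Nat.odd_iff]; omega
  rw [R5_jacobi_prod a hB0.ne' W (fun p hp => (hW p hp).1) (fun p hp hpB => hW' p hp (by
    rintro rfl
    rw [Nat.odd_iff] at hBodd
    omega) hpB), Units.coe_prod]
  refine Finset.prod_congr rfl fun p hp => ?_
  exact R5_factor (hW p hp).1 (hW p hp).2 (hμ p (hW p hp).1 (hW p hp).2) (ha p hp) hB0.ne'

theorem R5_neg_one (W : Finset ℕ) (hW : ∀ p ∈ W, p.Prime ∧ p ≠ 2)
    (hW' : ∀ p : ℕ, p.Prime → p ≠ 2 → p ∣ B → p ∈ W) :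
    ∏ p ∈ W, sym (cm p) (μ p (cls (((-1 : ℤ)) : ℚ))) (μ p (cls (B : ℚ))) = 1 := by
  have hBodd : Odd B := by
    rw [Nat.odd_iff]; omega
  have h1 := R5_prod_unit hμ hB0 hB (-1) W hW hW' (fun p hp h => by
    have h2 := (hW p hp).1.one_lt
    have h3 : (p : ℤ) ∣ 1 := (dvd_neg).1 h
    have h4 := Int.le_of_dvd one_pos h3
    omega)
  rw [jacobiSym.at_neg_one hBodd, ZMod.χ₄_nat_one_mod_four (by omega)] at h1
  exact Units.ext h1

theorem R5_two (W : Finset ℕ) (hW : ∀ p ∈ W, p.Prime ∧ p ≠ 2)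
    (hW' : ∀ p : ℕ, p.Prime → p ≠ 2 → p ∣ B → p ∈ W) :
    ∏ p ∈ W, sym (cm p) (μ p (cls (((2 : ℤ)) : ℚ))) (μ p (cls (B : ℚ))) = 1 := by
  have hBodd : Odd B := by
    rw [Nat.odd_iff]; omega
  have h1 := R5_prod_unit hμ hB0 hB 2 W hW hW' (fun p hp h => by
    have h2 := (hW p hp).1.one_lt
    have h3 := (hW p hp).2
    have h4 := Int.le_of_dvd two_pos h
    omega)
  rw [jacobiSym.at_two hBodd] at h1
  have h2 : ZMod.χ₈ (B : ZMod 8) = 1 := by
    have h3 : (B : ZMod 8) = ((B % 8 : ℕ) : ZMod 8) := (ZMod.natCast_mod B 8).symm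
    rw [h3, hB]
    decide
  rw [h2] at h1
  exact Units.ext h1

theorem R5_prime (q : ℕ) (hq : q.Prime) (hq2 : q ≠ 2) (W : Finset ℕ)
    (hW : ∀ p ∈ W, p.Prime ∧ p ≠ 2)
    (hW' : ∀ p : ℕ, p.Prime → p ≠ 2 → p ∣ B → p ∈ W) (hqW : q ∈ W) :
    ∏ p ∈ W, sym (cm p) (μ p (cls (((q : ℤ)) : ℚ))) (μ p (cls (B : ℚ))) = 1 := by
  have := Fact.mk hq
  have hBodd : Odd B := by
    rw [Nat.odd_iff]; omega
  set β := padicValNat q B with hβ
  obtain ⟨b, hb⟩ : q ^ β ∣ B := pow_padicValNat_dvd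
  have hb0 : b ≠ 0 := by
    rintro rfl
    rw [mul_zero] at hb
    omega
  have hqb : ¬ q ∣ b := by
    intro h
    have h1 : q ^ (β + 1) ∣ B := by
      rw [hb, pow_succ]
      exact mul_dvd_mul_left _ h
    exact pow_succ_padicValNat_not_dvd hB0.ne' h1
  have hbodd : Odd b := by
    rw [hb] at hBodd
    exact (Nat.odd_mul.1 hBodd).2
  have hqodd : Odd q := hq.odd_of_ne_two hq2
  apply Units.ext
  rw [← Finset.mul_prod_erase W _ hqW, Units.val_mul]
  have hself : ((sym (cm q) (μ q (cls (((q : ℤ)) : ℚ))) (μ q (cls (B : ℚ))) : ℤˣ) : ℤ) =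
      ((cm q : ℤˣ) : ℤ) ^ β * J((b : ℤ) | q) := by
    have h1 := R5_factor_self hq hq2 (hμ q hq hq2) (b := b) (β := β) hb0 hqb
    rw [← hb] at h1
    rw [← h1]
    norm_num
  have hrest : ((∏ p ∈ W.erase q, sym (cm p) (μ p (cls (((q : ℤ)) : ℚ)))
      (μ p (cls (B : ℚ))) : ℤˣ) : ℤ) = J((q : ℤ) | b) := by
    rw [R5_jacobi_prod (q : ℤ) hb0 (W.erase q) (fun p hp => (hW p (Finset.mem_of_mem_erase hp)).1)
      (fun p hp hpb => ?_), Units.coe_prod]
    · refine Finset.prod_congr rfl fun p hp => ?_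
      have hpq : p ≠ q := Finset.ne_of_mem_erase hp
      have hpW := hW p (Finset.mem_of_mem_erase hp)
      have := Fact.mk hpW.1
      rw [R5_factor hpW.1 hpW.2 (hμ p hpW.1 hpW.2) (a := (q : ℤ)) (fun h => by
        rw [Int.natCast_dvd_natCast] at h
        exact hpq ((Nat.prime_dvd_prime_iff_eq hpW.1 hq).1 h)) hB0.ne']
      congr 1
      rw [hb, padicValNat.mul (pow_ne_zero _ hq.ne_zero) hb0,
        padicValNat.pow, padicValNat_primes hpq, mul_zero, zero_add]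
    · refine Finset.mem_erase.2 ⟨?_, ?_⟩
      · rintro rfl
        exact hqb hpb
      · refine hW' p hp ?_ (hb ▸ dvd_mul_of_dvd_right hpb _)
        rintro rfl
        rw [Nat.odd_iff] at hbodd
        omega
  rw [hself, hrest, Units.val_one]
  apply R5_recip hqodd hbodd ((Nat.Prime.coprime_iff_not_dvd hq).2 hqb)
  rw [← hb]
  omega

theorem R5_nat (n : ℕ) : n ≠ 0 → ∀ W : Finset ℕ, (∀ p ∈ W, p.Prime ∧ p ≠ 2) →
    (∀ p : ℕ, p.Prime → p ≠ 2 → (p ∣ B ∨ p ∣ n) → p ∈ W) →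
    ∏ p ∈ W, sym (cm p) (μ p (cls (((n : ℤ)) : ℚ))) (μ p (cls (B : ℚ))) = 1 := by
  induction n using Nat.recOnMul with
  | zero => intro h; exact absurd rfl h
  | one =>
    intro _ W _ _
    have h1 : cls (((1 : ℕ) : ℤ) : ℚ) = (1 : SqC ℚ) := by
      rw [cls_eq_one_iff (by norm_num)]
      exact ⟨1, by norm_num⟩
    refine Finset.prod_eq_one fun p _ => ?_
    rw [h1, map_one, sym_one_left]
  | prime q hq =>
    intro _ W hW hW'
    by_cases hq2 : q = 2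
    · subst hq2
      exact R5_two hμ hB0 hB W hW fun p hp hp2 hpB => hW' p hp hp2 (Or.inl hpB)
    · exact R5_prime hμ hB0 hB q hq hq2 W hW (fun p hp hp2 hpB => hW' p hp hp2 (Or.inl hpB))
        (hW' q hq hq2 (Or.inr dvd_rfl))
  | mul a b iha ihb =>
    intro hab W hW hW'
    have ha0 : a ≠ 0 := left_ne_zero_of_mul hab
    have hb0 : b ≠ 0 := right_ne_zero_of_mul hab
    have h1 := iha ha0 W hW fun p hp hp2 h => hW' p hp hp2
      (h.imp id fun h => dvd_mul_of_dvd_left h _)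
    have h2 := ihb hb0 W hW fun p hp hp2 h => hW' p hp hp2
      (h.imp id fun h => dvd_mul_of_dvd_right h _)
    have h3 : cls (((a * b : ℕ) : ℤ) : ℚ) = (cls (((a : ℤ)) : ℚ) : SqC ℚ) * cls (((b : ℤ)) : ℚ) := by
      rw [← cls_mul (by exact_mod_cast ha0) (by exact_mod_cast hb0)]
      push_cast
      rfl
    simp only [h3, map_mul, sym_mul_left, Finset.prod_mul_distrib]
    rw [h1, h2, one_mul]

theorem R5_int (n : ℤ) (hn : n ≠ 0) (W : Finset ℕ) (hW : ∀ p ∈ W, p.Prime ∧ p ≠ 2)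
    (hW' : ∀ p : ℕ, p.Prime → p ≠ 2 → (p ∣ B ∨ (p : ℤ) ∣ n) → p ∈ W) :
    ∏ p ∈ W, sym (cm p) (μ p (cls ((n : ℤ) : ℚ))) (μ p (cls (B : ℚ))) = 1 := by
  have h0 : n.natAbs ≠ 0 := Int.natAbs_ne_zero.2 hn
  have hnat := R5_nat hμ hB0 hB n.natAbs h0 W hW fun p hp hp2 h => hW' p hp hp2
    (h.imp id fun h => Int.natCast_dvd.2 h)
  rcases Int.natAbs_eq n with h | h
  · rw [h]
    exact hnat
  · have h1 : cls ((n : ℤ) : ℚ) =
        (cls (((-1 : ℤ)) : ℚ) : SqC ℚ) * cls (((n.natAbs : ℤ)) : ℚ) := by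
      rw [← cls_mul (by norm_num) (by exact_mod_cast h0)]
      congr 1
      conv_lhs => rw [h]
      push_cast
      ring
    have h2 := R5_neg_one hμ hB0 hB W hW fun p hp hp2 hpB => hW' p hp hp2 (Or.inl hpB)
    simp only [h1, map_mul, sym_mul_left, Finset.prod_mul_distrib]
    rw [h2, hnat, one_mul]

end Main

theorem prod_formula (μ : ℕ → SqC ℚ →* LG) (hμ : ∀ p : ℕ, p.Prime → p ≠ 2 → LamQ p (μ p))
    (B : ℕ) (hB0 : 0 < B) (hB : B % 8 = 1) (A : ℚ) (hA : A ≠ 0) (W : Finset ℕ)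
    (hW : ∀ p ∈ W, p.Prime ∧ p ≠ 2)
    (hW' : ∀ p : ℕ, p.Prime → p ≠ 2 → (p ∣ B ∨ padicValRat p A ≠ 0) → p ∈ W) :
    ∏ p ∈ W, sym (cm p) (μ p (cls A)) (μ p (cls (B : ℚ))) = 1 := by
  have hnum : A.num ≠ 0 := Rat.num_ne_zero.2 hA
  have hden : A.den ≠ 0 := A.den_nz
  have h0 : A.num * (A.den : ℤ) ≠ 0 := mul_ne_zero hnum (by exact_mod_cast hden)
  have h1 : cls A = (cls ((A.num * (A.den : ℤ) : ℤ) : ℚ) : SqC ℚ) := by
    rw [cls_eq_cls_iff hA (by exact_mod_cast h0)]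
    refine ⟨A.num, ?_⟩
    have h2 : A * (A.den : ℚ) = A.num := Rat.mul_den_eq_num A
    push_cast
    calc A * ((A.num : ℚ) * (A.den : ℚ)) = (A * A.den) * A.num := by ring
      _ = _ := by rw [h2]
  rw [h1]
  refine R5_int hμ hB0 hB _ h0 W hW fun p hp hp2 h => hW' p hp hp2 (h.imp id fun h => ?_)
  have := Fact.mk hp
  rw [padicValRat_def]
  rcases (Nat.prime_iff_prime_int.1 hp).dvd_or_dvd h with h | h
  · have h3 : ¬ p ∣ A.den := by
      intro h4
      have h5 : p ∣ A.num.natAbs := Int.natCast_dvd.1 h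
      have h6 := Nat.dvd_gcd h5 h4
      rw [A.reduced] at h6
      exact hp.one_lt.ne' (Nat.dvd_one.1 h6)
    rw [padicValNat.eq_zero_of_not_dvd h3]
    have h7 : 1 ≤ padicValInt p A.num := by
      rw [padicValInt]
      exact one_le_padicValNat_of_dvd (Int.natAbs_ne_zero.2 hnum) (Int.natCast_dvd.1 h)
    omega
  · have h4 : p ∣ A.den := Int.natCast_dvd_natCast.1 h
    have h3 : ¬ p ∣ A.num.natAbs := by
      intro h5
      have h6 := Nat.dvd_gcd h5 h4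
      rw [A.reduced] at h6
      exact hp.one_lt.ne' (Nat.dvd_one.1 h6)
    have h7 : 1 ≤ padicValNat p A.den := one_le_padicValNat_of_dvd hden h4
    rw [padicValInt, padicValNat.eq_zero_of_not_dvd h3]
    omega

end H16B
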