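import Pool.Agent.Lib.H16A.V0
import Pool.Agent.Lib.H16B.R1

/-!
# R6 (L): the symbol is trivial at the primes where both classes are unramified

`r ∤ 2 disc` a prime, `v = v_r` (`padicValRat r`), `D`, `D'` not divisible by `r²`, `y² = f_D(x)`, `f_D(x) = x³ + a D x² + b D² x + c D³`
(`= D³ f(x/D)`), `y ≠ 0`, the same for `x', y', D'`; if `r ∣ D` then `v(x) ≤ 0` (and `x ≠ 0`), the same for `D'`.
`z = D' x - D x' ≠ 0`, `A = D' z`, `B = D D'`.  CLAIM `sym (cm r) (μ A) (μ B) = 1`.  `~` = the same class modulo squares of `ℚ_r`, i.e. the same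
value of `μ`; `t ~ t'` if `t/t' ≡ 1 mod r` (`v(t/t' - 1) > 0`): lemma from `LamQ`.
GENERAL FACTS.  If `v(x) < 0` or (`v(x) ≤ 0` and `r ∣ D`) then `v(x)` is even and `x ~ 1`: `y² = x³ (1 + a D/x + b (D/x)² + c (D/x)³)`, the bracket is
`≡ 1 mod r`, so `x³ ~ 1`.
CASE 1: `r ∤ D D'`.  `sym = 1` if `v(A) = v(z)` is even (both parities trivial) or if `D D' ~ 1`.
 (a) `v(x) < 0`, `v(x') < 0`: `x ~ x' ~ 1`, both of even order.  If `v(x) ≠ v(x')` then `v(z)` is the minimum, even.  If `v(x) = v(x') = -2k`: if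
   `v(z) = -2k` it is even; otherwise `D' x / (D x') ≡ 1 mod r`, so `D' x ~ D x'`, `D' ~ D`.
 (b) exactly one of them is negative: `v(z)` is this one, even.
 (c) both `≥ 0`: `u = x/D`, `u' = x'/D'`, `v(u), v(u') ≥ 0`, `z = D D' (u - u')`, `D³ f(u) = y²`, so `f(u) ~ D`, `f(u') ~ D'`, even orders.  Suppose
   `v(z) = v(u - u')` is odd, so `≥ 1`.  `f(u) - f(u') = (u - u') h`, `h ≡ f'(u) mod r`.  If `v(f(u)) = 0` then `f(u') ≡ f(u)`, so
   `D ~ D'`.  If `v(f(u)) > 0` then `r ∤ f'(u)` (a common root of `f` and `f'` modulo `r` would give `r ∣ disc`: `disc` is a combination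
   `f F₁ + f' F₂` with `F₁, F₂ ∈ ℤ[X]`, a polynomial identity, e.g. `disc = (…) f(u) + (…) f'(u)`), so `v(h) = 0` and
   `v(f(u) - f(u'))` is odd, while `v(f(u))`, `v(f(u'))` are even: they are equal and smaller than the order of the difference, so
   `f(u)/f(u') ≡ 1 mod r` and `D ~ D'`.
CASE 2: `r ∥ D`, `r ∤ D'`.  `x ~ 1`, `v(x) = -2k`, `k ≥ 0`.  If `v(x') ≥ 0` or `v(x') = -2k'` with `k' ≤ k`: `v(D x') > v(D' x) = -2k`, so `z ~ D' x ~ D'`, `A ~ 1`.
   If `v(x') = -2k'`, `k' > k`: `v(D x') = 1 - 2k' < -2k`, `x' ~ 1`, `z ~ - D x' ~ - D`, `A ~ - D D' = - B`, `sym (B, -B) = 1` (`sym_neg`,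
   `μ (cls (-1)) = (1, cm r)`).
CASE 3: `r ∤ D`, `r ∥ D'`: symmetric (exchange the two points: `z` changes sign; `sym(D'z, DD') = sym(-Dz, DD')` as
   `sym(-D D', D D') = 1`).
CASE 4: `r ∥ D`, `r ∥ D'`, `D = r d`, `D' = r d'`: `x ~ x' ~ 1`, orders `-2k`, `-2k'`; `B = r² d d' ~ d d'`, `A = D' z = r² d' (d' x - d x') ~ d' (d' x - d x')`.
   If `k ≠ k'` then `v(d'x - d x')` is even and `sym = 1`.  If `k = k'`: either `v(d' x - d x') = -2k` even, or `d' x/(d x') ≡ 1` and
   `d ~ d'`, `B ~ 1`.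
-/

open Polynomial IsDedekindDomain NumberField H16A

namespace H16B

section R6

/-- order at least `n` -/
def r6_ge (r : ℕ) (n : ℤ) (x : ℚ) : Prop := x = 0 ∨ n ≤ padicValRat r x

variable {r : ℕ}

theorem r6_ge_val (r : ℕ) (x : ℚ) : r6_ge r (padicValRat r x) x := Or.inr le_rfl

theorem r6_mono {n m : ℤ} (h : n ≤ m) {x : ℚ} (hx : r6_ge r m x) : r6_ge r n x :=
  hx.imp id (fun h' => h.trans h')

theorem r6_neg {n : ℤ} {x : ℚ} (hx : r6_ge r n x) : r6_ge r n (-x) := by
  rcases hx with rfl | hx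
  · left; simp
  · right; rwa [padicValRat.neg]

theorem r6_neg_iff {n : ℤ} {x : ℚ} : r6_ge r n (-x) ↔ r6_ge r n x :=
  ⟨fun h => by simpa using r6_neg h, r6_neg⟩

variable [Fact r.Prime]

theorem r6_add {n : ℤ} {x y : ℚ} (hx : r6_ge r n x) (hy : r6_ge r n y) : r6_ge r n (x + y) := by
  rcases hx with rfl | hx
  · rwa [zero_add]
  rcases hy with rfl | hy
  · rw [add_zero]; exact Or.inr hx
  by_cases h : x + y = 0
  · exact Or.inl h
  · exact Or.inr ((le_min hx hy).trans (padicValRat.min_le_padicValRat_add h))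

theorem r6_sub {n : ℤ} {x y : ℚ} (hx : r6_ge r n x) (hy : r6_ge r n y) : r6_ge r n (x - y) := by
  rw [sub_eq_add_neg]
  exact r6_add hx (r6_neg hy)

theorem r6_mul {n m : ℤ} {x y : ℚ} (hx : r6_ge r n x) (hy : r6_ge r m y) :
    r6_ge r (n + m) (x * y) := by
  rcases hx with rfl | hx
  · left; simp
  rcases hy with rfl | hy
  · left; simp
  by_cases h : x = 0
  · left; simp [h]
  by_cases h' : y = 0
  · left; simp [h']
  right
  rw [padicValRat.mul h h']
  exact add_le_add hx hy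

theorem r6_int (k : ℤ) : r6_ge r 0 (k : ℚ) := by
  right
  rw [padicValRat.of_int]
  positivity

theorem r6_int_mul {n : ℤ} (k : ℤ) {x : ℚ} (hx : r6_ge r n x) : r6_ge r n (k * x) := by
  have h := r6_mul (r6_int (r := r) k) hx
  rwa [zero_add] at h

/-- `y` dominates -/
theorem r6_near {x y : ℚ} (hy : y ≠ 0) (hx : r6_ge r (padicValRat r y + 1) x) :
    y + x ≠ 0 ∧ padicValRat r (y + x) = padicValRat r y := by
  rcases hx with rfl | hx
  · rw [add_zero]; exact ⟨hy, rfl⟩
  · by_cases h0 : x = 0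
    · rw [h0, add_zero]; exact ⟨hy, rfl⟩
    have h1 : y + x ≠ 0 := by
      intro h
      have h2 : x = -y := by linarith
      rw [h2, padicValRat.neg] at hx
      omega
    exact ⟨h1, padicValRat.add_eq_of_lt h1 hy h0 (by omega)⟩

theorem r6_unit_val {k : ℤ} (h : ¬ (r : ℤ) ∣ k) : padicValRat r (k : ℚ) = 0 := by
  rw [padicValRat.of_int, padicValInt.eq_zero_of_not_dvd h]
  rfl

theorem r6_dvd_val {k : ℤ} (h0 : k ≠ 0) (h : (r : ℤ) ∣ k) : 1 ≤ padicValRat r (k : ℚ) := by
  rw [padicValRat.of_int]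
  by_contra hc
  have h1 : padicValInt r k = 0 := by omega
  rw [padicValInt.eq_zero_iff] at h1
  rcases h1 with h1 | h1 | h1
  · exact (Fact.out : r.Prime).one_lt.ne' h1
  · exact h0 h1
  · exact h1 h

theorem r6_val_zero_iff {k : ℤ} (h0 : k ≠ 0) : padicValRat r (k : ℚ) = 0 ↔ ¬ (r : ℤ) ∣ k := by
  refine ⟨fun h h' => ?_, r6_unit_val⟩
  have := r6_dvd_val h0 h'
  omega

variable {μ : SqC ℚ →* LG} (hμ : LamQ r μ)

include hμ

theorem r6_par_even {q : ℚ} (hq : q ≠ 0) : (μ (cls q)).1 = 1 ↔ Even (padicValRat r q) := by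
  rw [hμ.par q hq]
  constructor
  · intro h
    have h1 : ((padicValRat r q : ℤ) : ZMod 2) = 0 := h
    have h2 := (ZMod.intCast_zmod_eq_zero_iff_dvd (padicValRat r q) 2).1 h1
    exact even_iff_two_dvd.2 h2
  · intro h
    have h2 : ((2 : ℕ) : ℤ) ∣ padicValRat r q := even_iff_two_dvd.1 h
    have h1 := (ZMod.intCast_zmod_eq_zero_iff_dvd (padicValRat r q) 2).2 h2
    rw [h1]
    rfl

theorem r6_one {q : ℚ} (hq : q ≠ 0) (h : r6_ge r 1 (q - 1)) : μ (cls q) = 1 := by
  have hv : padicValRat r q = 0 := by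
    have h1 := r6_near (r := r) (x := q - 1) (y := 1) one_ne_zero
      (by rw [padicValRat.one]; exact h)
    have h2 := h1.2
    rw [padicValRat.one] at h2
    rwa [add_sub_cancel] at h2
  have hnum : q.num ≠ 0 := Rat.num_ne_zero.2 hq
  have hden : (q.den : ℤ) ≠ 0 := by exact_mod_cast q.den_ne_zero
  have hdenQ : (q.den : ℚ) ≠ 0 := by exact_mod_cast q.den_ne_zero
  have hqe : q * q.den = q.num := Rat.mul_den_eq_num q
  have hval : padicValRat r (q.num : ℚ) = padicValRat r ((q.den : ℤ) : ℚ) := by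
    have h1 := padicValRat.mul (p := r) hq hdenQ
    rw [hqe, hv, zero_add] at h1
    rw [h1, Int.cast_natCast]
  have hco : IsCoprime q.num (q.den : ℤ) := by
    rw [Int.isCoprime_iff_gcd_eq_one]
    exact q.reduced
  have hnd : ¬ (r : ℤ) ∣ q.num := by
    intro h1
    have h2 := r6_dvd_val hnum h1
    rw [hval] at h2
    have h3 : (r : ℤ) ∣ (q.den : ℤ) := by
      by_contra h3
      rw [r6_unit_val h3] at h2
      omega
    have h4 := hco.isUnit_of_dvd' h1 h3
    have h5 := Int.isUnit_iff.1 h4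
    have h6 := (Fact.out : r.Prime).two_le
    omega
  have hdd : ¬ (r : ℤ) ∣ (q.den : ℤ) := by
    rw [← r6_val_zero_iff hden, ← hval, r6_unit_val hnd]
  have hcls : cls q = cls (((q.num * q.den : ℤ)) : ℚ) := by
    rw [cls_eq_cls_iff hq (by exact_mod_cast mul_ne_zero hnum hden)]
    refine ⟨(q.num : ℚ), ?_⟩
    push_cast
    rw [← hqe]
    ring
  have hnd2 : ¬ (r : ℤ) ∣ q.num * q.den := by
    intro h1
    rcases (Nat.prime_iff_prime_int.1 (Fact.out : r.Prime)).dvd_or_dvd h1 with h2 | h2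
    · exact hnd h2
    · exact hdd h2
  have hcong : (r : ℤ) ∣ q.num - q.den := by
    rcases eq_or_ne q 1 with h1 | h1
    · rw [h1]; simp
    have h2 : (q.num : ℚ) - q.den = (q - 1) * q.den := by rw [← hqe]; ring
    have h3 : q - 1 ≠ 0 := sub_ne_zero.2 h1
    have h4 : 1 ≤ padicValRat r (q - 1) := by
      rcases h with h | h
      · exact absurd h h3
      · exact h
    have h5 : q.num - (q.den : ℤ) ≠ 0 := by
      intro h6
      have h7 : (q.num : ℚ) - q.den = 0 := by exact_mod_cast congrArg (Int.cast : ℤ → ℚ) h6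
      rw [h2] at h7
      exact (mul_ne_zero h3 hdenQ) h7
    by_contra hc
    have h6 := r6_unit_val (r := r) hc
    push_cast at h6
    rw [h2, padicValRat.mul h3 hdenQ] at h6
    have h7 := r6_unit_val (r := r) hdd
    push_cast at h7
    rw [h7] at h6
    omega
  have hsq : IsSquare (((q.num * q.den : ℤ)) : ZMod r) := by
    refine ⟨((q.den : ℤ) : ZMod r), ?_⟩
    have h1 : ((q.num : ℤ) : ZMod r) = ((q.den : ℤ) : ZMod r) := by
      have h2 := (ZMod.intCast_zmod_eq_zero_iff_dvd (q.num - q.den) r).2 hcong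
      rw [Int.cast_sub, sub_eq_zero] at h2
      exact h2
    rw [Int.cast_mul, h1]
  refine Prod.ext ?_ ?_
  · rw [Prod.fst_one, r6_par_even hμ hq, hv]
    exact Even.zero
  · rw [Prod.snd_one, hcls]
    exact (hμ.unit _ hnd2).2 hsq

theorem r6_mul_self (q : ℚ) : μ (cls q) * μ (cls q) = 1 := by
  rw [← map_mul, sqC_mul_self, map_one]

theorem r6_near_cls {x y : ℚ} (hy : y ≠ 0) (hx : r6_ge r (padicValRat r y + 1) x) :
    μ (cls (y + x)) = μ (cls y) := by
  obtain ⟨h1, h2⟩ := r6_near hy hx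
  have h3 : μ (cls ((y + x) / y)) = 1 := by
    refine r6_one hμ (div_ne_zero h1 hy) ?_
    have h4 : (y + x) / y - 1 = x / y := by field_simp; ring
    rw [h4]
    rcases hx with rfl | hx
    · left; simp
    · by_cases h0 : x = 0
      · left; simp [h0]
      right
      rw [padicValRat.div h0 hy]
      omega
  have h5 : y + x = ((y + x) / y) * y := by field_simp
  rw [h5, cls_mul (div_ne_zero h1 hy) hy, map_mul, h3, one_mul]

theorem r6_mulQ {x y : ℚ} (hx : x ≠ 0) (hy : y ≠ 0) : μ (cls (x * y)) = μ (cls x) * μ (cls y) := by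
  rw [cls_mul hx hy, map_mul]

theorem r6_cube {x : ℚ} (hx : x ≠ 0) : μ (cls (x ^ 3)) = μ (cls x) := by
  have h : x ^ 3 = x * x * x := by ring
  rw [h, r6_mulQ hμ (mul_ne_zero hx hx) hx, r6_mulQ hμ hx hx, r6_mul_self hμ, one_mul]

theorem r6_sq {x : ℚ} (hx : x ≠ 0) : μ (cls (x ^ 2)) = 1 := by
  rw [pow_two, r6_mulQ hμ hx hx, r6_mul_self hμ]

theorem r6_neg_one (hr2 : r ≠ 2) : μ (cls (-1 : ℚ)) = (1, cm r) := by
  have h0 : ¬ (r : ℤ) ∣ (-1 : ℤ) := by
    intro h
    have h1 := Int.isUnit_iff.1 (isUnit_of_dvd_unit h (by norm_num))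
    have h2 := (Fact.out : r.Prime).two_le
    omega
  have hu := hμ.unit (-1) h0
  have hp := hμ.par (-1) (by norm_num)
  rw [padicValRat.neg, padicValRat.one] at hp
  push_cast at hu
  refine Prod.ext ?_ ?_
  · rw [hp]; rfl
  · unfold cm
    have h3 : IsSquare (-1 : ZMod r) ↔ r % 4 ≠ 3 := ZMod.exists_sq_eq_neg_one_iff
    have hodd : r % 2 = 1 := (Fact.out : r.Prime).eq_two_or_odd.resolve_left hr2
    by_cases h4 : r % 4 = 1
    · rw [if_pos h4]
      exact hu.2 (h3.2 (by omega))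
    · rw [if_neg h4]
      have h5 : ¬ (μ (cls (-1 : ℚ))).2 = 1 := by
        intro h6
        exact h3.1 (hu.1 h6) (by omega)
      exact (Int.units_eq_one_or _).resolve_left h5

theorem r6_sym_neg (hr2 : r ≠ 2) {B : ℚ} (hB : B ≠ 0) :
    sym (cm r) (μ (cls (-B))) (μ (cls B)) = 1 := by
  have h : -B = B * (-1) := by ring
  rw [h, r6_mulQ hμ hB (by norm_num), r6_neg_one hμ hr2, sym_comm]
  exact sym_neg _ _

/-- points of the first type -/
theorem r6_type1 (E : Cub) {D : ℤ} {x y : ℚ} (hy : y ≠ 0)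
    (hxy : y ^ 2 = (E.twist D).val x) (hx0 : x ≠ 0)
    (hDx : r6_ge r (padicValRat r x + 1) (D : ℚ)) : μ (cls x) = 1 := by
  have hv : (E.twist D).val x = x ^ 3 + (((E.a : ℚ) * D * x ^ 2) + ((E.b : ℚ) * D ^ 2 * x) + (E.c : ℚ) * D ^ 3) := by
    simp only [Cub.val, Cub.twist]
    push_cast
    ring
  set n := padicValRat r x with hn
  have hX : r6_ge r n x := r6_ge_val r x
  have hD1 := r6_mono (by omega : n ≤ n + 1) hDx
  have h1 : r6_ge r (3 * n + 1) ((E.a : ℚ) * D * x ^ 2) := by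
    have h := r6_int_mul (r := r) E.a (r6_mul hDx (r6_mul hX hX))
    have e : (E.a : ℚ) * D * x ^ 2 = E.a * (D * (x * x)) := by ring
    rw [e]
    exact r6_mono (by omega) h
  have h2 : r6_ge r (3 * n + 1) ((E.b : ℚ) * D ^ 2 * x) := by
    have h := r6_int_mul (r := r) E.b (r6_mul hDx (r6_mul hD1 hX))
    have e : (E.b : ℚ) * D ^ 2 * x = E.b * (D * (D * x)) := by ring
    rw [e]
    exact r6_mono (by omega) h
  have h3 : r6_ge r (3 * n + 1) ((E.c : ℚ) * D ^ 3) := by
    have h := r6_int_mul (r := r) E.c (r6_mul hDx (r6_mul hD1 hD1))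
    have e : (E.c : ℚ) * D ^ 3 = E.c * (D * (D * D)) := by ring
    rw [e]
    exact r6_mono (by omega) h
  have h4 := r6_add (r6_add h1 h2) h3
  have h5 : padicValRat r (x ^ 3) = 3 * n := by
    rw [padicValRat.pow]
    push_cast
    rfl
  have h6 := r6_near_cls hμ (pow_ne_zero 3 hx0) (by rw [h5]; exact h4)
  rw [← hv, ← hxy, r6_sq hμ hy, r6_cube hμ hx0] at h6
  exact h6.symm

end R6


section R6b

variable {r : ℕ} [Fact r.Prime] {μ : SqC ℚ →* LG} (hμ : LamQ r μ)

include hμ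

theorem r6_dom (hr2 : r ≠ 2) {D D' x x' : ℚ} (hD : D ≠ 0) (hD' : D' ≠ 0) (hx : x ≠ 0)
    (hLx : μ (cls x) = 1) (h : r6_ge r (padicValRat r (D' * x) + 1) (D * x')) :
    sym (cm r) (μ (cls (D' * (D' * x - D * x')))) (μ (cls (D * D'))) = 1 := by
  have h0 : D' * x ≠ 0 := mul_ne_zero hD' hx
  obtain ⟨h1, h2⟩ := r6_near h0 (r6_neg h)
  have h3 := r6_near_cls hμ h0 (r6_neg h)
  rw [← sub_eq_add_neg] at h1 h3
  rw [r6_mulQ hμ hD' h1, h3, r6_mulQ hμ hD' hx, hLx, mul_one, r6_mul_self hμ, sym_one_left]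

theorem r6_dom' (hr2 : r ≠ 2) {D D' x x' : ℚ} (hD : D ≠ 0) (hD' : D' ≠ 0) (hx' : x' ≠ 0)
    (hLx' : μ (cls x') = 1) (h : r6_ge r (padicValRat r (D * x') + 1) (D' * x)) :
    sym (cm r) (μ (cls (D' * (D' * x - D * x')))) (μ (cls (D * D'))) = 1 := by
  have h0 : -(D * x') ≠ 0 := neg_ne_zero.2 (mul_ne_zero hD hx')
  have h' : r6_ge r (padicValRat r (-(D * x')) + 1) (D' * x) := by
    rw [padicValRat.neg]; exact h
  obtain ⟨h1, h2⟩ := r6_near h0 h'
  have h3 := r6_near_cls hμ h0 h'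
  have e : -(D * x') + D' * x = D' * x - D * x' := by ring
  rw [e] at h1 h3
  have e2 : -(D * x') = (-D) * x' := by ring
  have hDn : -D ≠ 0 := neg_ne_zero.2 hD
  rw [r6_mulQ hμ hD' h1, h3, e2, r6_mulQ hμ hDn hx', hLx', mul_one, ← r6_mulQ hμ hD' hDn]
  have e3 : D' * -D = -(D * D') := by ring
  rw [e3]
  exact r6_sym_neg hμ hr2 (mul_ne_zero hD hD')

theorem r6_II (hr2 : r ≠ 2) {D D' x x' : ℚ} (hD : D ≠ 0) (hD' : D' ≠ 0) (hx : x ≠ 0)
    (hx' : x' ≠ 0) (hLx : μ (cls x) = 1) (hLx' : μ (cls x') = 1) (hz : D' * x - D * x' ≠ 0) :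
    sym (cm r) (μ (cls (D' * (D' * x - D * x')))) (μ (cls (D * D'))) = 1 := by
  have h0 : D' * x ≠ 0 := mul_ne_zero hD' hx
  have h0' : D * x' ≠ 0 := mul_ne_zero hD hx'
  rcases lt_trichotomy (padicValRat r (D' * x)) (padicValRat r (D * x')) with h | h | h
  · exact r6_dom hμ hr2 hD hD' hx hLx (Or.inr (by omega))
  · by_cases h1 : padicValRat r (D' * x) + 1 ≤ padicValRat r (D' * x - D * x')
    · -- the classes of `D` and `D'` are the same
      have h2 : r6_ge r (padicValRat r (D' * x) + 1) (-(D' * x - D * x')) := r6_neg (Or.inr h1)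
      have h3 := r6_near_cls hμ h0 h2
      have e : D' * x + -(D' * x - D * x') = D * x' := by ring
      rw [e, r6_mulQ hμ hD hx', r6_mulQ hμ hD' hx, hLx, hLx', mul_one, mul_one] at h3
      have h4 : μ (cls (D * D')) = 1 := by
        rw [r6_mulQ hμ hD hD', h3, r6_mul_self hμ]
      rw [h4, sym_one_right]
    · have h2 : r6_ge r (padicValRat r (D' * x)) (D' * x - D * x') :=
        r6_sub (r6_ge_val r _) (by rw [h]; exact r6_ge_val r _)
      have h3 : padicValRat r (D' * x - D * x') = padicValRat r (D' * x) := by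
        rcases h2 with h2 | h2
        · exact absurd h2 hz
        · omega
      have ex : Even (padicValRat r x) := by
        rw [← r6_par_even hμ hx, hLx]; rfl
      have ex' : Even (padicValRat r x') := by
        rw [← r6_par_even hμ hx', hLx']; rfl
      rw [padicValRat.mul hD' hx] at h3 h
      rw [padicValRat.mul hD hx'] at h
      refine sym_unit _ _ _ ?_ ?_
      · rw [r6_par_even hμ (mul_ne_zero hD' hz), padicValRat.mul hD' hz, h3]
        obtain ⟨k, hk⟩ := ex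
        exact ⟨padicValRat r D' + k, by omega⟩
      · rw [r6_par_even hμ (mul_ne_zero hD hD'), padicValRat.mul hD hD']
        obtain ⟨k, hk⟩ := ex
        obtain ⟨k', hk'⟩ := ex'
        exact ⟨padicValRat r D' + k - k', by omega⟩
  · exact r6_dom' hμ hr2 hD hD' hx' hLx' (Or.inr (by omega))

theorem r6_FF (E : Cub) (hdisc : ¬ (r : ℤ) ∣ E.disc) {D D' : ℤ} (hrD : ¬ (r : ℤ) ∣ D)
    (hrD' : ¬ (r : ℤ) ∣ D') {x y x' y' : ℚ} (hy : y ≠ 0) (hy' : y' ≠ 0)
    (hxy : y ^ 2 = (E.twist D).val x) (hxy' : y' ^ 2 = (E.twist D').val x')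
    (hx : r6_ge r 0 x) (hx' : r6_ge r 0 x') (hz : (D' : ℚ) * x - D * x' ≠ 0) :
    sym (cm r) (μ (cls ((D' : ℚ) * ((D' : ℚ) * x - D * x')))) (μ (cls ((D : ℚ) * D'))) = 1 := by
  have hD0 : D ≠ 0 := by
    rintro rfl
    exact hrD (dvd_zero _)
  have hD0' : D' ≠ 0 := by
    rintro rfl
    exact hrD' (dvd_zero _)
  have hDQ : (D : ℚ) ≠ 0 := Int.cast_ne_zero.2 hD0
  have hDQ' : (D' : ℚ) ≠ 0 := Int.cast_ne_zero.2 hD0'
  have vD := r6_unit_val (r := r) hrD
  have vD' := r6_unit_val (r := r) hrD'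
  obtain ⟨u, hu⟩ : ∃ u : ℚ, u = x / D := ⟨_, rfl⟩
  obtain ⟨u', hu'⟩ : ∃ u' : ℚ, u' = x' / D' := ⟨_, rfl⟩
  have hxu : x = D * u := by rw [hu]; field_simp
  have hxu' : x' = D' * u' := by rw [hu']; field_simp
  have hdiv : ∀ (D : ℤ) (x : ℚ), D ≠ 0 → padicValRat r (D : ℚ) = 0 → r6_ge r 0 x →
      r6_ge r 0 (x / D) := by
    intro D x h0 h1 h2
    have hDQ : (D : ℚ) ≠ 0 := Int.cast_ne_zero.2 h0
    by_cases hx0 : x = 0
    · left; simp [hx0]
    rcases h2 with h2 | h2
    · exact absurd h2 hx0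
    right
    rw [padicValRat.div hx0 hDQ, h1]
    omega
  have gu : r6_ge r 0 u := by rw [hu]; exact hdiv D x hD0 vD hx
  have gu' : r6_ge r 0 u' := by rw [hu']; exact hdiv D' x' hD0' vD' hx'
  have hzu : (D' : ℚ) * x - D * x' = D * D' * (u - u') := by rw [hxu, hxu']; ring
  have huu : u - u' ≠ 0 := by
    intro h
    rw [hzu, h, mul_zero] at hz
    exact hz rfl
  have hBB : (D : ℚ) * D' ≠ 0 := mul_ne_zero hDQ hDQ'
  have vz : padicValRat r ((D' : ℚ) * x - D * x') = padicValRat r (u - u') := by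
    rw [hzu, padicValRat.mul hBB huu, padicValRat.mul hDQ hDQ', vD, vD']
    ring
  have vB : padicValRat r ((D : ℚ) * D') = 0 := by
    rw [padicValRat.mul hDQ hDQ', vD, vD', add_zero]
  by_cases hev : Even (padicValRat r (u - u'))
  · refine sym_unit _ _ _ ?_ ?_
    · rw [r6_par_even hμ (mul_ne_zero hDQ' hz), padicValRat.mul hDQ' hz, vD', vz, zero_add]
      exact hev
    · rw [r6_par_even hμ hBB, vB]
      exact Even.zero
  · -- the classes of `D`, `D'` are the same
    suffices hs : μ (cls (D : ℚ)) = μ (cls (D' : ℚ)) by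
      have h4 : μ (cls ((D : ℚ) * D')) = 1 := by
        rw [r6_mulQ hμ hDQ hDQ', hs, r6_mul_self hμ]
      rw [h4, sym_one_right]
    have hval : ∀ (D : ℤ) (u x y : ℚ), (D : ℚ) ≠ 0 → y ≠ 0 → x = D * u →
        y ^ 2 = (E.twist D).val x → (E.val u ≠ 0 ∧ μ (cls (E.val u)) = μ (cls (D : ℚ))) := by
      intro D u x y hD hy hxu hxy
      have h1 : y ^ 2 = (D : ℚ) ^ 3 * E.val u := by
        rw [hxy, hxu]
        simp only [Cub.val, Cub.twist]
        push_cast
        ring
      have h2 : E.val u ≠ 0 := by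
        intro h
        rw [h, mul_zero] at h1
        exact hy (pow_eq_zero_iff (two_ne_zero) |>.1 h1)
      refine ⟨h2, ?_⟩
      have h3 := r6_sq hμ hy
      rw [h1, r6_mulQ hμ (pow_ne_zero 3 hD) h2, r6_cube hμ hD] at h3
      have h4 := congrArg (fun t => μ (cls (D : ℚ)) * t) h3
      simp only [mul_one] at h4
      rw [← mul_assoc, r6_mul_self hμ, one_mul] at h4
      exact h4
    obtain ⟨f1, f2⟩ := hval D u x y hDQ hy hxu hxy
    obtain ⟨f1', f2'⟩ := hval D' u' x' y' hDQ' hy' hxu' hxy'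
    rw [← f2, ← f2']
    have e1 : Even (padicValRat r (E.val u)) := by
      rw [← r6_par_even hμ f1, f2, r6_par_even hμ hDQ, vD]
      exact Even.zero
    have e1' : Even (padicValRat r (E.val u')) := by
      rw [← r6_par_even hμ f1', f2', r6_par_even hμ hDQ', vD']
      exact Even.zero
    obtain ⟨n, hn⟩ : ∃ n : ℤ, n = padicValRat r (u - u') := ⟨_, rfl⟩
    rw [← hn] at hev
    have hn1 : 1 ≤ n := by
      have h1 := r6_sub gu gu'
      rcases h1 with h1 | h1
      · exact absurd h1 huu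
      · rw [← hn] at h1
        rcases h1.lt_or_eq with h2 | h2
        · omega
        · exfalso
          apply hev
          rw [← h2]
          exact Even.zero
    have gd : r6_ge r n (u - u') := by rw [hn]; exact r6_ge_val r _
    obtain ⟨h, hh⟩ : ∃ h : ℚ, h = u ^ 2 + u * u' + u' ^ 2 + E.a * (u + u') + E.b := ⟨_, rfl⟩
    have hf : E.val u' = E.val u + -((u - u') * h) := by
      rw [hh]
      simp only [Cub.val]
      ring
    have gh : r6_ge r 0 h := by
      rw [hh]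
      have k1 := r6_mul gu gu
      have k2 := r6_mul gu gu'
      have k3 := r6_mul gu' gu'
      have k4 := r6_int_mul (r := r) E.a (r6_add gu gu')
      have k5 := r6_int (r := r) E.b
      rw [pow_two, pow_two]
      exact r6_add (r6_add (r6_add (r6_add k1 k2) k3) k4) k5
    have gdh : r6_ge r n ((u - u') * h) := by
      have := r6_mul gd gh
      rwa [add_zero] at this
    have gfu : r6_ge r 0 (E.val u) := by
      have k1 := r6_mul gu (r6_mul gu gu)
      have k2 := r6_int_mul (r := r) E.a (r6_mul gu gu)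
      have k3 := r6_int_mul (r := r) E.b gu
      have k4 := r6_int (r := r) E.c
      have e : E.val u = u * (u * u) + E.a * (u * u) + E.b * u + E.c := by
        simp only [Cub.val]
        ring
      rw [e]
      exact r6_add (r6_add (r6_add k1 k2) k3) k4
    have vf0 : 0 ≤ padicValRat r (E.val u) := by
      rcases gfu with h1 | h1
      · exact absurd h1 f1
      · exact h1
    by_cases hlt : padicValRat r (E.val u) + 1 ≤ n
    · -- near
      rw [hf]
      exact (r6_near_cls hμ f1 (r6_neg (r6_mono hlt gdh))).symm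
    · exfalso
      have hne : n ≠ padicValRat r (E.val u) := by
        intro h1
        rw [h1] at hev
        exact hev e1
      have hlt' : n < padicValRat r (E.val u) := by omega
      -- `f'(u)` is a unit
      have hder : ¬ r6_ge r 1 (E.der u) := by
        intro hd
        have k : (E.disc : ℚ) = (((18 * E.b - 6 * E.a ^ 2 : ℤ) : ℚ) * u +
            ((-4 * E.a ^ 3 + 15 * E.a * E.b - 27 * E.c : ℤ) : ℚ)) * E.val u +
            (((2 * E.a ^ 2 - 6 * E.b : ℤ) : ℚ) * (u * u) +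
              ((2 * E.a ^ 3 - 7 * E.a * E.b + 9 * E.c : ℤ) : ℚ) * u +
              ((E.a ^ 2 * E.b - 4 * E.b ^ 2 + 3 * E.a * E.c : ℤ) : ℚ)) * E.der u := by
          simp only [Cub.disc, Cub.val, Cub.der]
          push_cast
          ring
        have k1 : r6_ge r 1 (E.disc : ℚ) := by
          rw [k]
          have g1 := r6_mul (r6_add (r6_int_mul (r := r) (18 * E.b - 6 * E.a ^ 2) gu)
            (r6_int (r := r) (-4 * E.a ^ 3 + 15 * E.a * E.b - 27 * E.c)))
            (r6_mono (by omega : (1 : ℤ) ≤ padicValRat r (E.val u)) (r6_ge_val r _))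
          have g2 := r6_mul (r6_add (r6_add (r6_int_mul (r := r) (2 * E.a ^ 2 - 6 * E.b) (r6_mul gu gu))
            (r6_mono (by norm_num) (r6_int_mul (r := r) (2 * E.a ^ 3 - 7 * E.a * E.b + 9 * E.c) gu)))
            (r6_int (r := r) (E.a ^ 2 * E.b - 4 * E.b ^ 2 + 3 * E.a * E.c))) hd
          rw [zero_add] at g1
          exact r6_add g1 (r6_mono (by norm_num) g2)
        rcases k1 with k1 | k1
        · have : E.disc = 0 := by exact_mod_cast k1
          exact hdisc (this ▸ dvd_zero _)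
        · rw [r6_unit_val hdisc] at k1
          omega
      have gdu : r6_ge r 0 (E.der u) := by
        have k1 := r6_int_mul (r := r) 3 (r6_mul gu gu)
        have k2 := r6_int_mul (r := r) (2 * E.a) gu
        have k3 := r6_int (r := r) E.b
        have e : E.der u = ((3 : ℤ) : ℚ) * (u * u) + ((2 * E.a : ℤ) : ℚ) * u + E.b := by
          simp only [Cub.der]
          push_cast
          ring
        rw [e]
        exact r6_add (r6_add k1 k2) k3
      have hd0 : E.der u ≠ 0 := fun h0 => hder (Or.inl h0)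
      have vd0 : padicValRat r (E.der u) = 0 := by
        rcases gdu with h1 | h1
        · exact absurd h1 hd0
        · by_contra h2
          exact hder (Or.inr (by omega))
      have hdiff : h = E.der u + -((u - u') * (u' + 2 * u + E.a)) := by
        rw [hh]
        simp only [Cub.der]
        ring
      have gs : r6_ge r 1 ((u - u') * (u' + 2 * u + E.a)) := by
        have k1 : r6_ge r 0 (u' + 2 * u + E.a) := by
          have := r6_add (r6_add gu' (r6_int_mul (r := r) 2 gu)) (r6_int (r := r) E.a)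
          push_cast at this
          exact this
        have := r6_mul gd k1
        exact r6_mono (by omega) this
      have hnear := r6_near (r := r) hd0 (x := -((u - u') * (u' + 2 * u + E.a)))
        (by rw [vd0, zero_add]; exact r6_neg gs)
      rw [← hdiff, vd0] at hnear
      obtain ⟨h0, vh⟩ := hnear
      have vdh : padicValRat r ((u - u') * h) = n := by
        rw [padicValRat.mul huu h0, vh, ← hn, add_zero]
      have hdh0 : -((u - u') * h) ≠ 0 := neg_ne_zero.2 (mul_ne_zero huu h0)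
      have hn2 := r6_near (r := r) hdh0 (x := E.val u)
        (by rw [padicValRat.neg, vdh]; exact r6_mono (by omega) (r6_ge_val r _))
      have e : -((u - u') * h) + E.val u = E.val u' := by rw [hf]; ring
      rw [e, padicValRat.neg, vdh] at hn2
      rw [hn2.2] at e1'
      exact hev e1'

end R6b


theorem loc_triv (E : Cub) {r : ℕ} (hr : r.Prime) (hgood : ¬ (r : ℤ) ∣ 2 * E.disc)
    {μ : SqC ℚ →* LG} (hμ : LamQ r μ) {D D' : ℤ} (hD : ¬ (r : ℤ) ^ 2 ∣ D)
    (hD' : ¬ (r : ℤ) ^ 2 ∣ D') {x y x' y' : ℚ} (hy : y ≠ 0) (hy' : y' ≠ 0)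
    (hxy : y ^ 2 = (E.twist D).val x) (hxy' : y' ^ 2 = (E.twist D').val x')
    (hx : (r : ℤ) ∣ D → x ≠ 0 ∧ padicValRat r x ≤ 0)
    (hx' : (r : ℤ) ∣ D' → x' ≠ 0 ∧ padicValRat r x' ≤ 0)
    (hz : (D' : ℚ) * x - D * x' ≠ 0) :
    sym (cm r) (μ (cls ((D' : ℚ) * ((D' : ℚ) * x - D * x')))) (μ (cls ((D : ℚ) * D'))) = 1 := by
  have : Fact r.Prime := ⟨hr⟩
  have hr2 : r ≠ 2 := by
    rintro rfl
    exact hgood (Dvd.intro _ rfl)
  have hdisc : ¬ (r : ℤ) ∣ E.disc := fun h => hgood (h.mul_left 2)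
  have hD0 : D ≠ 0 := by
    rintro rfl
    exact hD (dvd_zero _)
  have hD0' : D' ≠ 0 := by
    rintro rfl
    exact hD' (dvd_zero _)
  have hDQ : (D : ℚ) ≠ 0 := Int.cast_ne_zero.2 hD0
  have hDQ' : (D' : ℚ) ≠ 0 := Int.cast_ne_zero.2 hD0'
  -- the two types
  have type : ∀ (D : ℤ) (x : ℚ), D ≠ 0 → ((r : ℤ) ∣ D → x ≠ 0 ∧ padicValRat r x ≤ 0) →
      (x ≠ 0 ∧ r6_ge r (padicValRat r x + 1) (D : ℚ) ∧ padicValRat r x ≤ 0) ∨
      (¬ (r : ℤ) ∣ D ∧ r6_ge r 0 x) := by
    intro D x hD0 hx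
    by_cases h : (r : ℤ) ∣ D
    · left
      obtain ⟨h1, h2⟩ := hx h
      refine ⟨h1, Or.inr ?_, h2⟩
      have := r6_dvd_val hD0 h
      omega
    · by_cases h0 : r6_ge r 0 x
      · exact Or.inr ⟨h, h0⟩
      · left
        unfold r6_ge at h0
        push Not at h0
        refine ⟨h0.1, Or.inr ?_, h0.2.le⟩
        rw [r6_unit_val h]
        omega
  have hB : (D : ℚ) * D' ≠ 0 := mul_ne_zero hDQ hDQ'
  rcases type D x hD0 hx with ⟨hx0, hDx, hxn⟩ | ⟨hrD, hxn⟩
  · have hLx := r6_type1 hμ E hy hxy hx0 hDx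
    rcases type D' x' hD0' hx' with ⟨hx0', hDx', hxn'⟩ | ⟨hrD', hxn'⟩
    · have hLx' := r6_type1 hμ E hy' hxy' hx0' hDx'
      exact r6_II hμ hr2 hDQ hDQ' hx0 hx0' hLx hLx' hz
    · refine r6_dom hμ hr2 hDQ hDQ' hx0 hLx ?_
      have h1 : padicValRat r ((D' : ℚ) * x) = padicValRat r x := by
        rw [padicValRat.mul hDQ' hx0, r6_unit_val hrD', zero_add]
      rw [h1]
      exact r6_mono (by omega) (r6_mul hDx hxn')
  · rcases type D' x' hD0' hx' with ⟨hx0', hDx', hxn'⟩ | ⟨hrD', hxn'⟩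
    · have hLx' := r6_type1 hμ E hy' hxy' hx0' hDx'
      refine r6_dom' hμ hr2 hDQ hDQ' hx0' hLx' ?_
      have h1 : padicValRat r ((D : ℚ) * x') = padicValRat r x' := by
        rw [padicValRat.mul hDQ hx0', r6_unit_val hrD, zero_add]
      rw [h1]
      exact r6_mono (by omega) (r6_mul hDx' hxn)
    · exact r6_FF hμ E hdisc hrD hrD' hy hy' hxy hxy' hxn hxn' hz

end H16B
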