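import Pool.Agent.Lib.H16A.U1

/-!
# R7A (M): primes not dividing `2 disc` are unramified in the splitting field

`w` above `r`, `r ∤ 2 disc`.  An element `σ` of the inertia group of `w` fixes every `e_i`: `σ e_i = e_j` and `σ e_i - e_i ∈ w`, but
`e_i - e_j ∉ w` for `i ≠ j` (`disc = (∏ (e_i - e_j))²`, `disc_eq`), so `j = i` (`perm_spec`), and `σ = 1` (`perm_injective`).  By
`Ideal.card_inertia_eq_ramificationIdxIn` (Mathlib, NumberTheory/RamificationInertia/Galois.lean) `e = 1`, i.e. `r ∉ w²`, and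
`ord w r = 1` (`v2_le_iff`, `ord_natCast_pos`).  `isGalois` is in N1.
-/

open Polynomial IsDedekindDomain NumberField H16A

namespace H16B

theorem R7A_disc {E : Cub} {F : Type} [Field F] [NumberField F] (S : Split E F) {r : ℕ}
    (hr : r.Prime) (hgood : ¬ (r : ℤ) ∣ 2 * E.disc)
    (w : HeightOneSpectrum (𝓞 F)) (hw : (r : 𝓞 F) ∈ w.asIdeal) (a : Fin 3 → 𝓞 F)
    (ha : ∀ i, (a i : F) = S.e i) (i j : Fin 3) (hij : i ≠ j) : a i - a j ∉ w.asIdeal := by
  have h1 := S.u1_diff_ord hr hgood hw i j hij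
  have h0 : a i - a j ≠ 0 := by
    intro h
    apply hij
    apply S.inj
    rw [← ha, ← ha, sub_eq_zero.1 h]
  intro hmem
  have h2 := (ord_int_pos_iff w h0).2 hmem
  have h3 : ((a i - a j : 𝓞 F) : F) = S.e i - S.e j := by
    rw [← ha, ← ha]
    exact map_sub (algebraMap (𝓞 F) F) _ _
  rw [h3, h1] at h2
  exact lt_irrefl _ h2

theorem R7A_inertia {E : Cub} {F : Type} [Field F] [NumberField F] (S : Split E F) {r : ℕ}
    (hr : r.Prime) (hgood : ¬ (r : ℤ) ∣ 2 * E.disc)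
    (w : HeightOneSpectrum (𝓞 F)) (hw : (r : 𝓞 F) ∈ w.asIdeal) :
    w.asIdeal.inertia (F ≃ₐ[ℚ] F) = ⊥ := by
  choose a ha using S.e_integral
  rw [eq_bot_iff]
  intro σ hσ
  rw [Subgroup.mem_bot]
  apply S.perm_injective
  rw [S.perm_one]
  ext1 i
  rw [Equiv.Perm.one_apply]
  by_contra hne
  have h1 : σ • a i - a i ∈ w.asIdeal := hσ (a i)
  have h2 : σ • a i = a (S.perm σ i) := by
    apply RingOfIntegers.ext
    have h3 : ((σ • a i : 𝓞 F) : F) = σ (a i : F) := rfl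
    rw [h3, ha, ha]
    exact S.perm_spec σ i
  rw [h2] at h1
  exact R7A_disc S hr hgood w hw a ha _ _ hne h1

theorem ord_eq_one {E : Cub} {F : Type} [Field F] [NumberField F] (S : Split E F) {r : ℕ}
    (hr : r.Prime) (hgood : ¬ (r : ℤ) ∣ 2 * E.disc)
    (w : HeightOneSpectrum (𝓞 F)) (hw : (r : 𝓞 F) ∈ w.asIdeal) : ord w (r : F) = 1 := by
  classical
  have := S.isGalois
  have hI := R7A_inertia S hr hgood w hw
  have hover := v2_primesOver w hr hw
  have hlie : w.asIdeal.LiesOver (Ideal.span {(r : ℤ)}) := hover.2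
  have hmax : (Ideal.span {(r : ℤ)}).IsMaximal :=
    PrincipalIdealRing.isMaximal_of_irreducible (Nat.prime_iff_prime_int.1 hr).irreducible
  have hwm := w.isMaximal
  have h1 : Nat.card (w.asIdeal.inertia (F ≃ₐ[ℚ] F)) = 1 := by
    rw [hI]
    exact Nat.card_unique
  rw [Ideal.card_inertia_eq_ramificationIdxIn (G := F ≃ₐ[ℚ] F) (Ideal.span {(r : ℤ)}) w.asIdeal,
    Ideal.ramificationIdxIn_eq_ramificationIdx (Ideal.span {(r : ℤ)}) w.asIdeal (F ≃ₐ[ℚ] F)] at h1
  have hpos := ord_natCast_pos w hr hw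
  by_contra hne
  have h2 : (2 : ℕ) ≤ ord w (r : F) := by
    push_cast
    omega
  have hr0 : (r : 𝓞 F) ≠ 0 := Nat.cast_ne_zero.2 hr.ne_zero
  rw [← v2_coe_nat, v2_le_iff w hr0] at h2
  have hb : Ideal.span {(r : ℤ)} ≠ ⊥ := by
    rw [Ne, Ideal.span_singleton_eq_bot]
    exact_mod_cast hr.ne_zero
  rw [← Ideal.ramificationIdx'_eq_ramificationIdx (Ideal.span {(r : ℤ)}) w.asIdeal hb] at h1
  have hmap : ∀ n : ℕ, (r : 𝓞 F) ∈ w.asIdeal ^ n →
      Ideal.map (algebraMap ℤ (𝓞 F)) (Ideal.span {(r : ℤ)}) ≤ w.asIdeal ^ n := by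
    intro n hn
    rw [Ideal.map_span, Set.image_singleton, Ideal.span_singleton_le_iff_mem]
    simpa using hn
  have hm1 := hmap 1 (by rwa [pow_one])
  rw [pow_one] at hm1
  exact (Ideal.ramificationIdx'_ne_one_iff hm1).2 (hmap 2 h2) h1

end H16B
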