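import Pool.Agent.Lib.H16A.U4
import Pool.Agent.Lib.H16B.R7A

/-!
# R7B (M): ramification of points at the primes dividing `D`

`r` a prime, `r ∤ 2 disc`, `r ∥ D`, `P = (x, y) ∈ E^D(ℚ)`, `y ≠ 0`, and `par_w (β_D(P)_i) = 1` for all `w` above `r`, all `i`.
CLAIM `x ≠ 0` and `v_r(x) ≤ 0`.
Take one `w` above `r` (`u4_exists_above`); `ord w r = 1` (R7A), `ord w D = 1`, `ord w q = v_r(q)` for `q ∈ ℚ` (`ord_rat`).
Suppose `x = 0` or `v_r(x) ≥ 1`, `u = x/D`, `ord w u ≥ 0` (or `u = 0`); `y² = ∏ (x - D e_i)` (`u1_eqn`, `twist_poly`), all `x - D e_i ≠ 0` as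
`y ≠ 0`, so `3 + ∑ ord w (u - e_i) = 2 ord w y` and `∑ ord w (u - e_i)` is odd.  The `e_i - e_j` are units at `w` (`disc_eq`), so at most one of
the `ord w (u - e_i) ≥ 0` is positive, the two others are `0`, and `ord w (x - D e_j) = ord w D = 1` is odd for these `j`:
`par w (β_D(P)_j) ≠ 1` (`par_cls`; `β_D(P)_j = cls (x - D e_j)`, see U2 for the unfolding of `beta`), contradiction.
-/

open Polynomial IsDedekindDomain NumberField H16A

namespace H16B

theorem R7B_key {E : Cub} {F : Type} [Field F] [NumberField F] (S : Split E F) {r : ℕ}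
    (hr : r.Prime) (hgood : ¬ (r : ℤ) ∣ 2 * E.disc)
    {D : ℤ} (h1 : (r : ℤ) ∣ D) (h2 : ¬ (r : ℤ) ^ 2 ∣ D) (w : HeightOneSpectrum (𝓞 F))
    (hw : (r : 𝓞 F) ∈ w.asIdeal) {x y : F}
    (h : (WeierstrassCurve.Affine.baseChange (E.twist D).W F).Nonsingular x y)
    (hA : ∀ i, par w ((E.twist D).dl ((D : F) * S.e i)
      (WeierstrassCurve.Affine.Point.some x y h : (E.twist D).Pt F)) = 1) :
    x ≠ 0 ∧ ord w x ≤ 0 := by
  classical
  have hr1 := ord_eq_one S hr hgood w hw
  have hD1 : ord w (D : F) = 1 := by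
    obtain ⟨m, rfl⟩ := h1
    have hm : ¬ (r : ℤ) ∣ m := by
      rintro ⟨m', rfl⟩
      exact h2 ⟨m', by ring⟩
    have hm0 : (m : F) ≠ 0 := by
      intro h0
      apply hm
      rw [Int.cast_eq_zero] at h0
      rw [h0]
      exact dvd_zero _
    have hp0 : (r : F) ≠ 0 := Nat.cast_ne_zero.2 hr.ne_zero
    rw [Int.cast_mul, Int.cast_natCast, ord_mul w hp0 hm0, hr1, u1_ord_intCast w hr hw hm]
    rfl
  have hD : (D : F) ≠ 0 := by
    intro h
    rw [h, v1_ord_zero] at hD1
    exact absurd hD1 (by norm_num)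
  have he := S.u2_int w
  have hne : ∀ i j, i ≠ j → S.e i - S.e j ≠ 0 := fun i j hij =>
    sub_ne_zero.2 fun h => hij (S.inj h)
  have hsome : ∀ i, (E.twist D).dl ((D : F) * S.e i)
      (WeierstrassCurve.Affine.Point.some x y h : (E.twist D).Pt F) =
      if x = (D : F) * S.e i then cls ((E.twist D).der ((D : F) * S.e i))
      else cls (x - (D : F) * S.e i) := fun i => Cub.h1_dl_some _ _ _ _ _
  by_contra hcon
  obtain ⟨x', hx'⟩ : ∃ x', x' = x / (D : F) := ⟨_, rfl⟩
  have hxx : x = (D : F) * x' := by rw [hx']; field_simp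
  have hx'0 : 0 ≤ ord w x' := by
    by_cases hx0 : x = 0
    · rw [hx', hx0, zero_div, v1_ord_zero]
    · have hx : 0 < ord w x := by
        by_contra hcon'
        exact hcon ⟨hx0, not_lt.1 hcon'⟩
      rw [hx', ord_div w hx0 hD, hD1]
      omega
  have hone : ∃ j, x' - S.e j ≠ 0 ∧ ord w (x' - S.e j) = 0 := by
    by_contra hall
    push Not at hall
    have hall' : ∀ j, x' - S.e j = 0 ∨ 0 < ord w (x' - S.e j) := by
      intro j
      by_cases h0 : x' - S.e j = 0
      · exact Or.inl h0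
      · exact Or.inr (lt_of_le_of_ne (u1_sub_nonneg w hx'0 (he j)) (Ne.symm (hall j h0)))
    have h01 := S.u1_diff_ord hr hgood hw 1 0 (by decide)
    have hn := hne 1 0 (by decide)
    have e1 : S.e 1 - S.e 0 = (x' - S.e 0) + -(x' - S.e 1) := by ring
    rcases hall' 0 with h0 | h0
    · rcases hall' 1 with h3 | h3
      · rw [e1, h0, h3, neg_zero, add_zero] at hn
        exact hn rfl
      · rw [e1, h0, zero_add, ord_neg] at h01
        omega
    · rcases hall' 1 with h3 | h3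
      · rw [e1, h3, neg_zero, add_zero] at h01
        omega
      · have a0 : x' - S.e 0 ≠ 0 := by
          intro h4
          rw [h4, v1_ord_zero] at h0
          exact lt_irrefl _ h0
        have a1 : x' - S.e 1 ≠ 0 := by
          intro h4
          rw [h4, v1_ord_zero] at h3
          exact lt_irrefl _ h3
        rw [e1] at hn
        have h5 := le_ord_add w hn a0 (neg_ne_zero.2 a1)
        rw [← e1, h01, ord_neg] at h5
        rcases min_le_iff.1 h5 with h6 | h6 <;> omega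
  obtain ⟨j, hj0, hj⟩ := hone
  have e2 : x - (D : F) * S.e j = (D : F) * (x' - S.e j) := by
    rw [hxx]
    ring
  have n2 : x - (D : F) * S.e j ≠ 0 := by
    rw [e2]
    exact mul_ne_zero hD hj0
  have h3 := hA j
  rw [hsome j, if_neg (fun h0 => n2 (sub_eq_zero.2 h0)), par_cls_eq_one_iff w n2, e2,
    ord_mul w hD hj0, hD1, hj] at h3
  exact absurd h3 (by decide)

theorem val_le_zero {E : Cub} {F : Type} [Field F] [NumberField F] (S : Split E F) {r : ℕ}
    (hr : r.Prime) (hgood : ¬ (r : ℤ) ∣ 2 * E.disc)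
    {D : ℤ} (h1 : (r : ℤ) ∣ D) (h2 : ¬ (r : ℤ) ^ 2 ∣ D) {x y : ℚ}
    (h : (WeierstrassCurve.Affine.baseChange (E.twist D).W ℚ).Nonsingular x y) (hy : y ≠ 0)
    (hpar : ∀ w : HeightOneSpectrum (𝓞 F), (r : 𝓞 F) ∈ w.asIdeal →
      ∀ i, par w (S.beta D (WeierstrassCurve.Affine.Point.some x y h) i) = 1) :
    x ≠ 0 ∧ padicValRat r x ≤ 0 := by
  classical
  obtain ⟨w, hw⟩ := u4_exists_above F hr
  have hA := hpar w hw
  unfold Split.beta at hA
  unfold Cub.ptMap at hA
  have hmap : ∀ (inst1 : DecidableEq ℚ) (inst2 : DecidableEq F), ∃ h' :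
      (WeierstrassCurve.Affine.baseChange (E.twist D).W F).Nonsingular
        (algebraMap ℚ F x) (algebraMap ℚ F y),
      WeierstrassCurve.Affine.Point.map (W' := (E.twist D).W) (algebraMap ℚ F).toIntAlgHom
        (WeierstrassCurve.Affine.Point.some x y h) =
        WeierstrassCurve.Affine.Point.some (algebraMap ℚ F x) (algebraMap ℚ F y) h' := by
    intro inst1 inst2
    rw [WeierstrassCurve.Affine.Point.map_some]
    exact ⟨_, rfl⟩
  obtain ⟨h', hP⟩ := hmap _ _
  rw [hP] at hA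
  obtain ⟨hx0, hx⟩ := R7B_key S hr hgood h1 h2 w hw h' hA
  have hx0' : x ≠ 0 := by
    rintro rfl
    exact hx0 (map_zero _)
  refine ⟨hx0', ?_⟩
  have h5 := ord_rat w hr hw x
  rw [ord_eq_one S hr hgood w hw, mul_one] at h5
  have h6 : ((x : ℚ) : F) = algebraMap ℚ F x := (eq_ratCast (algebraMap ℚ F) x).symm
  rw [h6] at h5
  rw [← h5]
  exact hx

end H16B
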