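import Pool.Agent.Lib.H16A.W2
import Pool.Agent.Lib.H16B.R3

/-!
# R8 (M): the local class of a point at `p ∥ D`

`SplP p w`, `LamP p w lam`, `p ∥ D`, `b ∈ G_D`.  By `mem_G_iff` `b = β_D(P)`, by `beta_loc` (W2) and `beta_prod`:
`lam3 lam b = 1` or `lam3 lam b = vv (gg S lam) s i`, `s = (lam (cls D)).2`: for `j ≠ i` the component is
`lam (cls (D (e_i - e_j))) = lam (cls D) lam (cls (e_i - e_j)) = (1, s) (0, g i j)` (`ord w D = 1`, `ord w (e_i - e_j) = 0`: `p ∤ disc`), and
the component `i` is the product of the two others.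
`gg_symm`: `e_j - e_i = - (e_i - e_j)` and `lamP_neg_one`.
-/

open Polynomial IsDedekindDomain NumberField H16A

namespace H16B

variable {E : Cub} {F : Type} [Field F] [NumberField F]

theorem R8_ne_two {S : Split E F} {p : ℕ} {w : HeightOneSpectrum (𝓞 F)} (hw : S.SplP p w) :
    p ≠ 2 := by
  rintro rfl
  exact hw.good (Dvd.intro _ rfl)

theorem R8_ne (S : Split E F) (i j : Fin 3) (hij : i ≠ j) : S.e i - S.e j ≠ 0 :=
  sub_ne_zero.2 fun h => hij (S.inj h)

theorem gg_symm (S : Split E F) {p : ℕ} {w : HeightOneSpectrum (𝓞 F)} (hw : S.SplP p w)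
    {lam : SqC F →* LG} (hl : LamP p w lam) (i j : Fin 3) (hij : i ≠ j) :
    gg S lam j i = cm p * gg S lam i j := by
  unfold gg
  have h1 : S.e j - S.e i = -(S.e i - S.e j) := by ring
  rw [h1, R3_neg hw.prime (R8_ne_two hw) hl (R8_ne S i j hij), Prod.snd_mul, mul_comm]

theorem R8_unit (S : Split E F) {p : ℕ} {w : HeightOneSpectrum (𝓞 F)} (hw : S.SplP p w)
    {lam : SqC F →* LG} (hl : LamP p w lam) (i j : Fin 3) (hij : i ≠ j) :
    lam (cls (S.e i - S.e j)) = (1, gg S lam i j) := by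
  refine Prod.ext ?_ rfl
  change (lam (cls (S.e i - S.e j))).1 = 1
  rw [hl.par, par_cls_eq_one_iff w (R8_ne S i j hij), hw.ord_sub hij]
  exact ⟨0, by norm_num⟩

theorem R8_D (S : Split E F) {p : ℕ} {w : HeightOneSpectrum (𝓞 F)} (hw : S.SplP p w)
    {lam : SqC F →* LG} (hl : LamP p w lam) {D : ℤ} (h1 : (p : ℤ) ∣ D) (h2 : ¬ (p : ℤ) ^ 2 ∣ D) :
    lam (cls (D : F)) = (Multiplicative.ofAdd 1, (lam (cls (D : F))).2) := by
  have hD : (D : F) ≠ 0 := Int.cast_ne_zero.2 (Split.w2_ne_zero h2)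
  refine Prod.ext ?_ rfl
  change (lam (cls (D : F))).1 = Multiplicative.ofAdd 1
  rw [hl.par, par_cls w hD, hw.ord_int h1 h2]
  rfl

theorem beta_mem_LL (S : Split E F) {p : ℕ} {w : HeightOneSpectrum (𝓞 F)} (hw : S.SplP p w)
    {lam : SqC F →* LG} (hl : LamP p w lam) {D : ℤ} (h1 : (p : ℤ) ∣ D) (h2 : ¬ (p : ℤ) ^ 2 ∣ D)
    {b : Fin 3 → SqC F} (hb : b ∈ S.G D) :
    Split.lam3 lam b ∈ LL (gg S lam) (lam (cls (D : F))).2 := by
  have hD0 : D ≠ 0 := Split.w2_ne_zero h2
  have hD : (D : F) ≠ 0 := Int.cast_ne_zero.2 hD0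
  obtain ⟨P, rfl⟩ := (S.mem_G_iff hD0 b).1 hb
  set s : ℤˣ := (lam (cls (D : F))).2 with hs
  rcases S.beta_loc hw h1 h2 lam hl.par hl.one P with h | ⟨i, hi⟩
  · have h3 : Split.lam3 lam (S.beta D P) = 1 := by
      funext j
      exact h j
    rw [h3]
    exact one_mem _
  · have hprod : ∏ j, Split.lam3 lam (S.beta D P) j = 1 := by
      have h3 : ∀ j, Split.lam3 lam (S.beta D P) j = lam (S.beta D P j) := fun j => rfl
      simp only [h3]
      rw [← map_prod, S.beta_prod hD0, map_one]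
    have hcomp : ∀ j, j ≠ i → Split.lam3 lam (S.beta D P) j =
        (Multiplicative.ofAdd 1, s * gg S lam i j) := by
      intro j hj
      change lam (S.beta D P j) = _
      rw [hi j hj, cls_mul hD (R8_ne S i j hj.symm), map_mul, R8_unit S hw hl i j hj.symm,
        R8_D S hw hl h1 h2, Prod.mk_mul_mk, mul_one]
    have h3 : Split.lam3 lam (S.beta D P) = vv (gg S lam) s i := by
      funext j
      by_cases hj : j = i
      · subst hj
        have h4 := Split.w2_tri_eq _ hprod j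
        have h5 := Split.w2_fin j
        have h6 : ∀ k : Fin 3, Finset.univ.erase k = {k + 1, k + 2} ∧ k + 1 ≠ k + 2 := by decide
        rw [h4, hcomp _ h5.1, hcomp _ h5.2, Prod.mk_mul_mk]
        unfold vv
        rw [if_pos rfl, (h6 j).1, Finset.prod_pair (h6 j).2]
        have h8 : (Multiplicative.ofAdd 1 * Multiplicative.ofAdd 1 : Multiplicative (ZMod 2)) = 1 := by
          decide
        refine Prod.ext h8 ?_
        change s * gg S lam j (j + 1) * (s * gg S lam j (j + 2)) =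
          gg S lam j (j + 1) * gg S lam j (j + 2)
        have h7 : s * s = 1 := Int.units_mul_self s
        calc s * gg S lam j (j + 1) * (s * gg S lam j (j + 2))
            = (s * s) * (gg S lam j (j + 1) * gg S lam j (j + 2)) := by
              rw [mul_mul_mul_comm]
          _ = _ := by rw [h7, one_mul]
      · rw [hcomp j hj]
        unfold vv
        rw [if_neg hj]
    rw [h3]
    exact Subgroup.subset_closure ⟨i, rfl⟩

end H16B
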