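import Pool.Agent.Lib.H16B.R3
import Pool.Agent.Lib.H16B.R5
import Pool.Agent.Lib.H16B.R6
import Pool.Agent.Lib.H16B.R7B

/-!
# R9 (L): reciprocity for the classes of two points

`b = β_D(P)`, `b' = β_{D'}(P')`, `P = (x, y)`, `P' = (x', y')`, `y, y' ≠ 0`, `D`, `D'` in the family (with `m`, `m'`), `b, b' ∈ Hs T`.
CLAIM `∏_{p ∈ T} pr (cm p) (lam_p b) (lam_p b') = 1`.
`z = D' x - D x'`.
* `z = 0`: `u = x/D = x'/D'`, `D³ f(u) = y²`, `D'³ f(u) = y'²`, so `D D'` is a square (`f(u) ≠ 0`), `cls D = cls D'`, and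
  `b = b'` (the component is `cls (D (u - e_i))`), `pr_self` with `∏ b_i = 1` (`lam3` of it).
* `z ≠ 0`: `B = m m'`, `cls (D D' : ℚ) = cls (m m')` (multiply the two relations of `Fam`: `q_T²` is a square), `B ≡ 1 mod 8`.  `μ_p` from `exists_mu`.
  For `p ∈ T` (`pair_formula` with `b_i = x - D e_i`, `c_i = x' - D' e_i`, products `y²`, `y'²`; and `sym_compat`):
  `pr (cm p) (lam_p b) (lam_p b') = sym (cm p) (μ_p (cls (D' z))) (μ_p (cls (D D'))) = sym (cm p) (μ_p A) (μ_p B)`, `A = D' z`.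
  `W = T ∪ {odd primes dividing m m' disc} ∪ {odd primes with v_p(A) ≠ 0}` (finite): by R5 the product over `W` is `1`.  For `r ∈ W \ T`:
  if `r ∣ disc` then `B ≡ 1 mod r`, so `μ_r (cls B) = 1` (`mu_unit`) and `sym_one_right`; if `r ∤ 2 disc`: `D, D'` are squarefree; if `r ∣ D` then
  `x ≠ 0`, `v_r(x) ≤ 0` by R7B (`b ∈ Hs T` and `r ∉ T`, so `b` is unramified above `r`; `prime_mem_unique`), the same for `D'`; R6.
  (All `p ∈ T` are odd: `SplP.good`.)
-/

open Polynomial IsDedekindDomain NumberField H16A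

namespace H16B

section Aux

variable {E : Cub} {F : Type} [Field F] [NumberField F] (S : Split E F)

/-- the components of the class of a point that is not `2`-torsion -/
theorem R9_comp {D : ℤ} {x y : ℚ}
    (h : (WeierstrassCurve.Affine.baseChange (E.twist D).W ℚ).Nonsingular x y) (hy : y ≠ 0) :
    (∀ i, ((x : ℚ) : F) - (D : F) * S.e i ≠ 0 ∧
      S.beta D (WeierstrassCurve.Affine.Point.some x y h) i =
        cls (((x : ℚ) : F) - (D : F) * S.e i)) ∧
    ∏ i, (((x : ℚ) : F) - (D : F) * S.e i) = ((y : ℚ) : F) ^ 2 := by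
  classical
  have hprod : ∏ i, (((x : ℚ) : F) - (D : F) * S.e i) = ((y : ℚ) : F) ^ 2 := by
    have h1 : y ^ 2 = (E.twist D).val x := u1_eqn (E.twist D) h
    have h2 : (E.twist D).val ((x : ℚ) : F) = (((E.twist D).val x : ℚ) : F) := by
      unfold Cub.val
      push_cast
      rfl
    have h3 := u1_val (E.twist D) (S.twist_poly D) ((x : ℚ) : F)
    rw [Fin.prod_univ_three, ← h3, h2, ← h1]
    push_cast
    rfl
  have hy' : ((y : ℚ) : F) ^ 2 ≠ 0 := pow_ne_zero 2 (Rat.cast_ne_zero.2 hy)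
  have hne : ∀ i, ((x : ℚ) : F) - (D : F) * S.e i ≠ 0 := by
    intro i
    rw [← hprod] at hy'
    exact Finset.prod_ne_zero_iff.1 hy' i (Finset.mem_univ i)
  refine ⟨fun i => ⟨hne i, ?_⟩, hprod⟩
  unfold Split.beta Cub.ptMap
  rw [WeierstrassCurve.Affine.Point.map_some, Cub.h1_dl_some]
  have hx : ((algebraMap ℚ F).toIntAlgHom : ℚ → F) x = ((x : ℚ) : F) := rfl
  rw [hx, if_neg]
  exact fun h0 => hne i (sub_eq_zero.2 h0)

theorem R9_ne_zero {T : Finset ℕ} {D : ℤ} {m : ℕ} (h : Fam E T D m) : D ≠ 0 := h.sqf.ne_zero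

theorem R9_qT {T : Finset ℕ} (hT : ∀ p ∈ T, p.Prime) : (∏ p ∈ T, (p : ℚ)) ≠ 0 :=
  Finset.prod_ne_zero_iff.2 fun p hp => by exact_mod_cast (hT p hp).ne_zero

/-- `D D'` and `m m'` have the same class -/
theorem R9_cls_eq {T : Finset ℕ} (hT : ∀ p ∈ T, p.Prime) {D D' : ℤ} {m m' : ℕ}
    (h : Fam E T D m) (h' : Fam E T D' m') :
    (cls ((D : ℚ) * D') : SqC ℚ) = cls (((m * m' : ℕ)) : ℚ) := by
  have hD : (D : ℚ) ≠ 0 := Int.cast_ne_zero.2 (R9_ne_zero h)
  have hD' : (D' : ℚ) ≠ 0 := Int.cast_ne_zero.2 (R9_ne_zero h')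
  have hm : (m : ℚ) ≠ 0 := Nat.cast_ne_zero.2 h.pos.ne'
  have hm' : (m' : ℚ) ≠ 0 := Nat.cast_ne_zero.2 h'.pos.ne'
  have hq := R9_qT hT
  rw [cls_eq_cls_iff (mul_ne_zero hD hD') (by push_cast; exact mul_ne_zero hm hm')]
  obtain ⟨s, hs⟩ := h.sq
  obtain ⟨s', hs'⟩ := h'.sq
  refine ⟨s * s' / ∏ p ∈ T, (p : ℚ), ?_⟩
  have e : s * s' / (∏ p ∈ T, (p : ℚ)) * (s * s' / ∏ p ∈ T, (p : ℚ)) =
      ((s * s) * (s' * s')) / ((∏ p ∈ T, (p : ℚ)) * ∏ p ∈ T, (p : ℚ)) := by
    field_simp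
  rw [e, ← hs, ← hs', eq_div_iff (mul_ne_zero hq hq)]
  push_cast
  ring

/-- the case `z = 0` -/
theorem R9_eq {D D' : ℤ} (hD : D ≠ 0) (hD' : D' ≠ 0) {x y x' y' : ℚ}
    (h : (WeierstrassCurve.Affine.baseChange (E.twist D).W ℚ).Nonsingular x y) (hy : y ≠ 0)
    (h' : (WeierstrassCurve.Affine.baseChange (E.twist D').W ℚ).Nonsingular x' y') (hy' : y' ≠ 0)
    (hz : (D' : ℚ) * x - D * x' = 0) :
    S.beta D (WeierstrassCurve.Affine.Point.some x y h) =
      S.beta D' (WeierstrassCurve.Affine.Point.some x' y' h') := by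
  have hDF : (D : F) ≠ 0 := Int.cast_ne_zero.2 hD
  have hDF' : (D' : F) ≠ 0 := Int.cast_ne_zero.2 hD'
  have hDQ : (D : ℚ) ≠ 0 := Int.cast_ne_zero.2 hD
  have hDQ' : (D' : ℚ) ≠ 0 := Int.cast_ne_zero.2 hD'
  obtain ⟨hb, hbp⟩ := R9_comp S h hy
  obtain ⟨hc, hcp⟩ := R9_comp S h' hy'
  have hxx : (x : ℚ) = D * (x' / D') := by
    field_simp
    linarith
  have hE : y ^ 2 = (E.twist D).val x := u1_eqn (E.twist D) h
  have hE' : y' ^ 2 = (E.twist D').val x' := u1_eqn (E.twist D') h'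
  have hxx' : (x' : ℚ) = D' * (x' / D') := by field_simp
  set u : ℚ := x' / D' with hu
  have hE1 : y ^ 2 = (D : ℚ) ^ 3 * E.val u := by
    rw [hE, hxx]
    unfold Cub.val Cub.twist
    push_cast
    ring
  have hE2 : y' ^ 2 = (D' : ℚ) ^ 3 * E.val u := by
    rw [hE', hxx']
    unfold Cub.val Cub.twist
    push_cast
    ring
  have hv : E.val u ≠ 0 := by
    intro h0
    rw [h0, mul_zero] at hE2
    exact hy' (pow_eq_zero_iff two_ne_zero |>.1 hE2)
  have hsq : IsSquare ((D : ℚ) * D') := by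
    refine ⟨y * y' / (D * D' * E.val u), ?_⟩
    have e1 : y * y' / (D * D' * E.val u) * (y * y' / (D * D' * E.val u)) =
        (y ^ 2 * y' ^ 2) / (D * D' * E.val u) ^ 2 := by
      field_simp
    rw [e1, hE1, hE2, eq_div_iff (pow_ne_zero 2 (mul_ne_zero (mul_ne_zero hDQ hDQ') hv))]
    ring
  have hcls : (cls (D : F) : SqC F) = cls (D' : F) := by
    rw [cls_eq_cls_iff hDF hDF']
    obtain ⟨s, hs⟩ := hsq
    refine ⟨(s : F), ?_⟩
    have := congrArg (fun q : ℚ => (q : F)) hs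
    push_cast at this
    exact this
  funext i
  have h1 : ((x : ℚ) : F) - (D : F) * S.e i = (D : F) * ((u : F) - S.e i) := by
    rw [hxx]
    push_cast
    ring
  have h2 : ((x' : ℚ) : F) - (D' : F) * S.e i = (D' : F) * ((u : F) - S.e i) := by
    rw [hxx']
    push_cast
    ring
  have h3 : (u : F) - S.e i ≠ 0 := by
    intro h0
    apply (hb i).1
    rw [h1, h0, mul_zero]
  rw [(hb i).2, (hc i).2, h1, h2, cls_mul hDF h3, cls_mul hDF' h3, hcls]

end Aux

theorem gens_iso {E : Cub} {F : Type} [Field F] [NumberField F] (S : Split E F) (T : Finset ℕ)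
    (w : ℕ → HeightOneSpectrum (𝓞 F)) (hT : ∀ p ∈ T, S.SplP p (w p)) (lam : ℕ → SqC F →* LG)
    (hlam : ∀ p ∈ T, LamP p (w p) (lam p)) {b b' : Fin 3 → SqC F} (hb : b ∈ Gen S T)
    (hb' : b' ∈ Gen S T) :
    ∏ p ∈ T, pr (cm p) (Split.lam3 (lam p) b) (Split.lam3 (lam p) b') = 1 := by
  classical
  obtain ⟨D, m, hF, x, y, h, hy, hbe, hbH⟩ := hb
  obtain ⟨D', m', hF', x', y', h', hy', hbe', hbH'⟩ := hb'
  have hTp : ∀ p ∈ T, p.Prime := fun p hp => (hT p hp).prime
  have hodd : ∀ p : ℕ, ¬ (p : ℤ) ∣ 2 * E.disc → p ≠ 2 := by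
    rintro p hp rfl
    exact hp (Dvd.intro _ rfl)
  have hT2 : ∀ p ∈ T, p ≠ 2 := fun p hp => hodd p (hT p hp).good
  have hD := R9_ne_zero hF
  have hD' := R9_ne_zero hF'
  have hDF : (D : F) ≠ 0 := Int.cast_ne_zero.2 hD
  have hDF' : (D' : F) ≠ 0 := Int.cast_ne_zero.2 hD'
  have hDQ : (D : ℚ) ≠ 0 := Int.cast_ne_zero.2 hD
  have hDQ' : (D' : ℚ) ≠ 0 := Int.cast_ne_zero.2 hD'
  obtain ⟨hc, hcp⟩ := R9_comp S h hy
  obtain ⟨hc', hcp'⟩ := R9_comp S h' hy'
  by_cases hz : (D' : ℚ) * x - D * x' = 0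
  · have hbb : b = b' := by
      rw [hbe, hbe']
      exact R9_eq S hD hD' h hy h' hy' hz
    refine Finset.prod_eq_one fun p hp => ?_
    rw [← hbb]
    apply pr_self
    have h1 : ∏ i, b i = 1 := hbH.1
    have h2 : ∏ i, (Split.lam3 (lam p) b) i = lam p (∏ i, b i) := by
      rw [map_prod]
      rfl
    rw [h2, h1, map_one]
  · -- the main case
    have hdisc : E.disc ≠ 0 := S.disc_ne_zero
    set z : ℚ := (D' : ℚ) * x - D * x' with hzdef
    obtain ⟨A, hA⟩ : ∃ A : ℚ, A = (D' : ℚ) * z := ⟨_, rfl⟩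
    have hA0 : A ≠ 0 := by rw [hA]; exact mul_ne_zero hDQ' hz
    have hex : ∀ p : ℕ, ∃ μ : SqC ℚ →* LG, p.Prime → p ≠ 2 → LamQ p μ := by
      intro p
      by_cases hp : p.Prime
      · by_cases hp2 : p ≠ 2
        · obtain ⟨μ, hμ⟩ := exists_mu hp hp2
          exact ⟨μ, fun _ _ => hμ⟩
        · exact ⟨1, fun _ h2 => absurd h2 hp2⟩
      · exact ⟨1, fun h1 => absurd h1 hp⟩
    choose μ hμ using hex
    have hB0 : 0 < m * m' := Nat.mul_pos hF.pos hF'.pos
    have hBmod : m * m' ≡ 1 [MOD 8 * E.disc.natAbs] := by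
      have := hF.mod.mul hF'.mod
      rwa [mul_one] at this
    have hB8 : (m * m') % 8 = 1 := by
      have h1 : m * m' ≡ 1 [MOD 8] := hBmod.of_mul_right _
      exact h1
    have hclsB : (cls ((D : ℚ) * D') : SqC ℚ) = cls (((m * m' : ℕ)) : ℚ) := R9_cls_eq hTp hF hF'
    -- the set of primes
    set N : ℕ := (m * m') * (A.num.natAbs * A.den) with hN
    have hN0 : N ≠ 0 := by
      rw [hN]
      exact mul_ne_zero hB0.ne' (mul_ne_zero (Int.natAbs_ne_zero.2 (Rat.num_ne_zero.2 hA0))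
        A.den_nz)
    set W : Finset ℕ := T ∪ N.primeFactors.filter (fun p => p ≠ 2) with hWdef
    have hW : ∀ p ∈ W, p.Prime ∧ p ≠ 2 := by
      intro p hp
      rw [hWdef, Finset.mem_union, Finset.mem_filter] at hp
      rcases hp with hp | ⟨hp, hp2⟩
      · exact ⟨hTp p hp, hT2 p hp⟩
      · exact ⟨Nat.prime_of_mem_primeFactors hp, hp2⟩
    have hW' : ∀ p : ℕ, p.Prime → p ≠ 2 → (p ∣ m * m' ∨ padicValRat p A ≠ 0) → p ∈ W := by
      intro p hp hp2 hor
      rw [hWdef, Finset.mem_union, Finset.mem_filter]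
      right
      refine ⟨Nat.mem_primeFactors.2 ⟨hp, ?_, hN0⟩, hp2⟩
      rcases hor with h1 | h1
      · exact Dvd.dvd.mul_right h1 _
      · apply Dvd.dvd.mul_left
        by_contra hcon
        apply h1
        have h2 : ¬ p ∣ A.num.natAbs := fun h3 => hcon (Dvd.dvd.mul_right h3 _)
        have h3 : ¬ p ∣ A.den := fun h3 => hcon (Dvd.dvd.mul_left h3 _)
        rw [padicValRat_def, padicValInt, padicValNat.eq_zero_of_not_dvd h2,
          padicValNat.eq_zero_of_not_dvd h3]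
        rfl
    have hprod := prod_formula μ hμ (m * m') hB0 hB8 A hA0 W hW hW'
    rw [← hprod]
    -- the factors in `T`
    have hfac : ∀ p ∈ T, pr (cm p) (Split.lam3 (lam p) b) (Split.lam3 (lam p) b') =
        sym (cm p) (μ p (cls A)) (μ p (cls (((m * m' : ℕ)) : ℚ))) := by
      intro p hp
      have hl := hlam p hp
      have e1 : Split.lam3 (lam p) b =
          fun i => lam p (cls (((x : ℚ) : F) - (D : F) * S.e i)) := by
        funext i
        change lam p (b i) = _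
        rw [hbe, (hc i).2]
      have e2 : Split.lam3 (lam p) b' =
          fun i => lam p (cls (((x' : ℚ) : F) - (D' : F) * S.e i)) := by
        funext i
        change lam p (b' i) = _
        rw [hbe', (hc' i).2]
      have hzF : ((z : ℚ) : F) ≠ 0 := Rat.cast_ne_zero.2 hz
      have e3 := pair_formula (hTp p hp) (hT2 p hp) hl hDF hDF' hzF
        (fun i => ((x : ℚ) : F) - (D : F) * S.e i) (fun i => ((x' : ℚ) : F) - (D' : F) * S.e i)
        (fun i => (hc i).1) (fun i => (hc' i).1) (by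
          intro i
          rw [hzdef]
          push_cast
          ring) ⟨((y : ℚ) : F), by rw [hcp, pow_two]⟩ ⟨((y' : ℚ) : F), by rw [hcp', pow_two]⟩
      have e4 := sym_compat S (hT p hp) hl (hμ p (hTp p hp) (hT2 p hp)) hA0
        (mul_ne_zero hDQ hDQ') (cm p)
      have e5 : ((A : ℚ) : F) = (D' : F) * ((z : ℚ) : F) := by
        rw [hA]
        push_cast
        rfl
      have e6 : (((D : ℚ) * D' : ℚ) : F) = (D : F) * (D' : F) := by
        push_cast
        rfl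
      rw [e5, e6, hclsB] at e4
      rw [e1, e2, e3, e4]
    rw [Finset.prod_congr rfl hfac]
    refine Finset.prod_subset (by rw [hWdef]; exact Finset.subset_union_left) ?_
    intro r hr hrT
    obtain ⟨hrp, hr2⟩ := hW r hr
    have hμr := hμ r hrp hr2
    by_cases hgood : (r : ℤ) ∣ 2 * E.disc
    · have hrd : (r : ℤ) ∣ E.disc := by
        rcases (Nat.prime_iff_prime_int.1 hrp).dvd_or_dvd hgood with h1 | h1
        · exfalso
          apply hr2
          have h2 : r ∣ 2 := by exact_mod_cast h1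
          exact (Nat.prime_dvd_prime_iff_eq hrp Nat.prime_two).1 h2
        · exact h1
      have hmodr : m * m' ≡ 1 [MOD r] := by
        apply hBmod.of_dvd
        apply Dvd.dvd.mul_left
        exact Int.natCast_dvd.1 hrd
      have hcast : (((m * m' : ℕ) : ℤ) : ZMod r) = 1 := by
        have h1 := (ZMod.natCast_eq_natCast_iff _ _ _).2 hmodr
        rw [Int.cast_natCast, h1, Nat.cast_one]
      have hnd : ¬ (r : ℤ) ∣ ((m * m' : ℕ) : ℤ) := by
        intro h1
        have h2 : (((m * m' : ℕ) : ℤ) : ZMod r) = 0 := (ZMod.intCast_zmod_eq_zero_iff_dvd _ _).2 h1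
        rw [hcast] at h2
        have := Fact.mk hrp
        exact one_ne_zero h2
      have h3 := mu_unit hrp hr2 hμr hnd
      have h5 : IsSquare (1 : ZMod r) := ⟨1, (mul_one 1).symm⟩
      rw [hcast, if_pos h5] at h3
      have h4 : μ r (cls (((m * m' : ℕ)) : ℚ)) = 1 := by
        rw [Int.cast_natCast] at h3
        exact h3
      rw [h4, sym_one_right]
    · have hsq : ∀ {D : ℤ}, Squarefree D → ¬ (r : ℤ) ^ 2 ∣ D := by
        intro D hsf h1
        rw [pow_two] at h1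
        have h2 := hsf _ h1
        exact (Nat.prime_iff_prime_int.1 hrp).not_isUnit h2
      have hpar : ∀ {b : Fin 3 → SqC F}, b ∈ S.Hs T → ∀ w' : HeightOneSpectrum (𝓞 F),
          (r : 𝓞 F) ∈ w'.asIdeal → ∀ i, par w' (b i) = 1 := by
        intro b hb w' hw' i
        apply hb.2.2 w'
        intro p hp hpw
        have : p = r := prime_mem_unique w' hp hrp hpw hw'
        subst this
        exact ⟨hgood, hrT⟩
      have key := loc_triv E hrp hgood hμr (hsq hF.sqf) (hsq hF'.sqf) hy hy'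
        (u1_eqn (E.twist D) h) (u1_eqn (E.twist D') h')
        (fun hd => val_le_zero S hrp hgood hd (hsq hF.sqf) h hy (by
          intro w' hw' i
          rw [← hbe]
          exact hpar hbH w' hw' i))
        (fun hd => val_le_zero S hrp hgood hd (hsq hF'.sqf) h' hy' (by
          intro w' hw' i
          rw [← hbe']
          exact hpar hbH' w' hw' i)) hz
      rw [hclsB] at key
      rw [hA]
      exact key

end H16B
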