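import Mathlib
import Pool.Agent.Lib.H16A.FIN6
import Pool.Agent.Lib.H16B.F3

/-!
# The maximal size of the 2-torsion of the Tate-Shafarevich group of an elliptic curve over the
quadratic fields

E is any elliptic curve over the rationals, given by y^2 = x^3 + a x^2 + b x + c with integers
a, b, c and disc(E) different from 0.

* For every quadratic field K the group E(K) is finitely generated, Sha(E/K)[2] is finite, and
  #Sha(E/K)[2] * [E(K) : 2 E(K)] is the order of the 2-Selmer group.
* (Lower bound) For every kappa < 2 and every large X there is an imaginary quadratic field K of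
  discriminant at most X in absolute value with #Sha(E/K)[2] at least 2^(kappa log X / loglog X).
* (Upper bound) For every kappa > 2 and every large X, the order of the 2-Selmer group of E over
  every quadratic field K of discriminant at most X in absolute value is at most
  2^(kappa log X / loglog X).

Hence max dim Sha(E/K)[2] and max dim Sel_2(E/K) over the quadratic fields K with |D_K| at most X
are both asymptotic to 2 log X / loglog X, for every E.
-/

open Polynomial IsDedekindDomain NumberField H16A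

namespace H16B.Sharp

open Classical in
theorem result (E : Cub) (hd : E.disc ≠ 0) :
    (∀ (K : Type) [Field K] [NumberField K], Module.finrank ℚ K = 2 →
      Module.Finite ℤ (E.Pt K) ∧ Finite (E.Sha2 K) ∧
      (sqSub (E.Alg K)).relIndex (E.imSub K) = (twoG (E.Pt K)).index ∧
      2 ^ Module.finrank ℤ (E.Pt K) ≤ (twoG (E.Pt K)).index ∧
      Nat.card (E.Sha2 K) * (twoG (E.Pt K)).index =
        (sqSub (E.Alg K)).relIndex (E.selSub K)) ∧
    (∀ κ : ℝ, κ < 2 → ∃ X₀ : ℝ, ∀ X : ℝ, X₀ ≤ X →
      ∃ (K : Type) (_ : Field K) (_ : NumberField K), Module.finrank ℚ K = 2 ∧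
        discr K < 0 ∧ |(discr K : ℝ)| ≤ X ∧
        (2 : ℝ) ^ (κ * (Real.log X / Real.log (Real.log X))) ≤ (Nat.card (E.Sha2 K) : ℝ)) ∧
    (∀ κ : ℝ, 2 < κ → ∃ X₀ : ℝ, ∀ X : ℝ, X₀ ≤ X →
      ∀ (K : Type) [Field K] [NumberField K], Module.finrank ℚ K = 2 →
        |(discr K : ℝ)| ≤ X →
        ((sqSub (E.Alg K)).relIndex (E.selSub K) : ℝ) ≤
          (2 : ℝ) ^ (κ * (Real.log X / Real.log (Real.log X)))) := by
  obtain ⟨C₀, hC₀⟩ := E.fin6_finite hd
  refine ⟨?_, ?_, ?_⟩
  · intro K _ _ hK
    obtain ⟨h1, h2, h3, h4, h5, -⟩ := hC₀ K hK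
    have hd' : ((E.disc : ℤ) : K) ≠ 0 := by exact_mod_cast hd
    exact ⟨h1, h2, E.relIndex_eq two_ne_zero hd', h3, h4⟩
  · intro κ hκ
    obtain ⟨X₀, hX₀⟩ := H16B.sha_lower2 E hd hκ
    refine ⟨X₀, fun X hX => ?_⟩
    obtain ⟨K, _, _, h1, h2, h3, s, h4⟩ := hX₀ X hX
    obtain ⟨-, h5, -⟩ := hC₀ K h1
    refine ⟨K, inferInstance, inferInstance, h1, h2, h3, h4.trans ?_⟩
    have h6 : s.card ≤ Nat.card (E.Sha2 K) := by
      have := Fintype.ofFinite (E.Sha2 K)
      rw [Nat.card_eq_fintype_card]
      exact Finset.card_le_univ s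
    exact_mod_cast h6
  · intro κ hκ
    obtain ⟨X₀, hX₀⟩ := E.upper_all hd hκ
    refine ⟨X₀, fun X hX K _ _ hK hKX => ?_⟩
    obtain ⟨-, -, -, h4, -, -⟩ := hC₀ K hK
    have := hX₀ X hX K hK hKX
    rw [h4] at this
    exact this

end H16B.Sharp
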