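import Pool.Agent.Lib.H16B.R8
import Pool.Agent.Lib.H16B.R9
import Pool.Agent.Lib.H16B.G1

/-!
# Y1 (M): signs with few Selmer elements

`Y = closure (Gen S T) ≤ Hs T`, finite (`card_Hs`, U4).  `clos_iso`: isotropy from the generators (`closure_induction` twice, `pr_mul_left`,
`pr_mul_right`, values in `ℤˣ`; inverses: `x⁻¹ = x` up to squares, or `pr (x⁻¹) = (pr x)⁻¹`).
`exists_s`: `greedy` with `c p = cm p`, `g p = gg S (lam p)` (`gg_symm`), `lam p` = `lam3 (lam p)` restricted to `Y`.  The right hand side: `b ∈ Y` with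
`lam3 (lam p) b ∈ LU` for all `p ∈ T` has trivial parities at `w p` (`LamP.par`), so at all primes above `p` (`par_of_galois`, `b ∈ Hs T`), so
`b ∈ Hs ∅`, `#Hs ∅ ≤ K₆`.
-/

open Polynomial IsDedekindDomain NumberField H16A

namespace H16B

variable {E : Cub} {F : Type} [Field F] [NumberField F]

theorem clos_le (S : Split E F) (T : Finset ℕ) : Subgroup.closure (Gen S T) ≤ S.Hs T := by
  rw [Subgroup.closure_le]
  rintro b ⟨D, m, -, x, y, h, -, -, hb⟩
  exact hb

/-- the pairing as a homomorphism in the first variable -/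
noncomputable def y1_hom (T : Finset ℕ) (lam : ℕ → SqC F →* LG) (b' : Fin 3 → SqC F) :
    (Fin 3 → SqC F) →* ℤˣ where
  toFun b := ∏ p ∈ T, pr (cm p) (Split.lam3 (lam p) b) (Split.lam3 (lam p) b')
  map_one' := Finset.prod_eq_one fun p _ => by rw [map_one, pr_one_left]
  map_mul' b c := by
    rw [← Finset.prod_mul_distrib]
    exact Finset.prod_congr rfl fun p _ => by rw [map_mul, pr_mul_left]

theorem y1_comm (T : Finset ℕ) (lam : ℕ → SqC F →* LG) (b b' : Fin 3 → SqC F) :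
    y1_hom T lam b' b = y1_hom T lam b b' :=
  Finset.prod_congr rfl fun p _ => pr_comm _ _ _

theorem clos_iso (S : Split E F) (T : Finset ℕ)
    (w : ℕ → HeightOneSpectrum (𝓞 F)) (hT : ∀ p ∈ T, S.SplP p (w p)) (lam : ℕ → SqC F →* LG)
    (hlam : ∀ p ∈ T, LamP p (w p) (lam p)) {b b' : Fin 3 → SqC F}
    (hb : b ∈ Subgroup.closure (Gen S T)) (hb' : b' ∈ Subgroup.closure (Gen S T)) :
    ∏ p ∈ T, pr (cm p) (Split.lam3 (lam p) b) (Split.lam3 (lam p) b') = 1 := by
  have h1 : ∀ c ∈ Gen S T, Subgroup.closure (Gen S T) ≤ (y1_hom T lam c).ker := by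
    intro c hc
    rw [Subgroup.closure_le]
    intro d hd
    exact gens_iso S T w hT lam hlam hd hc
  have h2 : Subgroup.closure (Gen S T) ≤ (y1_hom T lam b').ker := by
    rw [Subgroup.closure_le]
    intro c hc
    have h3 := h1 c hc hb'
    have h4 : y1_hom T lam c b' = 1 := h3
    show y1_hom T lam b' c = 1
    rw [y1_comm, h4]
  exact h2 hb

theorem exists_s (S : Split E F) : ∃ K : ℕ, ∀ (T : Finset ℕ)
    (w : ℕ → HeightOneSpectrum (𝓞 F)), (∀ p ∈ T, S.SplP p (w p)) → ∀ lam : ℕ → SqC F →* LG,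
    (∀ p ∈ T, LamP p (w p) (lam p)) → ∃ s : ℕ → ℤˣ,
      Finite {b : Fin 3 → SqC F // b ∈ Subgroup.closure (Gen S T) ∧
        ∀ p ∈ T, Split.lam3 (lam p) b ∈ LL (gg S (lam p)) (s p)} ∧
      Nat.card {b : Fin 3 → SqC F // b ∈ Subgroup.closure (Gen S T) ∧
        ∀ p ∈ T, Split.lam3 (lam p) b ∈ LL (gg S (lam p)) (s p)} ≤ K := by
  obtain ⟨K, -, hK⟩ := S.card_Hs
  refine ⟨K * 4 ^ (∅ : Finset ℕ).card, fun T w hT lam hlam => ?_⟩
  obtain ⟨hf0, hc0⟩ := hK ∅ (by simp)
  obtain ⟨hf, -⟩ := hK T (fun p hp => (hT p hp).prime)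
  have hY : Finite (Subgroup.closure (Gen S T)) :=
    Finite.of_injective (Subgroup.inclusion (clos_le S T)) (Subgroup.inclusion_injective _)
  obtain ⟨s, hs⟩ := greedy (Y := Subgroup.closure (Gen S T)) T cm (fun p => gg S (lam p))
    (fun p hp i j hij => gg_symm S (hT p hp) (hlam p hp) i j hij)
    (fun p => (Split.lam3 (lam p)).comp (Subgroup.subtype _))
    (fun y z => clos_iso S T w hT lam hlam y.2 z.2)
  refine ⟨s, ?_, ?_⟩
  · refine Finite.of_injective (β := Subgroup.closure (Gen S T)) (fun b => ⟨b.1, b.2.1⟩) ?_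
    intro b c h
    have h1 := congrArg (fun z : Subgroup.closure (Gen S T) => z.1) h
    exact Subtype.ext h1
  · have e1 : Nat.card {b : Fin 3 → SqC F // b ∈ Subgroup.closure (Gen S T) ∧
        ∀ p ∈ T, Split.lam3 (lam p) b ∈ LL (gg S (lam p)) (s p)} =
        Nat.card {y : Subgroup.closure (Gen S T) //
          ∀ p ∈ T, (Split.lam3 (lam p)).comp (Subgroup.subtype _) y ∈ LL (gg S (lam p)) (s p)} := by
      refine Nat.card_congr ⟨fun b => ⟨⟨b.1, b.2.1⟩, b.2.2⟩, fun y => ⟨y.1.1, y.1.2, y.2⟩, ?_, ?_⟩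
      · intro b; rfl
      · intro y; rfl
    rw [e1]
    refine hs.trans (le_trans ?_ hc0)
    have hmem : ∀ y : Subgroup.closure (Gen S T),
        (∀ p ∈ T, (Split.lam3 (lam p)).comp (Subgroup.subtype _) y ∈ LU) → y.1 ∈ S.Hs ∅ := by
      intro y hy
      obtain ⟨b1, b2, b3⟩ := clos_le S T y.2
      refine ⟨b1, b2, fun v hv i => ?_⟩
      obtain ⟨p, hp, hpv⟩ := exists_prime_mem v
      by_cases hpT : p ∈ T
      · refine S.par_of_galois hp (w := w p) (hT p hpT).mem hpv b2 (fun j => ?_) i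
        have h1 := hy p hpT j
        rw [← (hlam p hpT).par]
        exact h1
      · refine b3 v (fun q hq hqv => ?_) i
        have hqp : q = p := prime_mem_unique v hq hp hqv hpv
        subst hqp
        exact ⟨(hv q hq hqv).1, hpT⟩
    exact Nat.card_le_card_of_injective
      (fun y : {y : Subgroup.closure (Gen S T) //
          ∀ p ∈ T, (Split.lam3 (lam p)).comp (Subgroup.subtype _) y ∈ LU} =>
        (⟨y.1.1, hmem y.1 y.2⟩ : S.Hs ∅))
      (fun y z h => Subtype.ext (Subtype.ext (congrArg (fun t : S.Hs ∅ => t.1) h)))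

end H16B
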